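import Pool.Agent.Teich.Unfold

/-!
# Non-zero Euler number and discreteness imply cocompactness

`vtx τ j`: the product of the first `j` letters of the relator
`a₀ b₀ a₀⁻¹ b₀⁻¹ a₁ b₁ …` (`τ i = (a_i, b_i)`).

PROOFS. `paired_vtx`: `m = 4 n`, `σ j = j + 2` if `j % 4 < 2` and `j - 2` otherwise;
the letter number `j` is `(vtx τ j)⁻¹ * vtx τ (j + 1)`: `a, b, a⁻¹, b⁻¹` for `j % 4 = 0, 1, 2, 3`
(for `j % 4 = 3`: `vtx τ (j+1) = cprod τ (j/4 + 1)`).
`area_vtx`: `psum F 1 (letters n t) = Σ_{j<4n} F (φ (vtx τ j)) (φ (vtx τ (j+1)))`: induction on `n`.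
`coc_of_area`: `coc_of_wind`.
-/

namespace Pool.Teich

open Complex ComplexConjugate UpperHalfPlane MeasureTheory
open scoped MatrixGroups

variable {Γ : Type*} [Group Γ]

/-- products of the first `j` letters of the relator -/
def vtx (τ : ℕ → Γ × Γ) (j : ℕ) : Γ :=
  cprod τ (j / 4) *
    (if j % 4 = 0 then 1 else if j % 4 = 1 then (τ (j / 4)).1
      else if j % 4 = 2 then (τ (j / 4)).1 * (τ (j / 4)).2
      else (τ (j / 4)).1 * (τ (j / 4)).2 * (τ (j / 4)).1⁻¹)

theorem vtx_0 (τ : ℕ → Γ × Γ) (q : ℕ) : vtx τ (4 * q) = cprod τ q := by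
  have h1 : 4 * q / 4 = q := by omega
  have h2 : 4 * q % 4 = 0 := by omega
  rw [vtx, h1, h2, if_pos rfl, mul_one]

theorem vtx_1 (τ : ℕ → Γ × Γ) (q : ℕ) : vtx τ (4 * q + 1) = cprod τ q * (τ q).1 := by
  have h1 : (4 * q + 1) / 4 = q := by omega
  have h2 : (4 * q + 1) % 4 = 1 := by omega
  rw [vtx, h1, h2, if_neg (by norm_num), if_pos rfl]

theorem vtx_2 (τ : ℕ → Γ × Γ) (q : ℕ) :
    vtx τ (4 * q + 2) = cprod τ q * ((τ q).1 * (τ q).2) := by
  have h1 : (4 * q + 2) / 4 = q := by omega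
  have h2 : (4 * q + 2) % 4 = 2 := by omega
  rw [vtx, h1, h2, if_neg (by norm_num), if_neg (by norm_num), if_pos rfl]

theorem vtx_3 (τ : ℕ → Γ × Γ) (q : ℕ) :
    vtx τ (4 * q + 3) = cprod τ q * ((τ q).1 * (τ q).2 * (τ q).1⁻¹) := by
  have h1 : (4 * q + 3) / 4 = q := by omega
  have h2 : (4 * q + 3) % 4 = 3 := by omega
  rw [vtx, h1, h2, if_neg (by norm_num), if_neg (by norm_num), if_neg (by norm_num)]

theorem vtx_4 (τ : ℕ → Γ × Γ) (q : ℕ) :
    vtx τ (4 * q + 4) = cprod τ q * ((τ q).1 * (τ q).2 * (τ q).1⁻¹ * (τ q).2⁻¹) := by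
  rw [show 4 * q + 4 = 4 * (q + 1) by ring, vtx_0, cprod_succ]
  rfl

theorem paired_vtx {τ : ℕ → Γ × Γ} {n : ℕ} (h : cprod τ n = 1) :
    Paired (4 * n) (vtx τ) (fun j => if j % 4 < 2 then j + 2 else j - 2) := by
  refine ⟨?_, ?_, ?_, ?_⟩
  · have h0 := vtx_0 τ 0
    rw [mul_zero, cprod_zero] at h0
    rw [vtx_0, h, h0]
  · intro j hj
    split_ifs <;> omega
  · intro j hj
    split_ifs <;> omega
  · intro j hj
    obtain ⟨q, r, hr, rfl⟩ : ∃ q r, r < 4 ∧ j = 4 * q + r :=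
      ⟨j / 4, j % 4, Nat.mod_lt _ (by norm_num), by omega⟩
    have e0 := vtx_0 τ q
    have e1 := vtx_1 τ q
    have e2 := vtx_2 τ q
    have e3 := vtx_3 τ q
    have e4 := vtx_4 τ q
    generalize cprod τ q = c at e0 e1 e2 e3 e4
    interval_cases r
    · rw [if_pos (by omega), show 4 * q + 0 + 2 + 1 = 4 * q + 3 by ring,
        show 4 * q + 0 + 2 = 4 * q + 2 by ring, show 4 * q + 0 + 1 = 4 * q + 1 by ring,
        show 4 * q + 0 = 4 * q by ring, e0, e1, e2, e3]
      group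
    · rw [if_pos (by omega), show 4 * q + 1 + 2 + 1 = 4 * q + 4 by ring,
        show 4 * q + 1 + 2 = 4 * q + 3 by ring, show 4 * q + 1 + 1 = 4 * q + 2 by ring, e1, e2, e3,
        e4]
      group
    · rw [if_neg (by omega), show 4 * q + 2 - 2 + 1 = 4 * q + 1 by omega,
        show 4 * q + 2 - 2 = 4 * q by omega, show 4 * q + 2 + 1 = 4 * q + 3 by ring, e0, e1, e2, e3]
      group
    · rw [if_neg (by omega), show 4 * q + 3 - 2 + 1 = 4 * q + 2 by omega,
        show 4 * q + 3 - 2 = 4 * q + 1 by omega, show 4 * q + 3 + 1 = 4 * q + 4 by ring, e1, e2, e3,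
        e4]
      group

/-- the pairs of matrices of a representation -/
def pairs (φ : Γ →* X) (τ : ℕ → Γ × Γ) : ℕ → X × X := fun i => (φ (τ i).1, φ (τ i).2)

theorem cprod_pairs (φ : Γ →* X) (τ : ℕ → Γ × Γ) (n : ℕ) :
    cprod (pairs φ τ) n = φ (cprod τ n) := by
  induction n with
  | zero => rw [cprod_zero, cprod_zero, map_one]
  | succ n ih =>
    rw [cprod_succ, cprod_succ, map_mul, ih]
    simp only [pairs, cm, map_mul, map_inv]

theorem psum_append (F : X → X → ℝ) (g : X) (L M : List X) :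
    psum F g (L ++ M) = psum F g L + psum F (g * L.prod) M := by
  induction L generalizing g with
  | nil => rw [List.nil_append, List.prod_nil, mul_one, psum, zero_add]
  | cons s L ih =>
    rw [List.cons_append, psum, psum, ih, List.prod_cons, mul_assoc, add_assoc]

theorem area_vtx (φ : Γ →* X) (τ : ℕ → Γ × Γ) (n : ℕ) : area n (pairs φ τ) =
    ∑ j ∈ Finset.range (4 * n), Th (bp (φ (vtx τ j))) (bp (φ (vtx τ (j + 1)))) := by
  unfold area
  induction n with
  | zero => simp [letters, psum]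
  | succ n ih =>
    rw [letters_succ, psum_append, ih, letters_prod, one_mul, cprod_pairs,
      show 4 * (n + 1) = 4 * n + 1 + 1 + 1 + 1 by ring, Finset.sum_range_succ,
      Finset.sum_range_succ, Finset.sum_range_succ, Finset.sum_range_succ]
    have e0 := vtx_0 τ n
    have e1 := vtx_1 τ n
    have e2 := vtx_2 τ n
    have e3 := vtx_3 τ n
    have e4 := vtx_4 τ n
    rw [show 4 * n + 1 + 1 + 1 + 1 = 4 * n + 4 by ring, show 4 * n + 1 + 1 + 1 = 4 * n + 3 by ring,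
      show 4 * n + 1 + 1 = 4 * n + 2 by ring, e0, e1, e2, e3, e4]
    simp only [psum, pairs, map_mul, map_inv, mul_assoc]
    ring

theorem coc_of_area {φ : Γ →* X} (hφ : Prp φ) {τ : ℕ → Γ × Γ} {n : ℕ} (h : cprod τ n = 1)
    (ha : area n (pairs φ τ) ≠ 0) : Coc φ := by
  rw [area_vtx] at ha
  exact coc_of_wind hφ (paired_vtx h) ha

end Pool.Teich
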