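import Pool.Agent.Teich.BdProp
import Pool.Agent.Teich.Poly

/-!
# Euler numbers of two faithful discrete cocompact representations agree up to sign

PROOFS. `lift_circle`: `H` lifts through the covering `Circle.exp`
(`Circle.isCoveringMap_exp`, `IsCoveringMap.existsUnique_continuousMap_lifts` or path lifting), and
rescale by `-1/2`. `int_const`: a continuous real function with values in `π ℤ` is constant.
`euler_mul`: let `h` be the lift for the boundary map of `φ, φ'`. Since `H (β + π) = H β`,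
`h (β + π) - h β ∈ π ℤ` is constant `= d π`, so `h (β + k π) = h β + d k π` for `k : ℤ`.
For `γ`, a lift `f` of `φ γ` and a lift `f'` of `φ' γ`:
`e^(-2 i h (f β)) = H (f β) = act (φ' γ) (e^(-2 i h β)) = e^(-2 i f' (h β))` (`act_exp`), so
`h (f β) = f' (h β) + k π` with `k` constant (`int_const`): `h ∘ f = F ∘ h`, `F = tr k * f'`,
then also `h ∘ f⁻¹ = F⁻¹ ∘ h`, and for two elements
`h ∘ cm f₁ f₂ = cm F₁ F₂ ∘ h = cm f₁' f₂' ∘ h` (`cm_tr`, `IsLift.per`). By induction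
`h ∘ cprod l n = cprod l' n ∘ h` (`cprod_succ`). Now `cprod l n = tr e` (`HasEuler` for `φ`) and
`cprod l' n = tr e'` (`exists_hasEuler` for `φ'`, `cprod_pairs`), so at `β = 0`:
`h 0 + d e π = h (e π) = h 0 + e' π`, `e' = d e`.
`euler_pm`: `e' = d e` and (exchanging the roles, and uniqueness) `e = d' e'`; if `e ≠ 0` then
`d d' = 1`, so `d = 1` or `d = -1`; if `e = 0` then `e' = 0`.
-/

namespace Pool.Teich

open Matrix Real Filter Topology

theorem lift_circle {H : ℝ → ℂ} (hc : Continuous H) (hn : ∀ β, ‖H β‖ = 1) :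
    ∃ h : ℝ → ℝ, Continuous h ∧ ∀ β, H β = Complex.exp (-2 * (h β : ℂ) * Complex.I) := by
  have hmem : ∀ β, H β ∈ Submonoid.unitSphere ℂ := fun β => mem_sphere_zero_iff_norm.2 (hn β)
  let F : C(ℝ, Circle) := ⟨fun β => ⟨H β, hmem β⟩, hc.subtype_mk _⟩
  obtain ⟨e₀, he₀⟩ : ∃ e₀ : ℝ, Circle.exp e₀ = F 0 :=
    ⟨Complex.arg (F 0 : ℂ), Circle.exp_arg (F 0)⟩
  obtain ⟨G, ⟨-, hG⟩, -⟩ :=
    Circle.isCoveringMap_exp.existsUnique_continuousMap_lifts F 0 e₀ he₀
  refine ⟨fun β => -(G β) / 2, by fun_prop, fun β => ?_⟩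
  have h1 : Circle.exp (G β) = F β := congrFun hG β
  have h2 : (Circle.exp (G β) : ℂ) = H β := by
    rw [h1]
    rfl
  rw [← h2, Circle.coe_exp]
  congr 1
  push_cast
  ring

theorem int_const {h : ℝ → ℝ} (hc : Continuous h) (hi : ∀ β, ∃ k : ℤ, h β = k * π) :
    ∃ k : ℤ, ∀ β, h β = k * π := by
  have h2 : (Set.range fun k : ℤ => (k : ℝ) * π).Countable := Set.countable_range _
  have h3 := isPreconnected_univ.image _ hc.continuousOn
  have h4 := h2.isTotallyDisconnected (h '' Set.univ) (by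
    rintro _ ⟨α, -, rfl⟩
    obtain ⟨k, hk⟩ := hi α
    exact ⟨k, hk.symm⟩) h3
  obtain ⟨k, hk⟩ := hi 0
  refine ⟨k, fun β => ?_⟩
  rw [← hk]
  exact h4 ⟨β, Set.mem_univ _, rfl⟩ ⟨0, Set.mem_univ _, rfl⟩

variable {Γ : Type*} [Group Γ] {φ φ' : Γ →* X}

namespace BdDegAux

theorem diff_int {x y : ℝ}
    (h : Complex.exp (-2 * (x : ℂ) * Complex.I) = Complex.exp (-2 * (y : ℂ) * Complex.I)) :
    ∃ k : ℤ, x - y = k * π := by
  rw [Complex.exp_eq_exp_iff_exists_int] at h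
  obtain ⟨n, hn⟩ := h
  refine ⟨-n, ?_⟩
  have h2 : ((x - y : ℝ) : ℂ) = (((-n : ℤ) * π : ℝ) : ℂ) := by
    have hI : (-2 * Complex.I : ℂ) ≠ 0 := by simp [Complex.I_ne_zero]
    apply mul_left_cancel₀ hI
    push_cast
    linear_combination hn
  exact_mod_cast h2

/-- `h` intertwines `f` and `F` -/
def Sc (h : ℝ → ℝ) (f F : ℝ ≃o ℝ) : Prop := ∀ β, h (f β) = F (h β)

theorem Sc.mul {h : ℝ → ℝ} {f F k K : ℝ ≃o ℝ} (h1 : Sc h f F) (h2 : Sc h k K) :
    Sc h (f * k) (F * K) := by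
  intro β
  rw [RelIso.mul_apply, RelIso.mul_apply, h1, h2]

theorem Sc.inv {h : ℝ → ℝ} {f F : ℝ ≃o ℝ} (h1 : Sc h f F) : Sc h f⁻¹ F⁻¹ := by
  intro β
  apply F.injective
  rw [← h1, RelIso.apply_inv_self, RelIso.apply_inv_self]

theorem Sc.cm {h : ℝ → ℝ} {f F k K : ℝ ≃o ℝ} (h1 : Sc h f F) (h2 : Sc h k K) :
    Sc h (cm f k) (cm F K) :=
  ((h1.mul h2).mul h1.inv).mul h2.inv

theorem sc_of_lift {H : ℝ → ℂ} {h : ℝ → ℝ} (hcoc : Coc φ) (hH : BdMap φ φ' H)
    (hc : Continuous h) (hh : ∀ β, H β = Complex.exp (-2 * (h β : ℂ) * Complex.I)) {γ : Γ}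
    {f f' : ℝ ≃o ℝ} (hf : IsLift (φ γ) f) (hf' : IsLift (φ' γ) f') :
    ∃ k : ℤ, Sc h f (tr k * f') := by
  have h1 : ∀ β, ∃ k : ℤ, h (f β) - f' (h β) = k * π := by
    intro β
    apply diff_int
    rw [← hh, hH.equivariant hcoc hf β, hh β, act_exp hf']
  have h2 : Continuous fun β => h (f β) - f' (h β) :=
    (hc.comp f.continuous).sub (f'.continuous.comp hc)
  obtain ⟨k, hk⟩ := int_const h2 h1
  refine ⟨k, fun β => ?_⟩
  rw [RelIso.mul_apply, tr_apply]
  linarith [hk β]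

end BdDegAux

open BdDegAux in
theorem euler_mul (h : FD φ) (hc : Coc φ) (h' : FD φ') (hc' : Coc φ') {S : Finset Γ}
    (hS : Subgroup.closure (S : Set Γ) = ⊤) : ∃ d : ℤ, ∀ (τ : ℕ → Γ × Γ) (n : ℕ) (e : ℤ),
      cprod τ n = 1 → HasEuler n (pairs φ τ) e → HasEuler n (pairs φ' τ) (d * e) := by
  obtain ⟨H, hH⟩ := exists_H h hc h' hc' hS
  obtain ⟨b, hbc, hb⟩ := lift_circle (hH.continuous hc) hH.norm
  obtain ⟨d, hd⟩ : ∃ d : ℤ, ∀ β, b (β + π) - b β = d * π := by
    apply int_const (h := fun β => b (β + π) - b β)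
    · exact (hbc.comp (continuous_id.add continuous_const)).sub hbc
    · intro β
      apply diff_int
      rw [← hb, ← hb, hH.periodic hc β]
  have hdk : ∀ (k : ℤ) (β : ℝ), b (β + k * π) = b β + d * k * π := by
    intro k
    induction k using Int.induction_on with
    | zero => intro β; simp
    | succ k ih =>
      intro β
      have e : β + ((k + 1 : ℤ) : ℝ) * π = (β + ((k : ℤ) : ℝ) * π) + π := by
        push_cast
        ring
      have h1 := hd (β + ((k : ℤ) : ℝ) * π)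
      have h2 := ih β
      rw [e]
      push_cast at h1 h2 ⊢
      linarith
    | pred k ih =>
      intro β
      have e : (β + ((-(k : ℤ) - 1 : ℤ) : ℝ) * π) + π = β + ((-(k : ℤ) : ℤ) : ℝ) * π := by
        push_cast
        ring
      have h1 := hd (β + ((-(k : ℤ) - 1 : ℤ) : ℝ) * π)
      have h2 := ih β
      rw [e, h2] at h1
      push_cast at h1 ⊢
      linarith
  refine ⟨d, fun τ n e hτ he => ?_⟩
  obtain ⟨l, hl, hle⟩ := he
  obtain ⟨e', l', hl', hle'⟩ : ∃ e' : ℤ, HasEuler n (pairs φ' τ) (2 * e') :=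
    exists_hasEuler (by rw [cprod_pairs, hτ, map_one])
  have hsc : ∀ m, Sc b (cprod l m) (cprod l' m) := by
    intro m
    induction m with
    | zero =>
      intro β
      rw [cprod_zero, cprod_zero, RelIso.one_apply, RelIso.one_apply]
    | succ m ih =>
      rw [cprod_succ, cprod_succ]
      apply ih.mul
      obtain ⟨k1, hk1⟩ := sc_of_lift hc hH hbc hb (hl m).1 (hl' m).1
      obtain ⟨k2, hk2⟩ := sc_of_lift hc hH hbc hb (hl m).2 (hl' m).2
      have h3 := hk1.cm hk2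
      rw [cm_tr (hl' m).1.per (hl' m).2.per] at h3
      exact h3
  have h4 := hsc n 0
  rw [hle, hle', tr_apply, tr_apply, hdk] at h4
  have h5 : (d : ℝ) * e * π = ((2 * e' : ℤ) : ℝ) * π := by linarith
  have h6 : ((d * e : ℤ) : ℝ) = ((2 * e' : ℤ) : ℝ) := by
    push_cast at h5 ⊢
    exact mul_right_cancel₀ Real.pi_ne_zero h5
  have h7 : d * e = 2 * e' := by exact_mod_cast h6
  rw [h7]
  exact ⟨l', hl', hle'⟩

theorem euler_pm (h : FD φ) (hc : Coc φ) (h' : FD φ') (hc' : Coc φ') {S : Finset Γ}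
    (hS : Subgroup.closure (S : Set Γ) = ⊤) {τ : ℕ → Γ × Γ} {n : ℕ} {e : ℤ}
    (hτ : cprod τ n = 1) (he : HasEuler n (pairs φ τ) e) :
    HasEuler n (pairs φ' τ) e ∨ HasEuler n (pairs φ' τ) (-e) := by
  obtain ⟨d, hd⟩ := euler_mul h hc h' hc' hS
  obtain ⟨d', hd'⟩ := euler_mul h' hc' h hc hS
  have h1 := hd τ n e hτ he
  have h2 := hd' τ n (d * e) hτ h1
  have h3 := he.unique h2
  by_cases h0 : e = 0
  · left
    rw [h0, mul_zero] at h1
    rw [h0]
    exact h1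
  · have h4 : d' * d = 1 := by
      have : (d' * d) * e = 1 * e := by linarith
      exact mul_right_cancel₀ h0 this
    rcases Int.eq_one_or_neg_one_of_mul_eq_one' h4 with ⟨-, h5⟩ | ⟨-, h5⟩
    · left
      rw [h5, one_mul] at h1
      exact h1
    · right
      rw [h5, neg_one_mul] at h1
      exact h1

end Pool.Teich
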