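import Pool.Agent.Teich.Stab

/-!
# Representations near a faithful discrete cocompact representation are faithful and discrete

PROOF. `fd_eventually`: `nm g < 3` on a neighbourhood `U₁` of `1`. Let `m₀` be such that `c 4^(m₀) > 3`.
If `φ γ ∈ U₁` then `nm (φ₀ γ) < e^(6 m₀)`, so `γ` is in a finite set `F`. Let `U₂` be a neighbourhood
of `1` and `ε' > 0` such that no `g` with `|g i j - φ₀ γ i j| ≤ ε'` is in `U₂`, for
`γ ∈ F \ {1}` (`φ₀ γ ≠ 1`). Then `FD φ` with `U₁ ∩ U₂` as soon as `φ` is close to `φ₀` on the finite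
set `Q ∪ F`, which holds eventually.
-/

namespace Pool.Teich

open Matrix Real Filter Topology
open Pool.Agent.Hhelper67.Anosov (nm)

theorem fd_eventually {Γ : Type*} [Group Γ] {ι : Type*} {l : Filter ι} {φ : ι → Γ →* X}
    {φ₀ : Γ →* X} (hl : ∀ γ, Tendsto (fun i => φ i γ) l (𝓝 (φ₀ γ))) (h : FD φ₀) (hc : Coc φ₀) :
    ∀ᶠ i in l, FD (φ i) := by
  classical
  obtain ⟨Q, ε, c, hε, hc0, hg⟩ := growth h hc
  -- a large power
  obtain ⟨m₀, hm₀⟩ : ∃ m₀ : ℕ, 3 < c * 4 ^ m₀ := by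
    obtain ⟨m, hm⟩ := pow_unbounded_of_one_lt (3 / c) (by norm_num : (1 : ℝ) < 4)
    refine ⟨m, ?_⟩
    rw [div_lt_iff₀ hc0] at hm
    linarith
  -- finitely many elements of small norm
  have hF : {γ | φ₀ γ ∈ {g : X | nm g ≤ Real.exp (6 * m₀)}}.Finite := h.prp _ (isCompact_nm _)
  -- separation
  have hsep : ∀ γ : Γ, ∃ U V : Set X, IsOpen U ∧ IsOpen V ∧ (1 : X) ∈ U ∧
      (γ ≠ 1 → φ₀ γ ∈ V) ∧ (γ ≠ 1 → Disjoint U V) := by
    intro γ
    by_cases hγ : γ = 1
    · exact ⟨Set.univ, Set.univ, isOpen_univ, isOpen_univ, Set.mem_univ _,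
        fun _ => Set.mem_univ _, fun h' => absurd hγ h'⟩
    · have hne : (1 : X) ≠ φ₀ γ := by
        intro h'
        apply hγ
        apply ((fd_iff φ₀).mp h).1
        rw [map_one, ← h']
      obtain ⟨U, V, hU, hV, h1, h2, hd⟩ := t2_separation hne
      exact ⟨U, V, hU, hV, h1, fun _ => h2, fun _ => hd⟩
  choose U V hU hV h1U hφV hUV using hsep
  have hnm1 : nm (1 : X) < 3 := by
    have : nm (1 : X) = 2 := by
      simp [nm]
      norm_num
    rw [this]
    norm_num
  have hW : ({g : X | nm g < 3} ∩ ⋂ γ ∈ hF.toFinset, U γ) ∈ 𝓝 (1 : X) := by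
    apply Filter.inter_mem
    · exact (isOpen_lt continuous_nm continuous_const).mem_nhds hnm1
    · rw [Filter.biInter_finset_mem]
      intro γ _
      exact (hU γ).mem_nhds (h1U γ)
  -- closeness on `Q`
  have hnear : ∀ᶠ i in l, Near (φ i) φ₀ Q ε := by
    unfold Near
    rw [Filter.eventually_all_finset]
    intro δ _
    rw [Filter.eventually_all]
    intro a
    rw [Filter.eventually_all]
    intro b
    have hcont : Continuous fun g : X => g.1 a b :=
      (continuous_apply b).comp ((continuous_apply a).comp continuous_subtype_val)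
    have ht : Tendsto (fun i => (φ i δ).1 a b) l (𝓝 ((φ₀ δ).1 a b)) :=
      (hcont.tendsto (φ₀ δ)).comp (hl δ)
    have := (Metric.tendsto_nhds.mp ht) ε hε
    filter_upwards [this] with i hi
    rw [Real.dist_eq] at hi
    exact hi.le
  have hfin : ∀ᶠ i in l, ∀ γ ∈ hF.toFinset, γ ≠ 1 → φ i γ ∈ V γ := by
    rw [Filter.eventually_all_finset]
    intro γ _
    by_cases hγ : γ = 1
    · exact Filter.Eventually.of_forall fun i h' => absurd hγ h'
    · filter_upwards [(hl γ).eventually_mem ((hV γ).mem_nhds (hφV γ hγ))] with i hi _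
      exact hi
  filter_upwards [hnear, hfin] with i hi1 hi2
  refine ⟨_, hW, ?_⟩
  rintro γ ⟨hγ1, hγ2⟩
  by_contra hγ
  have hlt : nm (φ₀ γ) < Real.exp (6 * m₀) := by
    by_contra hge
    have := hg (φ i) hi1 γ m₀ (not_lt.mp hge)
    have h3 : nm (φ i γ) < 3 := hγ1
    linarith
  have hmem : γ ∈ hF.toFinset := by
    rw [Set.Finite.mem_toFinset]
    exact hlt.le
  have hUγ : φ i γ ∈ U γ := by
    rw [Set.mem_iInter₂] at hγ2
    exact hγ2 γ hmem
  exact Set.disjoint_left.mp (hUV γ hγ) hUγ (hi2 γ hmem hγ)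

end Pool.Teich
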