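import Pool.Agent.Teich.Closed
import Pool.Agent.Teich.StabF
import Pool.Agent.Teich.Poly

/-!
# Continuation along paths of representations

PROOFS. `eq_of_int`: a continuous real function with values in `2π ℤ` is constant (preconnected,
discrete values; e.g. intermediate value theorem).
`clopen`: `A s = area n (pairs (P s) τ)` is continuous (`continuous_area`) with
`A s = 2π (2 e_s)` (`exists_hasEuler`, `cprod_pairs`, `area_eq`), so `A s = A 0 = 2π e ≠ 0` for all
`s`. Hence `FD (P s)` implies `Coc (P s)` (`FD.prp`, `coc_of_area`). The set `{s | FD (P s)}` is open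
(`fd_eventually` with the filter `𝓝 s`), closed (`fd_of_tendsto`, with `𝓝 s` and
`mem_closure_iff_frequently`) and contains `0`, so it is everything (`ℝ` is connected).
-/

namespace Pool.Teich

open Matrix Real Filter Topology

theorem eq_of_int {f : ℝ → ℝ} (hf : Continuous f) (h : ∀ s, ∃ k : ℤ, f s = 2 * π * k) (s : ℝ) :
    f s = f 0 := by
  have key : ∀ (a b : ℝ) (k m : ℤ), f a = 2 * π * k → f b = 2 * π * m → ¬ k < m := by
    intro a b k m ha hb hkm
    have hpi := Real.pi_pos
    have hkm' : (k : ℝ) + 1 ≤ m := by exact_mod_cast hkm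
    have h1 : 2 * π * k + π ∈ Set.range f := by
      apply mem_range_of_exists_le_of_exists_ge hf
      · exact ⟨a, by rw [ha]; linarith⟩
      · refine ⟨b, ?_⟩
        rw [hb]
        nlinarith
    obtain ⟨x, hx⟩ := h1
    obtain ⟨j, hj⟩ := h x
    rw [hj] at hx
    have h3 : π * (2 * j) = π * (2 * k + 1) := by linarith
    have h2 : (2 * j : ℝ) = 2 * k + 1 := mul_left_cancel₀ hpi.ne' h3
    have h4 : 2 * j = 2 * k + 1 := by exact_mod_cast h2
    omega
  obtain ⟨k, hk⟩ := h s
  obtain ⟨m, hm⟩ := h 0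
  have h1 := key s 0 k m hk hm
  have h2 := key 0 s m k hm hk
  have h3 : k = m := by omega
  rw [hk, hm, h3]

theorem clopen {Γ : Type*} [Group Γ] {P : ℝ → Γ →* X} (hP : ∀ γ, Continuous fun s => P s γ)
    {S : Finset Γ} (hS : Subgroup.closure (S : Set Γ) = ⊤) {a b : Γ}
    (hab : a ^ 2 * b ^ 2 ≠ b ^ 2 * a ^ 2) {τ : ℕ → Γ × Γ} {n : ℕ} (hτ : cprod τ n = 1) {e : ℤ}
    (he : e ≠ 0) (hE : HasEuler n (pairs (P 0) τ) e) (h0 : FD (P 0)) (hc0 : Coc (P 0)) (s : ℝ) :
    FD (P s) ∧ Coc (P s) := by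
  have hcpr : ∀ s, cprod (pairs (P s) τ) n = 1 := fun s => by rw [cprod_pairs, hτ, map_one]
  have hcont : Continuous fun s => area n (pairs (P s) τ) :=
    continuous_area n (fun i => (hP (τ i).1).prodMk (hP (τ i).2))
  have hval : ∀ s, area n (pairs (P s) τ) = area n (pairs (P 0) τ) := by
    intro s
    refine eq_of_int hcont (fun s => ?_) s
    obtain ⟨k, hk⟩ := exists_hasEuler (hcpr s)
    exact ⟨2 * k, area_eq hk (hcpr s)⟩
  have h0' : area n (pairs (P 0) τ) ≠ 0 := by
    rw [area_eq hE (hcpr 0)]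
    have h1 : (e : ℝ) ≠ 0 := by exact_mod_cast he
    have h2 := Real.pi_pos.ne'
    exact mul_ne_zero (mul_ne_zero two_ne_zero h2) h1
  have hcoc : ∀ s, FD (P s) → Coc (P s) := by
    intro s h
    apply coc_of_area h.prp hτ
    rw [hval]
    exact h0'
  have hopen : IsOpen {s | FD (P s)} := by
    rw [isOpen_iff_mem_nhds]
    intro s hs
    exact fd_eventually (fun γ => (hP γ).tendsto s) hs (hcoc s hs)
  have hclosed : IsClosed {s | FD (P s)} := by
    apply isClosed_of_closure_subset
    intro s hs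
    rw [mem_closure_iff_frequently] at hs
    exact fd_of_tendsto (fun γ => (hP γ).tendsto s) (hs.mono fun x hx => ⟨hx, hcoc x hx⟩) hS hab
  have huniv : {s | FD (P s)} = Set.univ := IsClopen.eq_univ ⟨hclosed, hopen⟩ ⟨0, h0⟩
  have h1 : FD (P s) := by
    have h2 : s ∈ {s | FD (P s)} := by
      rw [huniv]
      exact Set.mem_univ s
    exact h2
  exact ⟨h1, hcoc s h1⟩

end Pool.Teich
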