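import Pool.Agent.Teich.Lift

/-!
# The Milnor-Wood inequality and its equality case

PROOFS. All maps are increasing and commute with `x ↦ x + π`. If `f α₀ = α₀` for some `α₀` then
`|f β - β| < π` for all `β` (put `β` between `α₀ + jπ` and `α₀ + (j+1)π`).

`cm_lt`: `δ(α) = f α - α` is `π`-periodic and continuous. Replacing `f` by `tr k * f` (`cm_tr`) we
may assume `δ 0 ∈ [0, π)`. Either `δ` takes the value `0` or `π` somewhere; after a further
translation `f` has a fixed point (case 1), or `0 < δ < π` everywhere (case 2, intermediate value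
theorem). `cm f h = f * D`, `D = h * f⁻¹ * h⁻¹`. Case 1: `D` has a fixed point `β`, so
`cm f h β = f β < β + π`. Case 2: `D β < β` for all `β` (conjugate of `f⁻¹`), so
`cm f h β = f (D β) < D β + π < β + π`.

`mul_lt`: `(f * h) β = f (h β) < f (β + nπ) = f β + nπ` and `f β < β + (m+1)π`: choose `j` with
`α + (j-1)π < β ≤ α + jπ`, then `f β ≤ f α + jπ < α + (m + j)π < β + (m + 1)π`.

`cprod_lt`: a product of `n ≥ 1` commutators has a point `α` with image `< α + (2n-1)π`:
induction from `cm_lt`, `mul_lt`.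

`mw`: let `1 ≤ k < g`, `Xk = cprod l k`, `Sk = cprod (shift k l) (g-k)`, `Xk * Sk = tr (2g-2)`
(`cprod_add`). With `α` such that `Xk α < α + (2k-1)π` and `y = Xk α`:
`Sk y = α + (2g-2)π > y + (2(g-k)-1)π`; together with `cprod_lt` for `Sk` this is
`Hyp (2(g-k)-1) Sk`. For the commutators: `C = cm (l i).1 (l i).2`, `A = cprod l i`,
`B = cprod (shift (i+1) l) (g-i-1)`, `A * C * B = tr (2g-2)`. If `C α ≤ α + π` for all `α` then
`A (C (B γ)) ≤ A (B γ) + π`, and there is `γ` with `A (B γ) < γ + (2g-3)π` (by `cprod_lt` and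
`mul_lt`; if one of `A`, `B` is the empty product the other one has `g - 1 ≥ 1` factors),
contradiction. The other half of `Hyp 1 C` is `cm_lt`.
-/

namespace Pool.Teich

open Matrix Real

theorem mw_up {f : ℝ ≃o ℝ} (hf : Per f) {m : ℤ} (h : ∃ α, f α ≤ α + m * π) (β : ℝ) :
    f β < β + (m + 1) * π := by
  obtain ⟨α, hα⟩ := h
  have hπ := Real.pi_pos
  have h1 : (β - α) / π ≤ ⌈(β - α) / π⌉ := Int.le_ceil _
  have h2 : (⌈(β - α) / π⌉ : ℝ) < (β - α) / π + 1 := Int.ceil_lt_add_one _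
  set j : ℤ := ⌈(β - α) / π⌉ with hj
  have h3 : β ≤ α + j * π := by
    have := mul_le_mul_of_nonneg_right h1 hπ.le
    rw [div_mul_cancel₀ _ hπ.ne'] at this
    linarith
  have h4 : α + j * π < β + π := by
    have := mul_lt_mul_of_pos_right h2 hπ
    rw [add_mul, div_mul_cancel₀ _ hπ.ne'] at this
    linarith
  have h5 : f β ≤ f (α + j * π) := f.monotone h3
  rw [hf.map_add_int] at h5
  linarith

theorem mw_cm_apply (f h : ℝ ≃o ℝ) (α : ℝ) : cm f h α = f (h (f⁻¹ (h⁻¹ α))) := rfl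

theorem mw_inv_apply (f : ℝ ≃o ℝ) (α : ℝ) : f⁻¹ (f α) = α := f.symm_apply_apply α

theorem mw_apply_inv (f : ℝ ≃o ℝ) (α : ℝ) : f (f⁻¹ α) = α := f.apply_symm_apply α

/-- case 1: `f` has a fixed point -/
theorem mw_case1 {f h : ℝ ≃o ℝ} (hf : Per f) {α : ℝ} (hα : f α = α) :
    ∃ β, cm f h β < β + π := by
  refine ⟨h α, ?_⟩
  have h1 : f⁻¹ α = α := by
    have := mw_inv_apply f α
    rwa [hα] at this
  rw [mw_cm_apply, mw_inv_apply, h1]
  have h2 := mw_up hf (m := 0) ⟨α, by rw [hα]; simp⟩ (h α)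
  simpa using h2

theorem cm_lt {f h : ℝ ≃o ℝ} (hf : Per f) (hh : Per h) : ∃ α, cm f h α < α + π := by
  have hπ := Real.pi_pos
  set k : ℤ := ⌊f 0 / π⌋ with hk
  set f' : ℝ ≃o ℝ := tr (-k) * f with hf'
  have hf'p : Per f' := (per_tr _).mul hf
  have happ : ∀ α, f' α = f α - k * π := by
    intro α
    change tr (-k) (f α) = _
    rw [tr_apply, Int.cast_neg]
    ring
  have hcm : cm f h = cm f' h := by
    have h1 := cm_tr hf hh (-k) 0
    rw [tr_zero, one_mul] at h1
    exact h1.symm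
  rw [hcm]
  by_cases hfix : ∃ α, f' α = α
  · obtain ⟨α, hα⟩ := hfix
    exact mw_case1 hf'p hα
  by_cases hfix1 : ∃ α, f' α = α + π
  · obtain ⟨α, hα⟩ := hfix1
    have h1 := cm_tr hf'p hh (-1) 0
    rw [tr_zero, one_mul] at h1
    rw [← h1]
    refine mw_case1 ((per_tr _).mul hf'p) (α := α) ?_
    change tr (-1) (f' α) = α
    rw [tr_apply, hα, Int.cast_neg, Int.cast_one]
    ring
  -- `0 < f' α - α < π` for all `α`
  have hcont : Continuous fun α => f' α - α := f'.continuous.sub continuous_id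
  have h0 : 0 ≤ f' 0 := by
    rw [happ]
    have := Int.floor_le (f 0 / π)
    rw [le_div_iff₀ hπ] at this
    linarith
  have h0' : f' 0 < π := by
    rw [happ]
    have := Int.lt_floor_add_one (f 0 / π)
    rw [div_lt_iff₀ hπ] at this
    linarith
  have hpos : ∀ α, α < f' α := by
    intro α
    by_contra hcon
    push Not at hcon
    obtain ⟨β, hβ⟩ := mem_range_of_exists_le_of_exists_ge hcont (c := 0)
      ⟨α, by linarith⟩ ⟨0, by linarith⟩
    exact hfix ⟨β, by simp only at hβ; linarith⟩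
  have hlt : ∀ α, f' α < α + π := by
    intro α
    by_contra hcon
    push Not at hcon
    obtain ⟨β, hβ⟩ := mem_range_of_exists_le_of_exists_ge hcont (c := π)
      ⟨0, by linarith⟩ ⟨α, by linarith⟩
    exact hfix1 ⟨β, by simp only at hβ; linarith⟩
  refine ⟨0, ?_⟩
  rw [mw_cm_apply]
  have h1 : f'⁻¹ (h⁻¹ 0) < h⁻¹ 0 := by
    have := hpos (f'⁻¹ (h⁻¹ 0))
    rwa [mw_apply_inv] at this
  have h2 : h (f'⁻¹ (h⁻¹ 0)) < 0 := by
    have := h.strictMono h1
    rwa [mw_apply_inv] at this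
  have h3 := hlt (h (f'⁻¹ (h⁻¹ 0)))
  linarith

theorem mul_lt {f h : ℝ ≃o ℝ} (hf : Per f) {m n : ℤ} (h1 : ∃ α, f α < α + m * π)
    (h2 : ∃ β, h β < β + n * π) : ∃ γ, (f * h) γ < γ + (m + n + 1) * π := by
  obtain ⟨α, hα⟩ := h1
  obtain ⟨β, hβ⟩ := h2
  refine ⟨β, ?_⟩
  change f (h β) < _
  have h3 := f.strictMono hβ
  rw [hf.map_add_int] at h3
  have h4 := mw_up hf ⟨α, hα.le⟩ β
  linarith

theorem mw_per_cm {f h : ℝ ≃o ℝ} (hf : Per f) (hh : Per h) : Per (cm f h) :=
  ((hf.mul hh).mul hf.inv).mul hh.inv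

theorem mw_per_cprod {l : ℕ → (ℝ ≃o ℝ) × (ℝ ≃o ℝ)} (hl : ∀ i, Per (l i).1 ∧ Per (l i).2) (n : ℕ) :
    Per (cprod l n) := by
  induction n with
  | zero =>
    rw [cprod_zero, ← tr_zero]
    exact per_tr 0
  | succ n ih =>
    rw [cprod_succ]
    exact ih.mul (mw_per_cm (hl n).1 (hl n).2)

theorem cprod_lt {l : ℕ → (ℝ ≃o ℝ) × (ℝ ≃o ℝ)} (hl : ∀ i, Per (l i).1 ∧ Per (l i).2) {n : ℕ}
    (hn : 1 ≤ n) : ∃ α, cprod l n α < α + (2 * n - 1) * π := by
  induction n, hn using Nat.le_induction with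
  | base =>
    obtain ⟨α, hα⟩ := cm_lt (hl 0).1 (hl 0).2
    refine ⟨α, ?_⟩
    rw [show cprod l 1 = cm (l 0).1 (l 0).2 by rw [cprod_succ, cprod_zero, one_mul]]
    push_cast
    linarith
  | succ n hn ih =>
    obtain ⟨α, hα⟩ := ih
    obtain ⟨β, hβ⟩ := cm_lt (hl n).1 (hl n).2
    obtain ⟨γ, hγ⟩ := mul_lt (mw_per_cprod hl n) (m := 2 * n - 1) (n := 1)
      ⟨α, by push_cast; exact hα⟩ ⟨β, by push_cast; linarith⟩
    refine ⟨γ, ?_⟩
    rw [cprod_succ]
    push_cast at hγ ⊢
    linarith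

theorem mw {g : ℕ} (hg : 2 ≤ g) {l : ℕ → (ℝ ≃o ℝ) × (ℝ ≃o ℝ)}
    (hl : ∀ i, Per (l i).1 ∧ Per (l i).2) (h : cprod l g = tr (2 * g - 2)) :
    (∀ i < g, Hyp 1 (cm (l i).1 (l i).2)) ∧
      ∀ k, 1 ≤ k → k < g → Hyp (2 * ((g : ℤ) - k) - 1) (cprod (shift k l) (g - k)) := by
  have hπ := Real.pi_pos
  have hls : ∀ k, ∀ i, Per (shift k l i).1 ∧ Per (shift k l i).2 := fun k i => hl (k + i)
  constructor
  · intro i hi
    refine ⟨?_, ?_⟩
    · obtain ⟨α, hα⟩ := cm_lt (hl i).1 (hl i).2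
      exact ⟨α, by push_cast; linarith⟩
    · by_contra hcon
      push Not at hcon
      obtain ⟨r, hr⟩ : ∃ r, g = (i + 1) + r := ⟨g - (i + 1), by omega⟩
      have hA := mw_per_cprod hl i
      have heq : ∀ γ, cprod l i (cm (l i).1 (l i).2 (cprod (shift (i + 1) l) r γ)) =
          γ + (2 * g - 2) * π := by
        intro γ
        have h1 : cprod l i * cm (l i).1 (l i).2 * cprod (shift (i + 1) l) r =
            tr (2 * g - 2) := by
          rw [← cprod_succ, ← cprod_add, ← hr, h]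
        have h2 := congrArg (fun e : ℝ ≃o ℝ => e γ) h1
        change _ = tr (2 * g - 2) γ at h2
        rw [tr_apply] at h2
        push_cast at h2
        exact h2
      have hge : ∀ γ, γ + (2 * g - 3) * π ≤ (cprod l i * cprod (shift (i + 1) l) r) γ := by
        intro γ
        have h1 := hcon (cprod (shift (i + 1) l) r γ)
        have h2 := (cprod l i).monotone h1
        rw [heq] at h2
        rw [hA.map_add_int] at h2
        change _ ≤ cprod l i (cprod (shift (i + 1) l) r γ)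
        push_cast at h2
        linarith
      have hlt : ∃ γ, (cprod l i * cprod (shift (i + 1) l) r) γ < γ + (2 * g - 3) * π := by
        have hgr : (g : ℝ) = i + 1 + r := by rw [hr]; push_cast; ring
        rcases Nat.eq_zero_or_pos i with hi0 | hi0
        · have hr1 : 1 ≤ r := by omega
          obtain ⟨γ, hγ⟩ := cprod_lt (hls (i + 1)) hr1
          refine ⟨γ, ?_⟩
          rw [show cprod l i = 1 by rw [hi0, cprod_zero], one_mul, hgr, hi0]
          rw [hi0] at hγ
          push_cast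
          linarith
        · rcases Nat.eq_zero_or_pos r with hr0 | hr0
          · obtain ⟨γ, hγ⟩ := cprod_lt hl (n := i) hi0
            refine ⟨γ, ?_⟩
            rw [show cprod (shift (i + 1) l) r = 1 by rw [hr0, cprod_zero], mul_one, hgr, hr0]
            push_cast
            linarith
          · obtain ⟨α, hα⟩ := cprod_lt hl (n := i) hi0
            obtain ⟨β, hβ⟩ := cprod_lt (hls (i + 1)) (n := r) hr0
            obtain ⟨γ, hγ⟩ := mul_lt hA (m := 2 * i - 1) (n := 2 * r - 1)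
              ⟨α, by push_cast; exact hα⟩ ⟨β, by push_cast; exact hβ⟩
            refine ⟨γ, ?_⟩
            rw [hgr]
            push_cast at hγ ⊢
            linarith
      obtain ⟨γ, hγ⟩ := hlt
      exact absurd (hge γ) (not_le.mpr hγ)
  · intro k hk hkg
    obtain ⟨r, hr⟩ : ∃ r, g = k + r := ⟨g - k, by omega⟩
    have hr1 : 1 ≤ r := by omega
    have hgk : g - k = r := by omega
    have hgr : (g : ℝ) = k + r := by rw [hr]; push_cast; ring
    rw [hgk]
    refine ⟨?_, ?_⟩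
    · obtain ⟨α, hα⟩ := cprod_lt (hls k) hr1
      refine ⟨α, ?_⟩
      push_cast
      rw [hgr]
      linarith
    · obtain ⟨α, hα⟩ := cprod_lt hl hk
      refine ⟨(cprod (shift k l) r)⁻¹ α, ?_⟩
      rw [mw_apply_inv]
      have h1 : cprod l k * cprod (shift k l) r = tr (2 * g - 2) := by
        rw [← cprod_add, ← hr, h]
      have h2 := congrArg (fun e : ℝ ≃o ℝ => e ((cprod (shift k l) r)⁻¹ α)) h1
      change cprod l k (cprod (shift k l) r ((cprod (shift k l) r)⁻¹ α)) =
        tr (2 * g - 2) _ at h2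
      rw [mw_apply_inv, tr_apply] at h2
      push_cast at h2 ⊢
      rw [hgr] at h2 ⊢
      linarith

end Pool.Teich
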