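import Pool.Agent.Teich.Build
import Pool.Agent.Teich.MW

/-!
# Paths between representations of maximal Euler number

PROOFS. `exists_path_X`: every `g : X` is `rot b * !![e^r, x; 0, e^-r]` (first column
`= e^r (cos b, sin b)`), so `X` is the image of `ℝ³`; interpolate the parameters linearly.

`joined`: let `t` have Euler number `2g - 2` and positive traces, `l` lifts. By `mw` all
commutators have `Hyp 1` and the products of the last `g - k` commutators (`1 ≤ k < g`) have
`Hyp (2(g-k) - 1)`. `C = cm (t 0).1 (t 0).2` has `tce C < -2` (`tce_lt`), `C = u * Dneg m * u⁻¹`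
(`exists_diag`), the first pair is `torus u m r1 r2 r3` (`torus_nf`). The product of the others is
`C⁻¹ = (u * J) * Dneg m * (u * J)⁻¹` with `J = !![0, -1; 1, 0]` (`J` swaps the axes:
`J * Dneg m * J⁻¹ = (Dneg m)⁻¹`), so `build_nf` (with `n = g - 2`, shifted sequence) gives
parameters `p`. So `t i = chain g u m r p i` for `i < g` where `chain` is the explicit family
`i = 0 ↦ torus u m r1 r2 r3`, `i ≥ 1 ↦ build (g - 2) (u * J) m p (i - 1)`, continuous in the
parameters, with `cprod = 1` for all parameters (`cprod_succ'`, `cm_torus`, `cprod_build`). Join the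
parameters of `t` and `t'`: `exists_path_X` for `u`, linear interpolation for the others.
-/

namespace Pool.Teich

open Matrix Real

namespace ConnAux

/-- Iwasawa parametrisation of `SL(2,ℝ)` -/
noncomputable def iwa (b r x : ℝ) : X :=
  ⟨!![Real.cos b * Real.exp r, Real.cos b * x - Real.sin b * Real.exp (-r);
      Real.sin b * Real.exp r, Real.sin b * x + Real.cos b * Real.exp (-r)], by
    rw [Matrix.det_fin_two_of]
    have h : Real.exp r * Real.exp (-r) = 1 := by rw [← Real.exp_add]; simp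
    have h2 := Real.sin_sq_add_cos_sq b
    linear_combination (Real.cos b ^ 2 + Real.sin b ^ 2) * h + h2⟩

theorem continuous_iwa {Y : Type*} [TopologicalSpace Y] {b r x : Y → ℝ} (hb : Continuous b)
    (hr : Continuous r) (hx : Continuous x) : Continuous fun y => iwa (b y) (r y) (x y) := by
  apply continuous_induced_rng.2
  apply continuous_matrix
  intro i j
  fin_cases i <;> fin_cases j
  · change Continuous fun y => Real.cos (b y) * Real.exp (r y)
    fun_prop
  · change Continuous fun y => Real.cos (b y) * x y - Real.sin (b y) * Real.exp (-(r y))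
    fun_prop
  · change Continuous fun y => Real.sin (b y) * Real.exp (r y)
    fun_prop
  · change Continuous fun y => Real.sin (b y) * x y + Real.cos (b y) * Real.exp (-(r y))
    fun_prop

theorem exists_iwa (g : X) : ∃ b r x, g = iwa b r x := by
  obtain ⟨a, ha⟩ : ∃ a, a = g.1 0 0 := ⟨_, rfl⟩
  obtain ⟨c, hc⟩ : ∃ c, c = g.1 1 0 := ⟨_, rfl⟩
  obtain ⟨y, hy⟩ : ∃ y, y = g.1 0 1 := ⟨_, rfl⟩
  obtain ⟨d, hd⟩ : ∃ d, d = g.1 1 1 := ⟨_, rfl⟩
  have hdet : a * d - y * c = 1 := by rw [ha, hc, hy, hd]; exact X_det g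
  have hz : (⟨a, c⟩ : ℂ) ≠ 0 := by
    intro h
    have h1 := congrArg Complex.re h
    have h2 := congrArg Complex.im h
    simp only [Complex.zero_re, Complex.zero_im] at h1 h2
    rw [h1, h2] at hdet
    simp at hdet
  obtain ⟨z, hzz⟩ : ∃ z : ℂ, z = ⟨a, c⟩ := ⟨_, rfl⟩
  rw [← hzz] at hz
  have hn : 0 < ‖z‖ := norm_pos_iff.2 hz
  have hcos : Real.cos z.arg * ‖z‖ = a := by
    rw [Complex.cos_arg hz, hzz, div_mul_cancel₀]
    rw [← hzz]
    exact hn.ne'
  have hsin : Real.sin z.arg * ‖z‖ = c := by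
    rw [Complex.sin_arg, hzz, div_mul_cancel₀]
    rw [← hzz]
    exact hn.ne'
  obtain ⟨b, hb⟩ : ∃ b, b = z.arg := ⟨_, rfl⟩
  obtain ⟨ρ, hρ⟩ : ∃ ρ, ρ = ‖z‖ := ⟨_, rfl⟩
  rw [← hb, ← hρ] at hcos hsin
  rw [← hρ] at hn
  have hexp : Real.exp (Real.log ρ) = ρ := Real.exp_log hn
  have hexp' : Real.exp (-Real.log ρ) = ρ⁻¹ := by rw [Real.exp_neg, hexp]
  have hsc := Real.sin_sq_add_cos_sq b
  have hrr : ρ * ρ⁻¹ = 1 := mul_inv_cancel₀ hn.ne'
  have hdet2 : Real.cos b * d - Real.sin b * y = ρ⁻¹ := by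
    have h1 : ρ * (Real.cos b * d - Real.sin b * y) = 1 := by
      rw [← hcos, ← hsin] at hdet
      linarith
    have h2 : ρ * (Real.cos b * d - Real.sin b * y) = ρ * ρ⁻¹ := by rw [h1, hrr]
    exact mul_left_cancel₀ hn.ne' h2
  refine ⟨b, Real.log ρ, Real.cos b * y + Real.sin b * d, ?_⟩
  apply Subtype.ext
  rw [X_eta g, ← ha, ← hc, ← hy, ← hd]
  change !![a, y; c, d] = !![Real.cos b * Real.exp (Real.log ρ),
      Real.cos b * (Real.cos b * y + Real.sin b * d) - Real.sin b * Real.exp (-Real.log ρ);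
      Real.sin b * Real.exp (Real.log ρ),
      Real.sin b * (Real.cos b * y + Real.sin b * d) + Real.cos b * Real.exp (-Real.log ρ)]
  rw [hexp, hexp', hcos, hsin, ← hdet2]
  congr 1
  have e1 : Real.cos b * (Real.cos b * y + Real.sin b * d) -
      Real.sin b * (Real.cos b * d - Real.sin b * y) = y := by
    linear_combination y * hsc
  have e2 : Real.sin b * (Real.cos b * y + Real.sin b * d) +
      Real.cos b * (Real.cos b * d - Real.sin b * y) = d := by
    linear_combination d * hsc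
  rw [e1, e2]

theorem isLift_tr_eq_one {M : X} {k : ℤ} (h : IsLift M (tr (2 * k))) : M = 1 := by
  have h1 : ∀ α, ∃ r : ℝ, 0 < r ∧ M.1 *ᵥ E α = r • E α := by
    intro α
    obtain ⟨r, hr, e⟩ := h α
    refine ⟨r, hr, ?_⟩
    rw [e, tr_apply]
    congr 1
    have e2 : α + ((2 * k : ℤ) : ℝ) * π = α + 2 * k * π := by push_cast; ring
    rw [e2, LiftAux.E_two]
  have hc : ∀ α, ∃ r : ℝ, 0 < r ∧ M.1 0 0 * Real.cos α + M.1 0 1 * Real.sin α = r * Real.cos α ∧
      M.1 1 0 * Real.cos α + M.1 1 1 * Real.sin α = r * Real.sin α := by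
    intro α
    obtain ⟨r, hr, e⟩ := h1 α
    have e0 := congrFun e 0
    have e1 := congrFun e 1
    refine ⟨r, hr, ?_, ?_⟩
    · simpa [E, Matrix.mulVec, dotProduct, Fin.sum_univ_two] using e0
    · simpa [E, Matrix.mulVec, dotProduct, Fin.sum_univ_two] using e1
  obtain ⟨r1, hr1, a1, a2⟩ := hc 0
  obtain ⟨r2, hr2, b1, b2⟩ := hc (π / 2)
  obtain ⟨r3, hr3, c1, c2⟩ := hc (π / 4)
  rw [Real.cos_zero, Real.sin_zero] at a1 a2
  rw [Real.cos_pi_div_two, Real.sin_pi_div_two] at b1 b2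
  rw [Real.cos_pi_div_four, Real.sin_pi_div_four] at c1 c2
  have hdet := X_det M
  have m00 : M.1 0 0 = r1 := by linarith
  have m10 : M.1 1 0 = 0 := by linarith
  have m01 : M.1 0 1 = 0 := by linarith
  have m11 : M.1 1 1 = r2 := by linarith
  have hs : (0 : ℝ) < √2 / 2 := by positivity
  rw [m00, m01] at c1
  rw [m10, m11] at c2
  have d1 : r1 = r3 := by
    have : r1 * (√2 / 2) = r3 * (√2 / 2) := by linarith
    exact mul_right_cancel₀ hs.ne' this
  have d2 : r2 = r3 := by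
    have : r2 * (√2 / 2) = r3 * (√2 / 2) := by linarith
    exact mul_right_cancel₀ hs.ne' this
  rw [m00, m01, m10, m11, d1, d2] at hdet
  have h3 : r3 = 1 := by nlinarith
  apply Subtype.ext
  rw [X_eta M, m00, m01, m10, m11, d1, d2, h3]
  ext i j
  fin_cases i <;> fin_cases j <;> simp

/-- the rotation by a right angle -/
def connJ : X := ⟨!![0, -1; 1, 0], by rw [Matrix.det_fin_two_of]; norm_num⟩

theorem connJ_conj (m : ℝ) : connJ * Dneg m * connJ⁻¹ = (Dneg m)⁻¹ := by
  rw [mul_inv_eq_iff_eq_mul, eq_inv_mul_iff_mul_eq]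
  apply Subtype.ext
  have h : lam m * (lam m)⁻¹ = 1 := mul_inv_cancel₀ (lam_pos m).ne'
  have e1 : (Dneg m * (connJ * Dneg m)).1 =
      !![-lam m, 0; 0, -(lam m)⁻¹] * (!![0, -1; 1, 0] * !![-lam m, 0; 0, -(lam m)⁻¹]) := rfl
  have e2 : (connJ : X).1 = !![0, -1; 1, 0] := rfl
  rw [e1, e2, Matrix.mul_fin_two, Matrix.mul_fin_two]
  have f1 : -lam m * (0 * 0 + -1 * -(lam m)⁻¹) + 0 * (1 * 0 + 0 * -(lam m)⁻¹) = -1 := by
    linear_combination -h
  have f2 : 0 * (0 * -lam m + -1 * 0) + -(lam m)⁻¹ * (1 * -lam m + 0 * 0) = 1 := by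
    linear_combination h
  ext i j
  fin_cases i <;> fin_cases j
  · simp
  · simpa using f1
  · simpa using f2
  · simp

/-- the explicit family -/
noncomputable def chain (n : ℕ) (u : X) (m : ℝ) (r : Fin 3 → ℝ) (p : ℕ → Fin 6 → ℝ) (i : ℕ) :
    X × X :=
  if i = 0 then torus u m (r 0) (r 1) (r 2) else build n (u * connJ) m p (i - 1)

theorem cprod_chain (n : ℕ) (u : X) (m : ℝ) (r : Fin 3 → ℝ) (p : ℕ → Fin 6 → ℝ) :
    cprod (chain n u m r p) (n + 2) = 1 := by
  rw [cprod_succ']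
  have h1 : shift 1 (chain n u m r p) = build n (u * connJ) m p := by
    funext i
    rw [shift_apply, chain, if_neg (by omega)]
    congr 1
    omega
  have h0 : chain n u m r p 0 = torus u m (r 0) (r 1) (r 2) := by
    rw [chain, if_pos rfl]
  rw [h0, h1, cprod_build, cm_torus]
  have h2 : u * connJ * Dneg m * (u * connJ)⁻¹ = u * (Dneg m)⁻¹ * u⁻¹ := by
    rw [← connJ_conj m]
    group
  rw [h2]
  group

theorem continuous_chain (n : ℕ) {u : ℝ → X} {m : ℝ → ℝ} {r : ℝ → Fin 3 → ℝ}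
    {p : ℝ → ℕ → Fin 6 → ℝ} (hu : Continuous u) (hm : Continuous m)
    (hr : ∀ j, Continuous fun y => r y j) (hp : ∀ k j, Continuous fun y => p y k j) (i : ℕ) :
    Continuous fun s => chain n (u s) (m s) (r s) (p s) i := by
  unfold chain
  by_cases hi : i = 0
  · simp only [if_pos hi]
    exact continuous_torus hu hm (hr 0) (hr 1) (hr 2)
  · simp only [if_neg hi]
    exact continuous_build n (hu.mul continuous_const) hm hp (i - 1)

theorem exists_nf (n : ℕ) {t : ℕ → X × X} (ht : HasEuler (n + 2) t (2 * (n + 2 : ℕ) - 2))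
    (hpos : ∀ i < n + 2, 0 < tce (t i).1 ∧ 0 < tce (t i).2) :
    ∃ u m r p, ∀ i < n + 2, t i = chain n u m r p i := by
  obtain ⟨l, hl, he⟩ := ht
  have hper : ∀ i, Per (l i).1 ∧ Per (l i).2 := fun i => ⟨(hl i).1.per, (hl i).2.per⟩
  obtain ⟨hm1, hm2⟩ := mw (g := n + 2) (by omega) hper he
  have hC : tce (cm (t 0).1 (t 0).2) < -2 :=
    tce_lt ((hl 0).1.cm (hl 0).2) odd_one (hm1 0 (by omega))
  obtain ⟨u, m, hu⟩ := exists_diag hC
  obtain ⟨r1, r2, r3, hr⟩ := torus_nf (hl 0).1 (hl 0).2 (hm1 0 (by omega))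
    (hpos 0 (by omega)).1 (hpos 0 (by omega)).2 hu
  have hone : cprod t (n + 2) = 1 := by
    have h1 := isLift_cprod hl (n + 2)
    rw [he] at h1
    have e : (2 * ((n + 2 : ℕ) : ℤ) - 2) = 2 * ((n : ℤ) + 1) := by push_cast; ring
    rw [e] at h1
    exact isLift_tr_eq_one h1
  have hrest : cprod (shift 1 t) (n + 1) = u * connJ * Dneg m * (u * connJ)⁻¹ := by
    have h1 : cm (t 0).1 (t 0).2 * cprod (shift 1 t) (n + 1) = 1 := by
      rw [← cprod_succ']
      exact hone
    have h2 : u * connJ * Dneg m * (u * connJ)⁻¹ = u * (Dneg m)⁻¹ * u⁻¹ := by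
      rw [← connJ_conj m]
      group
    rw [h2]
    have h3 : cprod (shift 1 t) (n + 1) = (cm (t 0).1 (t 0).2)⁻¹ := eq_inv_of_mul_eq_one_right h1
    rw [h3, hu]
    group
  obtain ⟨p, hp⟩ := build_nf n (t := shift 1 t) (l := shift 1 l)
    (fun i => hl (1 + i)) (fun i hi => hpos (1 + i) (by omega))
    (fun i hi => hm1 (1 + i) (by omega))
    (fun k hk => by
      have h1 := hm2 (k + 1) (by omega) (by omega)
      have e1 : shift k (shift 1 l) = shift (k + 1) l := by
        funext i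
        simp only [shift_apply]
        congr 1
        omega
      have e2 : n + 2 - (k + 1) = n + 1 - k := by omega
      have e3 : 2 * (((n + 2 : ℕ) : ℤ) - ((k + 1 : ℕ) : ℤ)) - 1 =
          2 * ((n : ℤ) + 1 - k) - 1 := by
        push_cast
        ring
      rw [e2, e3] at h1
      rw [e1]
      exact h1) hrest
  refine ⟨u, m, ![r1, r2, r3], p, fun i hi => ?_⟩
  rw [chain]
  by_cases h0 : i = 0
  · rw [if_pos h0, h0]
    exact hr
  · rw [if_neg h0, ← hp (i - 1) (by omega), shift_apply]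
    congr 1
    omega

end ConnAux

open ConnAux

theorem exists_path_X (u u' : X) : ∃ γ : ℝ → X, Continuous γ ∧ γ 0 = u ∧ γ 1 = u' := by
  obtain ⟨b, r, x, h⟩ := exists_iwa u
  obtain ⟨b', r', x', h'⟩ := exists_iwa u'
  refine ⟨fun s => iwa ((1 - s) * b + s * b') ((1 - s) * r + s * r') ((1 - s) * x + s * x'),
    continuous_iwa (by fun_prop) (by fun_prop) (by fun_prop), ?_, ?_⟩
  · simp only [sub_zero, one_mul, zero_mul, add_zero]
    exact h.symm
  · simp only [sub_self, zero_mul, one_mul, zero_add]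
    exact h'.symm

theorem joined {g : ℕ} (hg : 2 ≤ g) {t t' : ℕ → X × X} (ht : HasEuler g t (2 * g - 2))
    (ht' : HasEuler g t' (2 * g - 2)) (hpos : ∀ i < g, 0 < tce (t i).1 ∧ 0 < tce (t i).2)
    (hpos' : ∀ i < g, 0 < tce (t' i).1 ∧ 0 < tce (t' i).2) :
    ∃ γ : ℝ → ℕ → X × X, (∀ i, Continuous fun s => γ s i) ∧ (∀ s, cprod (γ s) g = 1) ∧
      ∀ i < g, γ 0 i = t i ∧ γ 1 i = t' i := by
  obtain ⟨n, rfl⟩ : ∃ n, g = n + 2 := ⟨g - 2, by omega⟩
  obtain ⟨u, m, r, p, h⟩ := exists_nf n ht hpos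
  obtain ⟨u', m', r', p', h'⟩ := exists_nf n ht' hpos'
  obtain ⟨γu, hγ, h0, h1⟩ := exists_path_X u u'
  refine ⟨fun s => chain n (γu s) ((1 - s) * m + s * m') (fun j => (1 - s) * r j + s * r' j)
    (fun k j => (1 - s) * p k j + s * p' k j), fun i => ?_, fun s => cprod_chain _ _ _ _ _,
    fun i hi => ⟨?_, ?_⟩⟩
  · exact continuous_chain n hγ (by fun_prop) (fun j => by fun_prop) (fun k j => by fun_prop) i
  · simp only [sub_zero, one_mul, zero_mul, add_zero, h0]
    exact (h i hi).symm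
  · simp only [sub_self, zero_mul, one_mul, zero_add, h1]
    exact (h' i hi).symm

end Pool.Teich
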