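import Pool.Agent.Hhelper63.AnT.Surf

/-!
# Squares of two generators do not commute

PROOF. `Surf.lift` gives a homomorphism to `Equiv.Perm (Fin 4)` (or any other finite group) with
`a_0 ↦ s, b_0 ↦ t, a_1 ↦ t, b_1 ↦ s` and all other generators `↦ 1`, where `s = (0 1 2)`,
`t = (0 1 3)`: `[s, t] [t, s] = 1` and the other commutators are trivial. `s² t² ≠ t² s²`
(`decide`).
-/

namespace Pool.Teich

open Pool.Agent.Hhelper63.AnT (Surf)

namespace NoCommA

/-- images of the generators -/
def pf (i : ℕ) (b : Bool) : Equiv.Perm (Fin 4) :=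
  if i = 0 then (if b then c[0, 1, 3] else c[0, 1, 2])
  else if i = 1 then (if b then c[0, 1, 2] else c[0, 1, 3])
  else 1

end NoCommA

open NoCommA

theorem no_comm {g : ℕ} (hg : 2 ≤ g) :
    (Surf.gen (⟨0, by omega⟩ : Fin g) false) ^ 2 * (Surf.gen (⟨0, by omega⟩ : Fin g) true) ^ 2 ≠
      (Surf.gen (⟨0, by omega⟩ : Fin g) true) ^ 2 *
        (Surf.gen (⟨0, by omega⟩ : Fin g) false) ^ 2 := by
  obtain ⟨m, rfl⟩ : ∃ m, g = m + 2 := ⟨g - 2, by omega⟩
  have hrel : (List.ofFn fun i : Fin (m + 2) =>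
      Pool.Agent.Hhelper63.AnT.cm (pf i false) (pf i true)).prod = 1 := by
    rw [List.ofFn_succ, List.ofFn_succ, List.prod_cons, List.prod_cons]
    have h1 : (List.ofFn fun i : Fin m => Pool.Agent.Hhelper63.AnT.cm
        (pf ((i.succ.succ : Fin (m + 2)) : ℕ) false) (pf ((i.succ.succ : Fin (m + 2)) : ℕ) true)).prod
        = 1 := by
      apply List.prod_eq_one
      intro x hx
      rw [List.mem_ofFn] at hx
      obtain ⟨i, rfl⟩ := hx
      simp [pf, Pool.Agent.Hhelper63.AnT.cm]
    rw [h1]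
    simp only [Fin.val_zero, Fin.val_succ, mul_one]
    decide
  intro h
  have h2 := congrArg (Surf.lift (fun (i : Fin (m + 2)) b => pf i b) hrel) h
  simp only [map_mul, map_pow, Surf.lift_gen] at h2
  revert h2
  decide

end Pool.Teich
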