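import Pool.Agent.Teich.Model
import Pool.Agent.Teich.BdDeg
import Pool.Agent.Teich.Clopen
import Pool.Agent.Teich.Conn
import Pool.Agent.Teich.NoComm
import Pool.Agent.Hhelper63.AnT.All

/-!
# Connectedness of the space of Fuchsian representations up to mirror images and sign twists
-/

namespace Pool.Teich

open Matrix Real
open Pool.Agent.Hhelper63.AnT (Surf TeichStmt fuchs)

variable {g : ℕ}

theorem two_torsion (hg : 2 ≤ g) (γ : Surf g) (hγ : γ * γ = 1) : γ = 1 := by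
  obtain ⟨φ, h1, -, h3, -⟩ := exists_model g hg
  exact no_two_torsion ((fd_iff φ).1 h1).1 h3 γ hγ

theorem euler_max (hg : 2 ≤ g) {φ : Surf g →* X} (h : FD φ) (hc : Coc φ) :
    HasEuler g (pairs φ (tau g)) (2 * g - 2) ∨ HasEuler g (pairs φ (tau g)) (-(2 * g - 2)) := by
  obtain ⟨ψ, h1, h2, -, h4⟩ := exists_model g hg
  obtain ⟨S, hS⟩ := surf_fg g
  rcases euler_pm h1 h2 h hc hS (cprod_tau g) h4 with h5 | h5
  · exact Or.inr h5
  · rw [neg_neg] at h5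
    exact Or.inl h5

/-- a sign twist with positive traces -/
theorem exists_pos (hg : 2 ≤ g) {φ : Surf g →* X}
    (hE : HasEuler g (pairs φ (tau g)) (2 * g - 2)) :
    ∃ n : Surf g →* Multiplicative ℤ, ∀ i < g,
      0 < tce (pairs (tw n φ) (tau g) i).1 ∧ 0 < tce (pairs (tw n φ) (tau g) i).2 := by
  obtain ⟨l, hl, he⟩ := hE
  obtain ⟨hm1, -⟩ := mw hg (fun i => ⟨(hl i).1.per, (hl i).2.per⟩) he
  have hC : ∀ i < g, tce (cm (pairs φ (tau g) i).1 (pairs φ (tau g) i).2) < -2 := fun i hi =>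
    tce_lt ((hl i).1.cm (hl i).2) odd_one (hm1 i hi)
  have hne : ∀ i < g, tce (pairs φ (tau g) i).1 ≠ 0 ∧ tce (pairs φ (tau g) i).2 ≠ 0 := by
    intro i hi
    have h1 := hC i hi
    rw [fricke] at h1
    constructor
    · intro h0
      rw [h0] at h1
      nlinarith [sq_nonneg (tce (pairs φ (tau g) i).2),
        sq_nonneg (tce ((pairs φ (tau g) i).1 * (pairs φ (tau g) i).2))]
    · intro h0
      rw [h0] at h1
      nlinarith [sq_nonneg (tce (pairs φ (tau g) i).1),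
        sq_nonneg (tce ((pairs φ (tau g) i).1 * (pairs φ (tau g) i).2))]
  obtain ⟨n, hn⟩ := exists_char g
    (fun i => if 0 < tce (pairs φ (tau g) i).1 then 0 else 1)
    (fun i => if 0 < tce (pairs φ (tau g) i).2 then 0 else 1)
  have key : ∀ γ : Surf g, tce (φ γ) ≠ 0 →
      Multiplicative.toAdd (n γ) = (if 0 < tce (φ γ) then 0 else 1) → 0 < tce (tw n φ γ) := by
    intro γ h0 h1
    have e : tce (tw n φ γ) = (-1 : ℝ) ^ (Multiplicative.toAdd (n γ)) * tce (φ γ) := by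
      unfold tce
      rw [tw_val]
      simp [Matrix.smul_apply]
      ring
    rw [e, h1]
    split_ifs with h2
    · simpa using h2
    · have h3 : tce (φ γ) < 0 := lt_of_le_of_ne (not_lt.1 h2) h0
      simp
      exact h3
  exact ⟨n, fun i hi => ⟨key _ (hne i hi).1 (hn i hi).1, key _ (hne i hi).2 (hn i hi).2⟩⟩

/-- the path, for Euler number `2g-2` -/
theorem path_pos (hg : 2 ≤ g) {φ φ₁ : Surf g →* X} (h : FD φ) (hc : Coc φ)
    (hE : HasEuler g (pairs φ (tau g)) (2 * g - 2))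
    (hE₁ : HasEuler g (pairs φ₁ (tau g)) (2 * g - 2)) :
    ∃ (n : Surf g →* Multiplicative ℤ) (P : ℝ → Surf g →* X),
      (∀ γ, Continuous fun s => P s γ) ∧ (∀ s, FD (P s) ∧ Coc (P s)) ∧ P 0 = φ ∧
        P 1 = tw n φ₁ := by
  obtain ⟨n, hn⟩ := exists_pos hg hE
  obtain ⟨m, hm⟩ := exists_pos hg hE₁
  obtain ⟨γ, hγ, hγ1, hγ2⟩ := joined hg (hE.tw n) (hE₁.tw m) hn hm
  obtain ⟨S, hS⟩ := surf_fg g
  have hP0 : rep (γ 0) (hγ1 0) = tw n φ := by
    apply hom_ext_tau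
    intro i hi
    obtain ⟨h1, h2⟩ := rep_tau (γ 0) (hγ1 0) hi
    rw [h1, h2, (hγ2 i hi).1]
    exact ⟨rfl, rfl⟩
  have hP1 : rep (γ 1) (hγ1 1) = tw m φ₁ := by
    apply hom_ext_tau
    intro i hi
    obtain ⟨h1, h2⟩ := rep_tau (γ 1) (hγ1 1) hi
    rw [h1, h2, (hγ2 i hi).2]
    exact ⟨rfl, rfl⟩
  have htor := two_torsion hg
  have hgz : (2 * (g : ℤ) - 2) ≠ 0 := by omega
  have hcl := clopen (P := fun s => rep (γ s) (hγ1 s)) (continuous_rep hγ hγ1) hS (no_comm hg)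
    (cprod_tau g) hgz (by
      show HasEuler g (pairs (rep (γ 0) (hγ1 0)) (tau g)) (2 * g - 2)
      rw [hP0]
      exact hE.tw n) (by
      show FD (rep (γ 0) (hγ1 0))
      rw [hP0]
      exact h.tw htor n) (by
      show Coc (rep (γ 0) (hγ1 0))
      rw [hP0]
      exact hc.tw n)
  refine ⟨n * m, fun s => tw n (rep (γ s) (hγ1 s)), fun x => ?_, fun s => ?_, ?_, ?_⟩
  · exact continuous_tw n (continuous_rep hγ hγ1 x)
  · exact ⟨(hcl s).1.tw htor n, (hcl s).2.tw n⟩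
  · show tw n (rep (γ 0) (hγ1 0)) = φ
    rw [hP0, tw_self]
  · show tw n (rep (γ 1) (hγ1 1)) = tw (n * m) φ₁
    rw [hP1, tw_tw]

theorem path_any (hg : 2 ≤ g) {φ φ₀ : Surf g →* X} (h : FD φ) (hc : Coc φ) (h0 : FD φ₀)
    (hc0 : Coc φ₀) :
    ∃ (n : Surf g →* Multiplicative ℤ) (φ₁ : Surf g →* X) (P : ℝ → Surf g →* X),
      (φ₁ = φ₀ ∨ φ₁ = mir.comp φ₀) ∧
      (∀ γ, Continuous fun s => P s γ) ∧ (∀ s, FD (P s) ∧ Coc (P s)) ∧ P 0 = φ ∧
        P 1 = tw n φ₁ := by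
  have hmm : ∀ ψ : Surf g →* X, mir.comp (mir.comp ψ) = ψ := fun ψ =>
    MonoidHom.ext fun γ => mir_mir (ψ γ)
  -- a partner with positive Euler number
  obtain ⟨φ₁, h1, hE1⟩ : ∃ φ₁ : Surf g →* X, (φ₁ = φ₀ ∨ φ₁ = mir.comp φ₀) ∧
      HasEuler g (pairs φ₁ (tau g)) (2 * g - 2) := by
    rcases euler_max hg h0 hc0 with hE | hE
    · exact ⟨φ₀, Or.inl rfl, hE⟩
    · refine ⟨mir.comp φ₀, Or.inr rfl, ?_⟩
      have := euler_mir hE
      rwa [neg_neg] at this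
  rcases euler_max hg h hc with hE | hE
  · obtain ⟨n, P, hP, hF, hP0, hP1⟩ := path_pos hg h hc hE hE1
    exact ⟨n, φ₁, P, h1, hP, hF, hP0, hP1⟩
  · have hE' := euler_mir hE
    rw [neg_neg] at hE'
    obtain ⟨n, P, hP, hF, hP0, hP1⟩ := path_pos hg h.mir hc.mir hE' hE1
    refine ⟨n, mir.comp φ₁, fun s => mir.comp (P s), ?_, fun γ => ?_, fun s => ?_, ?_, ?_⟩
    · rcases h1 with rfl | rfl
      · exact Or.inr rfl
      · exact Or.inl (hmm φ₀)
    · exact continuous_mir.comp (hP γ)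
    · exact ⟨(hF s).1.mir, (hF s).2.mir⟩
    · show mir.comp (P 0) = φ
      rw [hP0, hmm]
    · show mir.comp (P 1) = tw n (mir.comp φ₁)
      rw [hP1]
      apply MonoidHom.ext
      intro γ
      apply Subtype.ext
      rw [tw_val]
      change (mir (tw n φ₁ γ)).1 = _ • (mir (φ₁ γ)).1
      rw [mir_val, mir_val, tw_val, Matrix.mul_smul, Matrix.smul_mul]

theorem mem_fuchs {φ : Surf g →* X} (h : FD φ) (hc : Coc φ) : ⇑φ ∈ fuchs (Surf g) :=
  ⟨φ, ⟨((fd_iff φ).1 h).1, ((fd_iff φ).1 h).2, hc⟩, rfl⟩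

theorem of_mem_fuchs {φ : Surf g →* X} (h : ⇑φ ∈ fuchs (Surf g)) : FD φ ∧ Coc φ := by
  obtain ⟨ψ, ⟨h1, h2, h3⟩, h4⟩ := h
  have h5 : ψ = φ := DFunLike.coe_injective h4
  subst h5
  exact ⟨(fd_iff ψ).2 ⟨h1, h2⟩, h3⟩

/-- Every Fuchsian representation of the surface group of genus `g ≥ 2` is in the component of a
sign twist of a given one or of its mirror image. -/
theorem teich_stmt (g : ℕ) (hg : 2 ≤ g) : TeichStmt g := by
  intro φ φ₀ h h0
  obtain ⟨h1, h2⟩ := of_mem_fuchs h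
  obtain ⟨h3, h4⟩ := of_mem_fuchs h0
  obtain ⟨n, φ₁, P, hφ₁, hP, hF, hP0, hP1⟩ := path_any hg h1 h2 h3 h4
  refine ⟨n, φ₁, tw n φ₁, ?_, fun γ => tw_val n φ₁ γ, ?_, ?_⟩
  · rcases hφ₁ with rfl | rfl
    · exact Or.inl rfl
    · exact Or.inr fun γ => mir_val (φ₀ γ)
  · rw [← hP1]
    exact mem_fuchs (hF 1).1 (hF 1).2
  · let F : ℝ → (Surf g → X) := fun s => ⇑(P s)
    have hc : Continuous F := continuous_pi fun γ => hP γ
    have hpre : IsPreconnected (Set.range F) := isPreconnected_range hc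
    have hsub : Set.range F ⊆ fuchs (Surf g) := by
      rintro f ⟨s, rfl⟩
      exact mem_fuchs (hF s).1 (hF s).2
    have hmem : ⇑(tw n φ₁) ∈ Set.range F := ⟨1, by
      show ⇑(P 1) = _
      rw [hP1]⟩
    have hmem' : ⇑φ ∈ Set.range F := ⟨0, by
      show ⇑(P 0) = _
      rw [hP0]⟩
    exact hpre.subset_connectedComponentIn hmem hsub hmem'

end Pool.Teich
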