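import Pool.Agent.Teich.TEuler

/-!
# The signed area in the upper half plane

`Th z w = 2 arctan ((Re w - Re z)/(Im z + Im w))` for `z, w` in the upper half plane: signed area
above the geodesic arc from `z` to `w`.

PROOFS. `pt g = (z - i)/(z + i)` for `z = g • i` (direct computation:
`(z - i)/(z + i) = conj (qc g)/pc g`).
`th_pt_eq`: for `w_k = (z_k - i)/(z_k + i)`,
`1 - w1 conj w2 = -2i (z1 - conj z2)/((z1 + i) conj (z2 + i))`, and
`-i (z1 - conj z2) = (y1 + y2) - i (x1 - x2)` has argument `arctan ((x2 - x1)/(y1 + y2))`; so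
`th (pt g) (pt h) = Th z1 z2 - 2 arg (z1 + i) + 2 arg (z2 + i)` modulo `4π` (twice an identity
modulo `2π`); the difference is continuous in `(z1, z2)`, the set of pairs is connected, and it
vanishes for `z1 = z2`. (Or: `arg (1 - w1 conj w2) ∈ (-π/2, π/2)`, `arctan ∈ (-π/2, π/2)`,
`arg (z + i) ∈ (0, π)`, so the difference of the two sides divided by 2 is in `(-2π, 2π)`: use
the continuity argument.)
`psum_eq`: telescoping sum. `area_eq`: the product of the letters is `1`, `T_eq`.
`continuous_area`: `psum` is a finite sum of continuous functions of the entries; `g ↦ g • i` is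
continuous (`UpperHalfPlane.instContinuousSMulSL2R`).
-/

namespace Pool.Teich

open Complex ComplexConjugate UpperHalfPlane
open scoped MatrixGroups

/-- signed area above the geodesic arc from `z` to `w` -/
noncomputable def Th (z w : ℍ) : ℝ := 2 * Real.arctan ((w.re - z.re) / (z.im + w.im))

/-- the base point `i` moved by `g` -/
noncomputable def bp (g : X) : ℍ := (g : SL(2, ℝ)) • UpperHalfPlane.I

/-- signed area of the relator polygon -/
noncomputable def area (n : ℕ) (t : ℕ → X × X) : ℝ :=
  psum (fun g h => Th (bp g) (bp h)) 1 (letters n t)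

theorem area_plus_ne (z : ℍ) : (z : ℂ) + Complex.I ≠ 0 := by
  intro h
  have h1 := congrArg Complex.im h
  have h2 : 0 < (z : ℂ).im := z.im_pos
  simp only [Complex.add_im, Complex.I_im, Complex.zero_im] at h1
  linarith

theorem pt_eq (g : X) : pt g = ((bp g : ℂ) - Complex.I) / ((bp g : ℂ) + Complex.I) := by
  have hp := pc_ne g
  have hz : (bp g : ℂ) = ((g.1 0 0 : ℂ) * Complex.I + (g.1 0 1 : ℂ)) /
      ((g.1 1 0 : ℂ) * Complex.I + (g.1 1 1 : ℂ)) := by
    rw [bp, UpperHalfPlane.coe_specialLinearGroup_apply]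
    simp
  have hd : (g.1 1 0 : ℂ) * Complex.I + (g.1 1 1 : ℂ) ≠ 0 := by
    intro h
    have h1 := congrArg Complex.re h
    have h2 := congrArg Complex.im h
    simp at h1 h2
    have h3 := g.2
    rw [Matrix.det_fin_two, h1, h2] at h3
    simp at h3
  have hzi := area_plus_ne (bp g)
  have e1 : pt g = conj (qc g) / pc g := by
    simp [pt, act, J]
  rw [e1, div_eq_div_iff hp hzi, hz]
  have hzi' : ((g.1 0 0 : ℂ) * Complex.I + (g.1 0 1 : ℂ)) /
      ((g.1 1 0 : ℂ) * Complex.I + (g.1 1 1 : ℂ)) + Complex.I =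
      (((g.1 0 0 : ℂ) * Complex.I + (g.1 0 1 : ℂ)) + Complex.I *
      ((g.1 1 0 : ℂ) * Complex.I + (g.1 1 1 : ℂ))) / ((g.1 1 0 : ℂ) * Complex.I + (g.1 1 1 : ℂ)) := by
    rw [eq_div_iff hd, add_mul, div_mul_cancel₀ _ hd]
  have hzi'' : ((g.1 0 0 : ℂ) * Complex.I + (g.1 0 1 : ℂ)) /
      ((g.1 1 0 : ℂ) * Complex.I + (g.1 1 1 : ℂ)) - Complex.I =
      (((g.1 0 0 : ℂ) * Complex.I + (g.1 0 1 : ℂ)) - Complex.I *
      ((g.1 1 0 : ℂ) * Complex.I + (g.1 1 1 : ℂ))) / ((g.1 1 0 : ℂ) * Complex.I + (g.1 1 1 : ℂ)) := by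
    rw [eq_div_iff hd, sub_mul, div_mul_cancel₀ _ hd]
  rw [hzi', hzi'', mul_div_assoc', div_mul_eq_mul_div]
  congr 1
  have hI : Complex.I * Complex.I = -1 := Complex.I_mul_I
  simp only [qc, pc, map_div₀, map_add, map_sub, map_mul, conj_ofReal, conj_I, ofReal_add,
    ofReal_sub]
  have h2 : conj (2 : ℂ) = 2 := Complex.conj_ofNat 2
  rw [h2]
  generalize (((g.1 0 0 : ℝ)) : ℂ) = a
  generalize (((g.1 0 1 : ℝ)) : ℂ) = b
  generalize (((g.1 1 0 : ℝ)) : ℂ) = c
  generalize (((g.1 1 1 : ℝ)) : ℂ) = d
  generalize Complex.I = I at *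
  linear_combination (-(d * b) - c * b * I) * hI

theorem area_arg_eq (z : ℂ) (h : 0 < z.re) : arg z = Real.arctan (z.im / z.re) := by
  have h1 := abs_lt.mp (abs_arg_lt_pi_div_two_iff.mpr (Or.inl h))
  rw [← tan_arg, Real.arctan_tan h1.1 h1.2]

theorem th_pt_eq (g h : X) : th (pt g) (pt h) =
    Th (bp g) (bp h) - 2 * arg ((bp g : ℂ) + Complex.I) + 2 * arg ((bp h : ℂ) + Complex.I) := by
  set z := bp g with hz
  set w := bp h with hw
  have hzi := area_plus_ne z
  have hwi := area_plus_ne w
  have hzim : 0 < (z : ℂ).im := z.im_pos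
  have hwim : 0 < (w : ℂ).im := w.im_pos
  have hcwi : conj ((w : ℂ) + Complex.I) ≠ 0 := by
    rw [Ne, map_eq_zero]
    exact hwi
  -- the main factor
  set m : ℂ := -Complex.I * ((z : ℂ) - conj (w : ℂ)) with hm
  have hmre : m.re = (z : ℂ).im + (w : ℂ).im := by
    simp [hm]
  have hmim : m.im = (w : ℂ).re - (z : ℂ).re := by
    simp [hm]
  have hm0 : m ≠ 0 := by
    intro h0
    have := congrArg Complex.re h0
    rw [hmre] at this
    simp only [zero_re] at this
    linarith
  have hkey : 1 - pt g * conj (pt h) = ((2 : ℝ) : ℂ) * (m / (((z : ℂ) + Complex.I) *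
      conj ((w : ℂ) + Complex.I))) := by
    rw [pt_eq, pt_eq, ← hz, ← hw, map_div₀]
    have e1 : conj ((w : ℂ) - Complex.I) = conj (w : ℂ) + Complex.I := by simp
    have e2 : conj ((w : ℂ) + Complex.I) = conj (w : ℂ) - Complex.I := by
      simp [sub_eq_add_neg]
    rw [e2] at hcwi
    rw [e1, e2, hm]
    field_simp
    push_cast
    ring
  have hargm : arg m = Real.arctan ((w.re - z.re) / (z.im + w.im)) := by
    rw [area_arg_eq m (by rw [hmre]; linarith), hmre, hmim]
    rfl
  have hangle : ((arg (1 - pt g * conj (pt h)) : ℝ) : Real.Angle) =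
      ((arg m - arg ((z : ℂ) + Complex.I) + arg ((w : ℂ) + Complex.I) : ℝ) : Real.Angle) := by
    rw [hkey, arg_real_mul _ (by norm_num), arg_div_coe_angle hm0 (mul_ne_zero hzi hcwi),
      arg_mul_coe_angle hzi hcwi, arg_conj_coe_angle, Real.Angle.coe_add, Real.Angle.coe_sub]
    abel
  have hb1 : |arg (1 - pt g * conj (pt h))| < Real.pi / 2 := by
    rw [abs_arg_lt_pi_div_two_iff]
    left
    have h1 := norm_pt_lt g
    have h2 := norm_pt_lt h
    have h3 : ‖pt g * conj (pt h)‖ < 1 := by
      rw [norm_mul, RCLike.norm_conj]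
      nlinarith [norm_nonneg (pt g), norm_nonneg (pt h)]
    have h4 := Complex.re_le_norm (pt g * conj (pt h))
    rw [sub_re, one_re]
    linarith
  have hb2 : |arg m| < Real.pi / 2 := by
    rw [abs_arg_lt_pi_div_two_iff]
    left
    rw [hmre]
    linarith
  have him : ∀ v : ℍ, 0 ≤ arg ((v : ℂ) + Complex.I) ∧ arg ((v : ℂ) + Complex.I) < Real.pi := by
    intro v
    have hv : 0 < ((v : ℂ) + Complex.I).im := by
      have : 0 < (v : ℂ).im := v.im_pos
      simp only [Complex.add_im, Complex.I_im]
      linarith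
    exact ⟨arg_nonneg_iff.mpr hv.le, arg_lt_pi_iff.mpr (Or.inr hv.ne')⟩
  obtain ⟨hz1, hz2⟩ := him z
  obtain ⟨hw1, hw2⟩ := him w
  rw [Real.Angle.angle_eq_iff_two_pi_dvd_sub] at hangle
  obtain ⟨k, hk⟩ := hangle
  rw [abs_lt] at hb1 hb2
  have hpi := Real.pi_pos
  have hk0 : k = 0 := by
    have h1 : (k : ℝ) < 1 := by
      have : 2 * Real.pi * (k : ℝ) < 2 * Real.pi * 1 := by
        rw [← hk]
        linarith
      exact lt_of_mul_lt_mul_left this (by positivity)
    have h2 : (-1 : ℝ) < k := by
      have : 2 * Real.pi * (-1) < 2 * Real.pi * (k : ℝ) := by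
        rw [← hk]
        linarith
      exact lt_of_mul_lt_mul_left this (by positivity)
    have h1' : k < 1 := by exact_mod_cast h1
    have h2' : -1 < k := by exact_mod_cast h2
    omega
  rw [hk0] at hk
  simp only [Int.cast_zero, mul_zero] at hk
  rw [th, Th, ← hargm]
  linarith

theorem psum_eq (g : X) (L : List X) : psum (fun g h => th (pt g) (pt h)) g L =
    psum (fun g h => Th (bp g) (bp h)) g L - 2 * arg ((bp g : ℂ) + Complex.I) +
      2 * arg ((bp (g * L.prod) : ℂ) + Complex.I) := by
  induction L generalizing g with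
  | nil => simp [psum]
  | cons s L ih =>
    rw [psum, psum, ih, th_pt_eq, List.prod_cons, mul_assoc]
    ring

theorem area_eq {n : ℕ} {t : ℕ → X × X} {e : ℤ} (h : HasEuler n t e) (hc : cprod t n = 1) :
    area n t = 2 * Real.pi * e := by
  rw [← T_eq h hc, psum_eq, letters_prod, hc, mul_one, area]
  ring

theorem continuous_bp : Continuous bp := by
  unfold bp
  exact continuous_id.smul continuous_const

theorem area_continuous_psum {Y : Type*} [TopologicalSpace Y] (L : List (Y → X))
    (hL : ∀ s ∈ L, Continuous s) (g : Y → X) (hg : Continuous g) :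
    Continuous fun y => psum (fun g h => Th (bp g) (bp h)) (g y) (L.map fun s => s y) := by
  induction L generalizing g with
  | nil => exact continuous_const
  | cons s L ih =>
    have hs : Continuous s := hL s (by simp)
    simp only [List.map_cons, psum]
    have h1 : Continuous fun y => bp (g y) := continuous_bp.comp hg
    have h2 : Continuous fun y => bp (g y * s y) := continuous_bp.comp (hg.mul hs)
    refine Continuous.add ?_ (ih (fun s' hs' => hL s' (by simp [hs'])) _ (hg.mul hs))
    unfold Th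
    refine continuous_const.mul (Real.continuous_arctan.comp ?_)
    refine Continuous.div ?_ ?_ ?_
    · exact (UpperHalfPlane.continuous_re.comp h2).sub (UpperHalfPlane.continuous_re.comp h1)
    · exact (UpperHalfPlane.continuous_im.comp h1).add (UpperHalfPlane.continuous_im.comp h2)
    · intro y
      have h3 := (bp (g y)).im_pos
      have h4 := (bp (g y * s y)).im_pos
      exact (add_pos h3 h4).ne'

theorem continuous_area {Y : Type*} [TopologicalSpace Y] (n : ℕ) {t : Y → ℕ → X × X}
    (h : ∀ i, Continuous fun y => t y i) : Continuous fun y => area n (t y) := by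
  have h1 := area_continuous_psum (Y := Y) ((List.range n).flatMap fun i =>
    [fun y => (t y i).1, fun y => (t y i).2, fun y => (t y i).1⁻¹, fun y => (t y i).2⁻¹])
    (by
      intro s hs
      rw [List.mem_flatMap] at hs
      obtain ⟨i, -, hi⟩ := hs
      simp only [List.mem_cons, List.not_mem_nil, or_false] at hi
      rcases hi with rfl | rfl | rfl | rfl
      · exact (h i).fst
      · exact (h i).snd
      · exact (h i).fst.inv
      · exact (h i).snd.inv) (fun _ => 1) continuous_const
  have h2 : ∀ y, area n (t y) = psum (fun g h => Th (bp g) (bp h)) 1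
      (((List.range n).flatMap fun i =>
        [fun y => (t y i).1, fun y => (t y i).2, fun y => (t y i).1⁻¹, fun y => (t y i).2⁻¹]).map
          fun s => s y) := by
    intro y
    rw [area, letters, List.map_flatMap]
    rfl
  simp only [h2]
  exact h1

end Pool.Teich
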