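import Pool.Agent.Teich.Iota
import Pool.Agent.Teich.Area

/-!
# The area above a geodesic arc

PROOF. The measure on `ℍ` is `ds dt / t²` (`UpperHalfPlane.volume_def`). By symmetry
(`iota b a = - iota a b`, `Th b a = - Th a b`) let `x_a < x_b` (for `x_a = x_b` both sides are `0`).
`GG a b y > 0` iff `(s - c)² + t² > r²` with `c = (|b|² - |a|²)/(2 (x_b - x_a))`,
`r² = (x_a - c)² + y_a² = (x_b - c)² + y_b²`; for `s` in `(x_a, x_b)` put
`R(s) = sqrt (r² - (s - c)²) > 0` (it is at least `min y_a y_b`: concave function of `s` under the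
square root). Tonelli: `∫ iota = ∫_{x_a}^{x_b} ∫_{R(s)}^∞ dt/t² ds = ∫_{x_a}^{x_b} ds/R(s)`.
The function `F s = 2 arctan ((s - x_a)/(y_a + R s))` is continuous on `[x_a, x_b]`,
`F x_a = 0`, `F x_b = Th a b` (`R x_b = y_b`) and `F' = 1/R` on the open interval: with
`u = s - c`, `u_a = x_a - c`, `R' = -u/R`, `u² + R² = u_a² + y_a² = r²`:
`F' = 2 [(y_a + R) - (u - u_a) R'] / ((y_a + R)² + (u - u_a)²)`, the numerator is
`2 [(y_a + R) R + (u - u_a) u]/R = 2 [r² + y_a R - u_a u]/R` and the denominator is
`2 [r² + y_a R - u_a u]`.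
-/

namespace Pool.Teich

open Complex ComplexConjugate UpperHalfPlane MeasureTheory
open scoped MatrixGroups

namespace ArcInt

theorem continuous_GG (a b : ℍ) : Continuous (GG a b) := by
  unfold GG
  have h1 : Continuous fun y : ℍ => normSq (y : ℂ) :=
    Complex.continuous_normSq.comp UpperHalfPlane.continuous_coe
  have h2 : Continuous fun y : ℍ => y.re := UpperHalfPlane.continuous_re
  fun_prop

theorem GG_swap (a b y : ℍ) : GG b a y = - GG a b y := by
  unfold GG
  ring

theorem iota_swap (a b y : ℍ) : iota b a y = - iota a b y := by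
  unfold iota
  rw [GG_swap]
  by_cases h1 : a.re < y.re ∧ y.re < b.re ∧ 0 < GG a b y
  · have h2 : ¬ (b.re < y.re ∧ y.re < a.re ∧ 0 < - GG a b y) := fun h => by
      linarith [h1.1, h.2.1]
    have h3 : a.re < y.re ∧ y.re < b.re ∧ - GG a b y < 0 := ⟨h1.1, h1.2.1, by linarith [h1.2.2]⟩
    rw [if_neg h2, if_pos h3, if_pos h1]
  · by_cases h2 : b.re < y.re ∧ y.re < a.re ∧ GG a b y < 0
    · have h3 : b.re < y.re ∧ y.re < a.re ∧ 0 < - GG a b y := ⟨h2.1, h2.2.1, by linarith [h2.2.2]⟩
      rw [if_pos h3, if_neg h1, if_pos h2]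
      norm_num
    · have h3 : ¬ (b.re < y.re ∧ y.re < a.re ∧ 0 < - GG a b y) := fun h =>
        h2 ⟨h.1, h.2.1, by linarith [h.2.2]⟩
      have h4 : ¬ (a.re < y.re ∧ y.re < b.re ∧ - GG a b y < 0) := fun h =>
        h1 ⟨h.1, h.2.1, by linarith [h.2.2]⟩
      rw [if_neg h3, if_neg h4, if_neg h1, if_neg h2]
      norm_num

theorem Th_swap (a b : ℍ) : Th b a = - Th a b := by
  unfold Th
  rw [← mul_neg, ← Real.arctan_neg, ← neg_div]
  congr 3
  · ring
  · ring

/-- the region above the arc -/
def SS (a b : ℍ) : Set ℍ := {y | a.re < y.re ∧ y.re < b.re ∧ 0 < GG a b y}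

theorem measurableSet_SS (a b : ℍ) : MeasurableSet (SS a b) := by
  have h1 : MeasurableSet {y : ℍ | a.re < y.re} :=
    (isOpen_lt continuous_const UpperHalfPlane.continuous_re).measurableSet
  have h2 : MeasurableSet {y : ℍ | y.re < b.re} :=
    (isOpen_lt UpperHalfPlane.continuous_re continuous_const).measurableSet
  have h3 : MeasurableSet {y : ℍ | 0 < GG a b y} :=
    (isOpen_lt continuous_const (continuous_GG a b)).measurableSet
  exact h1.inter (h2.inter h3)

theorem iota_eq_indicator {a b : ℍ} (h : a.re ≤ b.re) :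
    iota a b = (SS a b).indicator 1 := by
  funext y
  unfold iota
  by_cases h1 : a.re < y.re ∧ y.re < b.re ∧ 0 < GG a b y
  · rw [if_pos h1, Set.indicator_of_mem (show y ∈ SS a b from h1)]
    rfl
  · have h2 : ¬ (b.re < y.re ∧ y.re < a.re ∧ GG a b y < 0) := fun h' => by
      linarith [h'.1, h'.2.1]
    rw [if_neg h1, if_neg h2, Set.indicator_of_notMem (show y ∉ SS a b from h1)]

/-- square of the height of the arc -/
noncomputable def qq (a b : ℍ) (s : ℝ) : ℝ :=
  normSq (a : ℂ) + (normSq (b : ℂ) - normSq (a : ℂ)) / (b.re - a.re) * (s - a.re) - s ^ 2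

theorem normSq_re_im (a : ℍ) : normSq (a : ℂ) = a.re ^ 2 + a.im ^ 2 := by
  rw [Complex.normSq_apply]
  simp only [UpperHalfPlane.coe_re, UpperHalfPlane.coe_im]
  ring

theorem qq_pos {a b : ℍ} (h : a.re < b.re) {s : ℝ} (h1 : a.re ≤ s) (h2 : s ≤ b.re) :
    0 < qq a b s := by
  have hd : 0 < b.re - a.re := by linarith
  have e : qq a b s * (b.re - a.re) =
      (b.re - s) * a.im ^ 2 + (s - a.re) * b.im ^ 2 +
        (s - a.re) * (b.re - s) * (b.re - a.re) := by
    unfold qq
    rw [normSq_re_im, normSq_re_im]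
    field_simp
    ring
  have ha := a.im_pos
  have hb := b.im_pos
  have hpos : 0 < qq a b s * (b.re - a.re) := by
    rw [e]
    have t1 : 0 ≤ (s - a.re) * (b.re - s) * (b.re - a.re) :=
      mul_nonneg (mul_nonneg (by linarith) (by linarith)) hd.le
    rcases lt_or_eq_of_le h1 with h3 | h3
    · have t2 : 0 < (s - a.re) * b.im ^ 2 := mul_pos (by linarith) (by positivity)
      have t3 : 0 ≤ (b.re - s) * a.im ^ 2 := mul_nonneg (by linarith) (by positivity)
      linarith
    · have t2 : 0 ≤ (s - a.re) * b.im ^ 2 := mul_nonneg (by linarith) (by positivity)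
      have t3 : 0 < (b.re - s) * a.im ^ 2 := mul_pos (by linarith) (by positivity)
      linarith
  exact (pos_iff_pos_of_mul_pos hpos).mpr hd

theorem qq_left {a b : ℍ} : qq a b a.re = a.im ^ 2 := by
  unfold qq
  rw [normSq_re_im]
  ring

theorem qq_right {a b : ℍ} (h : a.re < b.re) : qq a b b.re = b.im ^ 2 := by
  have hd : b.re - a.re ≠ 0 := by linarith
  unfold qq
  rw [div_mul_cancel₀ _ hd, normSq_re_im, normSq_re_im]
  ring

theorem continuous_qq (a b : ℍ) : Continuous (qq a b) := by
  unfold qq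
  fun_prop

/-- height of the arc -/
noncomputable def RR (a b : ℍ) (s : ℝ) : ℝ := Real.sqrt (qq a b s)

theorem continuous_RR (a b : ℍ) : Continuous (RR a b) :=
  Real.continuous_sqrt.comp (continuous_qq a b)

theorem RR_pos {a b : ℍ} (h : a.re < b.re) {s : ℝ} (h1 : a.re ≤ s) (h2 : s ≤ b.re) :
    0 < RR a b s := Real.sqrt_pos.mpr (qq_pos h h1 h2)

theorem mem_SS_iff {a b : ℍ} (h : a.re < b.re) (y : ℍ) :
    y ∈ SS a b ↔ a.re < y.re ∧ y.re < b.re ∧ RR a b y.re < y.im := by
  have hd : 0 < b.re - a.re := by linarith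
  have e : GG a b y = (b.re - a.re) * (y.im ^ 2 - qq a b y.re) := by
    unfold GG qq
    rw [normSq_re_im y]
    field_simp
    ring
  have k : 0 < GG a b y ↔ RR a b y.re < y.im := by
    rw [e, mul_pos_iff_of_pos_left hd, sub_pos]
    unfold RR
    rw [Real.sqrt_lt' y.im_pos]
  unfold SS
  change (a.re < y.re ∧ y.re < b.re ∧ 0 < GG a b y) ↔ _
  rw [k]

/-- the primitive -/
noncomputable def FF (a b : ℍ) (s : ℝ) : ℝ := 2 * Real.arctan ((s - a.re) / (a.im + RR a b s))

theorem hasDerivAt_qq (a b : ℍ) (s : ℝ) :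
    HasDerivAt (qq a b)
      ((normSq (b : ℂ) - normSq (a : ℂ)) / (b.re - a.re) - 2 * s) s := by
  unfold qq
  have h1 : HasDerivAt (fun s : ℝ => normSq (a : ℂ) +
      (normSq (b : ℂ) - normSq (a : ℂ)) / (b.re - a.re) * (s - a.re))
      ((normSq (b : ℂ) - normSq (a : ℂ)) / (b.re - a.re) * 1) s :=
    (((hasDerivAt_id s).sub_const a.re).const_mul _).const_add _
  have h2 : HasDerivAt (fun s : ℝ => s ^ 2) (2 * s) s := by
    simpa using hasDerivAt_pow 2 s
  exact (h1.sub h2).congr_deriv (by ring)

theorem hasDerivAt_FF {a b : ℍ} (h : a.re < b.re) {s : ℝ} (h1 : a.re ≤ s) (h2 : s ≤ b.re) :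
    HasDerivAt (FF a b) (1 / RR a b s) s := by
  have hq := qq_pos h h1 h2
  have hR := RR_pos h h1 h2
  have ha := a.im_pos
  have hD : a.im + RR a b s ≠ 0 := by linarith
  have hR' : HasDerivAt (RR a b)
      (((normSq (b : ℂ) - normSq (a : ℂ)) / (b.re - a.re) - 2 * s) / (2 * RR a b s)) s :=
    (hasDerivAt_qq a b s).sqrt hq.ne'
  have h3 := (((hasDerivAt_id s).sub_const a.re).div (hR'.const_add a.im) hD).arctan.const_mul 2
  have hsq : RR a b s ^ 2 = qq a b s := Real.sq_sqrt hq.le
  refine h3.congr_deriv ?_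
  simp only [id, Pi.div_apply]
  have hDen : (a.im + RR a b s) ^ 2 + (s - a.re) ^ 2 ≠ 0 := by positivity
  generalize hm : (normSq (b : ℂ) - normSq (a : ℂ)) / (b.re - a.re) = m at *
  have hqq : RR a b s ^ 2 = a.re ^ 2 + a.im ^ 2 + m * (s - a.re) - s ^ 2 := by
    rw [hsq]
    unfold qq
    rw [hm, normSq_re_im]
  generalize RR a b s = R at *
  field_simp
  nlinarith [hqq]

theorem integral_inv_RR {a b : ℍ} (h : a.re < b.re) :
    ∫ s in a.re..b.re, 1 / RR a b s = Th a b := by
  have hint : IntervalIntegrable (fun s => 1 / RR a b s) volume a.re b.re := by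
    apply ContinuousOn.intervalIntegrable
    rw [Set.uIcc_of_le h.le]
    exact continuousOn_const.div (continuous_RR a b).continuousOn
      fun s hs => (RR_pos h hs.1 hs.2).ne'
  rw [intervalIntegral.integral_eq_sub_of_hasDerivAt (f := FF a b) _ hint]
  · unfold FF Th
    have e : RR a b b.re = b.im := by
      unfold RR
      rw [qq_right h]
      exact Real.sqrt_sq b.im_pos.le
    rw [e, sub_self, zero_div, Real.arctan_zero]
    ring
  · intro s hs
    rw [Set.uIcc_of_le h.le] at hs
    exact hasDerivAt_FF h hs.1 hs.2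

theorem inner {c : ℝ} (hc : 0 < c) :
    ∫⁻ t : ℝ in Set.Ioi c, ENNReal.ofReal (1 / t ^ 2) = ENNReal.ofReal (1 / c) := by
  have h1 : IntegrableOn (fun t : ℝ => t ^ (-2 : ℝ)) (Set.Ioi c) :=
    integrableOn_Ioi_rpow_of_lt (by norm_num) hc
  have h2 : ∫ t : ℝ in Set.Ioi c, t ^ (-2 : ℝ) = 1 / c := by
    rw [integral_Ioi_rpow_of_lt (by norm_num) hc]
    norm_num
    rw [Real.rpow_neg_one]
  rw [← h2, ofReal_integral_eq_lintegral_ofReal h1]
  · refine setLIntegral_congr_fun measurableSet_Ioi ?_
    intro t ht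
    have ht0 : 0 < t := lt_trans hc ht
    simp only
    congr 1
    rw [Real.rpow_neg ht0.le, one_div]
    norm_num
  · refine (ae_restrict_iff' measurableSet_Ioi).mpr (Filter.Eventually.of_forall ?_)
    intro t ht
    have ht0 : 0 < t := lt_trans hc ht
    exact Real.rpow_nonneg ht0.le _

theorem volume_SS {a b : ℍ} (h : a.re < b.re) :
    volume (SS a b) = ENNReal.ofReal (Th a b) := by
  rw [UpperHalfPlane.volume_eq_lintegral]
  have hmeas : MeasurableSet ((UpperHalfPlane.coe) '' (SS a b)) :=
    measurableEmbedding_coe.measurableSet_image.mpr (measurableSet_SS a b)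
  rw [← lintegral_indicator hmeas]
  rw [← (Complex.volume_preserving_equiv_real_prod.symm _).lintegral_comp_emb
    Complex.measurableEquivRealProd.symm.measurableEmbedding]
  have hf : (fun p : ℝ × ℝ => ((UpperHalfPlane.coe) '' (SS a b)).indicator
      (fun z : ℂ => (((1 / ‖z.im‖₊) ^ 2 : NNReal) : ENNReal))
      (Complex.measurableEquivRealProd.symm p)) =
      fun p : ℝ × ℝ => (Set.Ioo a.re b.re).indicator (fun s =>
        (Set.Ioi (RR a b s)).indicator (fun t => ENNReal.ofReal (1 / t ^ 2)) p.2) p.1 := by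
    funext p
    obtain ⟨s, t⟩ := p
    have hz : (Complex.measurableEquivRealProd.symm (s, t)) = (⟨s, t⟩ : ℂ) := rfl
    rw [hz]
    simp only
    by_cases hs : s ∈ Set.Ioo a.re b.re
    · rw [Set.indicator_of_mem hs]
      have hR := RR_pos h hs.1.le hs.2.le
      by_cases ht : t ∈ Set.Ioi (RR a b s)
      · have ht0 : 0 < t := lt_trans hR ht
        rw [Set.indicator_of_mem ht, Set.indicator_of_mem]
        · simp only
          rw [ENNReal.ofReal, Real.toNNReal_of_nonneg (by positivity)]
          congr 1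
          ext
          simp
        · refine ⟨⟨⟨s, t⟩, ht0⟩, (mem_SS_iff h _).mpr ⟨hs.1, hs.2, ht⟩, rfl⟩
      · rw [Set.indicator_of_notMem ht, Set.indicator_of_notMem]
        rintro ⟨y, hy, hyz⟩
        have hy' := (mem_SS_iff h y).mp hy
        have e1 : y.re = s := congrArg Complex.re hyz
        have e2 : y.im = t := congrArg Complex.im hyz
        rw [e1, e2] at hy'
        exact ht hy'.2.2
    · rw [Set.indicator_of_notMem hs, Set.indicator_of_notMem]
      rintro ⟨y, hy, hyz⟩
      have hy' := (mem_SS_iff h y).mp hy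
      have e1 : y.re = s := congrArg Complex.re hyz
      rw [e1] at hy'
      exact hs ⟨hy'.1, hy'.2.1⟩
  have hmeas2 : MeasurableSet {p : ℝ × ℝ | p.1 ∈ Set.Ioo a.re b.re ∧ RR a b p.1 < p.2} := by
    refine MeasurableSet.inter (measurableSet_Ioo.preimage measurable_fst) ?_
    exact (isOpen_lt ((continuous_RR a b).comp continuous_fst) continuous_snd).measurableSet
  have hmf : Measurable fun p : ℝ × ℝ => (Set.Ioo a.re b.re).indicator (fun s =>
        (Set.Ioi (RR a b s)).indicator (fun t => ENNReal.ofReal (1 / t ^ 2)) p.2) p.1 := by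
    have e : (fun p : ℝ × ℝ => (Set.Ioo a.re b.re).indicator (fun s =>
        (Set.Ioi (RR a b s)).indicator (fun t => ENNReal.ofReal (1 / t ^ 2)) p.2) p.1) =
        {p : ℝ × ℝ | p.1 ∈ Set.Ioo a.re b.re ∧ RR a b p.1 < p.2}.indicator
          fun p => ENNReal.ofReal (1 / p.2 ^ 2) := by
      funext p
      by_cases h1 : p.1 ∈ Set.Ioo a.re b.re
      · rw [Set.indicator_of_mem h1]
        by_cases h2 : p.2 ∈ Set.Ioi (RR a b p.1)
        · rw [Set.indicator_of_mem h2, Set.indicator_of_mem]
          exact ⟨h1, h2⟩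
        · rw [Set.indicator_of_notMem h2, Set.indicator_of_notMem]
          exact fun h' => h2 h'.2
      · rw [Set.indicator_of_notMem h1, Set.indicator_of_notMem]
        exact fun h' => h1 h'.1
    rw [e]
    refine Measurable.indicator ?_ hmeas2
    exact ENNReal.measurable_ofReal.comp (measurable_const.div (measurable_snd.pow_const 2))
  rw [show (fun p : ℝ × ℝ => ((UpperHalfPlane.coe) '' (SS a b)).indicator
      (fun z : ℂ => (((1 / ‖z.im‖₊) ^ 2 : NNReal) : ENNReal))
      (Complex.measurableEquivRealProd.symm p)) = _ from hf, Measure.volume_eq_prod,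
    lintegral_prod _ hmf.aemeasurable]
  have hout : ∀ s : ℝ, ∫⁻ t : ℝ, (Set.Ioo a.re b.re).indicator (fun s =>
        (Set.Ioi (RR a b s)).indicator (fun t => ENNReal.ofReal (1 / t ^ 2)) t) s =
      (Set.Ioo a.re b.re).indicator (fun s => ENNReal.ofReal (1 / RR a b s)) s := by
    intro s
    by_cases hs : s ∈ Set.Ioo a.re b.re
    · simp only [Set.indicator_of_mem hs]
      rw [lintegral_indicator measurableSet_Ioi, inner (RR_pos h hs.1.le hs.2.le)]
    · simp only [Set.indicator_of_notMem hs]
      simp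
  simp only [hout]
  rw [lintegral_indicator measurableSet_Ioo, ← integral_inv_RR h,
    intervalIntegral.integral_of_le h.le, integral_Ioc_eq_integral_Ioo,
    ofReal_integral_eq_lintegral_ofReal]
  · have hc : ContinuousOn (fun s => 1 / RR a b s) (Set.Icc a.re b.re) :=
      continuousOn_const.div (continuous_RR a b).continuousOn
        fun s hs => (RR_pos h hs.1 hs.2).ne'
    exact (hc.integrableOn_Icc).mono_set Set.Ioo_subset_Icc_self
  · refine (ae_restrict_iff' measurableSet_Ioo).mpr (Filter.Eventually.of_forall ?_)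
    intro s hs
    exact one_div_nonneg.mpr (RR_pos h hs.1.le hs.2.le).le

theorem arcKey {a b : ℍ} (h : a.re ≤ b.re) :
    Integrable (iota a b) ∧ ∫ y, iota a b y = Th a b := by
  rw [iota_eq_indicator h]
  have hv : volume (SS a b) = ENNReal.ofReal (Th a b) := by
    rcases h.lt_or_eq with h1 | h1
    · exact volume_SS h1
    · have e : SS a b = ∅ := by
        rw [Set.eq_empty_iff_forall_notMem]
        intro y hy
        have h2 := hy.1
        have h3 := hy.2.1
        linarith
      rw [e, measure_empty]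
      unfold Th
      rw [h1, sub_self, zero_div, Real.arctan_zero, mul_zero, ENNReal.ofReal_zero]
  have hTh : 0 ≤ Th a b := by
    unfold Th
    have h2 : 0 ≤ (b.re - a.re) / (a.im + b.im) :=
      div_nonneg (by linarith) (by linarith [a.im_pos, b.im_pos])
    have h3 := Real.arctan_nonneg.mpr h2
    linarith
  constructor
  · rw [integrable_indicator_iff (measurableSet_SS a b)]
    refine integrableOn_const ?_ ?_
    · rw [hv]
      exact ENNReal.ofReal_ne_top
    · simp
  · rw [integral_indicator_one (measurableSet_SS a b), Measure.real, hv,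
      ENNReal.toReal_ofReal hTh]

end ArcInt

open ArcInt

theorem measurable_iota (a b : ℍ) : Measurable (iota a b) := by
  rcases le_total a.re b.re with h | h
  · rw [iota_eq_indicator h]
    exact measurable_one.indicator (measurableSet_SS a b)
  · have e : iota a b = fun y => - iota b a y := by
      funext y
      rw [iota_swap b a]
    rw [e, iota_eq_indicator h]
    exact (measurable_one.indicator (measurableSet_SS b a)).neg

theorem integrable_iota (a b : ℍ) : Integrable (iota a b) := by
  rcases le_total a.re b.re with h | h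
  · exact (arcKey h).1
  · have e : iota a b = fun y => - iota b a y := by
      funext y
      rw [iota_swap b a]
    rw [e]
    exact (arcKey h).1.neg

theorem integral_iota (a b : ℍ) : ∫ y, iota a b y = Th a b := by
  rcases le_total a.re b.re with h | h
  · exact (arcKey h).2
  · have e : iota a b = fun y => - iota b a y := by
      funext y
      rw [iota_swap b a]
    rw [e, integral_neg, (arcKey h).2, Th_swap b a]

end Pool.Teich
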