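import Pool.Agent.Teich.Ray

/-!
# The boundary map

PROOF of `exists_H`. `K₀` from `Coc.exists_cover` for `φ`; choose `γ β n` near the ray `β` at time
`n`, and put `w β n = act (φ' (γ β n)) 0`. By `near_cmp`, `|w β (n+1) - w β n| ≤ C e^(-c n)`, so
`w β` is a Cauchy sequence (`cauchySeq_of_le_geometric` with ratio `e^(-c) < 1`) with limit `H β` and
`|w β n - H β| ≤ C' e^(-c n)` (`dist_le_of_le_geometric_of_tendsto`). Norm:
`1 - |act g 0|² = 1/|pc g|²` (`one_sub_normSq` with `w = 0`) tends to `0` along the sequence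
(`nm_pc`, `near_growth`). For another compact `K` use `near_cmp` for `K ∪ K₀` to compare
`act (φ' γ) 0` with `w β n`; take the sum of the two constants and the minimum of the two
exponents.
-/

namespace Pool.Teich

open Matrix Real Filter Topology
open Pool.Agent.Hhelper67.Anosov (nm wordLen)

/-- `H` is the boundary map of the pair `φ, φ'` -/
structure BdMap {Γ : Type*} [Group Γ] (φ φ' : Γ →* X) (H : ℝ → ℂ) : Prop where
  norm : ∀ β, ‖H β‖ = 1
  est : ∀ K : Set X, IsCompact K → ∃ C c : ℝ, 0 < C ∧ 0 < c ∧ ∀ (β : ℝ) (n : ℕ) (γ : Γ),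
    (φ γ)⁻¹ * (Rot β * Dexp n) ∈ K → ‖act (φ' γ) 0 - H β‖ ≤ C * Real.exp (-(c * n))

/-- the distance of the image of the centre to the circle -/
theorem one_sub_act_zero (g : X) : 1 - ‖act g 0‖ ^ 2 = 4 / (nm g + 2) := by
  have h1 := one_sub_normSq g (w := 0) (by simp)
  have h2 : J g 0 = pc g := by
    unfold J
    ring
  rw [h1, h2, nm_pc, norm_zero]
  have h3 : ‖pc g‖ ≠ 0 := norm_ne_zero_iff.2 (pc_ne g)
  field_simp
  ring

theorem exists_H {Γ : Type*} [Group Γ] {φ φ' : Γ →* X} (h : FD φ) (hc : Coc φ) (h' : FD φ')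
    (hc' : Coc φ') {S : Finset Γ} (hS : Subgroup.closure (S : Set Γ) = ⊤) :
    ∃ H : ℝ → ℂ, BdMap φ φ' H := by
  obtain ⟨K₀, hK₀, -, -, hcov⟩ := hc.exists_cover
  choose γ hγ using fun (β : ℝ) (n : ℕ) => hcov (Rot β * Dexp n)
  obtain ⟨C, c, hC, hc0, hcmp⟩ := near_cmp h h' hc' hS hK₀
  have hpow : ∀ n : ℕ, (Real.exp (-c)) ^ n = Real.exp (-(c * n)) := by
    intro n
    rw [← Real.exp_nat_mul]
    congr 1
    ring
  have hstep : ∀ β n, dist (act (φ' (γ β n)) 0) (act (φ' (γ β (n + 1))) 0) ≤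
      C * (Real.exp (-c)) ^ n := by
    intro β n
    rw [dist_eq_norm, hpow]
    exact hcmp β n (γ β n) (γ β (n + 1)) (hγ β n) (Or.inr (hγ β (n + 1)))
  have hr : Real.exp (-c) < 1 := by
    rw [Real.exp_lt_one_iff]
    linarith
  have hcauchy : ∀ β, CauchySeq fun n => act (φ' (γ β n)) 0 := fun β =>
    cauchySeq_of_le_geometric _ _ hr (hstep β)
  choose H hH using fun β => cauchySeq_tendsto_of_complete (hcauchy β)
  have hest : ∀ β n, dist (act (φ' (γ β n)) 0) (H β) ≤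
      C * (Real.exp (-c)) ^ n / (1 - Real.exp (-c)) := fun β n =>
    dist_le_of_le_geometric_of_tendsto _ _ hr (hstep β) (hH β) n
  have h1r : 0 < 1 - Real.exp (-c) := by linarith
  refine ⟨H, ⟨?_, ?_⟩⟩
  · intro β
    obtain ⟨C1, c1, hC1, hc1, hgr⟩ := near_growth φ h' hc' hS hK₀
    have hnm : Tendsto (fun n : ℕ => nm (φ' (γ β n)) + 2) atTop atTop := by
      have h2 : Tendsto (fun n : ℕ => C1 * Real.exp (c1 * n)) atTop atTop := by
        refine Tendsto.const_mul_atTop hC1 (Real.tendsto_exp_atTop.comp ?_)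
        exact Tendsto.const_mul_atTop hc1 tendsto_natCast_atTop_atTop
      refine tendsto_atTop_mono (fun n => ?_) h2
      have h3 := hgr β n (γ β n) (hγ β n)
      linarith
    have h2 : Tendsto (fun n : ℕ => 1 - ‖act (φ' (γ β n)) 0‖ ^ 2) atTop (𝓝 0) := by
      have h3 : Tendsto (fun n : ℕ => 4 / (nm (φ' (γ β n)) + 2)) atTop (𝓝 0) :=
        Tendsto.const_div_atTop hnm 4
      refine h3.congr fun n => ?_
      rw [one_sub_act_zero]
    have h3 : Tendsto (fun n : ℕ => 1 - ‖act (φ' (γ β n)) 0‖ ^ 2) atTop (𝓝 (1 - ‖H β‖ ^ 2)) :=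
      ((hH β).norm.pow 2).const_sub 1
    have h4 := tendsto_nhds_unique h2 h3
    have h5 : ‖H β‖ ^ 2 = 1 := by linarith
    exact (pow_eq_one_iff_of_nonneg (norm_nonneg _) two_ne_zero).1 h5
  · intro K hK
    obtain ⟨C2, c2, hC2, hc2, hcmp2⟩ := near_cmp h h' hc' hS (hK.union hK₀)
    refine ⟨C2 + C / (1 - Real.exp (-c)), min c c2, by positivity, lt_min hc0 hc2, ?_⟩
    intro β n η hη
    have h1 := hcmp2 β n η (γ β n) (Or.inl hη) (Or.inl (Or.inr (hγ β n)))
    have h2 := hest β n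
    rw [dist_eq_norm, hpow] at h2
    have h3 : Real.exp (-(c2 * n)) ≤ Real.exp (-(min c c2 * n)) := by
      rw [Real.exp_le_exp, neg_le_neg_iff]
      exact mul_le_mul_of_nonneg_right (min_le_right _ _) (Nat.cast_nonneg n)
    have h4 : Real.exp (-(c * n)) ≤ Real.exp (-(min c c2 * n)) := by
      rw [Real.exp_le_exp, neg_le_neg_iff]
      exact mul_le_mul_of_nonneg_right (min_le_left _ _) (Nat.cast_nonneg n)
    have h5 : ‖act (φ' η) 0 - H β‖ ≤ ‖act (φ' η) 0 - act (φ' (γ β n)) 0‖ +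
        ‖act (φ' (γ β n)) 0 - H β‖ := by
      have h6 : act (φ' η) 0 - H β = (act (φ' η) 0 - act (φ' (γ β n)) 0) +
          (act (φ' (γ β n)) 0 - H β) := by ring
      rw [h6]
      exact norm_add_le _ _
    have h6 : C2 * Real.exp (-(c2 * n)) ≤ C2 * Real.exp (-(min c c2 * n)) :=
      mul_le_mul_of_nonneg_left h3 hC2.le
    have h7 : C * Real.exp (-(c * n)) / (1 - Real.exp (-c)) ≤
        C / (1 - Real.exp (-c)) * Real.exp (-(min c c2 * n)) := by
      rw [mul_div_right_comm]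
      exact mul_le_mul_of_nonneg_left h4 (by positivity)
    rw [add_mul]
    linarith

end Pool.Teich
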