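import Pool.Agent.Teich.BdMap

/-!
# Continuity, periodicity and equivariance of the boundary map

Let `K₀` be the compact set of `Coc.exists_cover`: for all `β, n` there is `γ` with
`(φ γ)⁻¹ * (Rot β * Dexp n) ∈ K₀`.

PROOFS. `bd_eq`: if `K` is compact and for every `n` some `γ` is near both rays `β` and `β'` at
time `n` (with respect to `K`) then `H β = H β'` (`|H β - H β'| ≤ 2 C e^(-c n)` for all `n`).
Continuity: `K₁ = K₀ * {g | nm g ≤ 4}` is compact (`isCompact_nm`). Given `ε` choose `n` with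
`2 C e^(-c n) < ε`, constants for `K₁`. Let `γ` be near the ray `β` at time `n` for `K₀ ⊆ K₁`
(`1` has `nm = 2`). If `|β' - β| ≤ e^(-2n)` then
`(φ γ)⁻¹ * (Rot β' * Dexp n) = ((φ γ)⁻¹ * (Rot β * Dexp n)) * (Dexp (-n) * Rot (β' - β) * Dexp n)` is
in `K₁` (`shear_nm`), so `|H β - H β'| ≤ 2 C e^(-c n) < ε`.
Periodicity: `K₀` is invariant under `g ↦ -g` and `Rot (β + π) = - Rot β`, so the same `γ` is near
both rays; `bd_eq`.
Equivariance: let `f` be a lift of `φ γ₀` and `β' = f β`. Then `φ γ₀ * Rot β = Rot β' * b` with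
`b 1 0 = 0` (`φ γ₀ (E β) = r E (f β)`, and the first column of `Rot β` is `E β`). Let `γ` be near
the ray `β` at time `n`. Then `(φ (γ₀ γ))⁻¹ * (Rot β' * Dexp n) =
(φ γ)⁻¹ * Rot β * b⁻¹ * Dexp n = ((φ γ)⁻¹ * (Rot β * Dexp n)) * (Dexp (-n) * b⁻¹ * Dexp n)`, in the
compact set `K₀ * {g | nm g ≤ nm b⁻¹}` (`upper_nm`). So `act (φ' γ₀) (act (φ' γ) 0) → H β'` and
`act (φ' γ) 0 → H β` for `n → ∞`, and `act (φ' γ₀)` is continuous on the closed disk
(`continuousOn_act`, or directly: the denominator `J` does not vanish).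
-/

namespace Pool.Teich

open Matrix Real Filter Topology
open Pool.Agent.Hhelper67.Anosov (nm wordLen)
open scoped Pointwise

variable {Γ : Type*} [Group Γ] {φ φ' : Γ →* X} {H : ℝ → ℂ}

theorem bd_tendsto {C c : ℝ} (hc : 0 < c) :
    Tendsto (fun n : ℕ => C * Real.exp (-(c * n))) atTop (𝓝 0) := by
  have h1 : Tendsto (fun n : ℕ => c * (n : ℝ)) atTop atTop :=
    tendsto_natCast_atTop_atTop.const_mul_atTop hc
  have h2 := (Real.tendsto_exp_neg_atTop_nhds_zero.comp h1).const_mul C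
  rw [mul_zero] at h2
  exact h2

theorem bd_conv {x : ℕ → ℂ} {y : ℂ} {C c : ℝ} (hc : 0 < c)
    (h : ∀ n : ℕ, ‖x n - y‖ ≤ C * Real.exp (-(c * n))) : Tendsto x atTop (𝓝 y) := by
  rw [tendsto_iff_norm_sub_tendsto_zero]
  exact squeeze_zero (fun n => norm_nonneg _) h (bd_tendsto hc)

theorem bd_eq (hH : BdMap φ φ' H) {K : Set X} (hK : IsCompact K) {β β' : ℝ}
    (h : ∀ n : ℕ, ∃ γ, (φ γ)⁻¹ * (Rot β * Dexp n) ∈ K ∧ (φ γ)⁻¹ * (Rot β' * Dexp n) ∈ K) :
    H β = H β' := by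
  obtain ⟨C, c, -, hc, h1⟩ := hH.est K hK
  choose γ hγ hγ' using h
  exact tendsto_nhds_unique (bd_conv hc fun n => h1 β n (γ n) (hγ n))
    (bd_conv hc fun n => h1 β' n (γ n) (hγ' n))

/-- the shear between two rays -/
theorem bd_shear (g : X) (β β' s : ℝ) :
    g * (Rot β' * Dexp s) =
      (g * (Rot β * Dexp s)) * (Dexp (-s) * Rot (β' - β) * Dexp s) := by
  have h1 : Rot β' = Rot β * Rot (β' - β) := by
    rw [← Rot_add]
    congr 1
    ring
  rw [h1, Dexp_neg]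
  group

theorem isCompact_mul_nm {K : Set X} (hK : IsCompact K) (R : ℝ) :
    IsCompact (K * {g : X | nm g ≤ R}) := hK.mul (isCompact_nm R)

theorem BdMap.continuous (hc : Coc φ) (hH : BdMap φ φ' H) : Continuous H := by
  obtain ⟨K, hK, -, -, hcov⟩ := hc.exists_cover
  have h2 : nm (1 : X) ≤ 4 := by
    have h3 := nm_Dexp 0
    have h4 : Dexp 0 = 1 := by
      apply Subtype.ext
      show !![Real.exp 0, 0; 0, Real.exp (-0)] = (1 : Matrix (Fin 2) (Fin 2) ℝ)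
      rw [neg_zero, Real.exp_zero, Matrix.one_fin_two]
    rw [h4, mul_zero, neg_zero, Real.exp_zero] at h3
    rw [h3]
    norm_num
  obtain ⟨C, c, -, hc0, h1⟩ := hH.est _ (isCompact_mul_nm hK 4)
  rw [Metric.continuous_iff]
  intro β ε hε
  have h5 := (bd_tendsto (C := 2 * C) hc0).eventually (gt_mem_nhds hε)
  obtain ⟨n, hn⟩ := h5.exists
  refine ⟨Real.exp (-(2 * (n : ℝ))), Real.exp_pos _, fun β' hβ' => ?_⟩
  rw [Real.dist_eq] at hβ'
  obtain ⟨γ, hγ⟩ := hcov (Rot β * Dexp n)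
  have h6 : (φ γ)⁻¹ * (Rot β * Dexp n) ∈ K * {g : X | nm g ≤ 4} := by
    have := Set.mul_mem_mul hγ (show (1 : X) ∈ {g : X | nm g ≤ 4} from h2)
    rwa [mul_one] at this
  have h7 : (φ γ)⁻¹ * (Rot β' * Dexp n) ∈ K * {g : X | nm g ≤ 4} := by
    rw [bd_shear (φ γ)⁻¹ β β' n]
    exact Set.mul_mem_mul hγ (shear_nm (Nat.cast_nonneg n) hβ'.le)
  have h8 := h1 β n γ h6
  have h9 := h1 β' n γ h7
  rw [dist_eq_norm]
  have h10 : H β' - H β = (act (φ' γ) 0 - H β) - (act (φ' γ) 0 - H β') := by ring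
  rw [h10]
  calc ‖(act (φ' γ) 0 - H β) - (act (φ' γ) 0 - H β')‖
      ≤ ‖act (φ' γ) 0 - H β‖ + ‖act (φ' γ) 0 - H β'‖ := norm_sub_le _ _
    _ ≤ C * Real.exp (-(c * n)) + C * Real.exp (-(c * n)) := add_le_add h8 h9
    _ = 2 * C * Real.exp (-(c * n)) := by ring
    _ < ε := hn

theorem BdMap.periodic (hc : Coc φ) (hH : BdMap φ φ' H) (β : ℝ) : H (β + π) = H β := by
  obtain ⟨K, hK, -, hneg, hcov⟩ := hc.exists_cover
  symm
  refine bd_eq hH hK fun n => ?_
  obtain ⟨γ, hγ⟩ := hcov (Rot β * Dexp n)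
  refine ⟨γ, hγ, hneg _ hγ _ ?_⟩
  rw [Matrix.SpecialLinearGroup.coe_mul, Matrix.SpecialLinearGroup.coe_mul,
    Matrix.SpecialLinearGroup.coe_mul, Matrix.SpecialLinearGroup.coe_mul]
  have h1 := Rot_pi β
  rw [h1, Matrix.neg_mul, Matrix.mul_neg]

/-- the lift of `g` at `β` is the direction of the image of the first column -/
theorem bd_col {g : X} {f : ℝ ≃o ℝ} (hf : IsLift g f) (β : ℝ) :
    ((Rot (f β))⁻¹ * (g * Rot β)).1 1 0 = 0 := by
  obtain ⟨r, -, hr⟩ := hf β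
  have h0 := congrFun hr 0
  have h1 := congrFun hr 1
  simp only [E, Matrix.mulVec, dotProduct, Fin.sum_univ_two, Matrix.cons_val_zero,
    Matrix.cons_val_one, Pi.smul_apply, smul_eq_mul] at h0 h1
  have hinv : ((Rot (f β))⁻¹).1 = !![Real.cos (f β), Real.sin (f β);
      -Real.sin (f β), Real.cos (f β)] := by
    have h : ((Rot (f β))⁻¹).1 = Matrix.adjugate (Rot (f β)).1 :=
      Matrix.SpecialLinearGroup.coe_inv _
    rw [h, Matrix.adjugate_fin_two]
    show !![Real.cos (f β), -(-Real.sin (f β)); -Real.sin (f β), Real.cos (f β)] = _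
    rw [neg_neg]
  rw [Matrix.SpecialLinearGroup.coe_mul, Matrix.SpecialLinearGroup.coe_mul, hinv]
  show (!![Real.cos (f β), Real.sin (f β); -Real.sin (f β), Real.cos (f β)] *
    (g.1 * !![Real.cos β, -Real.sin β; Real.sin β, Real.cos β]) :
      Matrix (Fin 2) (Fin 2) ℝ) 1 0 = 0
  simp only [Matrix.mul_apply, Fin.sum_univ_two, Matrix.of_apply, Matrix.cons_val',
    Matrix.cons_val_zero, Matrix.cons_val_one, Matrix.cons_val_fin_one]
  linear_combination (-Real.sin (f β)) * h0 + Real.cos (f β) * h1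

theorem continuousAt_act (g : X) {w : ℂ} (hw : ‖w‖ ≤ 1) : ContinuousAt (act g) w := by
  unfold act
  apply ContinuousAt.div
  · fun_prop
  · unfold J
    fun_prop
  · exact J_ne g hw

theorem BdMap.equivariant (hc : Coc φ) (hH : BdMap φ φ' H) {γ : Γ} {f : ℝ ≃o ℝ}
    (hf : IsLift (φ γ) f) (β : ℝ) : H (f β) = act (φ' γ) (H β) := by
  obtain ⟨K, hK, -, -, hcov⟩ := hc.exists_cover
  obtain ⟨b, hb⟩ : ∃ b : X, b = (Rot (f β))⁻¹ * (φ γ * Rot β) := ⟨_, rfl⟩
  have hb10 : b.1 1 0 = 0 := by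
    rw [hb]
    exact bd_col hf β
  have hbi : (b⁻¹).1 1 0 = 0 := by
    have h : (b⁻¹).1 = Matrix.adjugate b.1 := Matrix.SpecialLinearGroup.coe_inv b
    rw [h, Matrix.adjugate_fin_two]
    show -b.1 1 0 = 0
    rw [hb10, neg_zero]
  obtain ⟨C, c, -, hc0, h1⟩ := hH.est _ hK
  obtain ⟨C', c', -, hc0', h1'⟩ := hH.est _ (isCompact_mul_nm hK (nm b⁻¹))
  have hcov' : ∀ n : ℕ, ∃ η, (φ η)⁻¹ * (Rot β * Dexp n) ∈ K := fun n => hcov _
  choose η hη using hcov'
  have h3 : Tendsto (fun n => act (φ' (η n)) 0) atTop (𝓝 (H β)) :=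
    bd_conv hc0 fun n => h1 β n (η n) (hη n)
  have h4 : Tendsto (fun n => act (φ' (γ * η n)) 0) atTop (𝓝 (H (f β))) := by
    refine bd_conv hc0' fun n => h1' (f β) n (γ * η n) ?_
    have h5 : (φ (γ * η n))⁻¹ * (Rot (f β) * Dexp n) =
        ((φ (η n))⁻¹ * (Rot β * Dexp n)) * (Dexp (-n) * b⁻¹ * Dexp n) := by
      rw [hb, Dexp_neg, map_mul]
      group
    rw [h5]
    exact Set.mul_mem_mul (hη n) (upper_nm (Nat.cast_nonneg n) hbi)
  have h6 : Tendsto (fun n => act (φ' γ) (act (φ' (η n)) 0)) atTop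
      (𝓝 (act (φ' γ) (H β))) := by
    refine (continuousAt_act (φ' γ) (hH.norm β).le).tendsto.comp h3
  have h7 : (fun n => act (φ' (γ * η n)) 0) = fun n => act (φ' γ) (act (φ' (η n)) 0) := by
    funext n
    rw [map_mul]
    exact act_mul _ _ (by rw [norm_zero]; exact zero_le_one)
  rw [h7] at h4
  exact tendsto_nhds_unique h4 h6

end Pool.Teich
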