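import Pool.Agent.Teich.Diag

/-!
# The sign of a one-holed torus of level `+1`

PROOF. `Hyp.conj`: `w (f α) < w (α + kπ) = w α + kπ` (`Per.map_add_int`).
`sign_torus`: by `IsLift.cm_eq` we may choose the lift `a` of `A' = Dpos r` with `a 0 = 0` (it
exists: `E 0` is an eigenvector with positive eigenvalue, so `a 0 ∈ 2πℤ`; compose with a `tr (2k)`).
For `α ∈ (0, π/2)`: `A' (E α) = (λ cos α, sin α/λ)` has a smaller angle, so `a α < α` (angles in
`(0, π/2)`: `0 = a 0 < a α < a π = π`). Let `b = fb`, `D = b * a⁻¹ * b⁻¹`, `cm a b = a * D`.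
`B (E 0) = (B 0 0, B 1 0)` is in the open first quadrant, so `α₁ = b 0` is in `(0, π/2)` modulo
`2π`, `D α₁ = α₁`, and `a α₁ < α₁` (`a` commutes with `tr 2`). For every `α` choose an integer `k`
with `α₁ + kπ ≤ α < α₁ + (k+1)π`: `a (D α) < a (α₁ + (k+1)π) = a α₁ + (k+1)π < α₁ + kπ + π ≤ α + π`.
This contradicts the second half of `Hyp 1 (cm a b)`.
-/

namespace Pool.Teich

open Matrix Real

theorem Hyp.conj {k : ℤ} {f w : ℝ ≃o ℝ} (h : Hyp k f) (hw : Per w) : Hyp k (w * f * w⁻¹) := by
  obtain ⟨⟨α, hα⟩, ⟨β, hβ⟩⟩ := h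
  have key : ∀ γ : ℝ, (w * f * w⁻¹) (w γ) = w (f γ) := by
    intro γ
    change w (f (w.symm (w γ))) = w (f γ)
    rw [OrderIso.symm_apply_apply]
  refine ⟨⟨w α, ?_⟩, ⟨w β, ?_⟩⟩
  · rw [key, ← hw.map_add_int]
    exact w.strictMono hα
  · rw [key, ← hw.map_add_int]
    exact w.strictMono hβ

theorem SignT.mulVec_E (M : Matrix (Fin 2) (Fin 2) ℝ) (α : ℝ) :
    M *ᵥ E α = ![M 0 0 * Real.cos α + M 0 1 * Real.sin α, M 1 0 * Real.cos α + M 1 1 * Real.sin α] := by
  ext i
  fin_cases i <;> simp [E, Matrix.mulVec, dotProduct, Fin.sum_univ_two]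

/-- the two components of the lifting condition -/
theorem SignT.comp {g : X} {f : ℝ ≃o ℝ} (h : IsLift g f) (α : ℝ) : ∃ r : ℝ, 0 < r ∧
    g.1 0 0 * Real.cos α + g.1 0 1 * Real.sin α = r * Real.cos (f α) ∧
    g.1 1 0 * Real.cos α + g.1 1 1 * Real.sin α = r * Real.sin (f α) := by
  obtain ⟨r, hr, h1⟩ := h α
  refine ⟨r, hr, ?_, ?_⟩
  · have h2 := congrFun h1 0
    rw [SignT.mulVec_E] at h2
    simpa [E] using h2
  · have h2 := congrFun h1 1
    rw [SignT.mulVec_E] at h2
    simpa [E] using h2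

/-- reduction of an angle modulo `2 π` -/
theorem SignT.red (x : ℝ) : ∃ m : ℤ, 0 ≤ x + m * (2 * π) ∧ x + m * (2 * π) < 2 * π := by
  have h2 : (0 : ℝ) < 2 * π := by positivity
  obtain ⟨m, hm, -⟩ := existsUnique_add_zsmul_mem_Ico h2 x 0
  refine ⟨m, ?_, ?_⟩
  · have := hm.1
    simpa using this
  · have := hm.2
    simpa using this

theorem sign_torus {r : ℝ} {B : X} {fa fb : ℝ ≃o ℝ} (hA : IsLift (Dpos r) fa)
    (hB : IsLift B fb) (h : Hyp 1 (cm fa fb)) (h11 : 0 < B.1 0 0) (h21 : 0 < B.1 1 0) : False := by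
  have hpa := hA.per
  have hpb := hB.per
  have hl1 := one_lt_lam r
  have hl0 := lam_pos r
  -- normalise `fa`
  obtain ⟨m, hm0, hm1⟩ := SignT.red (fa 0)
  set a : ℝ ≃o ℝ := tr (2 * m) * fa with ha
  have haapp : ∀ x, a x = fa x + m * (2 * π) := by
    intro x
    change fa x + ((2 * m : ℤ) : ℝ) * π = _
    push_cast
    ring
  have hpa' : Per a := (per_tr _).mul hpa
  have hcosper : ∀ x : ℝ, Real.cos (x + m * (2 * π)) = Real.cos x := fun x =>
    Real.cos_add_int_mul_two_pi x m
  have hsinper : ∀ x : ℝ, Real.sin (x + m * (2 * π)) = Real.sin x := fun x =>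
    Real.sin_add_int_mul_two_pi x m
  have hcomp : ∀ α : ℝ, ∃ s : ℝ, 0 < s ∧ lam r * Real.cos α = s * Real.cos (a α) ∧
      (lam r)⁻¹ * Real.sin α = s * Real.sin (a α) := by
    intro α
    obtain ⟨s, hs, h1, h2⟩ := SignT.comp hA α
    refine ⟨s, hs, ?_, ?_⟩
    · rw [haapp, hcosper, ← h1]
      simp [Dpos]
    · rw [haapp, hsinper, ← h2]
      simp [Dpos]
  have ha0 : a 0 = 0 := by
    obtain ⟨s, hs, h1, h2⟩ := hcomp 0
    rw [Real.cos_zero, mul_one] at h1
    rw [Real.sin_zero, mul_zero] at h2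
    have hsin : Real.sin (a 0) = 0 := by
      rcases mul_eq_zero.1 h2.symm with h3 | h3
      · exact absurd h3 hs.ne'
      · exact h3
    have hcos : 0 < Real.cos (a 0) := by
      by_contra hc
      push Not at hc
      have : s * Real.cos (a 0) ≤ 0 := mul_nonpos_of_nonneg_of_nonpos hs.le hc
      linarith
    have hge : 0 ≤ a 0 := by rw [haapp]; exact hm0
    have hlt : a 0 < 2 * π := by rw [haapp]; exact hm1
    obtain ⟨n, hn⟩ := Real.sin_eq_zero_iff.1 hsin
    have hpi := Real.pi_pos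
    rw [← hn] at hge hlt hcos ⊢
    have hn0 : 0 ≤ n := by
      by_contra hc
      push Not at hc
      have : (n : ℝ) < 0 := by exact_mod_cast hc
      nlinarith
    have hn2 : n < 2 := by
      by_contra hc
      push Not at hc
      have : (2 : ℝ) ≤ n := by exact_mod_cast hc
      nlinarith
    have hcase : n = 0 ∨ n = 1 := by omega
    rcases hcase with rfl | rfl
    · simp
    · exfalso
      rw [Int.cast_one, one_mul, Real.cos_pi] at hcos
      linarith
  have hapi : a π = π := by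
    have := hpa' 0
    rw [zero_add, ha0, zero_add] at this
    exact this
  -- `a` decreases angles in the first quadrant
  have hdec : ∀ α : ℝ, 0 < α → α < π / 2 → a α < α := by
    intro α h0 h1
    have hpi := Real.pi_pos
    obtain ⟨s, hs, h2, h3⟩ := hcomp α
    have hlo : 0 < a α := by
      rw [← ha0]
      exact a.strictMono h0
    have hhi : a α < π := by
      have := a.strictMono (show α < π by linarith)
      rwa [hapi] at this
    have hs1 : 0 < Real.sin α := Real.sin_pos_of_pos_of_lt_pi h0 (by linarith)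
    have hc1 : 0 < Real.cos α := Real.cos_pos_of_mem_Ioo ⟨by linarith, h1⟩
    have hinv : (lam r)⁻¹ < 1 := inv_lt_one_of_one_lt₀ hl1
    have h4 : 0 < s * Real.sin (α - a α) := by
      have h5 : s * Real.sin (α - a α) = (lam r - (lam r)⁻¹) * (Real.sin α * Real.cos α) := by
        rw [Real.sin_sub]
        linear_combination (-Real.sin α) * h2 + Real.cos α * h3
      rw [h5]
      have : 0 < lam r - (lam r)⁻¹ := by linarith
      positivity
    have h5 : 0 < Real.sin (α - a α) := by
      by_contra hc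
      push Not at hc
      have : s * Real.sin (α - a α) ≤ 0 := mul_nonpos_of_nonneg_of_nonpos hs.le hc
      linarith
    by_contra hc
    push Not at hc
    have h6 : Real.sin (α - a α) ≤ 0 := Real.sin_nonpos_of_nonpos_of_neg_pi_le (by linarith) (by linarith)
    linarith
  -- the fixed point of the conjugate
  set α₁ : ℝ := fb 0 with hα₁
  have hlt1 : a α₁ < α₁ := by
    obtain ⟨n, hn0, hn1⟩ := SignT.red α₁
    obtain ⟨s, hs, h1, h2⟩ := SignT.comp hB 0
    rw [Real.cos_zero, Real.sin_zero, mul_one, mul_zero, add_zero] at h1 h2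
    have hc : 0 < Real.cos α₁ := by
      by_contra hc
      push Not at hc
      have : s * Real.cos α₁ ≤ 0 := mul_nonpos_of_nonneg_of_nonpos hs.le hc
      linarith
    have hsn : 0 < Real.sin α₁ := by
      by_contra hc
      push Not at hc
      have : s * Real.sin α₁ ≤ 0 := mul_nonpos_of_nonneg_of_nonpos hs.le hc
      linarith
    rw [← Real.cos_add_int_mul_two_pi α₁ n] at hc
    rw [← Real.sin_add_int_mul_two_pi α₁ n] at hsn
    have hpi := Real.pi_pos
    set θ : ℝ := α₁ + n * (2 * π) with hθ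
    have hθ0 : 0 < θ := by
      rcases hn0.lt_or_eq with h3 | h3
      · exact h3
      · exfalso
        rw [← h3, Real.sin_zero] at hsn
        exact lt_irrefl _ hsn
    have hθπ : θ < π := by
      by_contra hcc
      push Not at hcc
      have h3 : Real.sin (θ - 2 * π) ≤ 0 :=
        Real.sin_nonpos_of_nonpos_of_neg_pi_le (by linarith) (by linarith)
      rw [Real.sin_sub_two_pi] at h3
      linarith
    have hθ2 : θ < π / 2 := by
      by_contra hcc
      push Not at hcc
      have h3 : Real.cos θ ≤ 0 := Real.cos_nonpos_of_pi_div_two_le_of_le hcc (by linarith)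
      linarith
    have h3 := hdec θ hθ0 hθ2
    have h4 : a θ = a α₁ + ((2 * n : ℤ) : ℝ) * π := by
      rw [← hpa'.map_add_int]
      congr 1
      rw [hθ]
      push_cast
      ring
    rw [h4, hθ] at h3
    push_cast at h3
    linarith
  -- the commutator
  have hcm : cm fa fb = a * (fb * a⁻¹ * fb⁻¹) := by
    have h1 := cm_tr hpa hpb (2 * m) 0
    rw [tr_zero, one_mul] at h1
    rw [← h1, ← ha, cm]
    group
  set D : ℝ ≃o ℝ := fb * a⁻¹ * fb⁻¹ with hD
  have hpD : Per D := (hpb.mul hpa'.inv).mul hpb.inv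
  have hDfix : D α₁ = α₁ := by
    change fb (a.symm (fb.symm (fb 0))) = fb 0
    rw [OrderIso.symm_apply_apply]
    congr 1
    rw [OrderIso.symm_apply_eq]
    exact ha0.symm
  obtain ⟨-, α, hα⟩ := h
  rw [hcm] at hα
  change α + ((1 : ℤ) : ℝ) * π < a (D α) at hα
  rw [Int.cast_one, one_mul] at hα
  obtain ⟨k, hk, -⟩ := existsUnique_add_zsmul_mem_Ico Real.pi_pos α α₁
  have hk1 := hk.1
  have hk2 := hk.2
  simp only [zsmul_eq_mul] at hk1 hk2
  have h1 : D α < α₁ + ((-k + 1 : ℤ) : ℝ) * π := by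
    have h2 : α < α₁ + ((-k + 1 : ℤ) : ℝ) * π := by
      push_cast
      linarith
    have h3 := D.strictMono h2
    rwa [hpD.map_add_int, hDfix] at h3
  have h2 : a (D α) < a α₁ + ((-k + 1 : ℤ) : ℝ) * π := by
    have h3 := a.strictMono h1
    rwa [hpa'.map_add_int] at h3
  push_cast at h2
  linarith

end Pool.Teich
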