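import Pool.Agent.Teich.Diag

/-!
# Level and trace

PROOFS. `tce_lt`: order isomorphisms of `ℝ` are continuous, so there is `α₀` with
`f α₀ = α₀ + kπ`. Then `C (E α₀) = r E (α₀ + kπ) = - r E α₀` (`k` odd), so the eigenvalues are
`-r, -1/r` and `tce C = -(r + 1/r) ≤ -2`. If `r = 1` put `N = -C`: `N (E α₀) = E α₀`, `det N = 1`,
so `N v = v + c ⟨v, E (α₀ + π/2)⟩ E α₀`, and the sign of
`det (E α, N (E α)) = - c sin² (α - α₀)` does not depend on `α`. On the other hand
`N (E α) = r' E (f α - kπ)`, `r' > 0`, and `δ = f α - kπ - α ∈ (-π, π)` (it vanishes at `α₀`,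
`f` is increasing and commutes with `+π`), so the sign of `det (E α, N (E α))` is the sign of
`sin δ`, i.e. of `δ`: contradiction to `Hyp k f`.
-/

namespace Pool.Teich

open Matrix Real

/-- a hyperbolic lift of odd level has trace `< -2` -/
theorem tce_lt {C : X} {f : ℝ ≃o ℝ} (h : IsLift C f) {k : ℤ} (hk : Odd k) (hf : Hyp k f) :
    tce C < -2 := by
  have hper := h.per
  -- the fixed direction
  have hcont : Continuous fun α => f α - (α + k * π) := by
    have h1 : Continuous f := f.continuous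
    fun_prop
  obtain ⟨⟨α₁, h1⟩, α₂, h2⟩ := hf
  obtain ⟨α₀, h0⟩ : ∃ α₀, f α₀ = α₀ + k * π := by
    have h3 : (fun α => f α - (α + k * π)) α₁ ≤ 0 := by
      simp only
      linarith
    have h4 : 0 ≤ (fun α => f α - (α + k * π)) α₂ := by
      simp only
      linarith
    obtain ⟨α₀, hα⟩ := mem_range_of_exists_le_of_exists_ge hcont ⟨α₁, h3⟩ ⟨α₂, h4⟩
    refine ⟨α₀, ?_⟩
    simp only at hα
    linarith
  have hcos : ∀ x : ℝ, Real.cos (x + k * π) = -Real.cos x := by
    intro x
    rw [Real.cos_add_int_mul_pi, hk.neg_one_zpow]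
    ring
  have hsin : ∀ x : ℝ, Real.sin (x + k * π) = -Real.sin x := by
    intro x
    rw [Real.sin_add_int_mul_pi, hk.neg_one_zpow]
    ring
  obtain ⟨a, ha⟩ : ∃ a, a = C.1 0 0 := ⟨_, rfl⟩
  obtain ⟨b, hb⟩ : ∃ b, b = C.1 0 1 := ⟨_, rfl⟩
  obtain ⟨c, hc⟩ : ∃ c, c = C.1 1 0 := ⟨_, rfl⟩
  obtain ⟨d, hd⟩ : ∃ d, d = C.1 1 1 := ⟨_, rfl⟩
  have hdet : a * d - b * c = 1 := by
    rw [ha, hb, hc, hd]
    exact X_det C
  have htr : tce C = a + d := by rw [ha, hd]; rfl
  have hE : ∀ α, ∃ r : ℝ, 0 < r ∧ a * Real.cos α + b * Real.sin α = r * Real.cos (f α) ∧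
      c * Real.cos α + d * Real.sin α = r * Real.sin (f α) := by
    intro α
    obtain ⟨r, hr, e⟩ := h α
    refine ⟨r, hr, ?_, ?_⟩
    · have e0 := congrFun e 0
      simp only [Matrix.mulVec, dotProduct, Fin.sum_univ_two, E, Pi.smul_apply, smul_eq_mul] at e0
      simp at e0
      rw [ha, hb]
      exact e0
    · have e1 := congrFun e 1
      simp only [Matrix.mulVec, dotProduct, Fin.sum_univ_two, E, Pi.smul_apply, smul_eq_mul] at e1
      simp at e1
      rw [hc, hd]
      exact e1
  rw [htr]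
  by_contra hcon
  push Not at hcon
  -- the trace is -2
  have htr2 : a + d = -2 := by
    obtain ⟨r, hr, e1, e2⟩ := hE α₀
    rw [h0, hcos] at e1
    rw [h0, hsin] at e2
    have e3 : (a + r) * Real.cos α₀ + b * Real.sin α₀ = 0 := by linarith
    have e4 : c * Real.cos α₀ + (d + r) * Real.sin α₀ = 0 := by linarith
    have e5 : ((a + r) * (d + r) - b * c) * Real.cos α₀ = 0 := by
      linear_combination (d + r) * e3 - b * e4
    have e6 : ((a + r) * (d + r) - b * c) * Real.sin α₀ = 0 := by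
      linear_combination (a + r) * e4 - c * e3
    have e7 : (a + r) * (d + r) - b * c = 0 := by
      have h3 := Real.sin_sq_add_cos_sq α₀
      have h4 : ((a + r) * (d + r) - b * c) * (Real.sin α₀ ^ 2 + Real.cos α₀ ^ 2) = 0 := by
        linear_combination Real.sin α₀ * e6 + Real.cos α₀ * e5
      rwa [h3, mul_one] at h4
    have e8 : r ^ 2 + r * (a + d) + 1 = 0 := by linear_combination e7 - hdet
    have e9 : r * (a + d + 2) = -(r - 1) ^ 2 := by linear_combination e8
    have e10 : 0 ≤ r * (a + d + 2) := mul_nonneg hr.le (by linarith)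
    have e11 : r * (a + d + 2) = 0 := by nlinarith [sq_nonneg (r - 1)]
    rcases mul_eq_zero.1 e11 with h3 | h3
    · exact absurd h3 hr.ne'
    · linarith
  -- the quadratic form
  have hdisc : (d - a) ^ 2 + 4 * b * c = 0 := by nlinarith
  obtain ⟨q, hq⟩ : ∃ q : ℝ → ℝ, q = fun α => -(c * Real.cos α ^ 2 +
    (d - a) * Real.cos α * Real.sin α - b * Real.sin α ^ 2) := ⟨_, rfl⟩
  have hqs : ∀ α, ∃ r : ℝ, 0 < r ∧ q α = r * Real.sin (f α - k * π - α) := by
    intro α
    obtain ⟨r, hr, e1, e2⟩ := hE α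
    refine ⟨r, hr, ?_⟩
    have h3 : Real.sin (f α - k * π - α) = -Real.sin (f α - α) := by
      have h4 := hsin (f α - k * π - α)
      have h5 : f α - k * π - α + k * π = f α - α := by ring
      rw [h5] at h4
      linarith
    rw [h3, Real.sin_sub, hq]
    simp only
    linear_combination (-Real.cos α) * e2 + Real.sin α * e1
  have hδ : ∀ α, f α - k * π - α ≠ 0 → -π < f α - k * π - α ∧ f α - k * π - α < π := by
    intro α hne
    obtain ⟨j, hj⟩ : ∃ j : ℤ, j = ⌊(α - α₀) / π⌋ := ⟨_, rfl⟩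
    have hj1 : α₀ + j * π ≤ α := by
      have := Int.floor_le ((α - α₀) / π)
      rw [← hj, le_div_iff₀ Real.pi_pos] at this
      linarith
    have hj2 : α < α₀ + j * π + π := by
      have := Int.lt_floor_add_one ((α - α₀) / π)
      rw [← hj, div_lt_iff₀ Real.pi_pos] at this
      linarith
    have hfj : f (α₀ + j * π) = α₀ + k * π + j * π := by
      rw [hper.map_add_int, h0]
    have hfj' : f (α₀ + (j + 1 : ℤ) * π) = α₀ + k * π + (j + 1 : ℤ) * π := by
      rw [hper.map_add_int, h0]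
    rcases hj1.eq_or_lt with h3 | h3
    · exfalso
      apply hne
      rw [← h3, hfj]
      ring
    · have h4 := f.strictMono h3
      have h5 : α < α₀ + (j + 1 : ℤ) * π := by
        push_cast
        linarith
      have h6 := f.strictMono h5
      rw [hfj] at h4
      rw [hfj'] at h6
      push_cast at h6 h5
      constructor <;> linarith
  have hq1 : q α₁ < 0 := by
    obtain ⟨r, hr, e⟩ := hqs α₁
    obtain ⟨h3, -⟩ := hδ α₁ (by linarith)
    rw [e]
    exact mul_neg_of_pos_of_neg hr (Real.sin_neg_of_neg_of_neg_pi_lt (by linarith) h3)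
  have hq2 : 0 < q α₂ := by
    obtain ⟨r, hr, e⟩ := hqs α₂
    obtain ⟨-, h3⟩ := hδ α₂ (by linarith)
    rw [e]
    exact mul_pos hr (Real.sin_pos_of_pos_of_lt_pi (by linarith) h3)
  have hqf : ∀ α, -4 * c * q α = (2 * c * Real.cos α + (d - a) * Real.sin α) ^ 2 := by
    intro α
    rw [hq]
    simp only
    linear_combination (-Real.sin α ^ 2) * hdisc
  rcases lt_trichotomy c 0 with h3 | h3 | h3
  · have := hqf α₁
    nlinarith [sq_nonneg (2 * c * Real.cos α₁ + (d - a) * Real.sin α₁)]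
  · have h4 : d - a = 0 := by
      rw [h3] at hdisc
      have : (d - a) ^ 2 = 0 := by linarith
      simpa using this
    have h5 : ∀ α, q α = b * Real.sin α ^ 2 := by
      intro α
      rw [hq]
      simp only
      rw [h3, h4]
      ring
    rw [h5] at hq1 hq2
    rcases le_or_gt b 0 with h6 | h6
    · nlinarith [sq_nonneg (Real.sin α₂)]
    · nlinarith [sq_nonneg (Real.sin α₁)]
  · have := hqf α₂
    nlinarith [sq_nonneg (2 * c * Real.cos α₂ + (d - a) * Real.sin α₂)]

end Pool.Teich
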