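import Pool.Agent.Teich.Torus
import Pool.Agent.Teich.TceLt
import Pool.Agent.Teich.SignT

/-!
# Normal form of one-holed tori of level `+1`

PROOF. Let `t = tr (cm A B) = -(μ + 1/μ) < -2`, `x = tr A`, `y = tr B`, `z = tr (A B)`. Fricke:
`t = x² + y² + z² - x y z - 2`. If `|x| ≤ 2` then `y² + z² - x y z ≥ 0` and `t ≥ -2`; so
`x = tce A > 2`, `A = v * Dpos r1 * v⁻¹` (`exists_diag_pos`), `λ = lam r1`.
Let `B' = v⁻¹ * B * v = !![b11, b12; b21, b22]`. `tr (cm (Dpos r1) B') = 2 - κ² b12 b21`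
(`κ = λ - 1/λ`), so `b12 b21 = (2 + μ + 1/μ)/κ² = beta² > 0`; `b11 + b22 = tce B > 0`,
`b11 b22 = 1 + b12 b21 > 0`, so `b11, b22 > 0`.

SIGN LEMMA (file `SignT`, `sign_torus`): `b12, b21 < 0`; apply it to the lifts conjugated by a lift
of `v⁻¹` (`Hyp.conj`).

So `b12, b21 < 0`. `Dexp (-s) * B' * Dexp s` has entries `b12 e^(-2s), b21 e^(2s)` and the same
diagonal; choose `s` with both `= -beta`. With `v' = v * Dexp s`: `A = v' * torA r1 * v'⁻¹`
(`Dexp s` commutes with `Dpos r1`), `B = v' * torB m r1 r2 * v'⁻¹`, `r2 = log b11`. Then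
`v' * torC * v'⁻¹ = cm A B = u * Dneg m * u⁻¹` and `torC = w * Dneg m * w⁻¹`,
`w = frameX torC m`; so `u⁻¹ * v' * w` commutes with `Dneg m`, is `Dexp r3` or its negative
(`centralizer`), i.e. `v' = ± u * Dexp r3 * w⁻¹ = ± torV`. Conjugation by `-v'` is the same.
-/

namespace Pool.Teich

open Matrix Real

namespace TNFAux

lemma mulX (a b : X) : (a * b).1 = a.1 * b.1 := rfl

lemma invX (a : X) : (a⁻¹).1 = !![a.1 1 1, -a.1 0 1; -a.1 1 0, a.1 0 0] := by
  have h : (a⁻¹).1 = Matrix.adjugate a.1 := Matrix.SpecialLinearGroup.coe_inv a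
  rw [h, Matrix.adjugate_fin_two]

lemma detX (a : X) : a.1 0 0 * a.1 1 1 - a.1 0 1 * a.1 1 0 = 1 := by
  have h := a.2
  rw [Matrix.det_fin_two] at h
  exact h

lemma extX {a b : X} (h00 : a.1 0 0 = b.1 0 0) (h01 : a.1 0 1 = b.1 0 1)
    (h10 : a.1 1 0 = b.1 1 0) (h11 : a.1 1 1 = b.1 1 1) : a = b := by
  apply Subtype.ext
  ext i j
  fin_cases i <;> fin_cases j
  · exact h00
  · exact h01
  · exact h10
  · exact h11

lemma tce_cm (A B : X) : tce (cm A B) =
    (B.1 0 0 * B.1 1 1 - B.1 0 1 * B.1 1 0) * tce A ^ 2 +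
    (A.1 0 0 * A.1 1 1 - A.1 0 1 * A.1 1 0) * tce B ^ 2 + tce (A * B) ^ 2 -
    tce A * tce B * tce (A * B) -
    2 * (A.1 0 0 * A.1 1 1 - A.1 0 1 * A.1 1 0) * (B.1 0 0 * B.1 1 1 - B.1 0 1 * B.1 1 0) := by
  unfold tce cm
  simp only [mulX, invX, Matrix.mul_apply, Fin.sum_univ_two, Matrix.of_apply, Matrix.cons_val',
    Matrix.cons_val_zero, Matrix.cons_val_one, Matrix.cons_val_fin_one]
  ring

end TNFAux

open TNFAux

theorem fricke (A B : X) : tce (cm A B) =
    tce A ^ 2 + tce B ^ 2 + tce (A * B) ^ 2 - tce A * tce B * tce (A * B) - 2 := by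
  rw [tce_cm, detX, detX]
  ring

namespace TNFAux

lemma Dpos_val (r : ℝ) : (Dpos r).1 = !![lam r, 0; 0, (lam r)⁻¹] := rfl

lemma Dneg_val (r : ℝ) : (Dneg r).1 = !![-lam r, 0; 0, -(lam r)⁻¹] := rfl

lemma Dexp_val (r : ℝ) : (Dexp r).1 = !![Real.exp r, 0; 0, Real.exp (-r)] := rfl

lemma torB_val (m r1 r2 : ℝ) : (torB m r1 r2).1 = !![Real.exp r2, -beta m r1; -beta m r1,
    (1 + beta m r1 ^ 2) * Real.exp (-r2)] := rfl

lemma lam_add_inv_gt (m : ℝ) : 2 < lam m + (lam m)⁻¹ := by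
  have h := one_lt_lam m
  have h0 := lam_pos m
  have h1 : lam m * (lam m)⁻¹ = 1 := mul_inv_cancel₀ h0.ne'
  have h2 : 0 < (lam m)⁻¹ := inv_pos.2 h0
  have h3 : 0 < (lam m - 1) ^ 2 * (lam m)⁻¹ := by
    have : lam m - 1 ≠ 0 := by linarith
    positivity
  nlinarith

lemma two_lt_of {x y z t : ℝ} (hx : 0 < x) (h : t = x ^ 2 + y ^ 2 + z ^ 2 - x * y * z - 2)
    (ht : t < -2) : 2 < x := by
  by_contra hc
  rw [not_lt] at hc
  have h1 : 0 ≤ (y - x * z / 2) ^ 2 := sq_nonneg _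
  have h2 : 0 ≤ z ^ 2 * (1 - x ^ 2 / 4) := by
    apply mul_nonneg (sq_nonneg _)
    nlinarith
  nlinarith [sq_nonneg x]

lemma conj_cm (v A B : X) : cm (v * A * v⁻¹) (v * B * v⁻¹) = v * cm A B * v⁻¹ := by
  unfold cm
  group

lemma tce_cm_diag (r : ℝ) (B : X) :
    tce (cm (Dpos r) B) = 2 - B.1 0 1 * B.1 1 0 * kap r ^ 2 := by
  have h := detX B
  have hl : lam r * (lam r)⁻¹ = 1 := mul_inv_cancel₀ (lam_pos r).ne'
  unfold tce cm kap
  simp only [mulX, invX, Dpos_val, Matrix.mul_apply, Fin.sum_univ_two, Matrix.of_apply,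
    Matrix.cons_val', Matrix.cons_val_zero, Matrix.cons_val_one, Matrix.cons_val_fin_one]
  generalize (lam r)⁻¹ = k at hl ⊢
  generalize lam r = l at hl ⊢
  generalize B.1 0 0 = p at h ⊢
  generalize B.1 0 1 = q at h ⊢
  generalize B.1 1 0 = x at h ⊢
  generalize B.1 1 1 = y at h ⊢
  have e : p * y = 1 + q * x := by linear_combination h
  have e1 : (l * p * k + (l * q + 0 * y) * 0 + 0) * y = l * k * (p * y) := by ring
  linear_combination (2 * l * k) * h + (2 - 2 * q * x) * hl + 2 * q * x * hl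

lemma Dexp_comm (s r : ℝ) : Dexp s * Dpos r = Dpos r * Dexp s := by
  apply extX <;>
  simp only [mulX, Dpos_val, Dexp_val, Matrix.mul_apply, Fin.sum_univ_two, Matrix.of_apply,
    Matrix.cons_val', Matrix.cons_val_zero, Matrix.cons_val_one, Matrix.cons_val_fin_one] <;> ring

end TNFAux

theorem torus_nf {A B : X} {fa fb : ℝ ≃o ℝ} (hA : IsLift A fa) (hB : IsLift B fb)
    (h : Hyp 1 (cm fa fb)) (ta : 0 < tce A) (tb : 0 < tce B) {u : X} {m : ℝ}
    (hC : cm A B = u * Dneg m * u⁻¹) : ∃ r1 r2 r3, (A, B) = torus u m r1 r2 r3 := by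
  -- traces
  have ht : tce (cm A B) = -(lam m + (lam m)⁻¹) := by
    rw [hC, tce_conj]
    unfold tce
    rw [Dneg_val]
    simp only [Matrix.of_apply, Matrix.cons_val', Matrix.cons_val_zero, Matrix.cons_val_one,
      Matrix.cons_val_fin_one]
    ring
  have hlm := lam_add_inv_gt m
  have hx : 2 < tce A := two_lt_of ta (fricke A B) (by rw [ht]; linarith)
  obtain ⟨v, r1, hA1⟩ := exists_diag_pos hx
  obtain ⟨B', hB'⟩ : ∃ B' : X, B' = v⁻¹ * B * v := ⟨_, rfl⟩
  have hB1 : B = v * B' * v⁻¹ := by rw [hB']; group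
  have hdet := detX B'
  have htB : tce B = B'.1 0 0 + B'.1 1 1 := by rw [hB1, tce_conj]; rfl
  have hk := kap_pos r1
  have hqr : B'.1 0 1 * B'.1 1 0 * kap r1 ^ 2 = 2 + lam m + (lam m)⁻¹ := by
    have h1 : tce (cm A B) = tce (cm (Dpos r1) B') := by
      rw [hA1, hB1, conj_cm, tce_conj]
    rw [tce_cm_diag, ht] at h1
    linarith
  have hbp := beta_pos m r1
  have hb2 : beta m r1 ^ 2 = B'.1 0 1 * B'.1 1 0 := by
    unfold beta
    rw [div_pow, Real.sq_sqrt (by linarith), ← hqr]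
    field_simp
  have hqr0 : 0 < B'.1 0 1 * B'.1 1 0 := by rw [← hb2]; positivity
  have hps : B'.1 0 0 * B'.1 1 1 = 1 + beta m r1 ^ 2 := by rw [hb2]; linarith
  have hps0 : 0 < B'.1 0 0 * B'.1 1 1 := by rw [hps]; positivity
  have hp0 : 0 < B'.1 0 0 := by
    rw [htB] at tb
    by_contra hc
    rw [not_lt] at hc
    nlinarith
  -- the sign
  have hr0 : B'.1 1 0 < 0 := by
    rcases lt_trichotomy (B'.1 1 0) 0 with h1 | h1 | h1
    · exact h1
    · rw [h1, mul_zero] at hqr0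
      exact absurd hqr0 (lt_irrefl _)
    · exfalso
      obtain ⟨w, hw⟩ := exists_lift v⁻¹
      have hwp := hw.per
      have hA2 : IsLift (Dpos r1) (w * fa * w⁻¹) := by
        have e : Dpos r1 = v⁻¹ * A * (v⁻¹)⁻¹ := by rw [hA1]; group
        rw [e]
        exact (hw.mul hA).mul hw.inv
      have hB2 : IsLift B' (w * fb * w⁻¹) := by
        have e : B' = v⁻¹ * B * (v⁻¹)⁻¹ := by rw [hB']; group
        rw [e]
        exact (hw.mul hB).mul hw.inv
      have hH : Hyp 1 (cm (w * fa * w⁻¹) (w * fb * w⁻¹)) := by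
        have e : cm (w * fa * w⁻¹) (w * fb * w⁻¹) = w * cm fa fb * w⁻¹ := by
          unfold cm
          group
        rw [e]
        exact h.conj hwp
      exact sign_torus hA2 hB2 hH hp0 h1
  have hq0 : B'.1 0 1 < 0 := by nlinarith
  -- rescaling
  obtain ⟨s, hs⟩ : ∃ s : ℝ, Real.exp s * Real.exp s = -B'.1 0 1 / beta m r1 := by
    refine ⟨Real.log (-B'.1 0 1 / beta m r1) / 2, ?_⟩
    rw [← Real.exp_add, add_halves, Real.exp_log (div_pos (by linarith) hbp)]
  have hss : Real.exp s * Real.exp (-s) = 1 := by rw [← Real.exp_add]; simp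
  have hsr : Real.exp s * Real.exp s * B'.1 1 0 = -beta m r1 := by
    rw [hs]
    field_simp
    rw [hb2]
  have hsq : B'.1 0 1 * (Real.exp (-s) * Real.exp (-s)) = -beta m r1 := by
    have h1 : B'.1 0 1 = -beta m r1 * (Real.exp s * Real.exp s) := by
      rw [hs]
      field_simp
    rw [h1]
    have h2 : Real.exp s * Real.exp s * (Real.exp (-s) * Real.exp (-s)) = 1 := by
      calc Real.exp s * Real.exp s * (Real.exp (-s) * Real.exp (-s)) =
          (Real.exp s * Real.exp (-s)) * (Real.exp s * Real.exp (-s)) := by ring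
        _ = 1 := by rw [hss, one_mul]
    linear_combination (-beta m r1) * h2
  obtain ⟨r2, hr2⟩ : ∃ r2, Real.exp r2 = B'.1 0 0 := ⟨Real.log (B'.1 0 0), Real.exp_log hp0⟩
  have hr2' : (1 + beta m r1 ^ 2) * Real.exp (-r2) = B'.1 1 1 := by
    rw [← hps, Real.exp_neg, hr2]
    field_simp
  have hconj : B' = Dexp s * torB m r1 r2 * (Dexp s)⁻¹ := by
    have h1 : B' * Dexp s = Dexp s * torB m r1 r2 := by
      apply extX
      · simp only [mulX, torB_val, Dexp_val, Matrix.mul_apply, Fin.sum_univ_two, Matrix.of_apply,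
          Matrix.cons_val', Matrix.cons_val_zero, Matrix.cons_val_one, Matrix.cons_val_fin_one]
        rw [hr2]
        ring
      · simp only [mulX, torB_val, Dexp_val, Matrix.mul_apply, Fin.sum_univ_two, Matrix.of_apply,
          Matrix.cons_val', Matrix.cons_val_zero, Matrix.cons_val_one, Matrix.cons_val_fin_one]
        linear_combination (Real.exp s) * hsq - (B'.1 0 1 * Real.exp (-s)) * hss
      · simp only [mulX, torB_val, Dexp_val, Matrix.mul_apply, Fin.sum_univ_two, Matrix.of_apply,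
          Matrix.cons_val', Matrix.cons_val_zero, Matrix.cons_val_one, Matrix.cons_val_fin_one]
        linear_combination (Real.exp (-s)) * hsr - (B'.1 1 0 * Real.exp s) * hss
      · simp only [mulX, torB_val, Dexp_val, Matrix.mul_apply, Fin.sum_univ_two, Matrix.of_apply,
          Matrix.cons_val', Matrix.cons_val_zero, Matrix.cons_val_one, Matrix.cons_val_fin_one]
        rw [hr2']
        ring
    rw [← h1, mul_inv_cancel_right]
  obtain ⟨v', hv'⟩ : ∃ v' : X, v' = v * Dexp s := ⟨_, rfl⟩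
  have hA3 : A = v' * torA r1 * v'⁻¹ := by
    have h1 : Dexp s * Dpos r1 * (Dexp s)⁻¹ = Dpos r1 := by
      rw [Dexp_comm, mul_inv_cancel_right]
    rw [hA1, hv', torA]
    calc v * Dpos r1 * v⁻¹ = v * (Dexp s * Dpos r1 * (Dexp s)⁻¹) * v⁻¹ := by rw [h1]
      _ = _ := by group
  have hB3 : B = v' * torB m r1 r2 * v'⁻¹ := by
    rw [hB1, hconj, hv']
    group
  have hC3 : cm A B = v' * torC m r1 r2 * v'⁻¹ := by
    rw [hA3, hB3, conj_cm]
    rfl
  obtain ⟨w, hw⟩ : ∃ w : X, w = frameX (torC m r1 r2) m := ⟨_, rfl⟩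
  have hC4 : torC m r1 r2 = w * Dneg m * w⁻¹ := by
    rw [hw]
    exact frameX_spec _ _ (torC_pos m r1 r2).ne' (tce_torC m r1 r2)
  have hcomm : (u⁻¹ * v' * w) * Dneg m = Dneg m * (u⁻¹ * v' * w) := by
    have h1 : v' * (w * Dneg m * w⁻¹) * v'⁻¹ = u * Dneg m * u⁻¹ := by rw [← hC4, ← hC3, hC]
    calc (u⁻¹ * v' * w) * Dneg m = u⁻¹ * (v' * (w * Dneg m * w⁻¹) * v'⁻¹) * v' * w := by group
      _ = u⁻¹ * (u * Dneg m * u⁻¹) * v' * w := by rw [h1]
      _ = Dneg m * (u⁻¹ * v' * w) := by group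
  obtain ⟨r3, hr3⟩ := centralizer hcomm
  refine ⟨r1, r2, r3, ?_⟩
  rcases hr3 with h1 | h1
  · have h2 : v' = torV u m r1 r2 r3 := by
      rw [torV, ← hw, ← h1]
      group
    rw [torus, ← h2, ← hA3, ← hB3]
  · have h1' : u⁻¹ * v' * w = -Dexp r3 := Subtype.ext h1
    have h2 : v' = -torV u m r1 r2 r3 := by
      have h3 : v' = u * (u⁻¹ * v' * w) * w⁻¹ := by group
      rw [h3, h1', torV, ← hw, mul_neg, neg_mul]
    have h4 : ∀ D : X, v' * D * v'⁻¹ = torV u m r1 r2 r3 * D * (torV u m r1 r2 r3)⁻¹ := by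
      intro D
      rw [h2, neg_mul, inv_neg, neg_mul_neg]
    rw [torus, ← h4, ← h4, ← hA3, ← hB3]

end Pool.Teich
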