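import Pool.Agent.Teich.PantsNF
import Pool.Agent.Teich.TorusNF

/-!
# All maximal chains in explicit coordinates

`build n u m p` is a sequence of `n + 1` pairs whose commutators multiply to
`u * Dneg m * u⁻¹`; `p` are free real parameters.

PROOFS. `cprod_build`: induction on `n` with `cprod_succ'`, `cm_torus`, `pants_mul`
(`cprod (build (n+1) u m p) (n+2) = cm (first pair) * cprod (shift 1 (build ..)) (n+1)` and the
shifted sequence is `build n (frQ ..) (p 0 4) (shift 1 p)`).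
`continuous_build`: induction, `continuous_torus`, `continuous_frP`, `continuous_frQ`.
`build_nf`: induction on `n`, for all `u m t l`. `n = 0`: `torus_nf`. Step: `P` = first commutator,
`Q` = product of the others, `P * Q = u * Dneg m * u⁻¹`; levels `1`, `2(n+1) - 1` (from `hs 1`) and
`2(n+2) - 1 = 1 + (2(n+1) - 1) + 1` (`hs 0`), all odd: `pants_nf` gives `a b s` with
`P = frP .. * Dneg a * ..`, `Q = frQ .. * Dneg b * ..`. `torus_nf` for the first pair, induction
hypothesis for the shifted sequences; put `p 0 = ![r1, r2, r3, a, b, s]` and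
`p (k+1) = p' k`. Lifts of `cprod`: `isLift_cprod`.
-/

namespace Pool.Teich

open Matrix Real

/-- sequences of `n + 1` pairs with product of commutators `u * Dneg m * u⁻¹` -/
noncomputable def build : ℕ → X → ℝ → (ℕ → Fin 6 → ℝ) → ℕ → X × X
  | 0, u, m, p, _ => torus u m (p 0 0) (p 0 1) (p 0 2)
  | n + 1, u, m, p, i =>
    if i = 0 then
      torus (frP u m (p 0 3) (p 0 4) (p 0 5)) (p 0 3) (p 0 0) (p 0 1) (p 0 2)
    else build n (frQ u m (p 0 3) (p 0 4) (p 0 5)) (p 0 4) (shift 1 p) (i - 1)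

lemma build_zero (u : X) (m : ℝ) (p : ℕ → Fin 6 → ℝ) (i : ℕ) :
    build 0 u m p i = torus u m (p 0 0) (p 0 1) (p 0 2) := rfl

lemma build_succ_zero (n : ℕ) (u : X) (m : ℝ) (p : ℕ → Fin 6 → ℝ) :
    build (n + 1) u m p 0 =
      torus (frP u m (p 0 3) (p 0 4) (p 0 5)) (p 0 3) (p 0 0) (p 0 1) (p 0 2) := rfl

lemma build_succ_succ (n : ℕ) (u : X) (m : ℝ) (p : ℕ → Fin 6 → ℝ) (i : ℕ) :
    build (n + 1) u m p (i + 1) =
      build n (frQ u m (p 0 3) (p 0 4) (p 0 5)) (p 0 4) (shift 1 p) i := rfl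

lemma shift_build (n : ℕ) (u : X) (m : ℝ) (p : ℕ → Fin 6 → ℝ) :
    shift 1 (build (n + 1) u m p) =
      build n (frQ u m (p 0 3) (p 0 4) (p 0 5)) (p 0 4) (shift 1 p) := by
  funext i
  rw [shift_apply, Nat.add_comm 1 i]
  rfl

lemma shift_zero {α : Type*} (t : ℕ → α) : shift 0 t = t := by
  funext i
  rw [shift_apply, Nat.zero_add]

lemma shift_shift {α : Type*} (j k : ℕ) (t : ℕ → α) : shift k (shift j t) = shift (j + k) t := by
  funext i
  simp only [shift_apply, Nat.add_assoc]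

theorem cprod_build (n : ℕ) (u : X) (m : ℝ) (p : ℕ → Fin 6 → ℝ) :
    cprod (build n u m p) (n + 1) = u * Dneg m * u⁻¹ := by
  induction n generalizing u m p with
  | zero =>
    rw [cprod_succ', cprod_zero, mul_one, build_zero]
    exact cm_torus _ _ _ _ _
  | succ n ih =>
    rw [cprod_succ', shift_build, ih, build_succ_zero, cm_torus]
    exact pants_mul _ _ _ _ _

theorem continuous_build {Y : Type*} [TopologicalSpace Y] (n : ℕ) {u : Y → X} {m : Y → ℝ}
    {p : Y → ℕ → Fin 6 → ℝ} (hu : Continuous u) (hm : Continuous m)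
    (hp : ∀ k j, Continuous fun y => p y k j) (i : ℕ) :
    Continuous fun y => build n (u y) (m y) (p y) i := by
  induction n generalizing u m p i with
  | zero =>
    exact continuous_torus hu hm (hp 0 0) (hp 0 1) (hp 0 2)
  | succ n ih =>
    by_cases hi : i = 0
    · subst hi
      exact continuous_torus (continuous_frP hu hm (hp 0 3) (hp 0 4) (hp 0 5)) (hp 0 3)
        (hp 0 0) (hp 0 1) (hp 0 2)
    · have h : (fun y => build (n + 1) (u y) (m y) (p y) i) = fun y =>
          build n (frQ (u y) (m y) (p y 0 3) (p y 0 4) (p y 0 5)) (p y 0 4) (shift 1 (p y))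
            (i - 1) := by
        funext y
        exact if_neg hi
      rw [h]
      exact ih (continuous_frQ hu hm (hp 0 3) (hp 0 4) (hp 0 5)) (hp 0 4)
        (fun k j => hp (1 + k) j) (i - 1)

theorem build_nf (n : ℕ) {t : ℕ → X × X} {l : ℕ → (ℝ ≃o ℝ) × (ℝ ≃o ℝ)}
    (hl : ∀ i, IsLift (t i).1 (l i).1 ∧ IsLift (t i).2 (l i).2)
    (hpos : ∀ i ≤ n, 0 < tce (t i).1 ∧ 0 < tce (t i).2)
    (hc : ∀ i ≤ n, Hyp 1 (cm (l i).1 (l i).2))
    (hs : ∀ k ≤ n, Hyp (2 * ((n : ℤ) + 1 - k) - 1) (cprod (shift k l) (n + 1 - k)))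
    {u : X} {m : ℝ} (h : cprod t (n + 1) = u * Dneg m * u⁻¹) :
    ∃ p : ℕ → Fin 6 → ℝ, ∀ i ≤ n, t i = build n u m p i := by
  induction n generalizing t l u m with
  | zero =>
    rw [cprod_succ', cprod_zero, mul_one] at h
    obtain ⟨r1, r2, r3, hr⟩ := torus_nf (hl 0).1 (hl 0).2 (hc 0 le_rfl) (hpos 0 le_rfl).1
      (hpos 0 le_rfl).2 h
    refine ⟨fun _ => ![r1, r2, r3, 0, 0, 0], fun i hi => ?_⟩
    obtain rfl : i = 0 := Nat.le_zero.1 hi
    exact hr
  | succ n ih =>
    have hP : IsLift (cm (t 0).1 (t 0).2) (cm (l 0).1 (l 0).2) := (hl 0).1.cm (hl 0).2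
    have hQ : IsLift (cprod (shift 1 t) (n + 1)) (cprod (shift 1 l) (n + 1)) :=
      isLift_cprod (fun i => hl (1 + i)) (n + 1)
    have h1 : Hyp 1 (cm (l 0).1 (l 0).2) := hc 0 (Nat.zero_le _)
    have h2 : Hyp (2 * ((n : ℤ) + 1) - 1) (cprod (shift 1 l) (n + 1)) := by
      have := hs 1 (by omega)
      rw [show n + 1 + 1 - 1 = n + 1 by omega] at this
      rw [show 2 * ((((n + 1 : ℕ) : ℤ)) + 1 - ((1 : ℕ) : ℤ)) - 1 = 2 * ((n : ℤ) + 1) - 1 by
        push_cast; ring] at this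
      exact this
    have h3 : Hyp (1 + (2 * ((n : ℤ) + 1) - 1) + 1)
        (cm (l 0).1 (l 0).2 * cprod (shift 1 l) (n + 1)) := by
      have := hs 0 (Nat.zero_le _)
      rw [shift_zero, Nat.sub_zero, cprod_succ'] at this
      rw [show 2 * ((((n + 1 : ℕ) : ℤ)) + 1 - ((0 : ℕ) : ℤ)) - 1 =
        1 + (2 * ((n : ℤ) + 1) - 1) + 1 by push_cast; ring] at this
      exact this
    rw [cprod_succ'] at h
    obtain ⟨a, b, s, hPa, hQb⟩ := pants_nf hP hQ odd_one (⟨n, by ring⟩) h1 h2 h3 h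
    obtain ⟨r1, r2, r3, hr⟩ := torus_nf (hl 0).1 (hl 0).2 h1 (hpos 0 (Nat.zero_le _)).1
      (hpos 0 (Nat.zero_le _)).2 hPa
    obtain ⟨p, hp⟩ := ih (t := shift 1 t) (l := shift 1 l) (fun i => hl (1 + i))
      (fun i hi => hpos (1 + i) (by omega)) (fun i hi => hc (1 + i) (by omega))
      (fun k hk => by
        have := hs (k + 1) (by omega)
        rw [shift_shift]
        rw [show n + 1 + 1 - (k + 1) = n + 1 - k by omega] at this
        rw [show 2 * ((((n + 1 : ℕ) : ℤ)) + 1 - ((k + 1 : ℕ) : ℤ)) - 1 =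
          2 * ((n : ℤ) + 1 - k) - 1 by push_cast; ring] at this
        rw [Nat.add_comm 1 k]
        exact this) hQb
    refine ⟨fun k => Nat.casesOn k ![r1, r2, r3, a, b, s] p, fun i hi => ?_⟩
    cases i with
    | zero => exact hr
    | succ i =>
      have h4 := hp i (by omega)
      rw [shift_apply, Nat.add_comm 1 i] at h4
      rw [h4]
      have h5 : shift 1 (fun k => (Nat.casesOn k ![r1, r2, r3, a, b, s] p : Fin 6 → ℝ)) = p := by
        funext k
        rw [shift_apply, Nat.add_comm 1 k]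
      rw [build_succ_succ, h5]
      rfl

end Pool.Teich
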