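import Pool.Agent.Teich.FD

/-!
# Rotations, Cartan decomposition, norms

`nm` is the squared Frobenius norm of `Hhelper67.Anosov.Milnor`.

PROOFS. `cartan`: with `g = !![a, b; c, d]` put `p = ((a + d) + i (c - b))/2`,
`q = ((a - d) + i (c + b))/2`, `|p|² - |q|² = 1`, `p = |p| e^{iα}`, `q = |q| e^{iβ}`, `|p| = cosh T`,
`|q| = sinh T`, `T ≥ 0`. Then `g = Rot ((α + β)/2) * Dexp T * Rot ((α - β)/2)`: the entries of the
right hand side are, with `θ₁ + θ₂ = α`, `θ₁ - θ₂ = β`,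
`a = cosh T cos α + sinh T cos β = Re p + Re q`, etc. (product formulas for sine and cosine).
`nm` of `Rot θ₁ * Dexp T * Rot θ₂` is `e^(2T) + e^(-2T)` (rotations preserve `nm`).
`nm_mul`: Cauchy-Schwarz. `nm_inv`: the entries of the inverse are `d, -b, -c, a`.
`isCompact_nm`: closed and bounded entries (`isClosedEmbedding_X`).
`bounded_of_compact`: `nm` is continuous.
`shear_nm`: the entries of `Dexp (-s) * Rot θ * Dexp s` are `cos θ`, `- sin θ e^(-2s)`,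
`sin θ e^(2s)`, `cos θ`, and `|sin θ| ≤ |θ|`. `upper_nm`: the entries of
`Dexp (-s) * b * Dexp s` are `b00, b01 e^(-2s), 0, b11`.
-/

namespace Pool.Teich

open Matrix Real Filter Topology
open Pool.Agent.Hhelper67.Anosov (nm)

/-- rotation -/
noncomputable def Rot (θ : ℝ) : X :=
  ⟨!![Real.cos θ, -Real.sin θ; Real.sin θ, Real.cos θ], by
    rw [Matrix.det_fin_two_of]
    have := Real.sin_sq_add_cos_sq θ
    linear_combination this⟩

theorem X_mul_apply (g h : X) (i j : Fin 2) :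
    (g * h).1 i j = g.1 i 0 * h.1 0 j + g.1 i 1 * h.1 1 j := by
  rw [Matrix.SpecialLinearGroup.coe_mul, Matrix.mul_apply, Fin.sum_univ_two]

theorem X_ext {g h : X} (h00 : g.1 0 0 = h.1 0 0) (h01 : g.1 0 1 = h.1 0 1)
    (h10 : g.1 1 0 = h.1 1 0) (h11 : g.1 1 1 = h.1 1 1) : g = h := by
  apply Subtype.ext
  ext i j
  fin_cases i <;> fin_cases j
  · exact h00
  · exact h01
  · exact h10
  · exact h11

theorem nm_def (g : X) :
    nm g = g.1 0 0 ^ 2 + g.1 0 1 ^ 2 + (g.1 1 0 ^ 2 + g.1 1 1 ^ 2) := rfl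

theorem Rot00 (θ : ℝ) : (Rot θ).1 0 0 = Real.cos θ := rfl
theorem Rot01 (θ : ℝ) : (Rot θ).1 0 1 = -Real.sin θ := rfl
theorem Rot10 (θ : ℝ) : (Rot θ).1 1 0 = Real.sin θ := rfl
theorem Rot11 (θ : ℝ) : (Rot θ).1 1 1 = Real.cos θ := rfl
theorem Dexp00 (s : ℝ) : (Dexp s).1 0 0 = Real.exp s := rfl
theorem Dexp01 (s : ℝ) : (Dexp s).1 0 1 = 0 := rfl
theorem Dexp10 (s : ℝ) : (Dexp s).1 1 0 = 0 := rfl
theorem Dexp11 (s : ℝ) : (Dexp s).1 1 1 = Real.exp (-s) := rfl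

theorem cartan (g : X) : ∃ θ₁ θ₂ T : ℝ, 0 ≤ T ∧ g = Rot θ₁ * Dexp T * Rot θ₂ := by
  have hd := X_det g
  set a := g.1 0 0 with ha
  set b := g.1 0 1 with hb
  set c := g.1 1 0 with hc
  set d := g.1 1 1 with hdd
  set p : ℂ := ⟨(a + d) / 2, (c - b) / 2⟩ with hp
  set q : ℂ := ⟨(a - d) / 2, (c + b) / 2⟩ with hq
  have hpn : ‖p‖ ^ 2 = ((a + d) / 2) ^ 2 + ((c - b) / 2) ^ 2 := by
    rw [← Complex.normSq_eq_norm_sq, Complex.normSq_apply]
    ring
  have hqn : ‖q‖ ^ 2 = ((a - d) / 2) ^ 2 + ((c + b) / 2) ^ 2 := by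
    rw [← Complex.normSq_eq_norm_sq, Complex.normSq_apply]
    ring
  have hpq : ‖p‖ ^ 2 = 1 + ‖q‖ ^ 2 := by
    rw [hpn, hqn]
    linear_combination hd
  have hsinh : Real.sinh (Real.arsinh ‖q‖) = ‖q‖ := Real.sinh_arsinh _
  have hcosh : Real.cosh (Real.arsinh ‖q‖) = ‖p‖ := by
    rw [Real.cosh_arsinh, ← hpq, Real.sqrt_sq (norm_nonneg _)]
  have hT : 0 ≤ Real.arsinh ‖q‖ := Real.arsinh_nonneg_iff.2 (norm_nonneg _)
  set T := Real.arsinh ‖q‖ with hTdef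
  have h1 : ‖p‖ * Real.cos (Complex.arg p) = (a + d) / 2 := Complex.norm_mul_cos_arg p
  have h2 : ‖p‖ * Real.sin (Complex.arg p) = (c - b) / 2 := Complex.norm_mul_sin_arg p
  have h3 : ‖q‖ * Real.cos (Complex.arg q) = (a - d) / 2 := Complex.norm_mul_cos_arg q
  have h4 : ‖q‖ * Real.sin (Complex.arg q) = (c + b) / 2 := Complex.norm_mul_sin_arg q
  have e1 : Complex.arg p = (Complex.arg p + Complex.arg q) / 2 +
    (Complex.arg p - Complex.arg q) / 2 := by ring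
  have e2 : Complex.arg q = (Complex.arg p + Complex.arg q) / 2 -
    (Complex.arg p - Complex.arg q) / 2 := by ring
  refine ⟨(Complex.arg p + Complex.arg q) / 2, (Complex.arg p - Complex.arg q) / 2, T, hT, ?_⟩
  rw [e1] at h1 h2
  rw [e2] at h3 h4
  set x := (Complex.arg p + Complex.arg q) / 2 with hx
  set y := (Complex.arg p - Complex.arg q) / 2 with hy
  rw [← hcosh, Real.cos_add] at h1
  rw [← hcosh, Real.sin_add] at h2
  rw [← hsinh, Real.cos_sub] at h3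
  rw [← hsinh, Real.sin_sub] at h4
  have e3 : Real.exp T = Real.cosh T + Real.sinh T := (Real.cosh_add_sinh T).symm
  have e4 : Real.exp (-T) = Real.cosh T - Real.sinh T := (Real.cosh_sub_sinh T).symm
  apply X_ext
  · rw [X_mul_apply, X_mul_apply, X_mul_apply, Rot00, Rot01, Rot00, Rot10, Dexp00, Dexp01, Dexp10,
      Dexp11, e3, e4]
    linear_combination -h1 - h3
  · rw [X_mul_apply, X_mul_apply, X_mul_apply, Rot00, Rot01, Rot01, Rot11, Dexp00, Dexp01, Dexp10,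
      Dexp11, e3, e4]
    linear_combination h2 - h4
  · rw [X_mul_apply, X_mul_apply, X_mul_apply, Rot10, Rot11, Rot00, Rot10, Dexp00, Dexp01, Dexp10,
      Dexp11, e3, e4]
    linear_combination -h2 - h4
  · rw [X_mul_apply, X_mul_apply, X_mul_apply, Rot10, Rot11, Rot01, Rot11, Dexp00, Dexp01, Dexp10,
      Dexp11, e3, e4]
    linear_combination -h1 + h3

theorem nm_rot_mul (θ : ℝ) (g : X) : nm (Rot θ * g) = nm g := by
  rw [nm_def, nm_def]
  simp only [X_mul_apply, Rot00, Rot01, Rot10, Rot11]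
  linear_combination (g.1 0 0 ^ 2 + g.1 0 1 ^ 2 + (g.1 1 0 ^ 2 + g.1 1 1 ^ 2)) *
    Real.sin_sq_add_cos_sq θ

theorem nm_mul_rot (θ : ℝ) (g : X) : nm (g * Rot θ) = nm g := by
  rw [nm_def, nm_def]
  simp only [X_mul_apply, Rot00, Rot01, Rot10, Rot11]
  linear_combination (g.1 0 0 ^ 2 + g.1 0 1 ^ 2 + (g.1 1 0 ^ 2 + g.1 1 1 ^ 2)) *
    Real.sin_sq_add_cos_sq θ

theorem nm_Dexp (s : ℝ) : nm (Dexp s) = Real.exp (2 * s) + Real.exp (-(2 * s)) := by
  rw [nm_def, Dexp00, Dexp01, Dexp10, Dexp11]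
  have e1 : Real.exp (2 * s) = Real.exp s ^ 2 := by
    rw [← Real.exp_nat_mul]
    norm_num
  have e2 : Real.exp (-(2 * s)) = Real.exp (-s) ^ 2 := by
    rw [← Real.exp_nat_mul]
    congr 1
    push_cast
    ring
  rw [e1, e2]
  ring

theorem nm_mul (g h : X) : nm (g * h) ≤ nm g * nm h := by
  rw [nm_def, nm_def, nm_def]
  simp only [X_mul_apply]
  nlinarith [sq_nonneg (g.1 0 0 * h.1 1 0 - g.1 0 1 * h.1 0 0),
    sq_nonneg (g.1 0 0 * h.1 1 1 - g.1 0 1 * h.1 0 1),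
    sq_nonneg (g.1 1 0 * h.1 1 0 - g.1 1 1 * h.1 0 0),
    sq_nonneg (g.1 1 0 * h.1 1 1 - g.1 1 1 * h.1 0 1)]

theorem nm_inv (g : X) : nm g⁻¹ = nm g := by
  have h : (g⁻¹ : X).1 = !![g.1 1 1, -g.1 0 1; -g.1 1 0, g.1 0 0] := by
    rw [Matrix.SpecialLinearGroup.coe_inv, Matrix.adjugate_fin_two]
  rw [nm_def, nm_def, h]
  simp
  ring

theorem continuous_nm : Continuous (nm : X → ℝ) := by
  have h : ∀ i j : Fin 2, Continuous fun g : X => g.1 i j := fun i j =>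
    (continuous_apply_apply i j).comp continuous_subtype_val
  exact ((((h 0 0).pow 2).add ((h 0 1).pow 2))).add (((h 1 0).pow 2).add ((h 1 1).pow 2))

theorem isCompact_nm (C : ℝ) : IsCompact {g : X | nm g ≤ C} := by
  have h1 : IsCompact (Set.pi Set.univ fun _ : Fin 2 => Set.pi Set.univ fun _ : Fin 2 =>
      Set.Icc (-(C + 1)) (C + 1)) :=
    isCompact_univ_pi fun _ => isCompact_univ_pi fun _ => isCompact_Icc
  have h2 := Pool.Agent.Hhelper67.Anosov.isClosedEmbedding_X.isCompact_preimage h1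
  refine h2.of_isClosed_subset (isClosed_le continuous_nm continuous_const) ?_
  intro g hg
  have hg' : nm g ≤ C := hg
  rw [nm_def] at hg'
  intro i _ j _
  have h3 : g.1 i j ^ 2 ≤ C := by
    fin_cases i <;> fin_cases j
    · change g.1 0 0 ^ 2 ≤ C
      nlinarith [sq_nonneg (g.1 0 0), sq_nonneg (g.1 0 1), sq_nonneg (g.1 1 0),
        sq_nonneg (g.1 1 1)]
    · change g.1 0 1 ^ 2 ≤ C
      nlinarith [sq_nonneg (g.1 0 0), sq_nonneg (g.1 0 1), sq_nonneg (g.1 1 0),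
        sq_nonneg (g.1 1 1)]
    · change g.1 1 0 ^ 2 ≤ C
      nlinarith [sq_nonneg (g.1 0 0), sq_nonneg (g.1 0 1), sq_nonneg (g.1 1 0),
        sq_nonneg (g.1 1 1)]
    · change g.1 1 1 ^ 2 ≤ C
      nlinarith [sq_nonneg (g.1 0 0), sq_nonneg (g.1 0 1), sq_nonneg (g.1 1 0),
        sq_nonneg (g.1 1 1)]
  change g.1 i j ∈ Set.Icc (-(C + 1)) (C + 1)
  constructor
  · nlinarith [sq_nonneg (g.1 i j + 1), sq_nonneg (g.1 i j)]
  · nlinarith [sq_nonneg (g.1 i j - 1), sq_nonneg (g.1 i j)]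

theorem bounded_of_compact {K : Set X} (hK : IsCompact K) : ∃ C, ∀ g ∈ K, nm g ≤ C := by
  obtain ⟨C, hC⟩ := (hK.image continuous_nm).bddAbove
  exact ⟨C, fun g hg => hC (Set.mem_image_of_mem _ hg)⟩

theorem Dexp_add (s t : ℝ) : Dexp (s + t) = Dexp s * Dexp t := by
  apply X_ext
  · rw [X_mul_apply, Dexp00, Dexp00, Dexp00, Dexp01, Real.exp_add]
    ring
  · rw [X_mul_apply, Dexp01, Dexp01, Dexp01]
    ring
  · rw [X_mul_apply, Dexp10, Dexp10, Dexp10]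
    ring
  · rw [X_mul_apply, Dexp11, Dexp11, Dexp11, Dexp10, neg_add, Real.exp_add]
    ring

theorem Dexp_zero : Dexp 0 = 1 := by
  apply X_ext
  · rw [Dexp00, Real.exp_zero]
    rfl
  · rw [Dexp01]
    rfl
  · rw [Dexp10]
    rfl
  · rw [Dexp11, neg_zero, Real.exp_zero]
    rfl

theorem Dexp_neg (s : ℝ) : Dexp (-s) = (Dexp s)⁻¹ := by
  apply eq_inv_of_mul_eq_one_left
  rw [← Dexp_add, neg_add_cancel, Dexp_zero]

theorem Rot_add (s t : ℝ) : Rot (s + t) = Rot s * Rot t := by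
  apply X_ext
  · rw [X_mul_apply, Rot00, Rot00, Rot00, Rot01, Rot10, Real.cos_add]
    ring
  · rw [X_mul_apply, Rot01, Rot01, Rot00, Rot01, Rot11, Real.sin_add]
    ring
  · rw [X_mul_apply, Rot10, Rot10, Rot10, Rot00, Rot11, Real.sin_add]
  · rw [X_mul_apply, Rot11, Rot11, Rot11, Rot10, Rot01, Real.cos_add]
    ring

theorem Rot_pi (θ : ℝ) : (Rot (θ + π)).1 = -(Rot θ).1 := by
  ext i j
  fin_cases i <;> fin_cases j
  · change (Rot (θ + π)).1 0 0 = -((Rot θ).1 0 0)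
    rw [Rot00, Rot00, Real.cos_add_pi]
  · change (Rot (θ + π)).1 0 1 = -((Rot θ).1 0 1)
    rw [Rot01, Rot01, Real.sin_add_pi]
  · change (Rot (θ + π)).1 1 0 = -((Rot θ).1 1 0)
    rw [Rot10, Rot10, Real.sin_add_pi]
  · change (Rot (θ + π)).1 1 1 = -((Rot θ).1 1 1)
    rw [Rot11, Rot11, Real.cos_add_pi]

theorem nm_conj_Dexp (s : ℝ) (g : X) : nm (Dexp (-s) * g * Dexp s) =
    g.1 0 0 ^ 2 + (g.1 0 1 * Real.exp (-(2 * s))) ^ 2 +
      ((g.1 1 0 * Real.exp (2 * s)) ^ 2 + g.1 1 1 ^ 2) := by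
  have e1 : Real.exp (2 * s) = Real.exp s * Real.exp s := by
    rw [← Real.exp_add]
    congr 1
    ring
  have e2 : Real.exp (-(2 * s)) = Real.exp (-s) * Real.exp (-s) := by
    rw [← Real.exp_add]
    congr 1
    ring
  have e3 : Real.exp s * Real.exp (-s) = 1 := by
    rw [← Real.exp_add, add_neg_cancel, Real.exp_zero]
  have h00 : (Dexp (-s) * g * Dexp s).1 0 0 = g.1 0 0 := by
    rw [X_mul_apply, X_mul_apply, X_mul_apply, Dexp00, Dexp01, Dexp00, Dexp10]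
    linear_combination g.1 0 0 * e3
  have h01 : (Dexp (-s) * g * Dexp s).1 0 1 = g.1 0 1 * Real.exp (-(2 * s)) := by
    rw [X_mul_apply, X_mul_apply, X_mul_apply, Dexp00, Dexp01, Dexp01, Dexp11, e2]
    ring
  have h10 : (Dexp (-s) * g * Dexp s).1 1 0 = g.1 1 0 * Real.exp (2 * s) := by
    rw [X_mul_apply, X_mul_apply, X_mul_apply, Dexp10, Dexp11, Dexp00, Dexp10, e1, neg_neg]
    ring
  have h11 : (Dexp (-s) * g * Dexp s).1 1 1 = g.1 1 1 := by
    rw [X_mul_apply, X_mul_apply, X_mul_apply, Dexp10, Dexp11, Dexp01, Dexp11, neg_neg]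
    linear_combination g.1 1 1 * e3
  rw [nm_def, h00, h01, h10, h11]

theorem shear_nm {s θ : ℝ} (hs : 0 ≤ s) (h : |θ| ≤ Real.exp (-(2 * s))) :
    nm (Dexp (-s) * Rot θ * Dexp s) ≤ 4 := by
  rw [nm_conj_Dexp, Rot00, Rot01, Rot10, Rot11]
  have h1 : Real.exp (-(2 * s)) ≤ 1 := Real.exp_le_one_iff.2 (by linarith)
  have h2 : 0 < Real.exp (-(2 * s)) := Real.exp_pos _
  have h3 : |Real.sin θ * Real.exp (2 * s)| ≤ 1 := by
    rw [abs_mul, abs_of_pos (Real.exp_pos _)]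
    calc |Real.sin θ| * Real.exp (2 * s) ≤ Real.exp (-(2 * s)) * Real.exp (2 * s) :=
          mul_le_mul_of_nonneg_right (Real.abs_sin_le_abs.trans h) (Real.exp_pos _).le
      _ = 1 := by rw [← Real.exp_add, neg_add_cancel, Real.exp_zero]
  have h4 : (Real.sin θ * Real.exp (2 * s)) ^ 2 ≤ 1 := (sq_le_one_iff_abs_le_one _).2 h3
  have h5 : (-Real.sin θ * Real.exp (-(2 * s))) ^ 2 ≤ 1 := by
    rw [sq_le_one_iff_abs_le_one, abs_mul, abs_neg, abs_of_pos h2]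
    exact mul_le_one₀ (Real.abs_sin_le_one θ) h2.le h1
  have h6 : Real.cos θ ^ 2 ≤ 1 := Real.cos_sq_le_one θ
  linarith

theorem upper_nm {s : ℝ} (hs : 0 ≤ s) {b : X} (hb : b.1 1 0 = 0) :
    nm (Dexp (-s) * b * Dexp s) ≤ nm b := by
  rw [nm_conj_Dexp, hb, nm_def, hb]
  have h1 : Real.exp (-(2 * s)) ≤ 1 := Real.exp_le_one_iff.2 (by linarith)
  have h2 : 0 < Real.exp (-(2 * s)) := Real.exp_pos _
  have h3 : Real.exp (-(2 * s)) ^ 2 ≤ 1 := pow_le_one₀ h2.le h1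
  nlinarith [sq_nonneg (b.1 0 1)]

end Pool.Teich
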