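import Pool.Agent.Teich.Diag
import Pool.Agent.Hhelper67.Anosov.Milnor

/-!
# Faithful discrete representations

`FD φ`: only the identity is mapped near the identity. `Prp φ`: finitely many elements are mapped
into a compact set. `Coc φ`: compact quotient.

PROOFS. `fd_iff`: discrete image and injective iff `FD` (translate a neighbourhood `U` of `1` which
meets `φ.range` only in `1`). `FD.prp`: `Hhelper67.Anosov.finite_of_compact`.
`prp_countable`: `X` is `σ`-compact (locally compact, second countable; instances in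
`Hhelper67.Anosov.Fuchsian`), `Γ` is a countable union of finite sets.
`coc_of_compact`: if `K` is compact and every `x : X` is `φ γ * k`, then
`x⁻¹ = φ γ * k`, `x = k⁻¹ * φ γ⁻¹`, so `X ⧸ φ.range` is the image of the compact set `K⁻¹`.
`exists_cover`: from `exists_compact_cover`, enlarged to a compact set invariant under `g ↦ -g`
(take `K ∪ (z K)`, `z = -1`) and containing `1`.
`no_parabolic`: suppose `tce (φ γ) = 2`, `γ ≠ 1`; then `φ γ ≠ 1`, so
`φ γ = u * !![1, x; 0, 1] * u⁻¹`, `x ≠ 0`. With `g T = u * Dexp T`: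
`(g T)⁻¹ * φ γ * g T = !![1, x e^(-2T); 0, 1] → 1` for `T → ∞`. Choose `γ_T`, `d_T ∈ K` compact with
`g T = φ γ_T * d_T`: `φ (γ_T⁻¹ * γ * γ_T) = d_T * (g T)⁻¹ * φ γ * g T * d_T⁻¹ → 1` (compactness of
`K`), so `γ_T⁻¹ * γ * γ_T = 1` for large `T`: contradiction.
-/

set_option linter.all false

namespace Pool.Teich

open Matrix Real Filter Topology

variable {Γ : Type*} [Group Γ]

/-- faithful and discrete -/
def FD (φ : Γ →* X) : Prop := ∃ U ∈ 𝓝 (1 : X), ∀ γ, φ γ ∈ U → γ = 1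

/-- proper -/
def Prp (φ : Γ →* X) : Prop := ∀ K : Set X, IsCompact K → {γ | φ γ ∈ K}.Finite

/-- cocompact -/
def Coc (φ : Γ →* X) : Prop := CompactSpace (X ⧸ φ.range)

theorem fd_iff (φ : Γ →* X) : FD φ ↔ Function.Injective φ ∧ DiscreteTopology φ.range := by
  constructor
  · rintro ⟨U, hU, h⟩
    refine ⟨?_, ?_⟩
    · rw [injective_iff_map_eq_one]
      intro a ha
      apply h
      rw [ha]
      exact mem_of_mem_nhds hU
    · apply discreteTopology_of_isOpen_singleton_one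
      obtain ⟨V, hVU, hV, h1⟩ := mem_nhds_iff.mp hU
      refine isOpen_induced_iff.mpr ⟨V, hV, ?_⟩
      ext y
      constructor
      · intro hy
        obtain ⟨y, γ, rfl⟩ := y
        have h2 := h γ (hVU hy)
        rw [Set.mem_singleton_iff]
        apply Subtype.ext
        show φ γ = 1
        rw [h2, map_one]
      · intro hy
        rw [Set.mem_singleton_iff] at hy
        rw [hy]
        exact h1
  · rintro ⟨hinj, hd⟩
    have h1 : IsOpen ({1} : Set φ.range) := isOpen_discrete _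
    obtain ⟨V, hV, hV1⟩ := isOpen_induced_iff.mp h1
    have h2 : (1 : X) ∈ V := by
      have h3 : (1 : φ.range) ∈ ((↑) : φ.range → X) ⁻¹' V := by
        rw [hV1]
        exact Set.mem_singleton _
      exact h3
    refine ⟨V, hV.mem_nhds h2, fun γ hγ => ?_⟩
    have h3 : (⟨φ γ, γ, rfl⟩ : φ.range) ∈ ((↑) : φ.range → X) ⁻¹' V := hγ
    rw [hV1, Set.mem_singleton_iff] at h3
    apply hinj
    rw [map_one]
    exact congrArg Subtype.val h3

theorem FD.prp {φ : Γ →* X} (h : FD φ) : Prp φ := by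
  intro K hK
  have h1 := (fd_iff φ).mp h
  exact Pool.Agent.Hhelper67.Anosov.finite_of_compact h1.1 h1.2 hK

theorem prp_countable {φ : Γ →* X} (h : Prp φ) : Countable Γ := by
  rw [← Set.countable_univ_iff]
  have h1 : (Set.univ : Set Γ) = ⋃ n : ℕ, {γ | φ γ ∈ compactCovering X n} := by
    symm
    rw [Set.eq_univ_iff_forall]
    intro γ
    obtain ⟨n, hn⟩ := exists_mem_compactCovering (φ γ)
    exact Set.mem_iUnion.mpr ⟨n, hn⟩
  rw [h1]
  exact Set.countable_iUnion fun n => (h _ (isCompact_compactCovering X n)).countable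

theorem coc_of_compact {φ : Γ →* X} {K : Set X} (hK : IsCompact K)
    (h : ∀ x : X, ∃ γ, ∃ k ∈ K, x = φ γ * k) : Coc φ := by
  have hcont : Continuous (QuotientGroup.mk : X → X ⧸ φ.range) := continuous_quotient_mk'
  have himg : (fun k : X => (QuotientGroup.mk k⁻¹ : X ⧸ φ.range)) '' K = Set.univ := by
    rw [Set.eq_univ_iff_forall]
    intro q
    obtain ⟨x, rfl⟩ := QuotientGroup.mk_surjective q
    obtain ⟨γ, k, hk, hx⟩ := h x⁻¹
    refine ⟨k, hk, ?_⟩
    show (QuotientGroup.mk k⁻¹ : X ⧸ φ.range) = QuotientGroup.mk x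
    rw [QuotientGroup.eq]
    refine ⟨γ⁻¹, ?_⟩
    have h1 : x = k⁻¹ * (φ γ)⁻¹ := by
      rw [← _root_.mul_inv_rev, ← hx, inv_inv]
    rw [map_inv, h1]
    group
  have h2 : IsCompact (Set.univ : Set (X ⧸ φ.range)) := by
    rw [← himg]
    exact hK.image (hcont.comp continuous_inv)
  exact isCompact_univ_iff.mp h2

theorem Coc.exists_cover {φ : Γ →* X} (h : Coc φ) : ∃ K : Set X, IsCompact K ∧ 1 ∈ K ∧
    (∀ k ∈ K, ∀ k' : X, k'.1 = -k.1 → k' ∈ K) ∧ ∀ x : X, ∃ γ, (φ γ)⁻¹ * x ∈ K := by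
  obtain ⟨K0, hK0, hcov⟩ := Pool.Agent.Hhelper67.Anosov.exists_compact_cover h
  let N : X → X := fun k => ⟨-k.1, by rw [Matrix.det_neg, k.2]; simp⟩
  have hN : Continuous N := by
    apply continuous_induced_rng.2
    exact continuous_subtype_val.neg
  have hK1 : IsCompact (insert 1 K0) := hK0.insert 1
  refine ⟨insert 1 K0 ∪ N '' (insert 1 K0), hK1.union (hK1.image hN),
    Or.inl (Set.mem_insert _ _), ?_, ?_⟩
  · rintro k (hk | ⟨k1, hk1, rfl⟩) k' hk'
    · right
      refine ⟨k, hk, ?_⟩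
      apply Subtype.ext
      exact hk'.symm
    · left
      have h1 : k' = k1 := by
        apply Subtype.ext
        rw [hk']
        show -(-k1.1) = k1.1
        rw [neg_neg]
      rw [h1]
      exact hk1
  · intro x
    obtain ⟨γ, hγ⟩ := hcov x
    refine ⟨γ⁻¹, Or.inl (Set.mem_insert_of_mem _ ?_)⟩
    rw [map_inv, inv_inv]
    exact hγ

open Pool.Agent.Hhelper67.Anosov in
/-- normal form of a parabolic matrix -/
theorem exists_up {C : X} (h1 : C ≠ 1) (h2 : tce C = 2) :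
    ∃ u : X, ∃ x : ℝ, C = u * up x * u⁻¹ := by
  have hd := X_det C
  unfold tce at h2
  by_cases hc : C.1 1 0 = 0
  · refine ⟨1, C.1 0 1, ?_⟩
    rw [one_mul, inv_one, mul_one]
    rw [hc, mul_zero, sub_zero] at hd
    have ha : C.1 0 0 = 1 := by
      have h3 : C.1 1 1 = 2 - C.1 0 0 := by linarith
      rw [h3] at hd
      have h4 : (C.1 0 0 - 1) ^ 2 = 0 := by linarith
      have h5 := pow_eq_zero_iff (two_ne_zero) |>.mp h4
      linarith
    have hd1 : C.1 1 1 = 1 := by linarith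
    apply Subtype.ext
    rw [X_eta C, hc, ha, hd1]
    rfl
  · have hdet : (!![C.1 0 0 - 1, -1 / C.1 1 0; C.1 1 0, 0] : Matrix (Fin 2) (Fin 2) ℝ).det = 1 := by
      rw [Matrix.det_fin_two_of]
      field_simp
      ring
    let u : X := ⟨_, hdet⟩
    refine ⟨u, -1 / C.1 1 0, eq_mul_inv_of_mul_eq ?_⟩
    apply Subtype.ext
    rw [Matrix.SpecialLinearGroup.coe_mul, Matrix.SpecialLinearGroup.coe_mul]
    conv_lhs => rw [X_eta C]
    show !![C.1 0 0, C.1 0 1; C.1 1 0, C.1 1 1] * !![C.1 0 0 - 1, -1 / C.1 1 0; C.1 1 0, 0] =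
      !![C.1 0 0 - 1, -1 / C.1 1 0; C.1 1 0, 0] * !![1, -1 / C.1 1 0; 0, 1]
    clear_value u
    generalize C.1 0 0 = a at *
    generalize C.1 0 1 = b at *
    generalize C.1 1 0 = c at *
    generalize C.1 1 1 = d at *
    rw [Matrix.mul_fin_two, Matrix.mul_fin_two]
    have e1 : a * (a - 1) + b * c = (a - 1) * 1 + -1 / c * 0 := by
      linear_combination a * h2 - hd
    have e2 : a * (-1 / c) + b * 0 = (a - 1) * (-1 / c) + -1 / c * 1 := by ring
    have e3 : c * (a - 1) + d * c = c * 1 + 0 * 0 := by linear_combination c * h2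
    have e4 : c * (-1 / c) + d * 0 = c * (-1 / c) + 0 * 1 := by ring
    rw [e1, e2, e3, e4]

theorem no_parabolic {φ : Γ →* X} (h : FD φ) (hc : Coc φ) {γ : Γ} (hγ : γ ≠ 1) :
    tce (φ γ) ≠ 2 := by
  intro htr
  have hinj := ((fd_iff φ).mp h).1
  have hne : φ γ ≠ 1 := by
    intro h1
    apply hγ
    apply hinj
    rw [h1, map_one]
  obtain ⟨u, x, hu⟩ := exists_up hne htr
  obtain ⟨K, hK, -, -, hcov⟩ := hc.exists_cover
  obtain ⟨U, hU, hU1⟩ := h
  obtain ⟨V, hVU, hV, h1V⟩ := mem_nhds_iff.mp hU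
  have hF : Continuous fun p : X × X => p.1 * p.2 * p.1⁻¹ := by fun_prop
  have hsub : K ×ˢ ({1} : Set X) ⊆ (fun p : X × X => p.1 * p.2 * p.1⁻¹) ⁻¹' V := by
    rintro ⟨k, w⟩ ⟨hk, hw⟩
    rw [Set.mem_singleton_iff] at hw
    simp only at hw
    subst hw
    show k * 1 * k⁻¹ ∈ V
    rw [mul_one, mul_inv_cancel]
    exact h1V
  obtain ⟨A, B, hA, hB, hKA, h1B, hAB⟩ := generalized_tube_lemma hK isCompact_singleton
    (hV.preimage hF) hsub
  have hB1 : B ∈ 𝓝 (1 : X) := hB.mem_nhds (h1B (Set.mem_singleton _))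
  have hlim : Tendsto (fun T : ℝ => Pool.Agent.Hhelper67.Anosov.up (x * Real.exp (2 * -T)))
      atTop (𝓝 1) := by
    rw [← Pool.Agent.Hhelper67.Anosov.up_zero]
    apply (Pool.Agent.Hhelper67.Anosov.continuous_up.tendsto 0).comp
    have h1 : Tendsto (fun T : ℝ => Real.exp (2 * -T)) atTop (𝓝 0) := by
      apply Real.tendsto_exp_atBot.comp
      have h2 : Tendsto (fun T : ℝ => 2 * T) atTop atTop :=
        tendsto_id.const_mul_atTop (by norm_num)
      have h3 := tendsto_neg_atTop_atBot.comp h2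
      refine h3.congr fun T => ?_
      show -(2 * T) = 2 * -T
      ring
    have h4 := h1.const_mul x
    rw [mul_zero] at h4
    exact h4
  obtain ⟨T, hT⟩ := (hlim.eventually hB1).exists
  obtain ⟨η, hη⟩ := hcov (u * Pool.Agent.Hhelper67.Anosov.dge T)
  have hconj := Pool.Agent.Hhelper67.Anosov.dge_conj_up (-T) x
  rw [neg_neg] at hconj
  have hTT : Pool.Agent.Hhelper67.Anosov.dge (-T) * Pool.Agent.Hhelper67.Anosov.dge T = 1 := by
    rw [← Pool.Agent.Hhelper67.Anosov.dge_add, neg_add_cancel,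
      Pool.Agent.Hhelper67.Anosov.dge_zero]
  have hinv : Pool.Agent.Hhelper67.Anosov.dge (-T) =
      (Pool.Agent.Hhelper67.Anosov.dge T)⁻¹ := eq_inv_of_mul_eq_one_left hTT
  rw [hinv] at hconj
  have hmem : φ (η⁻¹ * γ * η) ∈ V := by
    have h1 := hAB (Set.mk_mem_prod (hKA hη) hT)
    have h2 : (φ η)⁻¹ * (u * Pool.Agent.Hhelper67.Anosov.dge T) *
        Pool.Agent.Hhelper67.Anosov.up (x * Real.exp (2 * -T)) *
        ((φ η)⁻¹ * (u * Pool.Agent.Hhelper67.Anosov.dge T))⁻¹ = φ (η⁻¹ * γ * η) := by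
      rw [← hconj, map_mul, map_mul, map_inv, hu]
      group
    have h3 : (φ η)⁻¹ * (u * Pool.Agent.Hhelper67.Anosov.dge T) *
        Pool.Agent.Hhelper67.Anosov.up (x * Real.exp (2 * -T)) *
        ((φ η)⁻¹ * (u * Pool.Agent.Hhelper67.Anosov.dge T))⁻¹ ∈ V := h1
    rw [h2] at h3
    exact h3
  have h1 := hU1 _ (hVU hmem)
  apply hγ
  have h2 : γ = η * (η⁻¹ * γ * η) * η⁻¹ := by group
  rw [h2, h1]
  group

end Pool.Teich
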