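import Pool.Agent.Teich.Zass
import Pool.Agent.Teich.FD

/-!
# Limits of faithful discrete cocompact representations are faithful and discrete

PROOF. Let `U` be the open set of `zass`, `S` a finite generating set, and
`V = {v | v ∈ U, s v s⁻¹ ∈ U for s = φ₀ σ, σ ∈ S}`, an open neighbourhood of `1`. We show: if
`φ₀ γ ∈ V` then `γ = 1`. Suppose `γ ≠ 1`. Since `φ i δ → φ₀ δ` for the finitely many
`δ ∈ {γ, σ γ σ⁻¹ (σ ∈ S)}` and `U` is open, there is `i` (with `FD (φ i)`, `Coc (φ i)`) with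
`φ i δ ∈ U` for all these `δ`. Fix it, `ψ = φ i`. `H = ψ.range` is discrete (`FD`) and without
elements of trace `2` except `1` (`no_parabolic`). By `zass`, `ψ γ` and `ψ (σ γ σ⁻¹)` commute, and
they have the same trace, which is not `2` (`no_parabolic`, `γ ≠ 1`) and not `-2` (`U`).
By `eq_or_inv_of_comm` and injectivity of `ψ` (`fd_iff`): `σ γ σ⁻¹ = γ` or `γ⁻¹` for all `σ ∈ S`,
hence for all `σ ∈ Γ` (the set of such `σ` is a subgroup). So `σ²` commutes with `γ` for all `σ`,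
in particular `ψ (a²)` and `ψ (b²)` commute with `ψ γ`, which is not scalar; so they commute with
each other (`comm_of_comm`), `a² b² = b² a²` by injectivity, contradiction.
-/

namespace Pool.Teich

open Matrix Real Filter Topology

theorem closed_conj_aux {Γ : Type*} [Group Γ] {S : Set Γ} {γ : Γ}
    (h : ∀ σ ∈ S, σ * γ * σ⁻¹ = γ ∨ σ * γ * σ⁻¹ = γ⁻¹) {σ : Γ} (hσ : σ ∈ Subgroup.closure S) :
    σ * γ * σ⁻¹ = γ ∨ σ * γ * σ⁻¹ = γ⁻¹ := by
  induction hσ using Subgroup.closure_induction with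
  | mem x hx => exact h x hx
  | one => left; group
  | mul x y _ _ hx hy =>
    have e : x * y * γ * (x * y)⁻¹ = x * (y * γ * y⁻¹) * x⁻¹ := by group
    have e2 : x * γ⁻¹ * x⁻¹ = (x * γ * x⁻¹)⁻¹ := by group
    rw [e]
    rcases hy with hy | hy
    · rw [hy]
      exact hx
    · rw [hy, e2]
      rcases hx with hx | hx
      · right
        rw [hx]
      · left
        rw [hx, inv_inv]
  | inv x _ hx =>
    have e : x⁻¹ * γ * x⁻¹⁻¹ = x⁻¹ * γ * x := by group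
    rw [e]
    rcases hx with hx | hx
    · left
      conv_lhs => rw [← hx]
      group
    · right
      have e2 : γ = (x * γ * x⁻¹)⁻¹ := by rw [hx, inv_inv]
      conv_lhs => rw [e2]
      group

theorem closed_sq_comm {Γ : Type*} [Group Γ] {γ σ : Γ}
    (h : σ * γ * σ⁻¹ = γ ∨ σ * γ * σ⁻¹ = γ⁻¹) : σ ^ 2 * γ = γ * σ ^ 2 := by
  have e : σ ^ 2 * γ = σ * (σ * γ * σ⁻¹) * σ⁻¹ * σ ^ 2 := by
    rw [pow_two]
    group
  rw [e]
  congr 1
  rcases h with h | h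
  · rw [h, h]
  · rw [h]
    have e2 : σ * γ⁻¹ * σ⁻¹ = (σ * γ * σ⁻¹)⁻¹ := by group
    rw [e2, h, inv_inv]

theorem fd_of_tendsto {Γ : Type*} [Group Γ] {ι : Type*} {l : Filter ι} {φ : ι → Γ →* X}
    {φ₀ : Γ →* X} (hl : ∀ γ, Tendsto (fun i => φ i γ) l (𝓝 (φ₀ γ)))
    (h : ∃ᶠ i in l, FD (φ i) ∧ Coc (φ i)) {S : Finset Γ}
    (hS : Subgroup.closure (S : Set Γ) = ⊤) {a b : Γ} (hab : a ^ 2 * b ^ 2 ≠ b ^ 2 * a ^ 2) :
    FD φ₀ := by
  obtain ⟨U, hUo, hU1, hU2, hz⟩ := zass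
  have hc : ∀ σ : Γ, Continuous fun v : X => φ₀ σ * v * (φ₀ σ)⁻¹ := fun σ => by fun_prop
  have hV : ∀ᶠ v in 𝓝 (1 : X), v ∈ U ∧ ∀ σ ∈ S, φ₀ σ * v * (φ₀ σ)⁻¹ ∈ U := by
    refine Filter.Eventually.and (hUo.mem_nhds hU1) ?_
    rw [Filter.eventually_all_finset]
    intro σ _
    apply (hc σ).continuousAt.eventually_mem
    apply hUo.mem_nhds
    rw [mul_one, mul_inv_cancel]
    exact hU1
  refine ⟨_, hV, fun γ hγ => ?_⟩
  obtain ⟨hγU, hγS⟩ := hγ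
  by_contra hne
  have e1 : ∀ᶠ i in l, φ i γ ∈ U := (hl γ).eventually (hUo.mem_nhds hγU)
  have e2 : ∀ᶠ i in l, ∀ σ ∈ S, φ i (σ * γ * σ⁻¹) ∈ U := by
    rw [Filter.eventually_all_finset]
    intro σ hσ
    apply (hl (σ * γ * σ⁻¹)).eventually
    apply hUo.mem_nhds
    rw [map_mul, map_mul, map_inv]
    exact hγS σ hσ
  obtain ⟨i, ⟨hfd, hcoc⟩, h1, h2⟩ := (h.and_eventually (e1.and e2)).exists
  have hinj := ((fd_iff (φ i)).mp hfd).1
  have t2 : tce (φ i γ) ≠ 2 := no_parabolic hfd hcoc hne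
  have t3 : tce (φ i γ) ≠ -2 := hU2 _ h1
  have hD : ∃ W ∈ 𝓝 (1 : X), ∀ h ∈ (φ i).range, h ∈ W → h = 1 := by
    obtain ⟨W, hW, hW1⟩ := hfd
    refine ⟨W, hW, ?_⟩
    rintro _ ⟨δ, rfl⟩ hδ
    rw [hW1 δ hδ, map_one]
  have hP : ∀ h ∈ (φ i).range, h ≠ 1 → tce h ≠ 2 := by
    rintro _ ⟨δ, rfl⟩ hδ
    apply no_parabolic hfd hcoc
    intro h3
    apply hδ
    rw [h3, map_one]
  have key : ∀ σ ∈ (S : Set Γ), σ * γ * σ⁻¹ = γ ∨ σ * γ * σ⁻¹ = γ⁻¹ := by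
    intro σ hσ
    have hcm := hz (φ i).range hD hP (φ i γ) ⟨γ, rfl⟩ (φ i (σ * γ * σ⁻¹)) ⟨_, rfl⟩ h1
      (h2 σ hσ)
    have ht : tce (φ i (σ * γ * σ⁻¹)) = tce (φ i γ) := by
      rw [map_mul, map_mul, map_inv, tce_conj]
    rcases eq_or_inv_of_comm t2 t3 hcm.symm ht with h3 | h3
    · left
      exact hinj h3
    · right
      apply hinj
      rw [h3, map_inv]
  have hsq : ∀ σ : Γ, φ i (σ ^ 2) * φ i γ = φ i γ * φ i (σ ^ 2) := by
    intro σ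
    rw [← map_mul, ← map_mul]
    congr 1
    apply closed_sq_comm
    apply closed_conj_aux key
    rw [hS]
    exact Subgroup.mem_top σ
  apply hab
  apply hinj
  rw [map_mul, map_mul]
  exact comm_of_comm (ns_of_tce t2 t3) (hsq a) (hsq b)

end Pool.Teich
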