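import Pool.Agent.Teich.Poly

/-!
# Euler numbers of cyclic covers

PROOFS. `cov_prod`: induction on `n`. `cm (p^(n+1)) q = (p^n (cm p q) p^(-n)) * cm (p^n) q`, the
last factor of `cprod (covT (n+1) p q c d) (n+2)` is `p^n (cm c d) p^(-n)`, and the factors number
`1, ..., n` do not depend on the first argument of `covT`. So the product is
`(p^n (cm p q) p^(-n)) * ζ^n * (p^n (cm c d) p^(-n)) = ζ^n * p^n (cm p q * cm c d) p^(-n) = ζ^(n+1)`.
`euler_cov`: take lifts of `φ p, φ q, φ c, φ d` (`exists_lift`), `ζ = tr e` commutes with them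
(`Per.tr_mul`), `cm fp fq * cm fc fd = tr e` by `HasEuler.cprod_eq`; `covT n fp fq fc fd` are lifts of
`pairs φ (covT n p q c d)`; `tr e ^ n = tr (n e)` (`tr_add`).
-/

namespace Pool.Teich

/-- generators of the cover -/
def covT {K : Type*} [Group K] (n : ℕ) (p q c d : K) (i : ℕ) : K × K :=
  if i = 0 then (p ^ n, q)
  else (p ^ (i - 1) * c * (p ^ (i - 1))⁻¹, p ^ (i - 1) * d * (p ^ (i - 1))⁻¹)

theorem shift_covT {K : Type*} [Group K] (n : ℕ) (p q c d : K) (i : ℕ) :
    shift 1 (covT n p q c d) i = (p ^ i * c * (p ^ i)⁻¹, p ^ i * d * (p ^ i)⁻¹) := by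
  rw [shift_apply, covT, if_neg (by omega), Nat.add_sub_cancel_left]

theorem cov_aux {K : Type*} [Group K] {p q c d ζ : K} (hp : ζ * p = p * ζ) (hq : ζ * q = q * ζ)
    (h : cm p q * cm c d = ζ) (n : ℕ) :
    cm (p ^ n) q * cprod (fun i => (p ^ i * c * (p ^ i)⁻¹, p ^ i * d * (p ^ i)⁻¹)) n = ζ ^ n := by
  induction n with
  | zero =>
    rw [cprod_zero, pow_zero, pow_zero, mul_one, cm, one_mul, inv_one, mul_one, mul_inv_cancel]
  | succ n ih =>
    rw [cprod_succ]
    generalize cprod (fun i => (p ^ i * c * (p ^ i)⁻¹, p ^ i * d * (p ^ i)⁻¹)) n = R at ih ⊢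
    have hZP : Commute (ζ ^ n) (p ^ n) := Commute.pow_pow hp n n
    have hZp : Commute (ζ ^ n) p := Commute.pow_left hp n
    have hZq : Commute (ζ ^ n) q := Commute.pow_left hq n
    have hζP : Commute ζ (p ^ n) := Commute.pow_right hp n
    have hZm : Commute (ζ ^ n) (cm p q) :=
      ((hZp.mul_right hZq).mul_right hZp.inv_right).mul_right hZq.inv_right
    rw [pow_succ ζ, pow_succ p]
    generalize ζ ^ n = Z at *
    generalize p ^ n = P at *
    have e1 : cm (P * p) q * (R * cm (P * c * P⁻¹) (P * d * P⁻¹)) =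
        P * cm p q * P⁻¹ * (cm P q * R) * (P * cm c d * P⁻¹) := by
      simp only [cm]
      group
    rw [e1, ih]
    calc P * cm p q * P⁻¹ * Z * (P * cm c d * P⁻¹)
        = P * cm p q * P⁻¹ * (Z * P) * cm c d * P⁻¹ := by group
      _ = P * cm p q * P⁻¹ * (P * Z) * cm c d * P⁻¹ := by rw [hZP.eq]
      _ = P * (cm p q * Z) * cm c d * P⁻¹ := by group
      _ = P * (Z * cm p q) * cm c d * P⁻¹ := by rw [hZm.eq]
      _ = (P * Z) * (cm p q * cm c d) * P⁻¹ := by group
      _ = (Z * P) * ζ * P⁻¹ := by rw [h, hZP.eq]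
      _ = Z * (P * ζ) * P⁻¹ := by group
      _ = Z * (ζ * P) * P⁻¹ := by rw [hζP.eq]
      _ = Z * ζ := by group

theorem cov_prod {K : Type*} [Group K] {p q c d ζ : K} (hp : ζ * p = p * ζ) (hq : ζ * q = q * ζ)
    (hc : ζ * c = c * ζ) (hd : ζ * d = d * ζ) (h : cm p q * cm c d = ζ) (n : ℕ) :
    cprod (covT n p q c d) (n + 1) = ζ ^ n := by
  rw [cprod_succ', ← cov_aux hp hq h n]
  have e1 : covT n p q c d 0 = (p ^ n, q) := by rw [covT, if_pos rfl]
  rw [e1, cprod_congr fun i _ => shift_covT n p q c d i]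

theorem IsLift.pow {g : X} {f : ℝ ≃o ℝ} (h : IsLift g f) (n : ℕ) : IsLift (g ^ n) (f ^ n) := by
  induction n with
  | zero =>
    rw [pow_zero, pow_zero]
    exact isLift_one
  | succ n ih =>
    rw [pow_succ, pow_succ]
    exact ih.mul h

theorem tr_pow (e : ℤ) (n : ℕ) : tr e ^ n = tr (n * e) := by
  induction n with
  | zero =>
    rw [pow_zero, Nat.cast_zero, zero_mul, tr_zero]
  | succ n ih =>
    rw [pow_succ, ih, ← tr_add]
    congr 1
    push_cast
    ring

theorem euler_cov {Γ : Type*} [Group Γ] (φ : Γ →* X) {p q c d : Γ} {e : ℤ} {τ : ℕ → Γ × Γ}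
    (h0 : τ 0 = (p, q)) (h1 : τ 1 = (c, d)) (h : HasEuler 2 (pairs φ τ) e) (n : ℕ) :
    HasEuler (n + 1) (pairs φ (covT n p q c d)) (n * e) := by
  obtain ⟨fp, hfp⟩ := exists_lift (φ p)
  obtain ⟨fq, hfq⟩ := exists_lift (φ q)
  obtain ⟨fc, hfc⟩ := exists_lift (φ c)
  obtain ⟨fd, hfd⟩ := exists_lift (φ d)
  have h2 : cm fp fq * cm fc fd = tr e := by
    have h3 := h.cprod_eq (l := fun i => if i = 0 then (fp, fq) else (fc, fd)) (by
      intro i hi
      have hi' : i = 0 ∨ i = 1 := by omega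
      rcases hi' with rfl | rfl
      · simp only [pairs, h0, if_true]
        exact ⟨hfp, hfq⟩
      · simp only [pairs, h1]
        exact ⟨hfc, hfd⟩)
    rw [← h3, cprod_succ, cprod_succ, cprod_zero, one_mul]
    rfl
  refine ⟨covT n fp fq fc fd, ?_, ?_⟩
  · intro i
    by_cases hi : i = 0
    · subst hi
      have e1 : covT n fp fq fc fd 0 = (fp ^ n, fq) := by rw [covT, if_pos rfl]
      have e2 : pairs φ (covT n p q c d) 0 = (φ p ^ n, φ q) := by
        simp only [pairs, covT, if_true, map_pow]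
      rw [e1, e2]
      exact ⟨hfp.pow n, hfq⟩
    · have e1 : covT n fp fq fc fd i = (fp ^ (i - 1) * fc * (fp ^ (i - 1))⁻¹,
          fp ^ (i - 1) * fd * (fp ^ (i - 1))⁻¹) := by rw [covT, if_neg hi]
      have e2 : pairs φ (covT n p q c d) i = (φ p ^ (i - 1) * φ c * (φ p ^ (i - 1))⁻¹,
          φ p ^ (i - 1) * φ d * (φ p ^ (i - 1))⁻¹) := by
        simp only [pairs, covT, if_neg hi, map_pow, map_mul, map_inv]
      rw [e1, e2]
      exact ⟨((hfp.pow _).mul hfc).mul (hfp.pow _).inv, ((hfp.pow _).mul hfd).mul (hfp.pow _).inv⟩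
  · rw [cov_prod (hfp.per.tr_mul e) (hfq.per.tr_mul e) (hfc.per.tr_mul e) (hfd.per.tr_mul e) h2,
      tr_pow]

end Pool.Teich
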