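import Mathlib

/-!
# Teichmüller connectedness (MP_12b54f): basic definitions

`X = SL(2,ℝ)` acts on the angles of vectors of the plane.  `IsLift g f`: the order isomorphism
`f` of `ℝ` lifts this action.  The group of all pairs `(g, f)` is the universal cover of `X`.
A representation of the surface group of genus `n` is a sequence `t : ℕ → X × X` of pairs
(only the first `n` are used) with `cprod t n = 1`.  `HasEuler n t e`: the product of the
commutators of lifts is the translation by `e π`.
-/

namespace Pool.Teich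

open Matrix Real

/-- The group `SL(2,ℝ)`. -/
abbrev X := Matrix.SpecialLinearGroup (Fin 2) ℝ

/-- The unit vector of angle `α`. -/
noncomputable def E (α : ℝ) : Fin 2 → ℝ := ![Real.cos α, Real.sin α]

/-- `f` is a lift of the action of `g` on oriented directions to angles. -/
def IsLift (g : X) (f : ℝ ≃o ℝ) : Prop :=
  ∀ α, ∃ r : ℝ, 0 < r ∧ (g : Matrix (Fin 2) (Fin 2) ℝ) *ᵥ E α = r • E (f α)

/-- Translation by `k π`. -/
noncomputable def tr (k : ℤ) : ℝ ≃o ℝ := OrderIso.addRight ((k : ℝ) * π)

@[simp] lemma tr_apply (k : ℤ) (x : ℝ) : tr k x = x + k * π := rfl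

/-- `f` has displacement both smaller and larger than `k π`. -/
def Hyp (k : ℤ) (f : ℝ ≃o ℝ) : Prop :=
  (∃ α, f α < α + k * π) ∧ ∃ α, α + k * π < f α

/-- The commutator `a b a⁻¹ b⁻¹`. -/
def cm {G : Type*} [Group G] (a b : G) : G := a * b * a⁻¹ * b⁻¹

/-- Product of the first `n` commutators. -/
def cprod {G : Type*} [Group G] (t : ℕ → G × G) (n : ℕ) : G :=
  ((List.range n).map fun i => cm (t i).1 (t i).2).prod

/-- Shift of a sequence. -/
def shift {α : Type*} (k : ℕ) (t : ℕ → α) : ℕ → α := fun i => t (k + i)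

/-- The commutators of the lifts multiply to the translation by `e π`. -/
def HasEuler (n : ℕ) (t : ℕ → X × X) (e : ℤ) : Prop :=
  ∃ l : ℕ → (ℝ ≃o ℝ) × (ℝ ≃o ℝ),
    (∀ i, IsLift (t i).1 (l i).1 ∧ IsLift (t i).2 (l i).2) ∧ cprod l n = tr e

@[simp] lemma shift_apply {α : Type*} (k : ℕ) (t : ℕ → α) (i : ℕ) : shift k t i = t (k + i) := rfl

@[simp] lemma cprod_zero {G : Type*} [Group G] (t : ℕ → G × G) : cprod t 0 = 1 := by
  simp [cprod]

lemma cprod_succ {G : Type*} [Group G] (t : ℕ → G × G) (n : ℕ) :
    cprod t (n + 1) = cprod t n * cm (t n).1 (t n).2 := by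
  simp [cprod, List.range_succ]

lemma cprod_succ' {G : Type*} [Group G] (t : ℕ → G × G) (n : ℕ) :
    cprod t (n + 1) = cm (t 0).1 (t 0).2 * cprod (shift 1 t) n := by
  simp only [cprod, List.range_succ_eq_map, List.map_cons, List.map_map, List.prod_cons]
  congr 2
  ext i
  simp [shift, add_comm]

lemma cprod_add {G : Type*} [Group G] (t : ℕ → G × G) (m n : ℕ) :
    cprod t (m + n) = cprod t m * cprod (shift m t) n := by
  induction n with
  | zero => simp
  | succ n ih => rw [← add_assoc, cprod_succ, ih, cprod_succ, mul_assoc]; rfl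

lemma cprod_congr {G : Type*} [Group G] {t t' : ℕ → G × G} {n : ℕ}
    (h : ∀ i < n, t i = t' i) : cprod t n = cprod t' n := by
  simp only [cprod]
  congr 1
  refine List.map_congr_left fun i hi => ?_
  rw [h i (List.mem_range.1 hi)]

end Pool.Teich
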