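import Pool.Agent.Teich.Wind
import Pool.Agent.Teich.FD

/-!
# The degree of a closed polygon with paired sides: definitions and finiteness

`w 0, …, w m` in `Γ`, `w m = w 0`, the sides paired by the involution `σ` of `{0, …, m-1}`:
`(w (σ j))⁻¹ w (σ j + 1) = ((w j)⁻¹ w (j+1))⁻¹`. Vertices `p j = bp (φ (w j)) = φ (w j) • i`.
`dsum y = Σ_γ wind m p (φ γ • y)`.

PROOFS. `bp (g * h) = g • bp h` by definition. By `wind_zero` and properness: for a compact `B` only
finitely many `γ` have `wind m p (φ γ • y) ≠ 0` for some `y ∈ B` (the action of `X` on `ℍ` is proper: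
`{x : X | x • B ∩ B' ≠ ∅}` is contained in a compact set; e.g. `UpperHalfPlane.isProperMap_smul_I`
and the action is isometric: `dist (x • i) i ≤ dist (x • i) (x • y) + dist (x • y) i`).
`dist_finite`: the same argument.
-/

namespace Pool.Teich

open Complex ComplexConjugate UpperHalfPlane MeasureTheory
open scoped MatrixGroups

variable {Γ : Type*} [Group Γ]

/-- closed polygon in `Γ` with paired sides -/
structure Paired (m : ℕ) (w : ℕ → Γ) (σ : ℕ → ℕ) : Prop where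
  closed : w m = w 0
  lt : ∀ j < m, σ j < m
  invol : ∀ j < m, σ (σ j) = j
  pair : ∀ j < m, (w (σ j))⁻¹ * w (σ j + 1) = ((w j)⁻¹ * w (j + 1))⁻¹

/-- sum over all translates of the winding number -/
noncomputable def dsum (φ : Γ →* X) (m : ℕ) (w : ℕ → Γ) (y : ℍ) : ℝ :=
  ∑ᶠ γ : Γ, wind m (fun j => bp (φ (w j))) ((φ γ : SL(2, ℝ)) • y)

theorem bp_mul (g h : X) : bp (g * h) = (g : SL(2, ℝ)) • bp h := by
  unfold bp
  exact mul_smul g h UpperHalfPlane.I

theorem dist_finite {φ : Γ →* X} (hφ : Prp φ) (o y : ℍ) (r : ℝ) :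
    {γ | dist ((φ γ : SL(2, ℝ)) • y) o ≤ r}.Finite := by
  have hK : IsCompact ((fun g : SL(2, ℝ) => g • UpperHalfPlane.I) ⁻¹'
      Metric.closedBall o (dist UpperHalfPlane.I y + r)) :=
    UpperHalfPlane.isProperMap_smul_I.isCompact_preimage (isCompact_closedBall _ _)
  refine (hφ _ hK).subset ?_
  intro γ hγ
  have h1 : dist ((φ γ : SL(2, ℝ)) • y) o ≤ r := hγ
  have h2 : dist ((φ γ : SL(2, ℝ)) • UpperHalfPlane.I) ((φ γ : SL(2, ℝ)) • y) =
      dist UpperHalfPlane.I y := dist_smul _ _ _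
  show dist ((φ γ : SL(2, ℝ)) • UpperHalfPlane.I) o ≤ dist UpperHalfPlane.I y + r
  have h3 := dist_triangle ((φ γ : SL(2, ℝ)) • UpperHalfPlane.I) ((φ γ : SL(2, ℝ)) • y) o
  linarith

theorem support_finite {φ : Γ →* X} (hφ : Prp φ) {m : ℕ} {w : ℕ → Γ} (hw : w m = w 0) {B : Set ℍ}
    (hB : IsCompact B) :
    {γ | ∃ y ∈ B, wind m (fun j => bp (φ (w j))) ((φ γ : SL(2, ℝ)) • y) ≠ 0}.Finite := by
  obtain ⟨RB, hRB⟩ := hB.isBounded.subset_closedBall UpperHalfPlane.I
  set R : ℝ := ∑ j ∈ Finset.range (m + 1), dist (bp (φ (w j))) UpperHalfPlane.I with hR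
  refine (dist_finite hφ UpperHalfPlane.I UpperHalfPlane.I (R + RB)).subset ?_
  rintro γ ⟨y, hy, hne⟩
  have h1 : dist ((φ γ : SL(2, ℝ)) • y) UpperHalfPlane.I ≤ R := by
    by_contra hc
    push Not at hc
    apply hne
    refine wind_zero (o := UpperHalfPlane.I) (by simp only [hw]) (fun j hj => ?_)
    refine lt_of_le_of_lt ?_ hc
    rw [hR]
    exact Finset.single_le_sum (f := fun j => dist (bp (φ (w j))) UpperHalfPlane.I)
      (fun i _ => dist_nonneg) (Finset.mem_range.2 (by omega))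
  have h2 : dist ((φ γ : SL(2, ℝ)) • UpperHalfPlane.I) ((φ γ : SL(2, ℝ)) • y) =
      dist UpperHalfPlane.I y := dist_smul _ _ _
  have h3 := dist_triangle ((φ γ : SL(2, ℝ)) • UpperHalfPlane.I) ((φ γ : SL(2, ℝ)) • y)
    UpperHalfPlane.I
  have h4 : dist y UpperHalfPlane.I ≤ RB := hRB hy
  rw [dist_comm UpperHalfPlane.I y] at h2
  show dist ((φ γ : SL(2, ℝ)) • UpperHalfPlane.I) UpperHalfPlane.I ≤ R + RB
  linarith

end Pool.Teich
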