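import Pool.Agent.Teich.Deg

/-!
# The degree of a closed polygon with paired sides is locally constant

PROOF. By `wind_smul`, `bp_mul`:
`2π wind m p (φ γ • y) = Σ_j A(γ, j)(y)`, `A(γ, j)(y) = ang y (bp (φ (γ⁻¹ w j))) (bp (φ (γ⁻¹ w (j+1))))`.
`deg_local`: let `B` be the open ball of radius 1 around `y₀`. Let `N` be the set of pairs `(γ, j)`,
`j < m`, such that some `y ∈ B` is not generic for the edge `A(γ, j)`. By `dist_le_of_not_gen` the
edge then has its first vertex at distance at most the length of the edge from `y`, so `N` is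
finite (`dist_finite`). `N` is invariant under the involution `(γ, j) ↦ (γ', σ j)` with
`γ'⁻¹ w (σ j) = γ⁻¹ w (j+1)` (then `γ'⁻¹ w (σ j + 1) = γ⁻¹ w j`: the reversed edge), because
`Gen y a b ↔ Gen y b a`. Let `S` be a finite set containing the first components of `N` and all `γ`
with `wind m p (φ γ • y) ≠ 0` for some `y ∈ B` (`support_finite` with the closed ball). On `B`:
`2π dsum y = Σ_{γ ∈ S} Σ_j A(γ, j)(y) = Σ_{N} A + Σ_{S × {j<m} \ N} A`. For almost all `y ∈ B` (all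
edges of `N` generic) the first sum is `0` (involution, `ang_swap`); the second sum is continuous on
`B` (`continuousAt_ang`). Moreover `dsum y` is an integer for almost all `y` (`wind_ae_int`, the
measure is invariant, finitely many `γ ∈ S`). So the continuous function is integer valued (times
`2π`) on a dense subset of the ball (nonempty open sets have positive measure), hence everywhere
(closed condition), hence constant on a smaller connected neighbourhood of `y₀`; or simply: by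
continuity at `y₀` the function differs from its value at `y₀` by less than `2π` on a neighbourhood
`U` of `y₀`, hence is constant on `U`.
-/

namespace Pool.Teich

open Complex ComplexConjugate UpperHalfPlane MeasureTheory
open scoped MatrixGroups

variable {Γ : Type*} [Group Γ]

/-- vertices of the translated polygons -/
noncomputable def dv (φ : Γ →* X) (w : ℕ → Γ) (γ : Γ) (j : ℕ) : ℍ := bp (φ (γ⁻¹ * w j))

theorem dv_eq (φ : Γ →* X) (w : ℕ → Γ) (γ : Γ) (j : ℕ) :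
    dv φ w γ j = ((φ γ)⁻¹ : SL(2, ℝ)) • bp (φ (w j)) := by
  rw [dv, map_mul, map_inv, bp_mul]

theorem dv_wind (φ : Γ →* X) (m : ℕ) (w : ℕ → Γ) (γ : Γ) (y : ℍ) :
    wind m (fun j => bp (φ (w j))) ((φ γ : SL(2, ℝ)) • y) = wind m (dv φ w γ) y := by
  have h := wind_smul ((φ γ)⁻¹) m (fun j => bp (φ (w j))) ((φ γ : SL(2, ℝ)) • y)
  rw [inv_smul_smul] at h
  rw [← h]
  congr 1
  funext j
  exact (dv_eq φ w γ j).symm

theorem dv_dist (φ : Γ →* X) (w : ℕ → Γ) (γ : Γ) (i j : ℕ) :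
    dist (dv φ w γ i) (dv φ w γ j) = dist (bp (φ (w i))) (bp (φ (w j))) := by
  rw [dv_eq, dv_eq, dist_smul]

/-- the involution of the edges -/
def dinv (w : ℕ → Γ) (σ : ℕ → ℕ) (e : Γ × ℕ) : Γ × ℕ :=
  (w (σ e.2) * (w (e.2 + 1))⁻¹ * e.1, σ e.2)

theorem dinv_fst {w : ℕ → Γ} {σ : ℕ → ℕ} (φ : Γ →* X) (e : Γ × ℕ) :
    dv φ w (dinv w σ e).1 (dinv w σ e).2 = dv φ w e.1 (e.2 + 1) := by
  unfold dv dinv
  congr 2
  simp only
  group

theorem dinv_snd {m : ℕ} {w : ℕ → Γ} {σ : ℕ → ℕ} (hw : Paired m w σ) (φ : Γ →* X) {e : Γ × ℕ}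
    (he : e.2 < m) : dv φ w (dinv w σ e).1 ((dinv w σ e).2 + 1) = dv φ w e.1 e.2 := by
  have h := hw.pair e.2 he
  unfold dv dinv
  congr 2
  simp only
  have h2 : w (σ e.2 + 1) = w (σ e.2) * ((w e.2)⁻¹ * w (e.2 + 1))⁻¹ := by
    rw [← h, mul_inv_cancel_left]
  rw [h2]
  group

theorem dinv_dinv {m : ℕ} {w : ℕ → Γ} {σ : ℕ → ℕ} (hw : Paired m w σ) {e : Γ × ℕ}
    (he : e.2 < m) : dinv w σ (dinv w σ e) = e := by
  have h := hw.pair e.2 he
  have h2 : w (σ e.2 + 1) = w (σ e.2) * ((w e.2)⁻¹ * w (e.2 + 1))⁻¹ := by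
    rw [← h, mul_inv_cancel_left]
  unfold dinv
  apply Prod.ext
  · simp only
    rw [hw.invol e.2 he, h2]
    group
  · exact hw.invol e.2 he

/-- edges that are not generic for some point of the ball -/
def dbad (φ : Γ →* X) (m : ℕ) (w : ℕ → Γ) (y₀ : ℍ) : Set (Γ × ℕ) :=
  {e | e.2 < m ∧ ∃ y ∈ Metric.ball y₀ 1, ¬ Gen y (dv φ w e.1 e.2) (dv φ w e.1 (e.2 + 1))}

theorem dbad_finite {φ : Γ →* X} (hφ : Prp φ) (m : ℕ) (w : ℕ → Γ) (y₀ : ℍ) :
    (dbad φ m w y₀).Finite := by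
  have h1 : ∀ j ∈ Finset.range m, {γ | dist ((φ γ : SL(2, ℝ)) • y₀) (bp (φ (w j))) ≤
      dist (bp (φ (w j))) (bp (φ (w (j + 1)))) + 1}.Finite := fun j _ => dist_finite hφ _ _ _
  have h2 : (⋃ j ∈ Finset.range m, {γ | dist ((φ γ : SL(2, ℝ)) • y₀) (bp (φ (w j))) ≤
      dist (bp (φ (w j))) (bp (φ (w (j + 1)))) + 1} ×ˢ ({j} : Set ℕ)).Finite :=
    (Finset.finite_toSet _).biUnion fun j hj => (h1 j hj).prod (Set.finite_singleton j)
  refine h2.subset ?_
  rintro ⟨γ, j⟩ ⟨hj, y, hy, hg⟩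
  simp only at hj hg
  rw [Set.mem_iUnion₂]
  refine ⟨j, Finset.mem_range.2 hj, ⟨?_, rfl⟩⟩
  have h3 := dist_le_of_not_gen hg
  rw [dv_dist] at h3
  have h4 : dist ((φ γ : SL(2, ℝ)) • y) (bp (φ (w j))) = dist y (dv φ w γ j) := by
    rw [dv_eq, ← dist_smul ((φ γ)⁻¹ : SL(2, ℝ)) ((φ γ : SL(2, ℝ)) • y), inv_smul_smul]
  have h5 : dist ((φ γ : SL(2, ℝ)) • y₀) ((φ γ : SL(2, ℝ)) • y) = dist y₀ y := dist_smul _ _ _
  have h6 : dist y y₀ < 1 := hy
  have h7 := dist_triangle ((φ γ : SL(2, ℝ)) • y₀) ((φ γ : SL(2, ℝ)) • y) (bp (φ (w j)))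
  rw [dist_comm] at h6
  show dist ((φ γ : SL(2, ℝ)) • y₀) (bp (φ (w j))) ≤ _
  linarith

theorem dbad_inv {φ : Γ →* X} {m : ℕ} {w : ℕ → Γ} {σ : ℕ → ℕ} (hw : Paired m w σ) {y₀ : ℍ}
    {e : Γ × ℕ} (he : e ∈ dbad φ m w y₀) : dinv w σ e ∈ dbad φ m w y₀ := by
  obtain ⟨hj, y, hy, hg⟩ := he
  refine ⟨hw.lt _ hj, y, hy, fun hg2 => hg ?_⟩
  rw [dinv_fst φ e, dinv_snd hw φ hj] at hg2
  exact gen_swap hg2

theorem deg_local {φ : Γ →* X} (hφ : Prp φ) {m : ℕ} {w : ℕ → Γ} {σ : ℕ → ℕ}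
    (hw : Paired m w σ) (y₀ : ℍ) :
    ∃ U : Set ℍ, IsOpen U ∧ y₀ ∈ U ∧ ∃ k : ℤ, ∀ᵐ y : ℍ, y ∈ U → dsum φ m w y = k := by
  classical
  have hN := dbad_finite hφ m w y₀
  have hT := support_finite hφ hw.closed (isCompact_closedBall y₀ 1)
  set S : Finset Γ := hT.toFinset ∪ hN.toFinset.image Prod.fst with hS
  set F : Finset (Γ × ℕ) := S ×ˢ Finset.range m with hF
  set f : ℍ → Γ × ℕ → ℝ := fun y e => ang y (dv φ w e.1 e.2) (dv φ w e.1 (e.2 + 1)) with hf
  have hsub : hN.toFinset ⊆ F := by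
    intro e he
    rw [hF, Finset.mem_product]
    refine ⟨?_, ?_⟩
    · rw [hS, Finset.mem_union]
      exact Or.inr (Finset.mem_image_of_mem _ he)
    · rw [Finset.mem_range]
      exact ((Set.Finite.mem_toFinset hN).1 he).1
  have hsum : ∀ y ∈ Metric.ball y₀ 1, dsum φ m w y =
      (∑ e ∈ F, f y e) / (2 * Real.pi) := by
    intro y hy
    unfold dsum
    rw [finsum_eq_sum_of_support_subset (s := S)]
    · rw [hF, Finset.sum_product, Finset.sum_div]
      refine Finset.sum_congr rfl fun γ _ => ?_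
      rw [dv_wind]
      rfl
    · intro γ hγ
      rw [Function.mem_support] at hγ
      rw [Finset.mem_coe, hS, Finset.mem_union]
      left
      rw [Set.Finite.mem_toFinset]
      exact ⟨y, Metric.ball_subset_closedBall hy, hγ⟩
  have hsplit : ∀ y, ∑ e ∈ F, f y e =
      ∑ e ∈ F \ hN.toFinset, f y e + ∑ e ∈ hN.toFinset, f y e := fun y =>
    (Finset.sum_sdiff hsub).symm
  have hzero : ∀ y, (∀ e ∈ hN.toFinset, Gen y (dv φ w e.1 e.2) (dv φ w e.1 (e.2 + 1))) →
      ∑ e ∈ hN.toFinset, f y e = 0 := by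
    intro y hy
    have hneg : ∀ e ∈ hN.toFinset, f y (dinv w σ e) = -f y e := by
      intro e he
      have hj : e.2 < m := ((Set.Finite.mem_toFinset hN).1 he).1
      simp only [hf]
      rw [dinv_fst φ e, dinv_snd hw φ hj]
      exact ang_swap (hy e he)
    refine Finset.sum_involution (fun e _ => dinv w σ e) ?_ ?_ ?_ ?_
    · intro e he
      rw [hneg e he]
      ring
    · intro e he hne heq
      have h1 := hneg e he
      rw [heq] at h1
      apply hne
      linarith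
    · intro e he
      rw [Set.Finite.mem_toFinset] at he ⊢
      exact dbad_inv hw he
    · intro e he
      exact dinv_dinv hw ((Set.Finite.mem_toFinset hN).1 he).1
  set G : ℍ → ℝ := fun y => ∑ e ∈ F \ hN.toFinset, f y e with hG
  have hcont : ContinuousAt G y₀ := by
    refine tendsto_finsetSum _ fun e he => ?_
    rw [Finset.mem_sdiff, Set.Finite.mem_toFinset, hF, Finset.mem_product,
      Finset.mem_range] at he
    have hg : Gen y₀ (dv φ w e.1 e.2) (dv φ w e.1 (e.2 + 1)) := by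
      by_contra hc
      exact he.2 ⟨he.1.2, y₀, Metric.mem_ball_self one_pos, hc⟩
    exact continuousAt_ang hg
  have hpi := Real.pi_pos
  obtain ⟨V, hV, hVo, hyV⟩ := mem_nhds_iff.1 (Metric.tendsto_nhds.1 hcont Real.pi hpi)
  set U : Set ℍ := V ∩ Metric.ball y₀ 1 with hU
  have hUG : ∀ y ∈ U, ∀ z ∈ U, |G y - G z| < 2 * Real.pi := by
    intro y hy z hz
    have h1 : dist (G y) (G y₀) < Real.pi := hV hy.1
    have h2 : dist (G z) (G y₀) < Real.pi := hV hz.1
    rw [← Real.dist_eq]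
    have h3 := dist_triangle_right (G y) (G z) (G y₀)
    linarith
  let good : ℍ → Prop := fun y =>
    (∀ e ∈ hN.toFinset, Gen y (dv φ w e.1 e.2) (dv φ w e.1 (e.2 + 1))) ∧
    ∃ k : ℤ, ∑ γ ∈ S, wind m (dv φ w γ) y = k
  have hgood : ∀ᵐ y : ℍ, good y := by
    have h1 : ∀ᵐ y : ℍ, ∀ e ∈ hN.toFinset,
        Gen y (dv φ w e.1 e.2) (dv φ w e.1 (e.2 + 1)) := by
      rw [Filter.eventually_all_finset]
      exact fun e _ => ae_gen _ _
    have h2 : ∀ᵐ y : ℍ, ∀ γ ∈ S, ∃ k : ℤ, wind m (dv φ w γ) y = k := by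
      rw [Filter.eventually_all_finset]
      intro γ _
      refine wind_ae_int ?_
      unfold dv
      rw [hw.closed]
    filter_upwards [h1, h2] with y hy1 hy2
    refine ⟨hy1, ?_⟩
    choose! k hk using hy2
    refine ⟨∑ γ ∈ S, k γ, ?_⟩
    push_cast
    exact Finset.sum_congr rfl fun γ hγ => hk γ hγ
  have hval : ∀ y ∈ U, good y → ∃ k : ℤ, dsum φ m w y = k ∧ G y = 2 * Real.pi * k := by
    rintro y hy ⟨h1, k, hk⟩
    have h2 := hsum y hy.2
    have h3 : G y = ∑ e ∈ F, f y e := by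
      rw [hsplit y, hzero y h1, add_zero]
    have h4 : (∑ e ∈ F, f y e) / (2 * Real.pi) = ∑ γ ∈ S, wind m (dv φ w γ) y := by
      rw [hF, Finset.sum_product, Finset.sum_div]
      rfl
    refine ⟨k, ?_, ?_⟩
    · rw [h2, h4, hk]
    · rw [h3, ← hk, ← h4]
      field_simp
  refine ⟨U, hVo.inter Metric.isOpen_ball, ⟨hyV, Metric.mem_ball_self one_pos⟩, ?_⟩
  by_cases hex : ∃ z ∈ U, good z
  · obtain ⟨z, hz, hgz⟩ := hex
    obtain ⟨k, hk1, hk2⟩ := hval z hz hgz
    refine ⟨k, ?_⟩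
    filter_upwards [hgood] with y hgy hy
    obtain ⟨l, hl1, hl2⟩ := hval y hy hgy
    have h1 := hUG y hy z hz
    rw [hk2, hl2, ← mul_sub, abs_mul, abs_of_pos (by positivity : (0 : ℝ) < 2 * Real.pi)] at h1
    have h2 : |((l - k : ℤ) : ℝ)| < 1 := by
      push_cast
      by_contra hc
      push Not at hc
      nlinarith
    have h3 : l = k := by
      rw [← Int.cast_abs] at h2
      have h4 : |l - k| < 1 := by exact_mod_cast h2
      have h5 := Int.abs_lt_one_iff.1 h4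
      omega
    rw [hl1, h3]
  · refine ⟨0, ?_⟩
    filter_upwards [hgood] with y hgy hy
    exact absurd ⟨y, hy, hgy⟩ hex

end Pool.Teich
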