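import Pool.Agent.Teich.Lift

/-!
# Hyperbolic matrices with negative trace

`tce C` is the trace. `lam r = 1 + e^r > 1`.

PROOFS. `exists_diag`, `exists_diag_pos`: two distinct real eigenvalues, take eigenvectors and rescale one of
them to get determinant `1`; the eigenvalue of larger modulus comes first.

`frameM_spec`: direct computation (the columns are eigenvectors).

`centralizer`: `g` commuting with a diagonal matrix with distinct entries is diagonal.
-/

namespace Pool.Teich

open Matrix Real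

/-- trace -/
def tce (C : X) : ℝ := C.1 0 0 + C.1 1 1

/-- a number `> 1` -/
noncomputable def lam (r : ℝ) : ℝ := 1 + Real.exp r

lemma one_lt_lam (r : ℝ) : 1 < lam r := by
  have := Real.exp_pos r
  unfold lam
  linarith

lemma lam_pos (r : ℝ) : 0 < lam r := lt_trans one_pos (one_lt_lam r)

/-- `diag (-μ, -1/μ)`, `μ = lam r` -/
noncomputable def Dneg (r : ℝ) : X :=
  ⟨!![-lam r, 0; 0, -(lam r)⁻¹], by
    rw [Matrix.det_fin_two_of]
    have := (lam_pos r).ne'
    field_simp
    ring⟩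

/-- `diag (e^s, e^-s)` -/
noncomputable def Dexp (s : ℝ) : X :=
  ⟨!![Real.exp s, 0; 0, Real.exp (-s)], by
    rw [Matrix.det_fin_two_of, ← Real.exp_add]
    simp⟩

/-- eigenvectors of a matrix with eigenvalues `-μ, -1/μ`, `μ = lam r` -/
noncomputable def frameM (C : Matrix (Fin 2) (Fin 2) ℝ) (r : ℝ) : Matrix (Fin 2) (Fin 2) ℝ :=
  !![-lam r - C 1 1, (-(lam r)⁻¹ - C 1 1) / (C 1 0 * ((lam r)⁻¹ - lam r));
     C 1 0, 1 / ((lam r)⁻¹ - lam r)]

lemma inv_sub_ne (r : ℝ) : (lam r)⁻¹ - lam r ≠ 0 := by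
  have h := one_lt_lam r
  have h1 : (lam r)⁻¹ < 1 := inv_lt_one_of_one_lt₀ h
  linarith

lemma frameM_det (C : Matrix (Fin 2) (Fin 2) ℝ) (r : ℝ) (h : C 1 0 ≠ 0) :
    (frameM C r).det = 1 := by
  have h1 := inv_sub_ne r
  rw [frameM, Matrix.det_fin_two_of]
  generalize (lam r)⁻¹ = m at h1 ⊢
  field_simp
  ring

open Classical in
/-- eigenvectors as an element of `SL(2,ℝ)` -/
noncomputable def frameX (C : X) (r : ℝ) : X :=
  if h : C.1 1 0 ≠ 0 then ⟨frameM C.1 r, frameM_det C.1 r h⟩ else 1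

lemma frameX_val {C : X} (h : C.1 1 0 ≠ 0) (r : ℝ) : (frameX C r).1 = frameM C.1 r := by
  rw [frameX, dif_pos h]

lemma frame_eq {a b c d μ m : ℝ} (hc : c ≠ 0) (hn : m - μ ≠ 0) (hm : μ * m = 1)
    (ht : a + d = -(μ + m)) (hd : a * d - b * c = 1) :
    !![a, b; c, d] * !![-μ - d, (-m - d) / (c * (m - μ)); c, 1 / (m - μ)] =
      !![-μ - d, (-m - d) / (c * (m - μ)); c, 1 / (m - μ)] * !![-μ, 0; 0, -m] := by
  rw [Matrix.mul_fin_two, Matrix.mul_fin_two]
  have e1 : a * (-μ - d) + b * c = (-μ - d) * -μ + (-m - d) / (c * (m - μ)) * 0 := by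
    linear_combination (-1 : ℝ) * hd - μ * ht + hm
  have e2 : a * ((-m - d) / (c * (m - μ))) + b * (1 / (m - μ)) =
      (-μ - d) * 0 + (-m - d) / (c * (m - μ)) * -m := by
    field_simp
    linear_combination (-1 : ℝ) * hd - m * ht + hm
  have e3 : c * (-μ - d) + d * c = c * -μ + 1 / (m - μ) * 0 := by
    ring
  have e4 : c * ((-m - d) / (c * (m - μ))) + d * (1 / (m - μ)) = c * 0 + 1 / (m - μ) * -m := by
    field_simp
    ring
  rw [e1, e2, e3, e4]

lemma X_eta (C : X) : C.1 = !![C.1 0 0, C.1 0 1; C.1 1 0, C.1 1 1] := by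
  ext i j
  fin_cases i <;> fin_cases j <;> rfl

lemma X_det (C : X) : C.1 0 0 * C.1 1 1 - C.1 0 1 * C.1 1 0 = 1 := by
  have := C.2
  rwa [Matrix.det_fin_two] at this

lemma exists_lam_aux {x : ℝ} (h : 2 < x) : ∃ r, x = lam r + (lam r)⁻¹ := by
  have h4 : 0 < x ^ 2 - 4 := by nlinarith
  have hs := Real.sq_sqrt h4.le
  have hs0 : 0 < √(x ^ 2 - 4) := Real.sqrt_pos.2 h4
  set t := √(x ^ 2 - 4) with ht
  have hμ : 1 < (x + t) / 2 := by linarith
  have he : lam (Real.log ((x + t) / 2 - 1)) = (x + t) / 2 := by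
    unfold lam
    rw [Real.exp_log (by linarith)]
    ring
  refine ⟨Real.log ((x + t) / 2 - 1), ?_⟩
  rw [he]
  have hinv : ((x + t) / 2)⁻¹ = (x - t) / 2 := by
    apply inv_eq_of_mul_eq_one_right
    nlinarith
  rw [hinv]
  ring

theorem frameX_spec (C : X) (r : ℝ) (hc : C.1 1 0 ≠ 0) (ht : tce C = -(lam r + (lam r)⁻¹)) :
    C = frameX C r * Dneg r * (frameX C r)⁻¹ := by
  rw [eq_mul_inv_iff_mul_eq]
  apply Subtype.ext
  rw [Matrix.SpecialLinearGroup.coe_mul, Matrix.SpecialLinearGroup.coe_mul, frameX_val hc]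
  have h := frame_eq (a := C.1 0 0) (b := C.1 0 1) (c := C.1 1 0) (d := C.1 1 1) hc
    (inv_sub_ne r) (mul_inv_cancel₀ (lam_pos r).ne') ht (X_det C)
  rw [← X_eta] at h
  exact h

theorem continuous_frameX {Y : Type*} [TopologicalSpace Y] {C : Y → X} {r : Y → ℝ}
    (hC : Continuous C) (hr : Continuous r) (h : ∀ y, (C y).1 1 0 ≠ 0) :
    Continuous fun y => frameX (C y) (r y) := by
  have hlam : Continuous fun y => lam (r y) := by
    unfold lam
    exact continuous_const.add (Real.continuous_exp.comp hr)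
  have hinv : Continuous fun y => (lam (r y))⁻¹ := hlam.inv₀ fun y => (lam_pos _).ne'
  have hent : ∀ i j, Continuous fun y => (C y).1 i j := fun i j =>
    (continuous_subtype_val.comp hC).matrix_elem i j
  have hval : ∀ y, (frameX (C y) (r y)).1 = frameM (C y).1 (r y) := fun y =>
    frameX_val (h y) (r y)
  have h2 : (fun y => (frameX (C y) (r y)).1) = fun y => frameM (C y).1 (r y) :=
    funext hval
  refine continuous_induced_rng.2 (?_ : Continuous fun y => (frameX (C y) (r y)).1)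
  rw [h2]
  apply continuous_matrix
  intro i j
  fin_cases i <;> fin_cases j
  · exact hlam.neg.sub (hent 1 1)
  · exact (hinv.neg.sub (hent 1 1)).div ((hent 1 0).mul (hinv.sub hlam)) fun y =>
      mul_ne_zero (h y) (inv_sub_ne _)
  · exact hent 1 0
  · exact continuous_const.div (hinv.sub hlam) fun y => inv_sub_ne _

theorem continuous_Dneg : Continuous Dneg := by
  have hlam : Continuous lam := by
    unfold lam
    exact continuous_const.add Real.continuous_exp
  have hinv : Continuous fun y => (lam y)⁻¹ := hlam.inv₀ fun y => (lam_pos _).ne'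
  apply continuous_induced_rng.2
  apply continuous_matrix
  intro i j
  fin_cases i <;> fin_cases j
  · exact hlam.neg
  · exact continuous_const
  · exact continuous_const
  · exact hinv.neg

theorem continuous_Dexp : Continuous Dexp := by
  apply continuous_induced_rng.2
  apply continuous_matrix
  intro i j
  fin_cases i <;> fin_cases j
  · exact Real.continuous_exp
  · exact continuous_const
  · exact continuous_const
  · exact Real.continuous_exp.comp continuous_neg

theorem exists_diag {C : X} (h : tce C < -2) : ∃ u : X, ∃ r : ℝ, C = u * Dneg r * u⁻¹ := by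
  obtain ⟨r, hr⟩ := exists_lam_aux (x := -tce C) (by linarith)
  have key : ∀ C' : X, tce C' = tce C → C'.1 1 0 ≠ 0 → ∃ u : X, C' = u * Dneg r * u⁻¹ := by
    intro C' h1 h2
    exact ⟨frameX C' r, frameX_spec C' r h2 (by linarith)⟩
  by_cases hc : C.1 1 0 = 0
  · -- conjugate by a unipotent matrix
    have hdet := X_det C
    rw [hc, mul_zero, sub_zero] at hdet
    have hne : C.1 0 0 - C.1 1 1 ≠ 0 := by
      intro h0
      have h1 : C.1 1 1 = C.1 0 0 := by linarith
      have h2 : tce C = 2 * C.1 0 0 := by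
        unfold tce
        rw [h1]
        ring
      rw [h1] at hdet
      rw [h2] at h
      nlinarith
    obtain ⟨t, ht⟩ : ∃ t : ℝ, t * (C.1 0 0 - C.1 1 1) - t ^ 2 * C.1 0 1 ≠ 0 := by
      by_cases h1 : C.1 0 0 - C.1 1 1 - C.1 0 1 = 0
      · refine ⟨-1, ?_⟩
        intro h2
        apply hne
        linarith
      · refine ⟨1, ?_⟩
        intro h2
        apply h1
        linarith
    set u : X := ⟨!![1, 0; t, 1], by rw [Matrix.det_fin_two_of]; ring⟩ with hu
    have huinv : (u⁻¹).1 = !![1, 0; -t, 1] := by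
      rw [Matrix.SpecialLinearGroup.coe_inv, Matrix.adjugate_fin_two]
      simp [hu]
    have hval : (u * C * u⁻¹).1 = !![C.1 0 0 - t * C.1 0 1, C.1 0 1;
        t * (C.1 0 0 - C.1 1 1) - t ^ 2 * C.1 0 1, t * C.1 0 1 + C.1 1 1] := by
      rw [Matrix.SpecialLinearGroup.coe_mul, Matrix.SpecialLinearGroup.coe_mul, huinv, X_eta C,
        hc, hu, Matrix.mul_fin_two, Matrix.mul_fin_two]
      congr 1
      ext i j
      fin_cases i <;> fin_cases j <;> simp <;> ring
    obtain ⟨v, hv⟩ := key (u * C * u⁻¹) (by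
      unfold tce
      rw [hval]
      simp
      ring) (by
      rw [hval]
      exact ht)
    refine ⟨u⁻¹ * v, r, ?_⟩
    have h1 : C = u⁻¹ * (u * C * u⁻¹) * u := by group
    rw [h1, hv]
    group
  · obtain ⟨u, hu⟩ := key C rfl hc
    exact ⟨u, r, hu⟩

/-- `diag (μ, 1/μ)`, `μ = lam r` -/
noncomputable def Dpos (r : ℝ) : X :=
  ⟨!![lam r, 0; 0, (lam r)⁻¹], by
    rw [Matrix.det_fin_two_of]
    have := (lam_pos r).ne'
    field_simp
    ring⟩

theorem exists_diag_pos {C : X} (h : 2 < tce C) : ∃ u : X, ∃ r : ℝ, C = u * Dpos r * u⁻¹ := by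
  set C' : X := ⟨-C.1, by rw [Matrix.det_neg, C.2]; simp⟩ with hC'
  obtain ⟨u, r, hu⟩ := exists_diag (C := C') (by
    unfold tce at *
    rw [hC']
    simp only [Matrix.neg_apply]
    linarith)
  refine ⟨u, r, ?_⟩
  apply Subtype.ext
  have h1 := congrArg Subtype.val hu
  rw [Matrix.SpecialLinearGroup.coe_mul, Matrix.SpecialLinearGroup.coe_mul] at h1
  rw [Matrix.SpecialLinearGroup.coe_mul, Matrix.SpecialLinearGroup.coe_mul]
  have h2 : (Dpos r).1 = -(Dneg r).1 := by
    simp only [Dpos, Dneg]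
    ext i j
    fin_cases i <;> fin_cases j <;> simp
  have h3 : C.1 = -C'.1 := by
    rw [hC']
    simp
  rw [h2, h3, h1, Matrix.mul_neg, Matrix.neg_mul]

theorem exists_lam {x : ℝ} (h : 2 < x) : ∃ r, x = lam r + (lam r)⁻¹ := by
  exact exists_lam_aux h

theorem lam_add_inv_injective {r r' : ℝ} (h : lam r + (lam r)⁻¹ = lam r' + (lam r')⁻¹) :
    r = r' := by
  have h1 := one_lt_lam r
  have h2 := one_lt_lam r'
  have h3 : lam r = lam r' := by
    have h4 : (lam r - lam r') * (lam r * lam r' - 1) = 0 := by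
      have h5 : lam r ≠ 0 := by positivity
      have h6 : lam r' ≠ 0 := by positivity
      field_simp at h
      linear_combination h
    rcases mul_eq_zero.1 h4 with h5 | h5
    · linarith
    · nlinarith
  unfold lam at h3
  exact Real.exp_injective (by linarith)

theorem centralizer {g : X} {r : ℝ} (h : g * Dneg r = Dneg r * g) :
    ∃ s, g = Dexp s ∨ g.1 = -(Dexp s).1 := by
  have hμ := lam_pos r
  have h1 := congrArg Subtype.val h
  rw [Matrix.SpecialLinearGroup.coe_mul, Matrix.SpecialLinearGroup.coe_mul] at h1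
  have hn := inv_sub_ne r
  have hdet := X_det g
  have e01 := congrArg (fun M : Matrix (Fin 2) (Fin 2) ℝ => M 0 1) h1
  have e10 := congrArg (fun M : Matrix (Fin 2) (Fin 2) ℝ => M 1 0) h1
  simp only [Dneg, Matrix.mul_apply, Fin.sum_univ_two] at e01 e10
  simp at e01 e10
  have b0 : g.1 0 1 = 0 := by
    have h2 : ((lam r)⁻¹ - lam r) * g.1 0 1 = 0 := by linear_combination e01
    exact (mul_eq_zero.1 h2).resolve_left hn
  have c0 : g.1 1 0 = 0 := by
    have h2 : ((lam r)⁻¹ - lam r) * g.1 1 0 = 0 := by linear_combination (-1 : ℝ) * e10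
    exact (mul_eq_zero.1 h2).resolve_left hn
  rw [b0, c0, mul_zero, sub_zero] at hdet
  have ha : g.1 0 0 ≠ 0 := by
    intro h0
    rw [h0, zero_mul] at hdet
    exact zero_ne_one hdet
  have hd : g.1 1 1 = (g.1 0 0)⁻¹ := (inv_eq_of_mul_eq_one_right hdet).symm
  have hg : g.1 = !![g.1 0 0, 0; 0, (g.1 0 0)⁻¹] := by
    conv_lhs => rw [X_eta g, b0, c0, hd]
  obtain ⟨a, haa⟩ : ∃ a, a = g.1 0 0 := ⟨_, rfl⟩
  rw [← haa] at hg ha
  rcases lt_or_gt_of_ne ha with hlt | hgt
  · refine ⟨Real.log (-a), Or.inr ?_⟩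
    have e1 : Real.exp (Real.log (-a)) = -a := Real.exp_log (by linarith)
    have e2 : Real.exp (-Real.log (-a)) = -a⁻¹ := by
      rw [Real.exp_neg, e1, inv_neg]
    rw [hg]
    unfold Dexp
    simp only [e1, e2]
    ext i j
    fin_cases i <;> fin_cases j <;> simp
  · refine ⟨Real.log a, Or.inl ?_⟩
    have e1 : Real.exp (Real.log a) = a := Real.exp_log hgt
    have e2 : Real.exp (-Real.log a) = a⁻¹ := by
      rw [Real.exp_neg, e1]
    apply Subtype.ext
    rw [hg]
    unfold Dexp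
    simp only [e1, e2]

theorem tce_conj (u C : X) : tce (u * C * u⁻¹) = tce C := by
  have h : ∀ M : X, tce M = Matrix.trace M.1 := fun M => (Matrix.trace_fin_two M.1).symm
  rw [h, h, Matrix.SpecialLinearGroup.coe_mul, Matrix.trace_mul_comm,
    ← Matrix.SpecialLinearGroup.coe_mul, inv_mul_cancel_left]

end Pool.Teich
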