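import Pool.Agent.Teich.Lift

/-!
# The action on the closed unit disk and the branches of the argument of the automorphy factor

For `g = !![a, b; c, d]` put `pc g = ((a + d) + i (c - b))/2`, `qc g = ((a - d) + i (c + b))/2`.
Then `|pc g|² - |qc g|² = det g = 1`, `pc (g h) = pc g pc h + qc g conj (qc h)`,
`qc (g h) = pc g qc h + qc g conj (pc h)`. `J g w = qc g w + pc g` does not vanish for `|w| ≤ 1`
and `act g w = (conj (pc g) w + conj (qc g)) / J g w`. As complex numbers,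
`g (E α) = e^{iα} J g (e^{-2iα})`.

PROOFS. Algebra: direct. `one_sub`: direct from `|p|² - |q|² = 1`. Norms: `one_sub` with
`w1 = w2` gives `1 - |act g w|² = (1 - |w|²)/|J g w|²`.
`act_exp`: `e^{i f α} r = e^{iα} J g (e^{-2iα})` and for `|w| = 1`
`act g w = w conj (J g w) / J g w`.
-/

namespace Pool.Teich

open Complex ComplexConjugate

/-- coefficient of `e^{iα}` -/
noncomputable def pc (g : X) : ℂ :=
  (((g.1 0 0 + g.1 1 1 : ℝ) : ℂ) + ((g.1 1 0 - g.1 0 1 : ℝ) : ℂ) * I) / 2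

/-- coefficient of `e^{-iα}` -/
noncomputable def qc (g : X) : ℂ :=
  (((g.1 0 0 - g.1 1 1 : ℝ) : ℂ) + ((g.1 1 0 + g.1 0 1 : ℝ) : ℂ) * I) / 2

/-- automorphy factor -/
noncomputable def J (g : X) (w : ℂ) : ℂ := qc g * w + pc g

/-- action on the closed disk -/
noncomputable def act (g : X) (w : ℂ) : ℂ := (conj (pc g) * w + conj (qc g)) / J g w

lemma det_c (g : X) : (g.1 0 0 : ℂ) * (g.1 1 1 : ℂ) - (g.1 0 1 : ℂ) * (g.1 1 0 : ℂ) = 1 := by
  have h := g.2
  rw [Matrix.det_fin_two] at h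
  exact_mod_cast h

lemma conj_pc (g : X) : conj (pc g) =
    (((g.1 0 0 + g.1 1 1 : ℝ) : ℂ) - ((g.1 1 0 - g.1 0 1 : ℝ) : ℂ) * I) / 2 := by
  unfold pc
  simp only [map_div₀, map_add, map_mul, conj_ofReal, conj_I, map_ofNat]
  ring

lemma conj_qc (g : X) : conj (qc g) =
    (((g.1 0 0 - g.1 1 1 : ℝ) : ℂ) - ((g.1 1 0 + g.1 0 1 : ℝ) : ℂ) * I) / 2 := by
  unfold qc
  simp only [map_div₀, map_add, map_mul, conj_ofReal, conj_I, map_ofNat]
  ring

lemma pc_mul_conj (g : X) : pc g * conj (pc g) - qc g * conj (qc g) = 1 := by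
  rw [conj_pc, conj_qc]
  unfold pc qc
  push_cast
  have h := det_c g
  have hI := I_sq
  linear_combination h - ((g.1 1 0 : ℂ) - g.1 0 1) ^ 2 / 4 * hI
    + ((g.1 1 0 : ℂ) + g.1 0 1) ^ 2 / 4 * hI

lemma pc_mul (g h : X) : pc (g * h) = pc g * pc h + qc g * conj (qc h) := by
  rw [conj_qc]
  unfold pc qc
  simp only [Matrix.SpecialLinearGroup.coe_mul, Matrix.mul_apply, Fin.sum_univ_two]
  push_cast
  have hI := I_sq
  linear_combination (-((g.1 1 0 : ℂ) - g.1 0 1) * ((h.1 1 0 : ℂ) - h.1 0 1) / 4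
    + ((g.1 1 0 : ℂ) + g.1 0 1) * ((h.1 1 0 : ℂ) + h.1 0 1) / 4) * hI

lemma qc_mul (g h : X) : qc (g * h) = pc g * qc h + qc g * conj (pc h) := by
  rw [conj_pc]
  unfold pc qc
  simp only [Matrix.SpecialLinearGroup.coe_mul, Matrix.mul_apply, Fin.sum_univ_two]
  push_cast
  have hI := I_sq
  linear_combination (-((g.1 1 0 : ℂ) - g.1 0 1) * ((h.1 1 0 : ℂ) + h.1 0 1) / 4
    + ((g.1 1 0 : ℂ) + g.1 0 1) * ((h.1 1 0 : ℂ) - h.1 0 1) / 4) * hI

theorem pc_sq (g : X) : ‖pc g‖ ^ 2 - ‖qc g‖ ^ 2 = 1 := by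
  have h := pc_mul_conj g
  rw [Complex.mul_conj, Complex.mul_conj, Complex.normSq_eq_norm_sq,
    Complex.normSq_eq_norm_sq] at h
  exact_mod_cast h

theorem pc_ne (g : X) : pc g ≠ 0 := by
  intro h
  have h1 := pc_sq g
  rw [h, norm_zero] at h1
  nlinarith [sq_nonneg ‖qc g‖]

theorem J_ne (g : X) {w : ℂ} (hw : ‖w‖ ≤ 1) : J g w ≠ 0 := by
  intro h
  have h1 := pc_sq g
  have h2 : pc g = -(qc g * w) := by
    unfold J at h
    linear_combination h
  have h3 : ‖pc g‖ = ‖qc g‖ * ‖w‖ := by rw [h2, norm_neg, norm_mul]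
  have h4 : ‖pc g‖ ≤ ‖qc g‖ := by
    rw [h3]
    exact mul_le_of_le_one_right (norm_nonneg _) hw
  nlinarith [norm_nonneg (pc g), norm_nonneg (qc g)]

lemma act_num (g : X) {w : ℂ} (hw : ‖w‖ ≤ 1) :
    conj (pc g) * w + conj (qc g) = act g w * J g w := by
  unfold act
  rw [div_mul_cancel₀ _ (J_ne g hw)]

theorem J_mul (g h : X) {w : ℂ} (hw : ‖w‖ ≤ 1) : J (g * h) w = J g (act h w) * J h w := by
  have h1 := act_num h hw
  have h2 : J g (act h w) * J h w = qc g * (act h w * J h w) + pc g * J h w := by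
    unfold J
    ring
  rw [h2, ← h1]
  unfold J
  rw [pc_mul, qc_mul]
  ring

theorem act_mul (g h : X) {w : ℂ} (hw : ‖w‖ ≤ 1) : act (g * h) w = act g (act h w) := by
  have h1 := act_num h hw
  have hJ := J_ne h hw
  have h3 : conj (pc (g * h)) * w + conj (qc (g * h))
      = (conj (pc g) * act h w + conj (qc g)) * J h w := by
    have h4 : (conj (pc g) * act h w + conj (qc g)) * J h w
        = conj (pc g) * (act h w * J h w) + conj (qc g) * J h w := by ring
    rw [h4, ← h1, pc_mul, qc_mul]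
    unfold J
    simp only [map_add, map_mul, Complex.conj_conj]
    ring
  have h5 : act (g * h) w = (conj (pc (g * h)) * w + conj (qc (g * h))) / J (g * h) w := rfl
  rw [h5, h3, J_mul g h hw, mul_div_mul_right _ _ hJ]
  rfl

@[simp] theorem act_one (w : ℂ) : act 1 w = w := by
  have h1 : pc 1 = 1 := by
    unfold pc
    simp
  have h2 : qc 1 = 0 := by
    unfold qc
    simp
  unfold act J
  rw [h1, h2]
  simp

theorem one_sub (g : X) {w1 w2 : ℂ} (h1 : ‖w1‖ ≤ 1) (h2 : ‖w2‖ ≤ 1) :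
    1 - act g w1 * conj (act g w2) = (1 - w1 * conj w2) / (J g w1 * conj (J g w2)) := by
  have hJ1 := J_ne g h1
  have hJ2 : conj (J g w2) ≠ 0 := by
    rw [Ne, map_eq_zero]
    exact J_ne g h2
  rw [eq_div_iff (mul_ne_zero hJ1 hJ2)]
  have e1 := act_num g h1
  have e2 := congrArg conj (act_num g h2)
  rw [map_mul] at e2
  have e3 : (1 - act g w1 * conj (act g w2)) * (J g w1 * conj (J g w2))
      = J g w1 * conj (J g w2)
        - (act g w1 * J g w1) * (conj (act g w2) * conj (J g w2)) := by ring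
  rw [e3, ← e1, ← e2]
  unfold J
  simp only [map_add, map_mul, Complex.conj_conj]
  have h := pc_mul_conj g
  linear_combination (1 - w1 * conj w2) * h

lemma one_sub_normSq (g : X) {w : ℂ} (hw : ‖w‖ ≤ 1) :
    1 - ‖act g w‖ ^ 2 = (1 - ‖w‖ ^ 2) / ‖J g w‖ ^ 2 := by
  have h := one_sub g hw hw
  rw [Complex.mul_conj, Complex.mul_conj, Complex.mul_conj, Complex.normSq_eq_norm_sq,
    Complex.normSq_eq_norm_sq, Complex.normSq_eq_norm_sq] at h
  exact_mod_cast h

theorem norm_act_lt (g : X) {w : ℂ} (hw : ‖w‖ < 1) : ‖act g w‖ < 1 := by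
  have h := one_sub_normSq g hw.le
  have hJ : 0 < ‖J g w‖ ^ 2 := by
    have := norm_pos_iff.2 (J_ne g hw.le)
    positivity
  have h1 : 0 < (1 - ‖w‖ ^ 2) / ‖J g w‖ ^ 2 := by
    apply div_pos _ hJ
    nlinarith [norm_nonneg w]
  rw [← h] at h1
  nlinarith [norm_nonneg (act g w)]

theorem norm_act_eq (g : X) {w : ℂ} (hw : ‖w‖ = 1) : ‖act g w‖ = 1 := by
  have h := one_sub_normSq g hw.le
  rw [hw, one_pow, sub_self, zero_div] at h
  have h1 : ‖act g w‖ ^ 2 = 1 := by linarith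
  exact (pow_eq_one_iff_of_nonneg (norm_nonneg _) two_ne_zero).1 h1

theorem norm_act_le (g : X) {w : ℂ} (hw : ‖w‖ ≤ 1) : ‖act g w‖ ≤ 1 := by
  rcases hw.lt_or_eq with h | h
  · exact (norm_act_lt g h).le
  · exact (norm_act_eq g h).le

lemma pc_neg {g g' : X} (h : g'.1 = -g.1) : pc g' = -pc g := by
  unfold pc
  rw [h]
  simp only [Matrix.neg_apply]
  push_cast
  ring

lemma qc_neg {g g' : X} (h : g'.1 = -g.1) : qc g' = -qc g := by
  unfold qc
  rw [h]
  simp only [Matrix.neg_apply]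
  push_cast
  ring

lemma J_neg {g g' : X} (h : g'.1 = -g.1) (w : ℂ) : J g' w = -J g w := by
  unfold J
  rw [pc_neg h, qc_neg h]
  ring

theorem act_neg {g g' : X} (h : g'.1 = -g.1) (w : ℂ) : act g' w = act g w := by
  unfold act
  rw [J_neg h, pc_neg h, qc_neg h, map_neg, map_neg, neg_mul, ← neg_add, neg_div_neg_eq]

/-- the image of a direction as a complex number -/
lemma disk_lift_eq {g : X} {α β r : ℝ}
    (h : (g : Matrix (Fin 2) (Fin 2) ℝ).mulVec (E α) = r • E β) :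
    pc g * exp ((α : ℂ) * I) + qc g * exp (-((α : ℂ) * I)) = (r : ℂ) * exp ((β : ℂ) * I) := by
  have h0 : g.1 0 0 * Real.cos α + g.1 0 1 * Real.sin α = r * Real.cos β := by
    have := congrFun h 0
    simpa [E, Matrix.mulVec, dotProduct, Fin.sum_univ_two] using this
  have h1 : g.1 1 0 * Real.cos α + g.1 1 1 * Real.sin α = r * Real.sin β := by
    have := congrFun h 1
    simpa [E, Matrix.mulVec, dotProduct, Fin.sum_univ_two] using this
  have h0' : (g.1 0 0 : ℂ) * Complex.cos α + g.1 0 1 * Complex.sin α = r * Complex.cos β := by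
    exact_mod_cast congrArg (fun x : ℝ => (x : ℂ)) h0
  have h1' : (g.1 1 0 : ℂ) * Complex.cos α + g.1 1 1 * Complex.sin α = r * Complex.sin β := by
    exact_mod_cast congrArg (fun x : ℝ => (x : ℂ)) h1
  have e1 : exp ((α : ℂ) * I) = Complex.cos α + Complex.sin α * I := Complex.exp_mul_I _
  have e2 : exp (-((α : ℂ) * I)) = Complex.cos α - Complex.sin α * I := by
    rw [← neg_mul, Complex.exp_mul_I, Complex.cos_neg, Complex.sin_neg]
    ring
  have e3 : exp ((β : ℂ) * I) = Complex.cos β + Complex.sin β * I := Complex.exp_mul_I _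
  rw [e1, e2, e3]
  unfold pc qc
  push_cast
  have hI := I_sq
  linear_combination h0' + I * h1' - (g.1 0 1 : ℂ) * Complex.sin α * hI

theorem act_exp {g : X} {f : ℝ ≃o ℝ} (h : IsLift g f) (α : ℝ) :
    act g (exp (-2 * (α : ℂ) * I)) = exp (-2 * (f α : ℂ) * I) := by
  obtain ⟨r, hr, hr'⟩ := h α
  have h1 := disk_lift_eq hr'
  have h2 := congrArg conj h1
  simp only [map_add, map_mul, ← Complex.exp_conj, conj_ofReal, conj_I, map_neg] at h2
  have hr0 : (r : ℂ) ≠ 0 := by exact_mod_cast hr.ne'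
  set a : ℂ := exp ((α : ℂ) * I) with ha
  have ha0 : a ≠ 0 := exp_ne_zero _
  have ha' : exp (-((α : ℂ) * I)) = a⁻¹ := by rw [ha, exp_neg]
  have ha2 : exp (-2 * (α : ℂ) * I) = a⁻¹ * a⁻¹ := by
    rw [← ha', ← exp_add]
    congr 1
    ring
  set b : ℂ := exp ((f α : ℂ) * I) with hb
  have hb0 : b ≠ 0 := exp_ne_zero _
  have hb' : exp (-((f α : ℂ) * I)) = b⁻¹ := by rw [hb, exp_neg]
  have hb2 : exp (-2 * (f α : ℂ) * I) = b⁻¹ * b⁻¹ := by
    rw [← hb', ← exp_add]
    congr 1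
    ring
  have hc1 : exp ((α : ℂ) * -I) = a⁻¹ := by rw [mul_neg, ha']
  have hc2 : exp (-((α : ℂ) * -I)) = a := by rw [mul_neg, neg_neg]
  have hc3 : exp ((f α : ℂ) * -I) = b⁻¹ := by rw [mul_neg, hb']
  rw [hc1, hc2, hc3] at h2
  rw [ha'] at h1
  have hw : ‖exp (-2 * (α : ℂ) * I)‖ ≤ 1 := by
    have : (-2 * (α : ℂ) * I) = ((-2 * α : ℝ) : ℂ) * I := by push_cast; ring
    rw [this, Complex.norm_exp_ofReal_mul_I]
  have hJ := J_ne g hw
  rw [ha2] at hJ ⊢
  rw [hb2]
  have h3 : J g (a⁻¹ * a⁻¹) * a = r * b := by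
    rw [← h1]
    unfold J
    field_simp
    ring
  have h4 : (conj (pc g) * (a⁻¹ * a⁻¹) + conj (qc g)) * a = r * b⁻¹ := by
    rw [← h2]
    field_simp
  have h5 : act g (a⁻¹ * a⁻¹) = (conj (pc g) * (a⁻¹ * a⁻¹) + conj (qc g)) / J g (a⁻¹ * a⁻¹) := rfl
  rw [h5, ← mul_div_mul_right _ _ ha0, h4, h3, mul_div_mul_left _ _ hr0, div_eq_mul_inv]

/-- a lift of the action on the circle is a lift in the sense of `IsLift` -/
theorem isLift_of_act {g : X} {f : ℝ ≃o ℝ}
    (h : ∀ α : ℝ, act g (exp (-2 * (α : ℂ) * I)) = exp (-2 * (f α : ℂ) * I)) :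
    IsLift g f ∨ IsLift g (tr 1 * f) := by
  obtain ⟨k, hk⟩ := exists_lift g
  -- the difference is an integral multiple of `π`
  have h1 : ∀ α : ℝ, ∃ n : ℤ, f α = k α + n * Real.pi := by
    intro α
    have e := (h α).symm.trans (act_exp hk α)
    rw [Complex.exp_eq_exp_iff_exists_int] at e
    obtain ⟨n, hn⟩ := e
    refine ⟨-n, ?_⟩
    have h2 : ((f α : ℝ) : ℂ) = ((k α + (-n : ℤ) * Real.pi : ℝ) : ℂ) := by
      have hI : (-2 * I : ℂ) ≠ 0 := by simp [I_ne_zero]
      apply mul_left_cancel₀ hI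
      push_cast
      linear_combination hn
    exact_mod_cast h2
  choose n hn using h1
  have hcont : Continuous n := by
    rw [Int.isClosedEmbedding_coe_real.isEmbedding.continuous_iff]
    have : ((fun m : ℤ => (m : ℝ)) ∘ n) = fun α => (f α - k α) / Real.pi := by
      funext α
      simp only [Function.comp]
      rw [hn α]
      field_simp [Real.pi_ne_zero]
      ring
    rw [this]
    exact (f.continuous.sub k.continuous).div_const _
  have hconst : ∀ α, n α = n 0 := fun α => PreconnectedSpace.constant inferInstance hcont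
  have hf : ∀ α, f α = k α + n 0 * Real.pi := fun α => by rw [hn α, hconst α]
  rcases Int.even_or_odd (n 0) with he | ho
  · left
    intro α
    obtain ⟨r, hr, hr'⟩ := hk α
    refine ⟨r, hr, ?_⟩
    rw [hr']
    obtain ⟨m, hm⟩ := he
    have : f α = k α + (m : ℤ) * (2 * Real.pi) := by
      rw [hf α, hm]
      push_cast
      ring
    rw [this]
    unfold E
    rw [Real.cos_add_int_mul_two_pi, Real.sin_add_int_mul_two_pi]
  · right
    intro α
    obtain ⟨r, hr, hr'⟩ := hk α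
    refine ⟨r, hr, ?_⟩
    rw [hr']
    obtain ⟨m, hm⟩ := ho
    have : (tr 1 * f) α = k α + ((m + 1 : ℤ) : ℝ) * (2 * Real.pi) := by
      have : (tr 1 * f) α = f α + ((1 : ℤ) : ℝ) * Real.pi := rfl
      rw [this, hf α, hm]
      push_cast
      ring
    rw [this]
    unfold E
    rw [Real.cos_add_int_mul_two_pi, Real.sin_add_int_mul_two_pi]

end Pool.Teich
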