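import Pool.Agent.Teich.Mirror

/-!
# An explicit representation of genus two of Euler number -2

With `√6 = √2 * √3`:
`A₀ = !![-2 + 3/2 √2, -2 √3 - 3/2 √6; -2 √3 + 3/2 √6, -2 - 3/2 √2]`,
`B₀ = !![-2, 3 √3 + 2 √6; 3 √3 - 2 √6, -2]`,
`A₁ = !![-2 - 3/2 √2, -1/2 √6; 1/2 √6, -2 + 3/2 √2]`,
`B₁ = !![-2, -√3; -√3, -2]`.

PROOFS. `cprod_t2`: exact computation with `√2² = 2`, `√3² = 3`. The partial products
`Q_1 = A₀, Q_2 = A₀ B₀, ..., Q_8 = 1` of the eight letters `A₀, B₀, A₀⁻¹, B₀⁻¹, A₁, B₁, A₁⁻¹, B₁⁻¹`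
are `Q_2 = !![4 - 9/2 √2, 4 √3 + 7/2 √6; 4 √3 - 7/2 √6, 4 + 9/2 √2]`,
`Q_3 = !![-2 + 6 √2, -3 √3 - 4 √6; -3 √3 + 4 √6, -2 - 6 √2]`,
`Q_4 = !![-17 + 6 √2, -12 √3 - 6 √6; -12 √3 + 6 √6, -17 - 6 √2]`,
`Q_5 = !![-2 - 9/2 √2, 5/2 √6; -5/2 √6, -2 + 9/2 √2]`,
`Q_6 = !![4 + 3/2 √2, 2 √3 - 1/2 √6; 2 √3 + 1/2 √6, 4 - 3/2 √2]`, `Q_7 = B₁`, `Q_8 = 1`.
For `g = !![a, b; c, d]` with `N = c² + d²`, `R = a c + b d`: `bp g` has real part `R/N` and imaginary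
part `1/N`, so `Th (bp g) (bp g') = 2 arctan ((R' N - R N')/(N + N'))`. The values `(N, R)` are
`(1, 0)`, `(34 - 12 √2, 17 √3)`, `(178 - 48 √2, 95 √3)`, `(199 - 48 √2, 108 √3)`,
`(1009 - 228 √2, 552 √3)`, `(82 - 18 √2, 45 √3)`, `(34 - 6 √2, 19 √3)`, `(7, 4 √3)`, `(1, 0)`, and
the eight arguments of the arctangent are `x₀ = 17 √3/(35 - 12 √2) ≈ 1.63`,
`x₁ = (204 √3 - 324 √6)/(212 - 60 √2) ≈ -3.46`, `x₂ = (319 √3 - 624 √6)/(377 - 96 √2)`,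
`x₃ = (876 √3 - 1872 √6)/(1208 - 276 √2)`, `x₄ = (141 √3 - 324 √6)/(1091 - 246 √2)`,
`x₅ = (28 √3 - 72 √6)/(116 - 24 √2)`, `x₆ = (3 √3 - 24 √6)/(41 - 6 √2)`, `x₇ = - √3/2`;
`x₁, ..., x₇ < 0` and `x₀ < - x₁`, so `area 2 t2 = 2 Σ arctan x_j < 0`.
`euler_t2`: `euler_of_area` with `n = 2` (`2 n - 4 = 0`).
-/

namespace Pool.Teich

open Matrix Real

theorem sq2 : √2 * √2 = (2 : ℝ) := Real.mul_self_sqrt (by norm_num)

theorem sq3 : √3 * √3 = (3 : ℝ) := Real.mul_self_sqrt (by norm_num)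

/-- first generator -/
noncomputable def mA0 : X :=
  ⟨!![-2 + 3 / 2 * √2, -2 * √3 - 3 / 2 * (√2 * √3);
      -2 * √3 + 3 / 2 * (√2 * √3), -2 - 3 / 2 * √2], by
    rw [Matrix.det_fin_two_of]
    have h2 := sq2
    have h3 := sq3
    linear_combination (-9 / 4 + 9 / 4 * (√3 * √3)) * h2 + (1 / 2 : ℝ) * h3⟩

/-- second generator -/
noncomputable def mB0 : X :=
  ⟨!![-2, 3 * √3 + 2 * (√2 * √3); 3 * √3 - 2 * (√2 * √3), -2], by
    rw [Matrix.det_fin_two_of]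
    have h2 := sq2
    have h3 := sq3
    linear_combination (4 * (√3 * √3)) * h2 - h3⟩

/-- third generator -/
noncomputable def mA1 : X :=
  ⟨!![-2 - 3 / 2 * √2, -(1 / 2) * (√2 * √3); 1 / 2 * (√2 * √3), -2 + 3 / 2 * √2], by
    rw [Matrix.det_fin_two_of]
    have h2 := sq2
    have h3 := sq3
    linear_combination (-9 / 4 + 1 / 4 * (√3 * √3)) * h2 + (1 / 2 : ℝ) * h3⟩

/-- fourth generator -/
noncomputable def mB1 : X :=
  ⟨!![-2, -√3; -√3, -2], by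
    rw [Matrix.det_fin_two_of]
    have h3 := sq3
    linear_combination -h3⟩

/-- the explicit representation -/
noncomputable def t2 (i : ℕ) : X × X := if i = 0 then (mA0, mB0) else (mA1, mB1)

theorem expe_mul {g g' g'' : X} {a b c d a' b' c' d' a'' b'' c'' d'' : ℝ}
    (h : g.1 = !![a, b; c, d]) (h' : g'.1 = !![a', b'; c', d'])
    (h'' : g''.1 = !![a'', b''; c'', d'']) (h1 : a * a' + b * c' = a'')
    (h2 : a * b' + b * d' = b'') (h3 : c * a' + d * c' = c'') (h4 : c * b' + d * d' = d'') :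
    g * g' = g'' := by
  apply Subtype.ext
  change g.1 * g'.1 = g''.1
  rw [h, h', h'', Matrix.mul_fin_two, h1, h2, h3, h4]

/-- partial product -/
noncomputable def mQ2 : X :=
  ⟨!![4 - 9 / 2 * √2, 4 * √3 + 7 / 2 * (√2 * √3); 4 * √3 - 7 / 2 * (√2 * √3), 4 + 9 / 2 * √2], by
    rw [Matrix.det_fin_two_of]
    linear_combination ((-81 / 4 : ℝ) + (49 / 4 : ℝ) * √3 * √3) * sq2 + ((17 / 2 : ℝ)) * sq3⟩

/-- partial product -/
noncomputable def mQ3 : X :=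
  ⟨!![-2 + 6 * √2, -3 * √3 - 4 * (√2 * √3); -3 * √3 + 4 * (√2 * √3), -2 - 6 * √2], by
    rw [Matrix.det_fin_two_of]
    linear_combination ((-36 : ℝ) + (16 : ℝ) * √3 * √3) * sq2 + ((23 : ℝ)) * sq3⟩

/-- partial product -/
noncomputable def mQ4 : X :=
  ⟨!![-17 + 6 * √2, -12 * √3 - 6 * (√2 * √3); -12 * √3 + 6 * (√2 * √3), -17 - 6 * √2], by
    rw [Matrix.det_fin_two_of]
    linear_combination ((-36 : ℝ) + (36 : ℝ) * √3 * √3) * sq2 + ((-72 : ℝ)) * sq3⟩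

/-- partial product -/
noncomputable def mQ5 : X :=
  ⟨!![-2 - 9 / 2 * √2, 5 / 2 * (√2 * √3); -(5 / 2) * (√2 * √3), -2 + 9 / 2 * √2], by
    rw [Matrix.det_fin_two_of]
    linear_combination ((-81 / 4 : ℝ) + (25 / 4 : ℝ) * √3 * √3) * sq2 + ((25 / 2 : ℝ)) * sq3⟩

/-- partial product -/
noncomputable def mQ6 : X :=
  ⟨!![4 + 3 / 2 * √2, 2 * √3 - 1 / 2 * (√2 * √3); 2 * √3 + 1 / 2 * (√2 * √3), 4 - 3 / 2 * √2], by
    rw [Matrix.det_fin_two_of]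
    linear_combination ((-9 / 4 : ℝ) + (1 / 4 : ℝ) * √3 * √3) * sq2 + ((-7 / 2 : ℝ)) * sq3⟩

theorem expe_m2 : mA0 * mB0 = mQ2 := by
  refine expe_mul (g := mA0) (g' := mB0) (g'' := mQ2) rfl rfl rfl ?_ ?_ ?_ ?_
  · linear_combination ((3 : ℝ) * √3 * √3) * sq2 + ((-1 / 2 : ℝ) * √2) * sq3
  · linear_combination ((3 : ℝ) * √3) * sq2 + ((0 : ℝ)) * sq3
  · linear_combination ((3 : ℝ) * √3) * sq2 + ((0 : ℝ)) * sq3
  · linear_combination ((3 : ℝ) * √3 * √3) * sq2 + ((1 / 2 : ℝ) * √2) * sq3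

theorem expe_m3 : mQ3 * mA0 = mQ2 := by
  refine expe_mul (g := mQ3) (g' := mA0) (g'' := mQ2) rfl rfl rfl ?_ ?_ ?_ ?_
  · linear_combination ((9 : ℝ) + (-6 : ℝ) * √3 * √3) * sq2 + ((-6 : ℝ) + (7 / 2 : ℝ) * √2) * sq3
  · linear_combination ((-3 : ℝ) * √3) * sq2 + ((0 : ℝ)) * sq3
  · linear_combination ((-3 : ℝ) * √3) * sq2 + ((0 : ℝ)) * sq3
  · linear_combination ((9 : ℝ) + (-6 : ℝ) * √3 * √3) * sq2 + ((-6 : ℝ) + (-7 / 2 : ℝ) * √2) * sq3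

theorem expe_m4 : mQ4 * mB0 = mQ3 := by
  refine expe_mul (g := mQ4) (g' := mB0) (g'' := mQ3) rfl rfl rfl ?_ ?_ ?_ ?_
  · linear_combination ((12 : ℝ) * √3 * √3) * sq2 + ((-12 : ℝ) + (6 : ℝ) * √2) * sq3
  · linear_combination ((12 : ℝ) * √3) * sq2 + ((0 : ℝ)) * sq3
  · linear_combination ((12 : ℝ) * √3) * sq2 + ((0 : ℝ)) * sq3
  · linear_combination ((12 : ℝ) * √3 * √3) * sq2 + ((-12 : ℝ) + (-6 : ℝ) * √2) * sq3

theorem expe_m5 : mQ4 * mA1 = mQ5 := by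
  refine expe_mul (g := mQ4) (g' := mA1) (g'' := mQ5) rfl rfl rfl ?_ ?_ ?_ ?_
  · linear_combination ((-9 : ℝ) + (-3 : ℝ) * √3 * √3) * sq2 + ((-6 : ℝ) + (-6 : ℝ) * √2) * sq3
  · linear_combination ((-12 : ℝ) * √3) * sq2 + ((0 : ℝ)) * sq3
  · linear_combination ((-12 : ℝ) * √3) * sq2 + ((0 : ℝ)) * sq3
  · linear_combination ((-9 : ℝ) + (-3 : ℝ) * √3 * √3) * sq2 + ((-6 : ℝ) + (6 : ℝ) * √2) * sq3

theorem expe_m6 : mQ5 * mB1 = mQ6 := by
  refine expe_mul (g := mQ5) (g' := mB1) (g'' := mQ6) rfl rfl rfl ?_ ?_ ?_ ?_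
  · linear_combination ((0 : ℝ)) * sq2 + ((-5 / 2 : ℝ) * √2) * sq3
  · linear_combination ((0 : ℝ)) * sq2 + ((0 : ℝ)) * sq3
  · linear_combination ((0 : ℝ)) * sq2 + ((0 : ℝ)) * sq3
  · linear_combination ((0 : ℝ)) * sq2 + ((5 / 2 : ℝ) * √2) * sq3

theorem expe_m7 : mB1 * mA1 = mQ6 := by
  refine expe_mul (g := mB1) (g' := mA1) (g'' := mQ6) rfl rfl rfl ?_ ?_ ?_ ?_
  · linear_combination ((0 : ℝ)) * sq2 + ((-1 / 2 : ℝ) * √2) * sq3
  · linear_combination ((0 : ℝ)) * sq2 + ((0 : ℝ)) * sq3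
  · linear_combination ((0 : ℝ)) * sq2 + ((0 : ℝ)) * sq3
  · linear_combination ((0 : ℝ)) * sq2 + ((1 / 2 : ℝ) * √2) * sq3

theorem expe_inv {a b c : X} (h : c * b = a) : a * b⁻¹ = c := by
  rw [← h, mul_inv_cancel_right]

theorem expe_v0 : vtx t2 0 = 1 := by
  have h := vtx_0 t2 0
  rwa [mul_zero, cprod_zero] at h

theorem expe_v1 : vtx t2 1 = mA0 := by
  have h := vtx_1 t2 0
  rw [mul_zero, zero_add, cprod_zero, one_mul] at h
  exact h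

theorem expe_v2 : vtx t2 2 = mQ2 := by
  have h := vtx_2 t2 0
  rw [mul_zero, zero_add, cprod_zero, one_mul] at h
  rw [h]
  exact expe_m2

theorem expe_v3 : vtx t2 3 = mQ3 := by
  have h := vtx_3 t2 0
  rw [mul_zero, zero_add, cprod_zero, one_mul] at h
  rw [h]
  change mA0 * mB0 * mA0⁻¹ = mQ3
  rw [expe_m2]
  exact expe_inv expe_m3

theorem expe_c1 : cprod t2 1 = mQ4 := by
  rw [cprod_succ, cprod_zero, one_mul]
  change mA0 * mB0 * mA0⁻¹ * mB0⁻¹ = mQ4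
  rw [expe_m2, expe_inv expe_m3]
  exact expe_inv expe_m4

theorem expe_v4 : vtx t2 4 = mQ4 := by
  have h := vtx_0 t2 1
  rw [mul_one, expe_c1] at h
  exact h

theorem expe_v5 : vtx t2 5 = mQ5 := by
  have h := vtx_1 t2 1
  rw [mul_one, expe_c1] at h
  exact h.trans expe_m5

theorem expe_v6 : vtx t2 6 = mQ6 := by
  have h := vtx_2 t2 1
  rw [mul_one, expe_c1] at h
  refine h.trans ?_
  change mQ4 * (mA1 * mB1) = mQ6
  rw [← mul_assoc, expe_m5]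
  exact expe_m6

theorem expe_v7 : vtx t2 7 = mB1 := by
  have h := vtx_3 t2 1
  rw [mul_one, expe_c1] at h
  refine h.trans ?_
  change mQ4 * (mA1 * mB1 * mA1⁻¹) = mB1
  rw [← mul_assoc, ← mul_assoc, expe_m5, expe_m6]
  exact expe_inv expe_m7

theorem expe_c2 : cprod t2 2 = 1 := by
  rw [cprod_succ, expe_c1]
  change mQ4 * (mA1 * mB1 * mA1⁻¹ * mB1⁻¹) = 1
  rw [← mul_assoc, ← mul_assoc, ← mul_assoc, expe_m5, expe_m6, expe_inv expe_m7, mul_inv_cancel]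

theorem expe_v8 : vtx t2 8 = 1 := by
  have h := vtx_0 t2 2
  rw [expe_c2] at h
  exact h

theorem expe_bp {g : X} {a b c d N R : ℝ} (h : g.1 = !![a, b; c, d]) (hN : c * c + d * d = N)
    (hR : a * c + b * d = R) : 0 < N ∧ (bp g).re = R / N ∧ (bp g).im = 1 / N := by
  have hdet : a * d - b * c = 1 := by
    have := g.2
    rw [h, Matrix.det_fin_two_of] at this
    exact this
  have hNpos : 0 < N := by
    rw [← hN]
    rcases eq_or_ne c 0 with hc | hc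
    · rcases eq_or_ne d 0 with hd | hd
      · rw [hc, hd] at hdet
        norm_num at hdet
      · have := mul_self_pos.mpr hd
        nlinarith [mul_self_nonneg c]
    · have := mul_self_pos.mpr hc
      nlinarith [mul_self_nonneg d]
  have hz : (bp g : ℂ) = ((g.1 0 0 : ℂ) * Complex.I + (g.1 0 1 : ℂ)) /
      ((g.1 1 0 : ℂ) * Complex.I + (g.1 1 1 : ℂ)) := by
    rw [bp, UpperHalfPlane.coe_specialLinearGroup_apply]
    simp
  have e00 : g.1 0 0 = a := by rw [h]; rfl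
  have e01 : g.1 0 1 = b := by rw [h]; rfl
  have e10 : g.1 1 0 = c := by rw [h]; rfl
  have e11 : g.1 1 1 = d := by rw [h]; rfl
  rw [e00, e01, e10, e11] at hz
  have hne : (N : ℂ) ≠ 0 := by
    exact_mod_cast hNpos.ne'
  have hmul : ((c : ℂ) * Complex.I + (d : ℂ)) * (-(c : ℂ) * Complex.I + (d : ℂ)) = (N : ℂ) := by
    rw [← hN]
    push_cast
    linear_combination -(c : ℂ) * c * Complex.I_sq
  have hd0 : (c : ℂ) * Complex.I + (d : ℂ) ≠ 0 := by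
    intro h0
    rw [h0, zero_mul] at hmul
    exact hne hmul.symm
  have hz2 : (bp g : ℂ) = ((R / N : ℝ) : ℂ) + ((1 / N : ℝ) : ℂ) * Complex.I := by
    rw [hz, div_eq_iff hd0]
    push_cast
    have hdet' : (a : ℂ) * d - b * c = 1 := by exact_mod_cast hdet
    have hR' : (a : ℂ) * c + b * d = R := by exact_mod_cast hR
    have hN' : (c : ℂ) * c + d * d = N := by exact_mod_cast hN
    field_simp
    rw [← hR', ← hN']
    linear_combination (Complex.I * d - c) * hdet' - (c : ℂ) * Complex.I_sq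
  refine ⟨hNpos, ?_, ?_⟩
  · have := congrArg Complex.re hz2
    simpa using this
  · have := congrArg Complex.im hz2
    simpa using this

theorem expe_Th {g g' : X} {a b c d N R a' b' c' d' N' R' : ℝ} (h : g.1 = !![a, b; c, d])
    (h' : g'.1 = !![a', b'; c', d']) (hN : c * c + d * d = N) (hR : a * c + b * d = R)
    (hN' : c' * c' + d' * d' = N') (hR' : a' * c' + b' * d' = R') :
    Th (bp g) (bp g') = 2 * arctan ((R' * N - R * N') / (N + N')) := by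
  obtain ⟨h1, h2, h3⟩ := expe_bp h hN hR
  obtain ⟨h1', h2', h3'⟩ := expe_bp h' hN' hR'
  rw [Th, h2, h3, h2', h3']
  congr 2
  have : N + N' ≠ 0 := by positivity
  field_simp
  ring

theorem expe_NI : (0 : ℝ) * (0) + (1) * (1) = 1 := by
  linear_combination ((0 : ℝ)) * sq2 + ((0 : ℝ)) * sq3

theorem expe_RI : (1 : ℝ) * (0) + (0) * (1) = 0 := by
  linear_combination ((0 : ℝ)) * sq2 + ((0 : ℝ)) * sq3

theorem expe_NA0 : (-2 * √3 + 3 / 2 * (√2 * √3) : ℝ) * (-2 * √3 + 3 / 2 * (√2 * √3)) + (-2 - 3 / 2 * √2) * (-2 - 3 / 2 * √2) = 34 - 12 * √2 := by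
  linear_combination ((9 / 4 : ℝ) + (9 / 4 : ℝ) * √3 * √3) * sq2 + ((17 / 2 : ℝ) + (-6 : ℝ) * √2) * sq3

theorem expe_RA0 : (-2 + 3 / 2 * √2 : ℝ) * (-2 * √3 + 3 / 2 * (√2 * √3)) + (-2 * √3 - 3 / 2 * (√2 * √3)) * (-2 - 3 / 2 * √2) = 17 * √3 := by
  linear_combination ((9 / 2 : ℝ) * √3) * sq2 + ((0 : ℝ)) * sq3

theorem expe_NQ2 : (4 * √3 - 7 / 2 * (√2 * √3) : ℝ) * (4 * √3 - 7 / 2 * (√2 * √3)) + (4 + 9 / 2 * √2) * (4 + 9 / 2 * √2) = 178 - 48 * √2 := by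
  linear_combination ((81 / 4 : ℝ) + (49 / 4 : ℝ) * √3 * √3) * sq2 + ((81 / 2 : ℝ) + (-28 : ℝ) * √2) * sq3

theorem expe_RQ2 : (4 - 9 / 2 * √2 : ℝ) * (4 * √3 - 7 / 2 * (√2 * √3)) + (4 * √3 + 7 / 2 * (√2 * √3)) * (4 + 9 / 2 * √2) = 95 * √3 := by
  linear_combination ((63 / 2 : ℝ) * √3) * sq2 + ((0 : ℝ)) * sq3

theorem expe_NQ3 : (-3 * √3 + 4 * (√2 * √3) : ℝ) * (-3 * √3 + 4 * (√2 * √3)) + (-2 - 6 * √2) * (-2 - 6 * √2) = 199 - 48 * √2 := by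
  linear_combination ((36 : ℝ) + (16 : ℝ) * √3 * √3) * sq2 + ((41 : ℝ) + (-24 : ℝ) * √2) * sq3

theorem expe_RQ3 : (-2 + 6 * √2 : ℝ) * (-3 * √3 + 4 * (√2 * √3)) + (-3 * √3 - 4 * (√2 * √3)) * (-2 - 6 * √2) = 108 * √3 := by
  linear_combination ((48 : ℝ) * √3) * sq2 + ((0 : ℝ)) * sq3

theorem expe_NQ4 : (-12 * √3 + 6 * (√2 * √3) : ℝ) * (-12 * √3 + 6 * (√2 * √3)) + (-17 - 6 * √2) * (-17 - 6 * √2) = 1009 - 228 * √2 := by
  linear_combination ((36 : ℝ) + (36 : ℝ) * √3 * √3) * sq2 + ((216 : ℝ) + (-144 : ℝ) * √2) * sq3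

theorem expe_RQ4 : (-17 + 6 * √2 : ℝ) * (-12 * √3 + 6 * (√2 * √3)) + (-12 * √3 - 6 * (√2 * √3)) * (-17 - 6 * √2) = 552 * √3 := by
  linear_combination ((72 : ℝ) * √3) * sq2 + ((0 : ℝ)) * sq3

theorem expe_NQ5 : (-(5 / 2) * (√2 * √3) : ℝ) * (-(5 / 2) * (√2 * √3)) + (-2 + 9 / 2 * √2) * (-2 + 9 / 2 * √2) = 82 - 18 * √2 := by
  linear_combination ((81 / 4 : ℝ) + (25 / 4 : ℝ) * √3 * √3) * sq2 + ((25 / 2 : ℝ)) * sq3

theorem expe_RQ5 : (-2 - 9 / 2 * √2 : ℝ) * (-(5 / 2) * (√2 * √3)) + (5 / 2 * (√2 * √3)) * (-2 + 9 / 2 * √2) = 45 * √3 := by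
  linear_combination ((45 / 2 : ℝ) * √3) * sq2 + ((0 : ℝ)) * sq3

theorem expe_NQ6 : (2 * √3 + 1 / 2 * (√2 * √3) : ℝ) * (2 * √3 + 1 / 2 * (√2 * √3)) + (4 - 3 / 2 * √2) * (4 - 3 / 2 * √2) = 34 - 6 * √2 := by
  linear_combination ((9 / 4 : ℝ) + (1 / 4 : ℝ) * √3 * √3) * sq2 + ((9 / 2 : ℝ) + (2 : ℝ) * √2) * sq3

theorem expe_RQ6 : (4 + 3 / 2 * √2 : ℝ) * (2 * √3 + 1 / 2 * (√2 * √3)) + (2 * √3 - 1 / 2 * (√2 * √3)) * (4 - 3 / 2 * √2) = 19 * √3 := by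
  linear_combination ((3 / 2 : ℝ) * √3) * sq2 + ((0 : ℝ)) * sq3

theorem expe_NB1 : (-√3 : ℝ) * (-√3) + (-2) * (-2) = 7 := by
  linear_combination ((0 : ℝ)) * sq2 + ((1 : ℝ)) * sq3

theorem expe_RB1 : (-2 : ℝ) * (-√3) + (-√3) * (-2) = 4 * √3 := by
  linear_combination ((0 : ℝ)) * sq2 + ((0 : ℝ)) * sq3

theorem expe_one : (1 : X).1 = !![1, 0; 0, 1] := by
  change (1 : Matrix (Fin 2) (Fin 2) ℝ) = _
  exact Matrix.one_fin_two

theorem expe_T0 : Th (bp (1 : X)) (bp mA0) = 2 * arctan (((17 * √3) * (1) - (0) * (34 - 12 * √2)) / ((1) + (34 - 12 * √2))) :=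
  expe_Th (g := 1) (g' := mA0) expe_one rfl expe_NI expe_RI expe_NA0 expe_RA0

theorem expe_T1 : Th (bp mA0) (bp mQ2) = 2 * arctan (((95 * √3) * (34 - 12 * √2) - (17 * √3) * (178 - 48 * √2)) / ((34 - 12 * √2) + (178 - 48 * √2))) :=
  expe_Th (g := mA0) (g' := mQ2) rfl rfl expe_NA0 expe_RA0 expe_NQ2 expe_RQ2

theorem expe_T2 : Th (bp mQ2) (bp mQ3) = 2 * arctan (((108 * √3) * (178 - 48 * √2) - (95 * √3) * (199 - 48 * √2)) / ((178 - 48 * √2) + (199 - 48 * √2))) :=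
  expe_Th (g := mQ2) (g' := mQ3) rfl rfl expe_NQ2 expe_RQ2 expe_NQ3 expe_RQ3

theorem expe_T3 : Th (bp mQ3) (bp mQ4) = 2 * arctan (((552 * √3) * (199 - 48 * √2) - (108 * √3) * (1009 - 228 * √2)) / ((199 - 48 * √2) + (1009 - 228 * √2))) :=
  expe_Th (g := mQ3) (g' := mQ4) rfl rfl expe_NQ3 expe_RQ3 expe_NQ4 expe_RQ4

theorem expe_T4 : Th (bp mQ4) (bp mQ5) = 2 * arctan (((45 * √3) * (1009 - 228 * √2) - (552 * √3) * (82 - 18 * √2)) / ((1009 - 228 * √2) + (82 - 18 * √2))) :=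
  expe_Th (g := mQ4) (g' := mQ5) rfl rfl expe_NQ4 expe_RQ4 expe_NQ5 expe_RQ5

theorem expe_T5 : Th (bp mQ5) (bp mQ6) = 2 * arctan (((19 * √3) * (82 - 18 * √2) - (45 * √3) * (34 - 6 * √2)) / ((82 - 18 * √2) + (34 - 6 * √2))) :=
  expe_Th (g := mQ5) (g' := mQ6) rfl rfl expe_NQ5 expe_RQ5 expe_NQ6 expe_RQ6

theorem expe_T6 : Th (bp mQ6) (bp mB1) = 2 * arctan (((4 * √3) * (34 - 6 * √2) - (19 * √3) * (7)) / ((34 - 6 * √2) + (7))) :=
  expe_Th (g := mQ6) (g' := mB1) rfl rfl expe_NQ6 expe_RQ6 expe_NB1 expe_RB1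

theorem expe_T7 : Th (bp mB1) (bp (1 : X)) = 2 * arctan (((0) * (7) - (4 * √3) * (1)) / ((7) + (1))) :=
  expe_Th (g := mB1) (g' := 1) rfl expe_one expe_NB1 expe_RB1 expe_NI expe_RI

theorem expe_bd : 0 < √3 ∧ (1.41 : ℝ) < √2 ∧ √2 < 1.42 := by
  refine ⟨by positivity, ?_, ?_⟩
  · rw [Real.lt_sqrt (by norm_num)]
    norm_num
  · rw [Real.sqrt_lt' (by norm_num)]
    norm_num

theorem expe_neg {x y : ℝ} (hx : x < 0) (hy : 0 < y) : arctan (x / y) < 0 := by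
  have h := div_neg_of_neg_of_pos hx hy
  have := Real.arctan_strictMono h
  rwa [Real.arctan_zero] at this

theorem cprod_t2 : cprod t2 2 = 1 := expe_c2

theorem area_t2 : area 2 t2 < 0 := by
  obtain ⟨h3, h1, h2⟩ := expe_bd
  have ha := area_vtx (MonoidHom.id X) t2 2
  have hp : pairs (MonoidHom.id X) t2 = t2 := rfl
  rw [hp] at ha
  rw [ha]
  simp only [MonoidHom.id_apply]
  rw [show 4 * 2 = 7 + 1 by norm_num, Finset.sum_range_succ, Finset.sum_range_succ,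
    Finset.sum_range_succ, Finset.sum_range_succ, Finset.sum_range_succ, Finset.sum_range_succ,
    Finset.sum_range_succ, Finset.sum_range_succ, Finset.sum_range_zero]
  simp only [zero_add, Nat.reduceAdd]
  rw [expe_v0, expe_v1, expe_v2, expe_v3, expe_v4, expe_v5, expe_v6, expe_v7, expe_v8,
    expe_T0, expe_T1, expe_T2, expe_T3, expe_T4, expe_T5, expe_T6, expe_T7]
  have n1 : arctan (((95 * √3) * (34 - 12 * √2) - (17 * √3) * (178 - 48 * √2)) / ((34 - 12 * √2) + (178 - 48 * √2))) < 0 := by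
    apply expe_neg
    · nlinarith [mul_lt_mul_of_pos_left h1 h3, mul_lt_mul_of_pos_left h2 h3]
    · nlinarith
  have n2 : arctan (((108 * √3) * (178 - 48 * √2) - (95 * √3) * (199 - 48 * √2)) / ((178 - 48 * √2) + (199 - 48 * √2))) < 0 := by
    apply expe_neg
    · nlinarith [mul_lt_mul_of_pos_left h1 h3, mul_lt_mul_of_pos_left h2 h3]
    · nlinarith
  have n3 : arctan (((552 * √3) * (199 - 48 * √2) - (108 * √3) * (1009 - 228 * √2)) / ((199 - 48 * √2) + (1009 - 228 * √2))) < 0 := by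
    apply expe_neg
    · nlinarith [mul_lt_mul_of_pos_left h1 h3, mul_lt_mul_of_pos_left h2 h3]
    · nlinarith
  have n4 : arctan (((45 * √3) * (1009 - 228 * √2) - (552 * √3) * (82 - 18 * √2)) / ((1009 - 228 * √2) + (82 - 18 * √2))) < 0 := by
    apply expe_neg
    · nlinarith [mul_lt_mul_of_pos_left h1 h3, mul_lt_mul_of_pos_left h2 h3]
    · nlinarith
  have n5 : arctan (((19 * √3) * (82 - 18 * √2) - (45 * √3) * (34 - 6 * √2)) / ((82 - 18 * √2) + (34 - 6 * √2))) < 0 := by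
    apply expe_neg
    · nlinarith [mul_lt_mul_of_pos_left h1 h3, mul_lt_mul_of_pos_left h2 h3]
    · nlinarith
  have n6 : arctan (((4 * √3) * (34 - 6 * √2) - (19 * √3) * (7)) / ((34 - 6 * √2) + (7))) < 0 := by
    apply expe_neg
    · nlinarith [mul_lt_mul_of_pos_left h1 h3, mul_lt_mul_of_pos_left h2 h3]
    · nlinarith
  have n7 : arctan (((0) * (7) - (4 * √3) * (1)) / ((7) + (1))) < 0 := by
    apply expe_neg
    · nlinarith [mul_lt_mul_of_pos_left h1 h3, mul_lt_mul_of_pos_left h2 h3]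
    · nlinarith
  have n0 : arctan (((17 * √3) * (1) - (0) * (34 - 12 * √2)) / ((1) + (34 - 12 * √2))) +
      arctan (((95 * √3) * (34 - 12 * √2) - (17 * √3) * (178 - 48 * √2)) /
        ((34 - 12 * √2) + (178 - 48 * √2))) < 0 := by
    have hlt : ((17 * √3) * (1) - (0) * (34 - 12 * √2)) / ((1) + (34 - 12 * √2)) <
        -(((95 * √3) * (34 - 12 * √2) - (17 * √3) * (178 - 48 * √2)) /
        ((34 - 12 * √2) + (178 - 48 * √2))) := by
      have hp1 : 0 < (1 : ℝ) + (34 - 12 * √2) := by linarith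
      have hp2 : 0 < (34 - 12 * √2) + (178 - 48 * √2) := by linarith
      rw [← neg_div, div_lt_div_iff₀ hp1 hp2]
      have hk : (17 * (1 : ℝ) - 0) * ((34 - 12 * √2) + (178 - 48 * √2)) <
          -(95 * (34 - 12 * √2) - 17 * (178 - 48 * √2)) * ((1) + (34 - 12 * √2)) := by
        nlinarith [sq2]
      have := mul_lt_mul_of_pos_left hk h3
      nlinarith
    have h := Real.arctan_strictMono hlt
    rw [Real.arctan_neg] at h
    linarith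
  linarith

theorem euler_t2 : HasEuler 2 t2 (-2) := by
  have h := euler_of_area (n := 2) (by norm_num) cprod_t2 (t := t2) (by
    have := area_t2
    norm_num
    exact this)
  have e : (-(2 * ((2 : ℕ) : ℤ) - 2)) = -2 := by norm_num
  rwa [e] at h

end Pool.Teich
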