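import Pool.Agent.Teich.Poly
import Pool.Agent.Hhelper63.AnT.Surf

/-!
# Surface groups: generators, homomorphisms, continuity

`Surf g` is the presented group of `Hhelper63.AnT.Surf` (`Surf.gen`, `Surf.rel`, `Surf.lift`,
`Surf.hom_ext`); its `cm` is the same formula as `Teich.cm`.

PROOFS. `cprod_ofFn`: `cprod t g` is the product of `List.ofFn` of the commutators
(`List.ofFn_eq_map`, `List.map_coe_finRange` or induction). `cprod_tau`: `Surf.rel`.
`rep`: `Surf.lift`. `rep_tau`: `Surf.lift_gen`. `continuous_rep`: the set of `x` with continuous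
`s ↦ rep (γ s) x` is a subgroup (`X` is a topological group) containing the generators
(`PresentedGroup.closure_range_of`, `Subgroup.closure_induction`).
`surf_fg`: `PresentedGroup.closure_range_of`, `Fin g × Bool` is finite.
`exists_char`: `Surf.lift` into the commutative group `Multiplicative ℤ`, commutators are trivial.
-/

namespace Pool.Teich

open Matrix Real Filter Topology
open Pool.Agent.Hhelper63.AnT (Surf)

theorem cprod_ofFn {K : Type*} [Group K] (t : ℕ → K × K) (g : ℕ) : cprod t g =
    (List.ofFn fun i : Fin g => Pool.Agent.Hhelper63.AnT.cm (t i).1 (t i).2).prod := by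
  induction g with
  | zero => rw [cprod_zero, List.ofFn_zero, List.prod_nil]
  | succ n ih =>
    rw [cprod_succ, ih, List.ofFn_succ_last, List.prod_append, List.prod_singleton]
    rfl

/-- the generators of the surface group as a sequence of pairs -/
def tau (g : ℕ) (i : ℕ) : Surf g × Surf g :=
  if h : i < g then (Surf.gen ⟨i, h⟩ false, Surf.gen ⟨i, h⟩ true) else (1, 1)

theorem tau_lt {g i : ℕ} (h : i < g) :
    tau g i = (Surf.gen ⟨i, h⟩ false, Surf.gen ⟨i, h⟩ true) := by
  unfold tau
  rw [dif_pos h]

theorem cprod_tau (g : ℕ) : cprod (tau g) g = 1 := by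
  rw [cprod_ofFn, ← Surf.rel g]
  congr 2
  funext i
  rw [tau_lt i.2]

/-- the homomorphism given by a sequence of pairs -/
def rep {K : Type*} [Group K] {g : ℕ} (t : ℕ → K × K) (h : cprod t g = 1) : Surf g →* K :=
  Surf.lift (fun i b => if b then (t i).2 else (t i).1) (by
    rw [← h, cprod_ofFn]
    simp)

theorem rep_tau {K : Type*} [Group K] {g : ℕ} (t : ℕ → K × K) (h : cprod t g = 1) {i : ℕ}
    (hi : i < g) : rep t h (tau g i).1 = (t i).1 ∧ rep t h (tau g i).2 = (t i).2 := by
  rw [tau_lt hi]
  unfold rep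
  exact ⟨Surf.lift_gen _ _ _ _, Surf.lift_gen _ _ _ _⟩

theorem hom_ext_tau {K : Type*} [Group K] {g : ℕ} {φ ψ : Surf g →* K}
    (h : ∀ i < g, φ (tau g i).1 = ψ (tau g i).1 ∧ φ (tau g i).2 = ψ (tau g i).2) : φ = ψ := by
  apply Surf.hom_ext
  intro i b
  have h1 := h i i.2
  rw [tau_lt i.2] at h1
  cases b
  · exact h1.1
  · exact h1.2

theorem continuous_rep {g : ℕ} {γ : ℝ → ℕ → X × X} (hγ : ∀ i, Continuous fun s => γ s i)
    (h : ∀ s, cprod (γ s) g = 1) (x : Surf g) : Continuous fun s => rep (γ s) (h s) x := by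
  have hx : x ∈ Subgroup.closure (Set.range (PresentedGroup.of (rels :=
      Pool.Agent.Hhelper63.AnT.surfRels g))) := by
    rw [PresentedGroup.closure_range_of]
    exact Subgroup.mem_top x
  induction hx using Subgroup.closure_induction with
  | mem x hx =>
    obtain ⟨⟨i, b⟩, rfl⟩ := hx
    have h1 : ∀ s, rep (γ s) (h s) (PresentedGroup.of (i, b)) =
        if b then (γ s i).2 else (γ s i).1 := fun s => Surf.lift_gen _ _ i b
    simp only [h1]
    cases b
    · exact (hγ i).fst
    · exact (hγ i).snd
  | one =>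
    simp only [map_one]
    exact continuous_const
  | mul x y _ _ hx hy =>
    simp only [map_mul]
    exact hx.mul hy
  | inv x _ hx =>
    simp only [map_inv]
    exact hx.inv

theorem surf_fg (g : ℕ) : ∃ S : Finset (Surf g), Subgroup.closure (S : Set (Surf g)) = ⊤ := by
  refine ⟨(Set.finite_range (PresentedGroup.of (rels :=
    Pool.Agent.Hhelper63.AnT.surfRels g))).toFinset, ?_⟩
  rw [Set.Finite.coe_toFinset, PresentedGroup.closure_range_of]

theorem exists_char (g : ℕ) (ε δ : ℕ → ℤ) : ∃ n : Surf g →* Multiplicative ℤ, ∀ i < g,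
    Multiplicative.toAdd (n (tau g i).1) = ε i ∧ Multiplicative.toAdd (n (tau g i).2) = δ i := by
  have h : cprod (fun i => (Multiplicative.ofAdd (ε i), Multiplicative.ofAdd (δ i))) g = 1 := by
    have h1 : ∀ n : ℕ,
        cprod (fun i => (Multiplicative.ofAdd (ε i), Multiplicative.ofAdd (δ i))) n = 1 := by
      intro n
      induction n with
      | zero => rw [cprod_zero]
      | succ n ih =>
        rw [cprod_succ, ih, one_mul]
        unfold cm
        rw [mul_comm (Multiplicative.ofAdd (ε n)), mul_inv_cancel_right, mul_inv_cancel]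
    exact h1 g
  refine ⟨rep _ h, fun i hi => ?_⟩
  have h2 := rep_tau _ h hi
  rw [h2.1, h2.2]
  exact ⟨rfl, rfl⟩

end Pool.Teich
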