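import Pool.Agent.Teich.ExpE
import Pool.Agent.Teich.RepS
import Pool.Agent.Hhelper63.AnT.SurfC

/-!
# The generators of the model

PROOF. By `SC.iota_gen` the images under `SC.iotaC` of the generators are the words
`E sT (subC n)`, `n = 0, 2, 4, 6`, that is products of `Tri.s i` along
`[0,2,0,1,2,0,2,1,0,2,0,2,0,2]`, `[2,0,2,0,1,2,0,2,1,0,2,0,2,0]`, `[1,0,1,0,2,0,2,1,2,0,2,1]`,
`[1,0,1,0,0,2,1,2,0,2,1,2]`, and `PhiC` maps `Tri.s i` to `reflC i`: multiply the matrices over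
`ℚ(√2, √3)` with exact rational arithmetic (`qmul`, `mmul`, kernel evaluation).
-/

namespace Pool.Teich

open Matrix Real
open Pool.Agent.Hhelper63.AnT

/-- `a + b √2 + c √3 + d √6` with rational coefficients -/
abbrev Q4 := ℚ × ℚ × ℚ × ℚ

/-- product -/
def qmul (x y : Q4) : Q4 :=
  (x.1 * y.1 + 2 * x.2.1 * y.2.1 + 3 * x.2.2.1 * y.2.2.1 + 6 * x.2.2.2 * y.2.2.2,
   x.1 * y.2.1 + x.2.1 * y.1 + 3 * x.2.2.1 * y.2.2.2 + 3 * x.2.2.2 * y.2.2.1,
   x.1 * y.2.2.1 + x.2.2.1 * y.1 + 2 * x.2.1 * y.2.2.2 + 2 * x.2.2.2 * y.2.1,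
   x.1 * y.2.2.2 + x.2.2.2 * y.1 + x.2.1 * y.2.2.1 + x.2.2.1 * y.2.1)

/-- sum -/
def qadd (x y : Q4) : Q4 := (x.1 + y.1, x.2.1 + y.2.1, x.2.2.1 + y.2.2.1, x.2.2.2 + y.2.2.2)

/-- value -/
noncomputable def qev (x : Q4) : ℝ := x.1 + x.2.1 * √2 + x.2.2.1 * √3 + x.2.2.2 * (√2 * √3)

theorem qev_add (x y : Q4) : qev (qadd x y) = qev x + qev y := by
  simp only [qev, qadd]
  push_cast
  ring

theorem qev_mul (x y : Q4) : qev (qmul x y) = qev x * qev y := by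
  simp only [qev, qmul]
  push_cast
  have h2 := sq2
  have h3 := sq3
  linear_combination (-((x.2.1 : ℝ) * y.2.1 + x.2.2.2 * y.2.2.2 * (√3 * √3) +
    (x.2.1 * y.2.2.2 + x.2.2.2 * y.2.1) * √3)) * h2 -
    ((x.2.2.1 : ℝ) * y.2.2.1 + 2 * x.2.2.2 * y.2.2.2 +
      (x.2.2.1 * y.2.2.2 + x.2.2.2 * y.2.2.1) * √2) * h3

/-- matrices -/
abbrev QM := Q4 × Q4 × Q4 × Q4

/-- product of matrices -/
def mmul (m n : QM) : QM :=
  (qadd (qmul m.1 n.1) (qmul m.2.1 n.2.2.1), qadd (qmul m.1 n.2.1) (qmul m.2.1 n.2.2.2),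
   qadd (qmul m.2.2.1 n.1) (qmul m.2.2.2 n.2.2.1), qadd (qmul m.2.2.1 n.2.1) (qmul m.2.2.2 n.2.2.2))

/-- value of a matrix -/
noncomputable def mev (m : QM) : Matrix (Fin 2) (Fin 2) ℝ :=
  !![qev m.1, qev m.2.1; qev m.2.2.1, qev m.2.2.2]

theorem mev_mul (m n : QM) : mev (mmul m n) = mev m * mev n := by
  unfold mev
  rw [Matrix.mul_fin_two]
  simp only [mmul, qev_add, qev_mul]

/-- the generators -/
def mgen (n : ℕ) : QM :=
  if n = 0 then ((1, 0, 0, 0), (0, 0, 0, 0), (0, 0, 0, 0), (-1, 0, 0, 0))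
  else if n = 1 then ((0, 0, 0, 0), (1, 0, 0, 0), (1, 0, 0, 0), (0, 0, 0, 0))
  else ((0, 0, 1 / 2, 0), (1 / 2, 1 / 2, 0, 0), (-1 / 2, 1 / 2, 0, 0), (0, 0, -1 / 2, 0))

/-- the product along a word -/
def mword (w : List ℕ) : QM :=
  w.foldr (fun n m => mmul (mgen n) m) ((1, 0, 0, 0), (0, 0, 0, 0), (0, 0, 0, 0), (1, 0, 0, 0))

theorem mev_gen (n : ℕ) (hn : n < 3) : mev (mgen n) = (PhiC (SC.sT n)).1 := by
  have h : (PhiC (SC.sT n)).1 = reflC (SC.f3 n) := by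
    unfold PhiC SC.sT
    rw [Tri.lift_s]
  rw [h]
  interval_cases n
  · simp only [mev, mgen, qev, reflC, SC.f3]
    norm_num
  · simp only [mev, mgen, qev, reflC, SC.f3]
    norm_num
  · simp only [mev, mgen, qev, reflC, SC.f3]
    ext i j
    fin_cases i <;> fin_cases j <;> simp <;> ring

theorem mev_word (w : List ℕ) (hw : ∀ n ∈ w, n < 3) :
    mev (mword w) = (PhiC (SC.E SC.sT w)).1 := by
  induction w with
  | nil =>
    simp only [mword, List.foldr_nil, SC.E_nil, map_one, Units.val_one]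
    ext i j
    fin_cases i <;> fin_cases j <;> simp [mev, qev]
  | cons n w ih =>
    rw [SC.E_cons, map_mul, Units.val_mul, ← ih (fun m hm => hw m (List.mem_cons_of_mem _ hm)),
      ← mev_gen n (hw n List.mem_cons_self), ← mev_mul]
    rfl

theorem mw0 : mword (SC.subC 0) = ((-2, 3 / 2, 0, 0), (0, 0, -2, -3 / 2), (0, 0, -2, 3 / 2),
    (-2, -3 / 2, 0, 0)) := by
  decide +kernel

theorem mw2 : mword (SC.subC 2) = ((-2, 0, 0, 0), (0, 0, 3, 2), (0, 0, 3, -2), (-2, 0, 0, 0)) := by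
  decide +kernel

theorem mw4 : mword (SC.subC 4) = ((-2, -3 / 2, 0, 0), (0, 0, 0, -1 / 2), (0, 0, 0, 1 / 2),
    (-2, 3 / 2, 0, 0)) := by
  decide +kernel

theorem mw6 : mword (SC.subC 6) = ((-2, 0, 0, 0), (0, 0, -1, 0), (0, 0, -1, 0), (-2, 0, 0, 0)) := by
  decide +kernel

theorem model_gen (i : ℕ) (hi : i < 2) :
    (PhiC (SC.iotaC (tau 2 i).1)).1 = (t2 i).1.1 ∧
      (PhiC (SC.iotaC (tau 2 i).2)).1 = (t2 i).2.1 := by
  have e0 := mev_word (SC.subC 0) (by decide)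
  have e2 := mev_word (SC.subC 2) (by decide)
  have e4 := mev_word (SC.subC 4) (by decide)
  have e6 := mev_word (SC.subC 6) (by decide)
  rw [mw0] at e0
  rw [mw2] at e2
  rw [mw4] at e4
  rw [mw6] at e6
  interval_cases i
  · rw [tau_lt (by norm_num : 0 < 2)]
    constructor
    · change (PhiC (SC.iotaC (Surf.gen 0 false))).1 = mA0.1
      rw [SC.iota_gen]
      change (PhiC (SC.E SC.sT (SC.subC 0))).1 = _
      rw [← e0]
      ext i j
      fin_cases i <;> fin_cases j <;> simp [mev, qev, mA0] <;> ring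
    · change (PhiC (SC.iotaC (Surf.gen 0 true))).1 = mB0.1
      rw [SC.iota_gen]
      change (PhiC (SC.E SC.sT (SC.subC 2))).1 = _
      rw [← e2]
      ext i j
      fin_cases i <;> fin_cases j <;> simp [mev, qev, mB0] <;> ring
  · rw [tau_lt (by norm_num : 1 < 2)]
    constructor
    · change (PhiC (SC.iotaC (Surf.gen 1 false))).1 = mA1.1
      rw [SC.iota_gen]
      change (PhiC (SC.E SC.sT (SC.subC 4))).1 = _
      rw [← e4]
      ext i j
      fin_cases i <;> fin_cases j <;> simp [mev, qev, mA1] <;> ring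
    · change (PhiC (SC.iotaC (Surf.gen 1 true))).1 = mB1.1
      rw [SC.iota_gen]
      change (PhiC (SC.E SC.sT (SC.subC 6))).1 = _
      rw [← e6]
      ext i j
      fin_cases i <;> fin_cases j <;> simp [mev, qev, mB1]

end Pool.Teich
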