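import Pool.Agent.Teich.Wv

/-!
# Angles and the region above a geodesic arc

`GG a b y = (x_b - x_a)(|y|² - |a|²) - (|b|² - |a|²)(s - x_a)`, `y = s + i t`: for `x_a < x_b` it is
positive iff `y` is outside the circle through `a`, `b` centred on the real axis.
`iota a b y = ±1` if `y` is strictly above the arc from `a` to `b` (sign = direction), else `0`.

PROOFS. `wv y a` is a positive multiple of
`(a - y)(conj a - y) = |a|² - 2 x_a y + y²`, with imaginary part `2 t (s - x_a)` and real part
`|a|² - 2 x_a s + s² - t²`. `iota_eq`: let `A = arg (wv y a)`, `B = arg (wv y b)`; `Gen y a b`.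
`arg (wv y b/wv y a) = B - A + 2π k`, `k ∈ {-1, 0, 1}`, with `B - A + 2πk ∈ (-π, π)` (generic).
If `s - x_a` and `s - x_b` have the same sign (or one is zero: then the angle is `0` or `π`; since
`a, b, y` with `s = x_a`: exclude by the hypotheses `y.re ≠ a.re`, `y.re ≠ b.re`) then `A, B` are in
the same interval `(0, π)` or `(-π, 0)`, `k = 0`, `iota = 0`. If `x_a < s < x_b`: `A ∈ (0, π)`,
`B ∈ (-π, 0)`, and `k = 1` iff `A - B > π` iff `Im (wv y a * conj (wv y b)) < 0`; this imaginary part
is a positive multiple of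
`Im ((|a|² - 2 x_a y + y²) conj (|b|² - 2 x_b y + y²)) = - 2 t GG a b y * (…)`: compute: with
`P = |a|² - 2 x_a y + y²`, `Q = |b|² - 2 x_b y + y²`,
`Im (P conj Q) = 2 t [(s - x_a)(|b|² - 2 x_b s + s² - t²) - (s - x_b)(|a|² - 2 x_a s + s² - t²)]
= - 2 t GG' ` where `GG' = GG a b y` up to the identity
`(s - x_a)(|b|² - 2 x_b s + s² - t²) - (s - x_b)(|a|² - 2 x_a s + s² - t²)
 = (|b|² - |a|²)(s - x_a) + (x_b - x_a)(|a|² - |y|²)` (`|y|² = s² + t²`; check by expansion),
which is `- GG a b y`. So `k = 1` iff `GG a b y > 0`. The case `x_b < s < x_a` by symmetry.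
-/

namespace Pool.Teich

open Complex ComplexConjugate UpperHalfPlane
open scoped MatrixGroups

/-- positive iff outside the circle through `a` and `b` (for `a.re < b.re`) -/
noncomputable def GG (a b y : ℍ) : ℝ :=
  (b.re - a.re) * (normSq (y : ℂ) - normSq (a : ℂ)) -
    (normSq (b : ℂ) - normSq (a : ℂ)) * (y.re - a.re)

open Classical in
/-- signed indicator function of the region above the arc from `a` to `b` -/
noncomputable def iota (a b y : ℍ) : ℝ :=
  if a.re < y.re ∧ y.re < b.re ∧ 0 < GG a b y then 1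
  else if b.re < y.re ∧ y.re < a.re ∧ GG a b y < 0 then -1 else 0

/-- the numerator of `wv y a` after clearing the denominator -/
noncomputable def iotaP (y a : ℍ) : ℂ := ((a : ℂ) - y) * (conj (a : ℂ) - y)

theorem iotaP_re (y a : ℍ) :
    (iotaP y a).re = (a.re - y.re) * (a.re - y.re) + (a.im - y.im) * (a.im + y.im) := by
  simp [iotaP]
  ring

theorem iotaP_im (y a : ℍ) : (iotaP y a).im = 2 * y.im * (y.re - a.re) := by
  simp [iotaP]
  ring

theorem iota_wv (y a : ℍ) : ∃ r : ℝ, 0 < r ∧ wv y a = (r : ℂ) * iotaP y a := by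
  have h0 : (a : ℂ) - conj (y : ℂ) ≠ 0 := by
    intro h
    have h1 := congrArg Complex.im h
    have h2 := a.im_pos
    have h3 := y.im_pos
    simp at h1
    linarith
  refine ⟨(normSq ((a : ℂ) - conj (y : ℂ)))⁻¹, inv_pos.mpr (normSq_pos.mpr h0), ?_⟩
  unfold wv iotaP
  rw [div_eq_mul_inv, Complex.inv_def, map_sub, Complex.conj_conj]
  ring

theorem iota_arg (y a : ℍ) : arg (wv y a) = arg (iotaP y a) := by
  obtain ⟨r, hr, h⟩ := iota_wv y a
  rw [h, Complex.arg_real_mul _ hr]

theorem iota_ang (y a b : ℍ) : ∃ r : ℝ, 0 < r ∧ wv y b / wv y a = (r : ℂ) * (iotaP y b / iotaP y a) := by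
  obtain ⟨r, hr, h⟩ := iota_wv y a
  obtain ⟨r', hr', h'⟩ := iota_wv y b
  refine ⟨r' / r, div_pos hr' hr, ?_⟩
  rw [h, h', mul_div_mul_comm]
  push_cast
  rfl

theorem iota_im (y a b : ℍ) :
    (iotaP y b * conj (iotaP y a)).im = 2 * y.im * GG a b y := by
  rw [Complex.mul_im, Complex.conj_re, Complex.conj_im, iotaP_re, iotaP_re, iotaP_im, iotaP_im]
  unfold GG
  rw [Complex.normSq_apply, Complex.normSq_apply, Complex.normSq_apply]
  simp only [UpperHalfPlane.coe_re, UpperHalfPlane.coe_im]
  ring

/-- the integer `k` -/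
theorem iota_int {P Q : ℂ} (hP : P ≠ 0) (hQ : Q ≠ 0) :
    ∃ k : ℤ, arg (Q / P) - (arg Q - arg P) = 2 * Real.pi * k := by
  have h := Complex.arg_div_coe_angle hQ hP
  rw [← Real.Angle.coe_sub, Real.Angle.angle_eq_iff_two_pi_dvd_sub] at h
  exact h

theorem iota_eq {y a b : ℍ} (h : Gen y a b) (ha : y.re ≠ a.re) (hb : y.re ≠ b.re) :
    2 * Real.pi * iota a b y = ang y a b - arg (wv y b) + arg (wv y a) := by
  obtain ⟨-, -, hs⟩ := h
  obtain ⟨r, hr, hrr⟩ := iota_ang y a b
  have hy := y.im_pos
  have hang : ang y a b = arg (iotaP y b / iotaP y a) := by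
    unfold ang
    rw [hrr, Complex.arg_real_mul _ hr]
  rw [hang, iota_arg, iota_arg]
  have hPi := iotaP_im y a
  have hQi := iotaP_im y b
  have hP : iotaP y a ≠ 0 := by
    intro h0
    rw [h0, Complex.zero_im] at hPi
    rcases mul_eq_zero.mp hPi.symm with h1 | h1
    · linarith
    · exact ha (sub_eq_zero.mp h1)
  have hQ : iotaP y b ≠ 0 := by
    intro h0
    rw [h0, Complex.zero_im] at hQi
    rcases mul_eq_zero.mp hQi.symm with h1 | h1
    · linarith
    · exact hb (sub_eq_zero.mp h1)
  -- sign of the imaginary part of the quotient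
  have hn : 0 < normSq (iotaP y a) := normSq_pos.mpr hP
  have him : (iotaP y b / iotaP y a).im = 2 * y.im * GG a b y * (normSq (iotaP y a))⁻¹ := by
    rw [← iota_im, div_eq_mul_inv, Complex.inv_def, ← mul_assoc, Complex.mul_im, Complex.ofReal_re,
      Complex.ofReal_im, mul_zero, zero_add]
  have hGpos : 0 < (iotaP y b / iotaP y a).im → 0 < GG a b y := by
    intro h0
    by_contra hG
    rw [not_lt] at hG
    have h1 : 2 * y.im * GG a b y * (normSq (iotaP y a))⁻¹ ≤ 0 :=
      mul_nonpos_of_nonpos_of_nonneg (mul_nonpos_of_nonneg_of_nonpos (by linarith) hG)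
        (inv_pos.mpr hn).le
    linarith
  have hGneg : (iotaP y b / iotaP y a).im < 0 → GG a b y < 0 := by
    intro h0
    by_contra hG
    rw [not_lt] at hG
    have h1 : 0 ≤ 2 * y.im * GG a b y * (normSq (iotaP y a))⁻¹ :=
      mul_nonneg (mul_nonneg (by linarith) hG) (inv_pos.mpr hn).le
    linarith
  -- the argument of the quotient
  have hpi := Real.pi_pos
  have hne : arg (iotaP y b / iotaP y a) ≠ Real.pi := by
    have h1 := Complex.mem_slitPlane_iff_arg.mp hs
    rw [hrr, Complex.arg_real_mul _ hr] at h1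
    exact h1.1
  have hlt : arg (iotaP y b / iotaP y a) < Real.pi := lt_of_le_of_ne (Complex.arg_le_pi _) hne
  have hgt := Complex.neg_pi_lt_arg (iotaP y b / iotaP y a)
  obtain ⟨k, hk⟩ := iota_int hP hQ
  -- bounds of the arguments by the sign of the imaginary part
  have pos : ∀ z : ℂ, 0 < z.im → 0 < arg z ∧ arg z < Real.pi := by
    intro z hz
    refine ⟨lt_of_le_of_ne (Complex.arg_nonneg_iff.mpr hz.le) ?_, ?_⟩
    · intro h0
      have := (Complex.arg_eq_zero_iff.mp h0.symm).2
      linarith
    · refine lt_of_le_of_ne (Complex.arg_le_pi _) ?_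
      intro h0
      have := (Complex.arg_eq_pi_iff.mp h0).2
      linarith
  have neg : ∀ z : ℂ, z.im < 0 → -Real.pi < arg z ∧ arg z < 0 := fun z hz =>
    ⟨Complex.neg_pi_lt_arg z, Complex.arg_neg_iff.mpr hz⟩
  have hQP0 : arg (iotaP y b / iotaP y a) > 0 → 0 < (iotaP y b / iotaP y a).im := by
    intro h0
    by_contra h1
    rw [not_lt] at h1
    rcases h1.lt_or_eq with h2 | h2
    · have := (neg _ h2).2
      linarith
    · rcases le_or_gt 0 (iotaP y b / iotaP y a).re with h3 | h3
      · have := Complex.arg_eq_zero_iff.mpr ⟨h3, h2⟩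
        linarith
      · exact hne (Complex.arg_eq_pi_iff.mpr ⟨h3, h2⟩)
  have hQP1 : arg (iotaP y b / iotaP y a) < 0 → (iotaP y b / iotaP y a).im < 0 :=
    Complex.arg_neg_iff.mp
  -- integer bounds
  have kb : ∀ (m n : ℤ), (m : ℝ) * (2 * Real.pi) < 2 * Real.pi * k →
      2 * Real.pi * k < (n : ℝ) * (2 * Real.pi) → m < k ∧ k < n := by
    intro m n h1 h2
    rw [mul_comm (2 * Real.pi)] at h1 h2
    have h1' := lt_of_mul_lt_mul_right h1 (by linarith)
    have h2' := lt_of_mul_lt_mul_right h2 (by linarith)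
    exact ⟨by exact_mod_cast h1', by exact_mod_cast h2'⟩
  rcases lt_or_gt_of_ne ha with hya | hya <;> rcases lt_or_gt_of_ne hb with hyb | hyb
  · -- both negative
    have h1 := neg (iotaP y a) (by rw [hPi]; nlinarith)
    have h2 := neg (iotaP y b) (by rw [hQi]; nlinarith)
    obtain ⟨h3, h4⟩ := kb (-1) 1 (by push_cast; linarith) (by push_cast; linarith)
    have hk0 : k = 0 := by omega
    rw [hk0] at hk
    have hi : iota a b y = 0 := by
      unfold iota
      rw [if_neg (fun h => absurd h.1 (not_lt.mpr hya.le)),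
        if_neg (fun h => absurd h.1 (not_lt.mpr hyb.le))]
    rw [hi]
    push_cast at hk
    linarith
  · -- x_b < s < x_a
    have h1 := neg (iotaP y a) (by rw [hPi]; nlinarith)
    have h2 := pos (iotaP y b) (by rw [hQi]; nlinarith)
    obtain ⟨h3, h4⟩ := kb (-2) 1 (by push_cast; linarith) (by push_cast; linarith)
    have hk0 : k = 0 ∨ k = -1 := by omega
    rcases hk0 with rfl | rfl
    · push_cast at hk
      have hG := hGpos (hQP0 (by linarith))
      have hi : iota a b y = 0 := by
        unfold iota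
        rw [if_neg (fun h => absurd h.1 (not_lt.mpr hya.le)),
          if_neg (fun h => absurd h.2.2 (not_lt.mpr hG.le))]
      rw [hi]
      linarith
    · push_cast at hk
      have hG := hGneg (hQP1 (by linarith))
      have hi : iota a b y = -1 := by
        unfold iota
        rw [if_neg (fun h => absurd h.1 (not_lt.mpr hya.le)), if_pos ⟨hyb, hya, hG⟩]
      rw [hi]
      linarith
  · -- x_a < s < x_b
    have h1 := pos (iotaP y a) (by rw [hPi]; nlinarith)
    have h2 := neg (iotaP y b) (by rw [hQi]; nlinarith)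
    obtain ⟨h3, h4⟩ := kb (-1) 2 (by push_cast; linarith) (by push_cast; linarith)
    have hk0 : k = 0 ∨ k = 1 := by omega
    rcases hk0 with rfl | rfl
    · push_cast at hk
      have hG := hGneg (hQP1 (by linarith))
      have hi : iota a b y = 0 := by
        unfold iota
        rw [if_neg (fun h => absurd h.2.2 (not_lt.mpr hG.le)),
          if_neg (fun h => absurd h.1 (not_lt.mpr hyb.le))]
      rw [hi]
      linarith
    · push_cast at hk
      have hG := hGpos (hQP0 (by linarith))
      have hi : iota a b y = 1 := by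
        unfold iota
        rw [if_pos ⟨hya, hyb, hG⟩]
      rw [hi]
      linarith
  · -- both positive
    have h1 := pos (iotaP y a) (by rw [hPi]; nlinarith)
    have h2 := pos (iotaP y b) (by rw [hQi]; nlinarith)
    obtain ⟨h3, h4⟩ := kb (-1) 1 (by push_cast; linarith) (by push_cast; linarith)
    have hk0 : k = 0 := by omega
    rw [hk0] at hk
    have hi : iota a b y = 0 := by
      unfold iota
      rw [if_neg (fun h => absurd h.2.1 (not_lt.mpr hyb.le)),
        if_neg (fun h => absurd h.2.1 (not_lt.mpr hya.le))]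
    rw [hi]
    push_cast at hk
    linarith

end Pool.Teich
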