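import Pool.Agent.Teich.LiftEx

/-!
# Lifts to the universal cover

PROOFS. `mul`, `inv`, `one`: composition (`(f * k) α = f (k α)`).
`unique`: `E (f α)` and `E (f' α)` are positive multiples of the same vector, hence equal, so
`f' α - f α ∈ 2πℤ`; it is continuous (order isomorphisms of `ℝ` are continuous), hence constant.
`IsLift.per`: `exists_lift_per` and `unique`.
-/

namespace Pool.Teich

open Matrix Real

theorem exists_lift (g : X) : ∃ f, IsLift g f := by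
  obtain ⟨f, hf, -⟩ := exists_lift_per g
  exact ⟨f, hf⟩

namespace LiftAux

theorem E_two (α : ℝ) (k : ℤ) : E (α + 2 * k * π) = E α := by
  have e : α + 2 * k * π = α + k * (2 * π) := by ring
  unfold E
  rw [e, Real.cos_add_int_mul_two_pi, Real.sin_add_int_mul_two_pi]

theorem E_odd (α : ℝ) {k : ℤ} (hk : Odd k) : E (α + k * π) = -E α := by
  obtain ⟨m, rfl⟩ := hk
  have e : α + ((2 * m + 1 : ℤ) : ℝ) * π = (α + π) + m * (2 * π) := by
    push_cast
    ring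
  unfold E
  rw [e, Real.cos_add_int_mul_two_pi, Real.sin_add_int_mul_two_pi, Real.cos_add_pi,
    Real.sin_add_pi]
  simp

theorem angle_of_smul {r s α β : ℝ} (hr : 0 < r) (hs : 0 < s) (h : r • E α = s • E β) :
    ∃ k : ℤ, β = α + 2 * k * π := by
  have hc : r * cos α = s * cos β := by simpa [E] using congrFun h 0
  have hsn : r * sin α = s * sin β := by simpa [E] using congrFun h 1
  have hsq : r ^ 2 = s ^ 2 := by
    have e1 := sin_sq_add_cos_sq α
    have e2 := sin_sq_add_cos_sq β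
    calc r ^ 2 = (r * cos α) ^ 2 + (r * sin α) ^ 2 := by linear_combination -r ^ 2 * e1
      _ = (s * cos β) ^ 2 + (s * sin β) ^ 2 := by rw [hc, hsn]
      _ = s ^ 2 := by linear_combination s ^ 2 * e2
  have hrs : r = s := by
    rcases sq_eq_sq_iff_eq_or_eq_neg.1 hsq with h | h
    · exact h
    · linarith
  rw [hrs] at hc hsn
  have hc' : cos β = cos α := (mul_left_cancel₀ hs.ne' hc).symm
  have hs' : sin β = sin α := (mul_left_cancel₀ hs.ne' hsn).symm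
  have hang : (β : Real.Angle) = α := Real.Angle.cos_sin_inj hc' hs'
  obtain ⟨k, hk⟩ := Real.Angle.angle_eq_iff_two_pi_dvd_sub.1 hang
  exact ⟨k, by linarith⟩

end LiftAux

theorem isLift_one : IsLift 1 1 := by
  intro α
  refine ⟨1, one_pos, ?_⟩
  rw [RelIso.one_apply, one_smul]
  simp

theorem IsLift.mul {g h : X} {f k : ℝ ≃o ℝ} (hg : IsLift g f) (hh : IsLift h k) :
    IsLift (g * h) (f * k) := by
  intro α
  obtain ⟨r, hr, h1⟩ := hh α
  obtain ⟨s, hs, h2⟩ := hg (k α)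
  refine ⟨r * s, mul_pos hr hs, ?_⟩
  rw [RelIso.mul_apply, Matrix.SpecialLinearGroup.coe_mul, ← Matrix.mulVec_mulVec, h1,
    Matrix.mulVec_smul, h2, smul_smul]

theorem IsLift.inv {g : X} {f : ℝ ≃o ℝ} (hg : IsLift g f) : IsLift g⁻¹ f⁻¹ := by
  intro α
  obtain ⟨r, hr, h1⟩ := hg (f⁻¹ α)
  rw [RelIso.apply_inv_self] at h1
  refine ⟨r⁻¹, inv_pos.2 hr, ?_⟩
  have h2 : ((g⁻¹ : X) : Matrix (Fin 2) (Fin 2) ℝ) *ᵥ
      ((g : Matrix (Fin 2) (Fin 2) ℝ) *ᵥ E (f⁻¹ α)) = E (f⁻¹ α) := by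
    rw [Matrix.mulVec_mulVec, ← Matrix.SpecialLinearGroup.coe_mul, inv_mul_cancel]
    simp
  rw [h1, Matrix.mulVec_smul] at h2
  rw [← h2, smul_smul, inv_mul_cancel₀ hr.ne', one_smul]

theorem isLift_tr (k : ℤ) : IsLift 1 (tr (2 * k)) := by
  intro α
  refine ⟨1, one_pos, ?_⟩
  have e : tr (2 * k) α = α + 2 * k * π := by
    rw [tr_apply]
    push_cast
    ring
  rw [e, LiftAux.E_two, one_smul]
  simp

/-- the lift of `-g` -/
theorem IsLift.neg {g g' : X} {f : ℝ ≃o ℝ} (hg : IsLift g f) (h : g'.1 = -g.1) {k : ℤ}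
    (hk : Odd k) : IsLift g' (tr k * f) := by
  intro α
  obtain ⟨r, hr, h1⟩ := hg α
  refine ⟨r, hr, ?_⟩
  rw [RelIso.mul_apply, tr_apply, LiftAux.E_odd _ hk, h, Matrix.neg_mulVec, h1, smul_neg]

theorem IsLift.unique {g : X} {f f' : ℝ ≃o ℝ} (h : IsLift g f) (h' : IsLift g f') :
    ∃ k : ℤ, f' = tr (2 * k) * f := by
  have h1 : ∀ α, ∃ k : ℤ, f' α = f α + 2 * k * π := by
    intro α
    obtain ⟨r, hr, e⟩ := h α
    obtain ⟨s, hs, e'⟩ := h' α
    exact LiftAux.angle_of_smul hr hs (e.symm.trans e')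
  have hc : Continuous fun α => f' α - f α := f'.continuous.sub f.continuous
  have h2 : (Set.range fun k : ℤ => 2 * (k : ℝ) * π).Countable := Set.countable_range _
  have h3 := (isPreconnected_univ.image _ hc.continuousOn)
  have h4 := h2.isTotallyDisconnected ((fun α => f' α - f α) '' Set.univ) (by
    rintro _ ⟨α, -, rfl⟩
    obtain ⟨k, hk⟩ := h1 α
    refine ⟨k, ?_⟩
    simp only
    rw [hk]
    ring) h3
  obtain ⟨k, hk⟩ := h1 0
  refine ⟨k, ?_⟩
  ext α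
  have h5 := h4 ⟨α, Set.mem_univ _, rfl⟩ ⟨0, Set.mem_univ _, rfl⟩
  simp only at h5
  rw [RelIso.mul_apply, tr_apply]
  push_cast
  linarith

theorem IsLift.per {g : X} {f : ℝ ≃o ℝ} (h : IsLift g f) : Per f := by
  obtain ⟨f0, h0, hp⟩ := exists_lift_per g
  obtain ⟨k, rfl⟩ := h0.unique h
  intro α
  rw [RelIso.mul_apply, RelIso.mul_apply, tr_apply, tr_apply, hp α]
  ring

theorem Per.mul {f k : ℝ ≃o ℝ} (hf : Per f) (hk : Per k) : Per (f * k) := by
  intro α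
  rw [RelIso.mul_apply, RelIso.mul_apply, hk, hf]

theorem Per.inv {f : ℝ ≃o ℝ} (hf : Per f) : Per f⁻¹ := by
  intro α
  apply f.injective
  rw [RelIso.apply_inv_self, hf, RelIso.apply_inv_self]

theorem per_tr (k : ℤ) : Per (tr k) := by
  intro α
  rw [tr_apply, tr_apply]
  ring

theorem Per.map_add_int {f : ℝ ≃o ℝ} (hf : Per f) (α : ℝ) (k : ℤ) :
    f (α + k * π) = f α + k * π := by
  induction k using Int.induction_on with
  | zero => simp
  | succ k ih =>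
    have e : α + ((k + 1 : ℤ) : ℝ) * π = (α + ((k : ℤ) : ℝ) * π) + π := by
      push_cast
      ring
    rw [e, hf, ih]
    push_cast
    ring
  | pred k ih =>
    have e : (α + ((-(k : ℤ) - 1 : ℤ) : ℝ) * π) + π = α + ((-(k : ℤ) : ℤ) : ℝ) * π := by
      push_cast
      ring
    have h1 := hf (α + ((-(k : ℤ) - 1 : ℤ) : ℝ) * π)
    rw [e, ih] at h1
    have h2 : f (α + ((-(k : ℤ) - 1 : ℤ) : ℝ) * π) = f α + ((-(k : ℤ) : ℤ) : ℝ) * π - π := by
      linarith
    rw [h2]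
    push_cast
    ring

theorem Per.tr_mul {f : ℝ ≃o ℝ} (hf : Per f) (k : ℤ) : tr k * f = f * tr k := by
  ext α
  rw [RelIso.mul_apply, RelIso.mul_apply, tr_apply, tr_apply, hf.map_add_int]

@[simp] theorem tr_zero : tr 0 = 1 := by
  ext α
  rw [tr_apply, RelIso.one_apply]
  simp

theorem tr_add (j k : ℤ) : tr (j + k) = tr j * tr k := by
  ext α
  rw [RelIso.mul_apply, tr_apply, tr_apply, tr_apply]
  push_cast
  ring

theorem tr_inv (k : ℤ) : (tr k)⁻¹ = tr (-k) := by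
  rw [inv_eq_iff_mul_eq_one, ← tr_add, add_neg_cancel, tr_zero]

theorem tr_injective : Function.Injective tr := by
  intro j k h
  have h1 : tr j 0 = tr k 0 := by rw [h]
  rw [tr_apply, tr_apply, zero_add, zero_add] at h1
  have h2 : (j : ℝ) = k := mul_right_cancel₀ Real.pi_ne_zero h1
  exact_mod_cast h2

/-- commutators do not see central translations -/
theorem cm_tr {f k : ℝ ≃o ℝ} (hf : Per f) (hk : Per k) (i j : ℤ) :
    cm (tr i * f) (tr j * k) = cm f k := by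
  have h1 : tr i * f = f * tr i := hf.tr_mul i
  have h2 : tr i * (tr j * k) = (tr j * k) * tr i := ((per_tr j).mul hk).tr_mul i
  have h3 : tr j * k = k * tr j := hk.tr_mul j
  have h4 : tr j * f⁻¹ = f⁻¹ * tr j := hf.inv.tr_mul j
  have e1 : cm (tr i * f) (tr j * k) =
      (tr i * f) * (tr j * k) * (tr i * f)⁻¹ * (tr j * k)⁻¹ := rfl
  rw [e1]
  calc (tr i * f) * (tr j * k) * (tr i * f)⁻¹ * (tr j * k)⁻¹
      = (f * tr i) * (tr j * k) * (f * tr i)⁻¹ * (tr j * k)⁻¹ := by rw [h1]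
    _ = f * (tr i * (tr j * k)) * (tr i)⁻¹ * f⁻¹ * (tr j * k)⁻¹ := by group
    _ = f * ((tr j * k) * tr i) * (tr i)⁻¹ * f⁻¹ * (tr j * k)⁻¹ := by rw [h2]
    _ = f * (tr j * k) * f⁻¹ * (tr j * k)⁻¹ := by group
    _ = f * (k * tr j) * f⁻¹ * (k * tr j)⁻¹ := by rw [h3]
    _ = f * k * (tr j * f⁻¹) * (tr j)⁻¹ * k⁻¹ := by group
    _ = f * k * (f⁻¹ * tr j) * (tr j)⁻¹ * k⁻¹ := by rw [h4]
    _ = f * k * f⁻¹ * k⁻¹ := by group
    _ = cm f k := rfl

theorem IsLift.cm {g h : X} {f k : ℝ ≃o ℝ} (hg : IsLift g f) (hh : IsLift h k) :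
    IsLift (cm g h) (Pool.Teich.cm f k) :=
  ((hg.mul hh).mul hg.inv).mul hh.inv

theorem IsLift.cm_eq {g h : X} {f f' k k' : ℝ ≃o ℝ} (h1 : IsLift g f) (h1' : IsLift g f')
    (h2 : IsLift h k) (h2' : IsLift h k') : Pool.Teich.cm f k = Pool.Teich.cm f' k' := by
  obtain ⟨a, rfl⟩ := h1.unique h1'
  obtain ⟨b, rfl⟩ := h2.unique h2'
  exact (cm_tr h1.per h2.per _ _).symm

/-- products of commutators of lifts -/
theorem isLift_cprod {t : ℕ → X × X} {l : ℕ → (ℝ ≃o ℝ) × (ℝ ≃o ℝ)}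
    (h : ∀ i, IsLift (t i).1 (l i).1 ∧ IsLift (t i).2 (l i).2) (n : ℕ) :
    IsLift (cprod t n) (cprod l n) := by
  induction n with
  | zero =>
    rw [cprod_zero, cprod_zero]
    exact isLift_one
  | succ n ih =>
    rw [cprod_succ, cprod_succ]
    exact ih.mul ((h n).1.cm (h n).2)

namespace LiftAux

theorem cprod_cm {G : Type*} [Group G] {l l' : ℕ → G × G} {n : ℕ}
    (h : ∀ i < n, cm (l i).1 (l i).2 = cm (l' i).1 (l' i).2) : cprod l n = cprod l' n := by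
  induction n with
  | zero => rw [cprod_zero, cprod_zero]
  | succ n ih =>
    rw [cprod_succ, cprod_succ, ih fun i hi => h i (by omega), h n (by omega)]

theorem exists_lifts (t : ℕ → X × X) : ∃ l : ℕ → (ℝ ≃o ℝ) × (ℝ ≃o ℝ),
    ∀ i, IsLift (t i).1 (l i).1 ∧ IsLift (t i).2 (l i).2 := by
  choose f hf using exists_lift
  exact ⟨fun i => (f (t i).1, f (t i).2), fun i => ⟨hf _, hf _⟩⟩

theorem sign_aux {g g' : X} {f f' : ℝ ≃o ℝ} (h : IsLift g f) (h' : IsLift g' f')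
    (hs : g' = g ∨ g'.1 = -g.1) : ∃ k : ℤ, f' = tr k * f := by
  rcases hs with rfl | hs
  · obtain ⟨k, hk⟩ := h.unique h'
    exact ⟨_, hk⟩
  · obtain ⟨k, hk⟩ := (h.neg hs odd_one).unique h'
    refine ⟨2 * k + 1, ?_⟩
    rw [hk, tr_add, mul_assoc]

end LiftAux

/-- the Euler number can be computed with any lifts of the first `n` pairs -/
theorem HasEuler.cprod_eq {n : ℕ} {t : ℕ → X × X} {e : ℤ} (h : HasEuler n t e)
    {l : ℕ → (ℝ ≃o ℝ) × (ℝ ≃o ℝ)}
    (hl : ∀ i < n, IsLift (t i).1 (l i).1 ∧ IsLift (t i).2 (l i).2) : cprod l n = tr e := by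
  obtain ⟨l0, h0, he⟩ := h
  rw [← he]
  exact LiftAux.cprod_cm fun i hi => (hl i hi).1.cm_eq (h0 i).1 (hl i hi).2 (h0 i).2

theorem exists_hasEuler {n : ℕ} {t : ℕ → X × X} (h : cprod t n = 1) :
    ∃ e : ℤ, HasEuler n t (2 * e) := by
  obtain ⟨l, hl⟩ := LiftAux.exists_lifts t
  have h1 := isLift_cprod hl n
  rw [h] at h1
  obtain ⟨k, hk⟩ := isLift_one.unique h1
  exact ⟨k, l, hl, by rw [hk, mul_one]⟩

theorem HasEuler.unique {n : ℕ} {t : ℕ → X × X} {e e' : ℤ} (h : HasEuler n t e)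
    (h' : HasEuler n t e') : e = e' := by
  obtain ⟨l, hl, he⟩ := h
  have h1 := h'.cprod_eq fun i _ => hl i
  rw [he] at h1
  exact tr_injective h1

/-- the Euler number only depends on the first `n` pairs -/
theorem HasEuler.congr {n : ℕ} {t t' : ℕ → X × X} {e : ℤ} (h : HasEuler n t e)
    (ht : ∀ i < n, t' i = t i) : HasEuler n t' e := by
  obtain ⟨l, hl⟩ := LiftAux.exists_lifts t'
  refine ⟨l, hl, h.cprod_eq fun i hi => ?_⟩
  rw [← ht i hi]
  exact hl i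

/-- changing signs of the matrices does not change the Euler number -/
theorem HasEuler.sign {n : ℕ} {t t' : ℕ → X × X} {e : ℤ} (h : HasEuler n t e)
    (h1 : ∀ i < n, (t' i).1 = (t i).1 ∨ (t' i).1.1 = -(t i).1.1)
    (h2 : ∀ i < n, (t' i).2 = (t i).2 ∨ (t' i).2.1 = -(t i).2.1) : HasEuler n t' e := by
  obtain ⟨l, hl, he⟩ := h
  obtain ⟨l', hl'⟩ := LiftAux.exists_lifts t'
  refine ⟨l', hl', ?_⟩
  rw [← he]
  refine LiftAux.cprod_cm fun i hi => ?_
  obtain ⟨a, ha⟩ := LiftAux.sign_aux (hl i).1 (hl' i).1 (h1 i hi)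
  obtain ⟨b, hb⟩ := LiftAux.sign_aux (hl i).2 (hl' i).2 (h2 i hi)
  rw [ha, hb]
  exact cm_tr (hl i).1.per (hl i).2.per _ _

end Pool.Teich
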