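import Pool.Agent.Teich.Defs

/-!
# Existence of lifts to the universal cover

PROOF. Identify the plane with `ℂ`. For `g = !![a, b; c, d]` put
`p = ((a + d) + i (c - b)) / 2`, `q = ((a - d) + i (c + b)) / 2`; then
`g (E α) = e^{iα} (p + q e^{-2iα})` and `|p|² - |q|² = 1`, so `|q/p| < 1` and
`f α = α + arg p + arg (1 + (q/p) e^{-2iα})` is continuous, `g (E α) = r E (f α)` with `r > 0`,
`f (α + π) = f α + π`. Injective: if `f α = f α'` then `g (E α)` and `g (E α')` are positive
multiples of each other, so `E α = E α'` (unit vectors, `g` injective), `α' = α + 2πk`,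
`f α' = f α + 2πk`, `k = 0`. A continuous injective function on `ℝ` is strictly monotone or
strictly antitone (`Continuous.strictMono_of_inj`), and `f (α + π) > f α` excludes the second;
surjective by the intermediate value theorem (`f (α + kπ) = f α + kπ`). Take
`StrictMono.orderIsoOfSurjective`.
-/

namespace Pool.Teich

open Matrix Real

/-- order isomorphisms commuting with the translation by `π` -/
def Per (f : ℝ ≃o ℝ) : Prop := ∀ α, f (α + π) = f α + π

/-- the complex number `p` of the header -/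
noncomputable def pC (g : X) : ℂ := ⟨(g.1 0 0 + g.1 1 1) / 2, (g.1 1 0 - g.1 0 1) / 2⟩

/-- the complex number `q` of the header -/
noncomputable def qC (g : X) : ℂ := ⟨(g.1 0 0 - g.1 1 1) / 2, (g.1 1 0 + g.1 0 1) / 2⟩

/-- the function `1 + (q/p) e^{-2iα}` -/
noncomputable def wC (g : X) (α : ℝ) : ℂ :=
  1 + qC g / pC g * Complex.exp (((-(2 * α) : ℝ) : ℂ) * Complex.I)

/-- the lift of the header -/
noncomputable def liftFun (g : X) (α : ℝ) : ℝ :=
  α + Complex.arg (pC g) + Complex.arg (wC g α)

lemma normSq_pq (g : X) : Complex.normSq (pC g) - Complex.normSq (qC g) = 1 := by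
  have h := g.2
  rw [Matrix.det_fin_two] at h
  simp only [Complex.normSq_apply, pC, qC]
  linear_combination h

lemma pC_ne_zero (g : X) : pC g ≠ 0 := by
  intro h
  have h1 := normSq_pq g
  rw [h] at h1
  have h2 := Complex.normSq_nonneg (qC g)
  simp at h1
  linarith

lemma norm_q_div_p (g : X) : ‖qC g / pC g‖ < 1 := by
  have hp : 0 < ‖pC g‖ := norm_pos_iff.2 (pC_ne_zero g)
  rw [norm_div, div_lt_one hp]
  have h1 := normSq_pq g
  rw [Complex.normSq_eq_norm_sq, Complex.normSq_eq_norm_sq] at h1
  nlinarith [norm_nonneg (qC g)]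

lemma wC_re_pos (g : X) (α : ℝ) : 0 < (wC g α).re := by
  have h1 : ‖qC g / pC g * Complex.exp (((-(2 * α) : ℝ) : ℂ) * Complex.I)‖ < 1 := by
    rw [norm_mul, Complex.norm_exp_ofReal_mul_I, mul_one]
    exact norm_q_div_p g
  have h2 := Complex.abs_re_le_norm (qC g / pC g * Complex.exp (((-(2 * α) : ℝ) : ℂ) * Complex.I))
  have h3 := (abs_le.1 h2).1
  simp only [wC, Complex.add_re, Complex.one_re]
  linarith

lemma wC_ne_zero (g : X) (α : ℝ) : wC g α ≠ 0 := by
  intro h
  have := wC_re_pos g α
  rw [h] at this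
  simp at this

lemma continuous_liftFun (g : X) : Continuous (liftFun g) := by
  have hw : Continuous (wC g) := by
    unfold wC
    fun_prop
  have h2 : Continuous fun α => Complex.arg (wC g α) := by
    rw [continuous_iff_continuousAt]
    intro α
    have h3 : ContinuousAt Complex.arg (wC g α) :=
      Complex.continuousAt_arg (Or.inl (wC_re_pos g α))
    exact ContinuousAt.comp (f := wC g) h3 hw.continuousAt
  unfold liftFun
  exact (continuous_id.add continuous_const).add h2

lemma wC_add_pi (g : X) (α : ℝ) : wC g (α + π) = wC g α := by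
  unfold wC
  congr 2
  have : (((-(2 * (α + π)) : ℝ) : ℂ) * Complex.I)
      = ((-(2 * α) : ℝ) : ℂ) * Complex.I - 2 * π * Complex.I := by
    push_cast
    ring
  rw [this, Complex.exp_periodic.sub_eq]

lemma liftFun_add_pi (g : X) (α : ℝ) : liftFun g (α + π) = liftFun g α + π := by
  unfold liftFun
  rw [wC_add_pi]
  ring

lemma key (g : X) (α : ℝ) :
    pC g * Complex.exp ((α : ℂ) * Complex.I) * wC g α
      = ⟨g.1 0 0 * cos α + g.1 0 1 * sin α, g.1 1 0 * cos α + g.1 1 1 * sin α⟩ := by
  have hp := pC_ne_zero g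
  have h1 : Complex.exp ((α : ℂ) * Complex.I)
      * Complex.exp (((-(2 * α) : ℝ) : ℂ) * Complex.I)
      = Complex.exp (((-α : ℝ) : ℂ) * Complex.I) := by
    rw [← Complex.exp_add]
    congr 1
    push_cast
    ring
  have h2 : pC g * Complex.exp ((α : ℂ) * Complex.I) * wC g α
      = pC g * Complex.exp ((α : ℂ) * Complex.I)
        + qC g * Complex.exp (((-α : ℝ) : ℂ) * Complex.I) := by
    rw [← h1]
    unfold wC
    field_simp
  rw [h2]
  apply Complex.ext
  · simp only [Complex.add_re, Complex.mul_re, Complex.exp_ofReal_mul_I_re,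
      Complex.exp_ofReal_mul_I_im, pC, qC, cos_neg, sin_neg]
    ring
  · simp only [Complex.add_im, Complex.mul_im, Complex.exp_ofReal_mul_I_re,
      Complex.exp_ofReal_mul_I_im, pC, qC, cos_neg, sin_neg]
    ring

lemma polar (g : X) (α : ℝ) :
    pC g * Complex.exp ((α : ℂ) * Complex.I) * wC g α
      = ((‖pC g‖ * ‖wC g α‖ : ℝ) : ℂ) * Complex.exp ((liftFun g α : ℂ) * Complex.I) := by
  conv_lhs => rw [← Complex.norm_mul_exp_arg_mul_I (pC g),
    ← Complex.norm_mul_exp_arg_mul_I (wC g α)]
  have : ((liftFun g α : ℝ) : ℂ) * Complex.I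
      = (Complex.arg (pC g) : ℂ) * Complex.I + (α : ℂ) * Complex.I
        + (Complex.arg (wC g α) : ℂ) * Complex.I := by
    unfold liftFun
    push_cast
    ring
  rw [this, Complex.exp_add, Complex.exp_add]
  push_cast
  ring

lemma mulVec_E (g : X) (α : ℝ) :
    (g : Matrix (Fin 2) (Fin 2) ℝ) *ᵥ E α
      = (‖pC g‖ * ‖wC g α‖) • E (liftFun g α) := by
  have h := (key g α).symm.trans (polar g α)
  have hre := congrArg Complex.re h
  have him := congrArg Complex.im h
  rw [Complex.re_ofReal_mul, Complex.exp_ofReal_mul_I_re] at hre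
  rw [Complex.im_ofReal_mul, Complex.exp_ofReal_mul_I_im] at him
  ext i
  fin_cases i
  · simpa [E, Matrix.mulVec, dotProduct, Fin.sum_univ_two] using hre
  · simpa [E, Matrix.mulVec, dotProduct, Fin.sum_univ_two] using him

lemma norm_pos (g : X) (α : ℝ) : 0 < ‖pC g‖ * ‖wC g α‖ :=
  mul_pos (norm_pos_iff.2 (pC_ne_zero g)) (norm_pos_iff.2 (wC_ne_zero g α))

lemma liftFun_add_int_pi (g : X) (α : ℝ) (k : ℤ) :
    liftFun g (α + k * π) = liftFun g α + k * π := by
  have hw : wC g (α + k * π) = wC g α := by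
    have hper : Function.Periodic (wC g) π := wC_add_pi g
    exact hper.int_mul k α
  unfold liftFun
  rw [hw]
  ring

lemma injective_liftFun (g : X) : Function.Injective (liftFun g) := by
  intro α β h
  have h1 := mulVec_E g α
  have h2 := mulVec_E g β
  rw [h] at h1
  set r := ‖pC g‖ * ‖wC g α‖ with hr
  set s := ‖pC g‖ * ‖wC g β‖ with hs
  have hr0 : 0 < r := norm_pos g α
  have hs0 : 0 < s := norm_pos g β
  have h3 : (g : Matrix (Fin 2) (Fin 2) ℝ) *ᵥ (s • E α)
      = (g : Matrix (Fin 2) (Fin 2) ℝ) *ᵥ (r • E β) := by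
    rw [Matrix.mulVec_smul, Matrix.mulVec_smul, h1, h2, smul_smul, smul_smul, mul_comm]
  have hinj : Function.Injective ((g : Matrix (Fin 2) (Fin 2) ℝ).mulVec) := by
    apply Matrix.mulVec_injective_of_isUnit
    rw [Matrix.isUnit_iff_isUnit_det, g.2]
    exact isUnit_one
  have h4 := hinj h3
  have hc : s * cos α = r * cos β := by simpa [E] using congrFun h4 0
  have hsn : s * sin α = r * sin β := by simpa [E] using congrFun h4 1
  have hsq : s ^ 2 = r ^ 2 := by
    have e1 := sin_sq_add_cos_sq α
    have e2 := sin_sq_add_cos_sq β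
    calc s ^ 2 = (s * cos α) ^ 2 + (s * sin α) ^ 2 := by linear_combination -s ^ 2 * e1
      _ = (r * cos β) ^ 2 + (r * sin β) ^ 2 := by rw [hc, hsn]
      _ = r ^ 2 := by linear_combination r ^ 2 * e2
  have hsr : s = r := by
    rcases sq_eq_sq_iff_eq_or_eq_neg.1 hsq with h | h
    · exact h
    · linarith
  rw [hsr] at hc hsn
  have hc' : cos α = cos β := mul_left_cancel₀ hr0.ne' hc
  have hs' : sin α = sin β := mul_left_cancel₀ hr0.ne' hsn
  have hang : (α : Real.Angle) = β := Real.Angle.cos_sin_inj hc' hs'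
  obtain ⟨k, hk⟩ := Real.Angle.angle_eq_iff_two_pi_dvd_sub.1 hang
  have hα : α = β + ((2 * k : ℤ) : ℝ) * π := by
    push_cast
    linarith
  have h5 := liftFun_add_int_pi g β (2 * k)
  rw [← hα, h] at h5
  rw [hα]
  linarith

lemma surjective_liftFun (g : X) : Function.Surjective (liftFun g) := by
  have hb : ∀ α, α - 2 * π ≤ liftFun g α ∧ liftFun g α ≤ α + 2 * π := by
    intro α
    have h1 := Complex.neg_pi_lt_arg (pC g)
    have h2 := Complex.arg_le_pi (pC g)
    have h3 := Complex.neg_pi_lt_arg (wC g α)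
    have h4 := Complex.arg_le_pi (wC g α)
    unfold liftFun
    constructor <;> linarith
  refine (continuous_liftFun g).surjective ?_ ?_
  · refine Filter.tendsto_atTop_mono (fun α => (hb α).1) ?_
    exact Filter.tendsto_atTop_add_const_right _ _ Filter.tendsto_id
  · refine Filter.tendsto_atBot_mono (fun α => (hb α).2) ?_
    exact Filter.tendsto_atBot_add_const_right _ _ Filter.tendsto_id

lemma strictMono_liftFun (g : X) : StrictMono (liftFun g) := by
  rcases (continuous_liftFun g).strictMono_of_inj (injective_liftFun g) with h | h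
  · exact h
  · exfalso
    have h1 := h (show (0 : ℝ) < 0 + π by simpa using pi_pos)
    rw [liftFun_add_pi] at h1
    linarith [pi_pos]

theorem exists_lift_per (g : X) : ∃ f, IsLift g f ∧ Per f := by
  refine ⟨StrictMono.orderIsoOfSurjective (liftFun g) (strictMono_liftFun g)
    (surjective_liftFun g), fun α => ⟨‖pC g‖ * ‖wC g α‖, norm_pos g α, ?_⟩, fun α => ?_⟩
  · exact mulVec_E g α
  · exact liftFun_add_pi g α

end Pool.Teich
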