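import Pool.Agent.Teich.Wv

/-!
# Locally almost everywhere constant functions on the upper half plane

PROOF. `const_of_local`: choose `U y₀`, `k y₀`. If `U y₁ ∩ U y₂` is nonempty then `k y₁ = k y₂`:
the intersection is open, of positive measure, and almost everywhere on it `f = k y₁ = k y₂`.
So `k` is locally constant: for `y₁ ∈ U y₀`, `y₁ ∈ U y₁ ∩ U y₀`, `k y₁ = k y₀`
(`IsLocallyConstant`, `IsOpen (U y₀)`). `ℍ` is connected, so `k` is a constant. `ℍ` is Lindelöf
(second countable), so countably many `U y` cover `ℍ` and `f = k` almost everywhere.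
`eq_univ_of_closed`: the complement is open of measure zero, so empty.
-/

namespace Pool.Teich

open UpperHalfPlane MeasureTheory

theorem eq_empty_of_open {U : Set ℍ} (hU : IsOpen U) (h : volume U = 0) : U = ∅ := by
  have h1 : (volume.comap UpperHalfPlane.coe : Measure ℍ) ≪ (volume : Measure ℍ) := by
    rw [volume_def]
    apply withDensity_absolutelyContinuous'
    · apply Measurable.aemeasurable
      apply measurable_coe_nnreal_ennreal_iff.2
      apply Measurable.pow_const
      apply Measurable.const_div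
      exact (continuous_im.subtype_mk _).measurable
    · filter_upwards with z
      have h2 : (0 : ℝ) < z.im := z.im_pos
      have h3 : (0 : NNReal) < NNReal.mk z.im z.im_pos.le := h2
      have h4 : (0 : NNReal) < (1 / NNReal.mk z.im z.im_pos.le) ^ 2 := by positivity
      exact ENNReal.coe_ne_zero.2 h4.ne'
  have h5 := h1 h
  rw [measurableEmbedding_coe.comap_apply] at h5
  have h6 : IsOpen (UpperHalfPlane.coe '' U) := isOpenEmbedding_coe.isOpenMap U hU
  have h7 := (h6.measure_eq_zero_iff (volume : Measure ℂ)).1 h5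
  exact Set.image_eq_empty.1 h7

theorem const_of_local {f : ℍ → ℝ}
    (h : ∀ y₀ : ℍ, ∃ U : Set ℍ, IsOpen U ∧ y₀ ∈ U ∧ ∃ k : ℤ, ∀ᵐ y : ℍ, y ∈ U → f y = k) :
    ∃ k : ℤ, ∀ᵐ y : ℍ, f y = k := by
  choose U hU hy k hk using h
  have hloc : IsLocallyConstant k := by
    rw [IsLocallyConstant.iff_exists_open]
    intro x
    refine ⟨U x, hU x, hy x, ?_⟩
    intro y hyx
    by_contra hne
    have h1 : volume (U y ∩ U x) = 0 := by
      have h2 : ∀ᵐ z : ℍ, z ∉ U y ∩ U x := by
        filter_upwards [hk x, hk y] with z hz1 hz2 hz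
        apply hne
        have h3 := hz1 hz.2
        have h4 := hz2 hz.1
        rw [h3] at h4
        exact_mod_cast h4.symm
      rw [ae_iff] at h2
      convert h2 using 2
      ext z
      simp
    have h5 := eq_empty_of_open ((hU y).inter (hU x)) h1
    have h6 : y ∈ U y ∩ U x := ⟨hy y, hyx⟩
    rw [h5] at h6
    exact h6
  have hconst : ∀ x y, k x = k y := fun x y => hloc.apply_eq_of_preconnectedSpace x y
  refine ⟨k UpperHalfPlane.I, ?_⟩
  obtain ⟨T, hT, hTU⟩ := TopologicalSpace.countable_cover_nhds (fun x => (hU x).mem_nhds (hy x))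
  have h7 : ∀ᵐ y : ℍ, ∀ x ∈ T, y ∈ U x → f y = k x := (ae_ball_iff hT).2 fun x _ => hk x
  filter_upwards [h7] with y hyT
  have h8 : y ∈ ⋃ x ∈ T, U x := by
    rw [hTU]
    trivial
  rw [Set.mem_iUnion₂] at h8
  obtain ⟨x, hx, hyx⟩ := h8
  rw [hyT x hx hyx, hconst x UpperHalfPlane.I]

theorem eq_univ_of_closed {S : Set ℍ} (hS : IsClosed S) (h : ∀ᵐ y : ℍ, y ∈ S) :
    S = Set.univ := by
  have h1 := eq_empty_of_open hS.isOpen_compl h
  exact Set.compl_empty_iff.1 h1

end Pool.Teich
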