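import Pool.Agent.Teich.Poly
import Pool.Agent.Teich.MW

/-!
# Mirror images, bounds for Euler numbers

PROOFS. `mir g = D g D`, `D = diag (1, -1)`: an involutive continuous automorphism of `X`. So
`FD`, `Coc` are preserved (images of neighbourhoods and compact sets; `coc_of_compact` with
`Coc.exists_cover`: apply it to `mir x`). `rev f α = - f (- α)`, a group automorphism, `rev (tr k) = tr (-k)`.
`IsLift.mir`: `D (E α) = E (-α)`, so `mir g (E α) = D g (E (-α)) = r D (E (f (-α))) = r E (rev f α)`.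
`HasEuler.mir`: apply `rev` to the lifts (`map_cprod`: a homomorphism commutes with `cprod`).
`euler_le`: `HasEuler` gives lifts with `cprod l n = tr e`; `cprod_lt`: there is `α` with
`α + e π < α + (2 n - 1) π`. `euler_ge`: `euler_le` for the mirror image.
`euler_of_area`: `exists_hasEuler` gives `HasEuler n t (2 e)` and `area_eq` gives
`2π (2 e) < - 2π (2 n - 4)`, so `e < -(n - 2)`, `2 e ≤ -(2n - 2)`; equality by `euler_ge`.
-/

namespace Pool.Teich

open Matrix Real Filter Topology

/-- conjugation by `diag (1, -1)` -/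
def mir : X →* X where
  toFun g := ⟨!![g.1 0 0, -g.1 0 1; -g.1 1 0, g.1 1 1], by
    have h := g.2
    rw [Matrix.det_fin_two] at h
    rw [Matrix.det_fin_two_of]
    linear_combination h⟩
  map_one' := by
    apply Subtype.ext
    ext i j
    fin_cases i <;> fin_cases j <;> simp
  map_mul' g h := by
    apply Subtype.ext
    ext i j
    fin_cases i <;> fin_cases j <;>
      simp [Matrix.mul_apply, Fin.sum_univ_two] <;> ring

theorem mir_mir (g : X) : mir (mir g) = g := by
  apply Subtype.ext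
  ext i j
  fin_cases i <;> fin_cases j <;> simp [mir]

theorem mir_val (g : X) : (mir g).1 = !![1, 0; 0, -1] * g.1 * !![1, 0; 0, -1] := by
  ext i j
  fin_cases i <;> fin_cases j <;>
    simp [mir, Matrix.mul_apply, Fin.sum_univ_two, Matrix.vecMul, dotProduct]

theorem continuous_mir : Continuous (mir : X → X) := by
  have h : ∀ i j : Fin 2, Continuous fun g : X => g.1 i j := fun i j =>
    (continuous_apply_apply i j).comp continuous_subtype_val
  apply continuous_induced_rng.2
  refine continuous_pi fun i => continuous_pi fun j => ?_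
  fin_cases i <;> fin_cases j
  · exact h 0 0
  · exact (h 0 1).neg
  · exact (h 1 0).neg
  · exact h 1 1

theorem map_cprod {G G' : Type*} [Group G] [Group G'] (F : G →* G') (t : ℕ → G × G) (n : ℕ) :
    F (cprod t n) = cprod (fun i => (F (t i).1, F (t i).2)) n := by
  induction n with
  | zero => rw [cprod_zero, cprod_zero, map_one]
  | succ n ih =>
    rw [cprod_succ, cprod_succ, map_mul, ih]
    simp only [cm, map_mul, map_inv]

/-- reversal of an order isomorphism of `ℝ` -/
noncomputable def rev1 (f : ℝ ≃o ℝ) : ℝ ≃o ℝ where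
  toFun α := -f (-α)
  invFun α := -f.symm (-α)
  left_inv α := by simp
  right_inv α := by simp
  map_rel_iff' := by
    intro a b
    change -f (-a) ≤ -f (-b) ↔ a ≤ b
    rw [neg_le_neg_iff, f.le_iff_le, neg_le_neg_iff]

/-- reversal as a homomorphism -/
noncomputable def rev : (ℝ ≃o ℝ) →* (ℝ ≃o ℝ) where
  toFun := rev1
  map_one' := by
    ext α
    change -(-α) = α
    rw [neg_neg]
  map_mul' f g := by
    ext α
    change -f (g (-α)) = -f (-(-g (-α)))
    rw [neg_neg]

theorem rev_apply (f : ℝ ≃o ℝ) (α : ℝ) : rev f α = -f (-α) := rfl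

theorem rev_tr (k : ℤ) : rev (tr k) = tr (-k) := by
  ext α
  rw [rev_apply, tr_apply, tr_apply]
  push_cast
  ring

theorem IsLift.mir {g : X} {f : ℝ ≃o ℝ} (h : IsLift g f) : IsLift (mir g) (rev f) := by
  intro α
  obtain ⟨r, hr, h1⟩ := h (-α)
  refine ⟨r, hr, ?_⟩
  have h2 := congrFun h1 0
  have h3 := congrFun h1 1
  simp only [Matrix.mulVec, dotProduct, Fin.sum_univ_two, E, Pi.smul_apply, smul_eq_mul,
    Matrix.cons_val_zero, Matrix.cons_val_one, Real.cos_neg, Real.sin_neg] at h2 h3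
  rw [rev_apply]
  ext i
  fin_cases i
  · simp only [Matrix.mulVec, dotProduct, Fin.sum_univ_two, E, Pi.smul_apply, smul_eq_mul,
      Matrix.cons_val_zero, Matrix.cons_val_one, Real.cos_neg, Real.sin_neg, Fin.zero_eta]
    change g.1 0 0 * Real.cos α + -g.1 0 1 * Real.sin α = _
    linear_combination h2
  · simp only [Matrix.mulVec, dotProduct, Fin.sum_univ_two, E, Pi.smul_apply, smul_eq_mul,
      Matrix.cons_val_zero, Matrix.cons_val_one, Real.cos_neg, Real.sin_neg, Fin.mk_one]
    change -g.1 1 0 * Real.cos α + g.1 1 1 * Real.sin α = _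
    linear_combination -h3

theorem HasEuler.mir {n : ℕ} {t : ℕ → X × X} {e : ℤ} (h : HasEuler n t e) :
    HasEuler n (fun i => (Pool.Teich.mir (t i).1, Pool.Teich.mir (t i).2)) (-e) := by
  obtain ⟨l, hl, hc⟩ := h
  refine ⟨fun i => (rev (l i).1, rev (l i).2), fun i => ⟨(hl i).1.mir, (hl i).2.mir⟩, ?_⟩
  rw [← map_cprod rev l n, hc, rev_tr]

theorem euler_le {n : ℕ} (hn : 1 ≤ n) {t : ℕ → X × X} {e : ℤ} (h : HasEuler n t e) :
    e ≤ 2 * n - 2 := by
  obtain ⟨l, hl, hc⟩ := h
  obtain ⟨α, hα⟩ := cprod_lt (fun i => ⟨(hl i).1.per, (hl i).2.per⟩) hn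
  rw [hc, tr_apply] at hα
  have h1 : (e : ℝ) < 2 * n - 1 := by
    have h2 : (e : ℝ) * π < (2 * n - 1) * π := by linarith
    exact lt_of_mul_lt_mul_right h2 Real.pi_pos.le
  have h2 : e < 2 * n - 1 := by exact_mod_cast h1
  omega

theorem euler_ge {n : ℕ} (hn : 1 ≤ n) {t : ℕ → X × X} {e : ℤ} (h : HasEuler n t e) :
    -(2 * n - 2) ≤ e := by
  have := euler_le hn h.mir
  linarith

theorem euler_of_area {n : ℕ} (hn : 1 ≤ n) {t : ℕ → X × X} (hc : cprod t n = 1)
    (ha : area n t < -(2 * π * (2 * n - 4))) : HasEuler n t (-(2 * n - 2)) := by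
  obtain ⟨e, he⟩ := exists_hasEuler hc
  have h1 := area_eq he hc
  rw [h1] at ha
  have h2 : ((2 * e : ℤ) : ℝ) < -(2 * n - 4) := by
    have h3 : (2 * π) * ((2 * e : ℤ) : ℝ) < (2 * π) * (-(2 * n - 4)) := by linarith
    exact lt_of_mul_lt_mul_left h3 (by positivity)
  have h3 : 2 * e < -(2 * n - 4) := by exact_mod_cast h2
  have h4 := euler_ge hn he
  have h5 : 2 * e = -(2 * n - 2) := by omega
  rwa [h5] at he

variable {Γ : Type*} [Group Γ] {φ : Γ →* X}

theorem FD.mir (h : FD φ) : FD (Pool.Teich.mir.comp φ) := by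
  obtain ⟨U, hU, hγ⟩ := h
  refine ⟨Pool.Teich.mir ⁻¹' U, ?_, ?_⟩
  · apply continuous_mir.continuousAt.preimage_mem_nhds
    rw [map_one]
    exact hU
  · intro γ h1
    apply hγ
    have h2 : Pool.Teich.mir (Pool.Teich.mir (φ γ)) ∈ U := h1
    rwa [mir_mir] at h2

theorem Coc.mir (h : Coc φ) : Coc (Pool.Teich.mir.comp φ) := by
  obtain ⟨K, hK, _, _, hcov⟩ := h.exists_cover
  refine coc_of_compact (K := Pool.Teich.mir '' K) (hK.image continuous_mir) ?_
  intro x
  obtain ⟨γ, hγ⟩ := hcov (Pool.Teich.mir x)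
  refine ⟨γ, _, Set.mem_image_of_mem _ hγ, ?_⟩
  rw [map_mul, map_inv, mir_mir, MonoidHom.comp_apply, mul_inv_cancel_left]

theorem euler_mir {τ : ℕ → Γ × Γ} {n : ℕ} {e : ℤ} (h : HasEuler n (pairs φ τ) e) :
    HasEuler n (pairs (Pool.Teich.mir.comp φ) τ) (-e) := by
  exact h.mir

end Pool.Teich
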