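import Pool.Agent.Teich.Poly

/-!
# Sign twists

PROOFS. `FD.tw`: let `W` be a neighbourhood of `1` with `φ γ ∈ W → γ = 1`; put
`U = {g | g * g ∈ W}`. If `tw n φ γ ∈ U` then `φ (γ * γ) = (tw n φ γ)² ∈ W`, so `γ * γ = 1` and
`γ = 1`. `Coc.tw`: `Coc.exists_cover` gives a compact `K` invariant under sign change,
`coc_of_compact`. `HasEuler.tw`: `HasEuler.sign`.
-/

namespace Pool.Teich

open Matrix Real Filter Topology

variable {Γ : Type*} [Group Γ]

theorem sg_cases (k : ℤ) : (-1 : ℝ) ^ k = 1 ∨ (-1 : ℝ) ^ k = -1 := by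
  rcases Int.even_or_odd k with h | h
  · exact Or.inl h.neg_one_zpow
  · exact Or.inr h.neg_one_zpow

/-- twist by a sign character -/
noncomputable def tw (n : Γ →* Multiplicative ℤ) (φ : Γ →* X) : Γ →* X where
  toFun γ := ⟨((-1 : ℝ) ^ (Multiplicative.toAdd (n γ))) • (φ γ).1, by
    rw [Matrix.det_smul, (φ γ).2]
    rcases sg_cases (Multiplicative.toAdd (n γ)) with h | h <;> rw [h] <;> norm_num⟩
  map_one' := by
    apply Subtype.ext
    simp
  map_mul' γ δ := by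
    apply Subtype.ext
    change ((-1 : ℝ) ^ (Multiplicative.toAdd (n (γ * δ)))) • (φ (γ * δ)).1 =
      (((-1 : ℝ) ^ (Multiplicative.toAdd (n γ))) • (φ γ).1) *
        (((-1 : ℝ) ^ (Multiplicative.toAdd (n δ))) • (φ δ).1)
    rw [map_mul n, map_mul φ, toAdd_mul, zpow_add₀ (by norm_num), Matrix.smul_mul,
      Matrix.mul_smul, smul_smul]
    rfl

theorem tw_val (n : Γ →* Multiplicative ℤ) (φ : Γ →* X) (γ : Γ) :
    (tw n φ γ).1 = ((-1 : ℝ) ^ (Multiplicative.toAdd (n γ))) • (φ γ).1 := rfl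

theorem tw_cases (n : Γ →* Multiplicative ℤ) (φ : Γ →* X) (γ : Γ) :
    tw n φ γ = φ γ ∨ (tw n φ γ).1 = -(φ γ).1 := by
  rcases sg_cases (Multiplicative.toAdd (n γ)) with h | h
  · left
    apply Subtype.ext
    rw [tw_val, h, one_smul]
  · right
    rw [tw_val, h, neg_smul, one_smul]

theorem tw_tw (n m : Γ →* Multiplicative ℤ) (φ : Γ →* X) : tw n (tw m φ) = tw (n * m) φ := by
  apply MonoidHom.ext
  intro γ
  apply Subtype.ext
  rw [tw_val, tw_val, tw_val, smul_smul, MonoidHom.mul_apply, toAdd_mul,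
    zpow_add₀ (by norm_num)]

theorem tw_self (n : Γ →* Multiplicative ℤ) (φ : Γ →* X) : tw n (tw n φ) = φ := by
  apply MonoidHom.ext
  intro γ
  apply Subtype.ext
  rw [tw_val, tw_val, smul_smul]
  rcases sg_cases (Multiplicative.toAdd (n γ)) with h | h <;> rw [h] <;> simp

theorem continuous_tw (n : Γ →* Multiplicative ℤ) {P : ℝ → Γ →* X} {γ : Γ}
    (h : Continuous fun s => P s γ) : Continuous fun s => tw n (P s) γ := by
  refine continuous_induced_rng.2 ?_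
  have h1 : Continuous fun s => (P s γ).1 := continuous_subtype_val.comp h
  exact h1.const_smul ((-1 : ℝ) ^ (Multiplicative.toAdd (n γ)))

theorem tw_sq (n : Γ →* Multiplicative ℤ) (φ : Γ →* X) (γ : Γ) :
    Pool.Teich.tw n φ γ * Pool.Teich.tw n φ γ = φ (γ * γ) := by
  apply Subtype.ext
  rw [map_mul, Matrix.SpecialLinearGroup.coe_mul, Matrix.SpecialLinearGroup.coe_mul]
  rcases tw_cases n φ γ with h | h
  · rw [h]
  · have h' : (Pool.Teich.tw n φ γ : Matrix (Fin 2) (Fin 2) ℝ) = -(φ γ : Matrix (Fin 2) (Fin 2) ℝ) := h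
    rw [h', neg_mul_neg]

theorem FD.tw {φ : Γ →* X} (h : FD φ) (h2 : ∀ γ : Γ, γ * γ = 1 → γ = 1)
    (n : Γ →* Multiplicative ℤ) : FD (Pool.Teich.tw n φ) := by
  obtain ⟨W, hW, h1⟩ := h
  refine ⟨{g | g * g ∈ W}, ?_, ?_⟩
  · have hc : Continuous fun g : X => g * g := by fun_prop
    have h3 : Tendsto (fun g : X => g * g) (𝓝 1) (𝓝 1) := by
      have h4 := hc.tendsto 1
      rwa [mul_one] at h4
    exact h3 hW
  · intro γ hγ
    refine h2 γ (h1 _ ?_)
    rw [← tw_sq n φ γ]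
    exact hγ

theorem Coc.tw {φ : Γ →* X} (h : Coc φ) (n : Γ →* Multiplicative ℤ) :
    Coc (Pool.Teich.tw n φ) := by
  obtain ⟨K, hK, -, hKn, hcov⟩ := h.exists_cover
  refine coc_of_compact hK fun x => ?_
  obtain ⟨γ, hγ⟩ := hcov x
  refine ⟨γ, (Pool.Teich.tw n φ γ)⁻¹ * x, ?_, (mul_inv_cancel_left _ _).symm⟩
  rcases tw_cases n φ γ with h1 | h1
  · rw [h1]
    exact hγ
  · refine hKn _ hγ _ ?_
    have h2 : (Pool.Teich.tw n φ γ)⁻¹.1 = -((φ γ)⁻¹).1 := by
      have h3 : ((Pool.Teich.tw n φ γ)⁻¹ : X).1 = Matrix.adjugate (Pool.Teich.tw n φ γ).1 := rfl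
      have h4 : ((φ γ)⁻¹ : X).1 = Matrix.adjugate (φ γ).1 := rfl
      rw [h3, h4, h1, Matrix.adjugate_fin_two, Matrix.adjugate_fin_two]
      ext i j
      fin_cases i <;> fin_cases j <;> simp
    change (Pool.Teich.tw n φ γ)⁻¹.1 * x.1 = -(((φ γ)⁻¹).1 * x.1)
    rw [h2, Matrix.neg_mul]

theorem HasEuler.tw {φ : Γ →* X} {τ : ℕ → Γ × Γ} {k : ℕ} {e : ℤ}
    (h : HasEuler k (pairs φ τ) e) (n : Γ →* Multiplicative ℤ) :
    HasEuler k (pairs (Pool.Teich.tw n φ) τ) e :=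
  h.sign (fun i _ => tw_cases n φ (τ i).1) (fun i _ => tw_cases n φ (τ i).2)

/-- an element of order two is mapped to `-1` -/
theorem no_two_torsion {φ : Γ →* X} (hφ : Function.Injective φ) (h : ∀ γ, (φ γ).1 ≠ -1) (γ : Γ)
    (hγ : γ * γ = 1) : γ = 1 := by
  have h1 : φ γ * φ γ = 1 := by rw [← map_mul, hγ, map_one]
  have h2 := congrArg Subtype.val h1
  have hd : (φ γ).1 0 0 * (φ γ).1 1 1 - (φ γ).1 0 1 * (φ γ).1 1 0 = 1 := by
    have := (φ γ).2
    rwa [Matrix.det_fin_two] at this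
  have hne := h γ
  have h3 : (φ γ).1 * (φ γ).1 = 1 := h2
  have e00 := congrFun (congrFun h3 0) 0
  have e01 := congrFun (congrFun h3 0) 1
  have e10 := congrFun (congrFun h3 1) 0
  have e11 := congrFun (congrFun h3 1) 1
  simp only [Matrix.mul_apply, Fin.sum_univ_two, Matrix.one_apply_eq] at e00 e11
  simp only [Matrix.mul_apply, Fin.sum_univ_two, ne_eq, zero_ne_one, one_ne_zero,
    not_false_eq_true, Matrix.one_apply_ne] at e01 e10
  apply hφ
  rw [map_one]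
  have ht : (φ γ).1 0 0 + (φ γ).1 1 1 ≠ 0 := by
    intro h0
    have h5 : (φ γ).1 1 1 = -(φ γ).1 0 0 := by linarith
    rw [h5] at hd
    linarith
  have hb : (φ γ).1 0 1 = 0 := by
    have h6 : (φ γ).1 0 1 * ((φ γ).1 0 0 + (φ γ).1 1 1) = 0 := by linarith
    exact (mul_eq_zero.1 h6).resolve_right ht
  have hc : (φ γ).1 1 0 = 0 := by
    have h6 : (φ γ).1 1 0 * ((φ γ).1 0 0 + (φ γ).1 1 1) = 0 := by linarith
    exact (mul_eq_zero.1 h6).resolve_right ht
  rw [hb] at hd e00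
  have had : (φ γ).1 0 0 = (φ γ).1 1 1 := by
    have h6 : (φ γ).1 0 0 * ((φ γ).1 0 0 - (φ γ).1 1 1) = 0 := by linarith
    rcases mul_eq_zero.1 h6 with h7 | h7
    · rw [h7] at hd
      norm_num at hd
    · linarith
  have ha : ((φ γ).1 0 0 - 1) * ((φ γ).1 0 0 + 1) = 0 := by linarith
  rcases mul_eq_zero.1 ha with h7 | h7
  · apply Subtype.ext
    change (φ γ).1 = 1
    ext i j
    fin_cases i <;> fin_cases j
    · change (φ γ).1 0 0 = (1 : Matrix (Fin 2) (Fin 2) ℝ) 0 0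
      rw [Matrix.one_apply_eq]
      linarith
    · change (φ γ).1 0 1 = (1 : Matrix (Fin 2) (Fin 2) ℝ) 0 1
      rw [Matrix.one_apply_ne (by norm_num)]
      exact hb
    · change (φ γ).1 1 0 = (1 : Matrix (Fin 2) (Fin 2) ℝ) 1 0
      rw [Matrix.one_apply_ne (by norm_num)]
      exact hc
    · change (φ γ).1 1 1 = (1 : Matrix (Fin 2) (Fin 2) ℝ) 1 1
      rw [Matrix.one_apply_eq]
      linarith
  · exfalso
    apply hne
    ext i j
    fin_cases i <;> fin_cases j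
    · change (φ γ).1 0 0 = -(1 : Matrix (Fin 2) (Fin 2) ℝ) 0 0
      rw [Matrix.one_apply_eq]
      linarith
    · change (φ γ).1 0 1 = -(1 : Matrix (Fin 2) (Fin 2) ℝ) 0 1
      rw [Matrix.one_apply_ne (by norm_num), neg_zero]
      exact hb
    · change (φ γ).1 1 0 = -(1 : Matrix (Fin 2) (Fin 2) ℝ) 1 0
      rw [Matrix.one_apply_ne (by norm_num), neg_zero]
      exact hc
    · change (φ γ).1 1 1 = -(1 : Matrix (Fin 2) (Fin 2) ℝ) 1 1
      rw [Matrix.one_apply_eq]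
      linarith

end Pool.Teich
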