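import Pool.Agent.Teich.ExpG
import Pool.Agent.Teich.CovE
import Pool.Agent.Teich.TwistF
import Pool.Agent.Hhelper63.AnT.FinC

/-!
# A faithful discrete cocompact representation of Euler number `-(2g-2)` for every genus
-/

namespace Pool.Teich

open Matrix Real
open Pool.Agent.Hhelper63.AnT

theorem phiC_z : (PhiC (Tri.z (k := 2) (l := 4) (m := 6))).1 = -1 := by
  unfold PhiC
  rw [Tri.lift_z]
  simp

theorem etaC_z : EtaC (Tri.z (k := 2) (l := 4) (m := 6)) ≠ 1 := by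
  unfold EtaC
  rw [Tri.lift_z]
  intro h
  have h1 := congrArg Units.val h
  have h2 := congrFun (congrFun h1 0) 0
  simp at h2
  norm_num at h2

/-- the representation of genus two -/
noncomputable def phi2 : Surf 2 →* X := toX (PhiC.comp SC.iotaC) (fun γ => by
  have h := SC.trivial_of (Matrix.GeneralLinearGroup.det.comp PhiC) SC.det_sq γ
  have h2 := congrArg Units.val h
  simpa [Matrix.GeneralLinearGroup.val_det_apply] using h2)

theorem phi2_val (γ : Surf 2) : (phi2 γ).1 = (PhiC (SC.iotaC γ)).1 := rfl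

theorem euler_phi2 : HasEuler 2 (pairs phi2 (tau 2)) (-2) := by
  refine euler_t2.congr fun i hi => ?_
  obtain ⟨h1, h2⟩ := model_gen i hi
  exact Prod.ext (Subtype.ext h1) (Subtype.ext h2)

theorem exists_model (g : ℕ) (hg : 2 ≤ g) : ∃ φ : Surf g →* X, FD φ ∧ Coc φ ∧
    (∀ γ, (φ γ).1 ≠ -1) ∧ HasEuler g (pairs φ (tau g)) (-(2 * g - 2)) := by
  obtain ⟨m, rfl⟩ : ∃ m, g = m + 1 + 1 := ⟨g - 2, by omega⟩
  have hF : ∃ F : Finset (Tri 2 4 6), ∀ g, ∃ f ∈ F, ∃ γ, g = f * SC.iotaC γ := by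
    classical
    refine ⟨((Finset.univ : Finset Bool) ×ˢ Finset.range 48).image
      (fun q => SC.zp Tri.z q.1 * SC.E SC.sT (SC.tC q.2)), ?_⟩
    intro g
    obtain ⟨e, j, γ, hj, rfl⟩ := SC.reach_all g
    exact ⟨_, Finset.mem_image.mpr ⟨(e, j), Finset.mem_product.mpr
      ⟨Finset.mem_univ _, Finset.mem_range.mpr hj⟩, rfl⟩, γ, rfl⟩
  have hκ : Function.Injective (kap (m + 1)) := by
    intro γ δ h
    have h1 := act_kap m γ 1
    rw [h, act_kap m δ 1] at h1
    simpa using (congrArg Prod.snd h1).symm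
  have hF' : ∃ F : Finset (Surf 2), ∀ x, ∃ f ∈ F, ∃ γ, x = f * kap (m + 1) γ := by
    classical
    refine ⟨(Finset.range (m + 1)).image fun k => (Surf.gen 0 false ^ k)⁻¹, fun x => ?_⟩
    obtain ⟨k, hk, γ, h⟩ := kap_fin m x 1 ⟨0, by omega, 1, by simp⟩
    refine ⟨_, Finset.mem_image.2 ⟨k, Finset.mem_range.2 (by omega), rfl⟩, γ, ?_⟩
    rw [← h, mul_one]
  have hfin := fin_c all_c
  let j : Surf (m + 1 + 1) →* Tri 2 4 6 := SC.iotaC.comp (kap (m + 1))
  let φ : Surf (m + 1 + 1) →* X := phi2.comp (kap (m + 1))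
  have hφ : ∀ γ, (φ γ).1 = (PhiC (j γ)).1 := fun _ => rfl
  have hinj : Function.Injective φ := by
    intro a b hab
    have h1 : (PhiC (j a)).1 = (PhiC (j b)).1 := by rw [← hφ, ← hφ, hab]
    exact hκ (SC.iota_inj (faith_c (Units.ext h1)))
  have hdisc := disc_of_fin PhiC hfin j φ hφ
  have hcoc := coc_c hfin j φ hφ (reps_comp (kap (m + 1)) SC.iotaC hF' hF)
  refine ⟨φ, (fd_iff φ).2 ⟨hinj, hdisc⟩, hcoc, ?_, ?_⟩
  · intro γ h
    have h1 : PhiC (j γ) = PhiC Tri.z := Units.ext (by rw [← hφ, h, phiC_z])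
    have h2 := faith_c h1
    have h3 : EtaC (j γ) = 1 := SC.trivial_of EtaC SC.eta_sq (kap (m + 1) γ)
    rw [h2] at h3
    exact etaC_z h3
  · have h0 : tau 2 0 = (Surf.gen 0 false, Surf.gen 0 true) := rfl
    have h1 : tau 2 1 = (Surf.gen 1 false, Surf.gen 1 true) := rfl
    have h2 := euler_cov phi2 h0 h1 euler_phi2 (m + 1)
    have e : (((m + 1 : ℕ) : ℤ) * (-2)) = -(2 * ((m + 1 + 1 : ℕ) : ℤ) - 2) := by
      push_cast
      ring
    rw [e] at h2
    refine h2.congr fun i hi => ?_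
    have h3 : (kap (m + 1) (tau (m + 1 + 1) i).1, kap (m + 1) (tau (m + 1 + 1) i).2) =
        covT (m + 1) (Surf.gen 0 false) (Surf.gen 0 true) (Surf.gen 1 false) (Surf.gen 1 true)
          i := by
      rw [tau_lt hi, covT]
      rcases i with _ | i
      · rw [if_pos rfl]
        exact Prod.ext (kap_a (m + 1)) (kap_b (m + 1))
      · rw [if_neg (Nat.succ_ne_zero i)]
        have h4 : (⟨i + 1, hi⟩ : Fin (m + 1 + 1)) = (⟨i, by omega⟩ : Fin (m + 1)).succ := rfl
        rw [h4, kap_c, kap_c]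
        rfl
    change (phi2 (kap (m + 1) (tau (m + 1 + 1) i).1),
      phi2 (kap (m + 1) (tau (m + 1 + 1) i).2)) = (phi2 _, phi2 _)
    rw [← h3]

end Pool.Teich
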