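import Pool.Agent.Teich.Iota

/-!
# Almost every point is generic

PROOF. The measure on `ℍ` is absolutely continuous with respect to Lebesgue measure on `ℂ`
(`UpperHalfPlane.volume_def`). If `y` is not generic for `a, b` then `y = a` or `y = b` or
`wv y b / wv y a` is real, so `Im (wv y a * conj (wv y b)) = 0`, i.e. `GG a b y = 0` (formula in
`Iota`, `Im (P conj Q) = -2 t GG a b y`). If `x_a ≠ x_b` this is a circle (null:
`MeasureTheory.Measure.addHaar_sphere`), if `x_a = x_b` and `|a| ≠ |b|` it is the line `s = x_a`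
(null), if `a = b` then `wv y b / wv y a = 1` for `y ≠ a`, so only the point `a` is excluded.
-/

namespace Pool.Teich

open Complex ComplexConjugate UpperHalfPlane MeasureTheory
open scoped MatrixGroups

/-- null sets of the plane give null sets of the upper half plane -/
theorem vol_null {s : Set ℍ} (h : volume ((fun y : ℍ => (y : ℂ)) '' s) = 0) :
    volume s = 0 := by
  rw [volume_eq_lintegral]
  exact setLIntegral_measure_zero _ _ h

theorem vol_line (x : ℝ) : volume {z : ℂ | z.re = x} = 0 := by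
  have h1 : {z : ℂ | z.re = x} =
      Complex.measurableEquivRealProd ⁻¹' (({x} : Set ℝ) ×ˢ (Set.univ : Set ℝ)) := by
    ext z
    simp [Complex.measurableEquivRealProd]
  rw [h1, Complex.volume_preserving_equiv_real_prod.measure_preimage_equiv,
    Measure.volume_eq_prod, Measure.prod_prod]
  simp

theorem ae_re_ne (x : ℝ) : ∀ᵐ y : ℍ, y.re ≠ x := by
  rw [ae_iff]
  refine vol_null (measure_mono_null (t := {z : ℂ | z.re = x}) ?_ (vol_line x))
  rintro _ ⟨y, hy, rfl⟩
  simpa using hy

/-- the rational expression of `wv` -/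
theorem wv_eq (y a : ℍ) : wv y a = ((a : ℂ) - y) * (conj (a : ℂ) - y) *
    ((normSq ((a : ℂ) - conj (y : ℂ)) : ℝ) : ℂ)⁻¹ := by
  unfold wv
  rw [div_eq_mul_inv, Complex.inv_def, map_sub, Complex.conj_conj, ofReal_inv]
  ring

theorem wv_den_pos (y a : ℍ) : 0 < normSq ((a : ℂ) - conj (y : ℂ)) := by
  rw [Complex.normSq_pos]
  intro h
  have h1 := congrArg Complex.im h
  simp at h1
  have h2 := a.im_pos
  have h3 := y.im_pos
  linarith

theorem GG_eq_zero {y a b : ℍ} (h : (wv y b * conj (wv y a)).im = 0) : GG a b y = 0 := by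
  have h1 : wv y b * conj (wv y a) = (((b : ℂ) - y) * (conj (b : ℂ) - y) *
      conj (((a : ℂ) - y) * (conj (a : ℂ) - y))) *
      (((normSq ((b : ℂ) - conj (y : ℂ)))⁻¹ * (normSq ((a : ℂ) - conj (y : ℂ)))⁻¹ : ℝ) : ℂ) := by
    rw [wv_eq, wv_eq, map_mul, map_inv₀, conj_ofReal, ofReal_mul, ofReal_inv, ofReal_inv]
    ring
  rw [h1, Complex.im_mul_ofReal] at h
  have h2 := (mul_eq_zero.1 h).resolve_right
    (mul_pos (inv_pos.2 (wv_den_pos y b)) (inv_pos.2 (wv_den_pos y a))).ne'
  have h3 : (((b : ℂ) - y) * (conj (b : ℂ) - y) *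
      conj (((a : ℂ) - y) * (conj (a : ℂ) - y))).im = (2 * y.im) * GG a b y := by
    unfold GG
    simp [normSq_apply]
    ring
  rw [h3] at h2
  exact (mul_eq_zero.1 h2).resolve_left (mul_pos two_pos y.im_pos).ne'

theorem im_of_not_slit {u v : ℂ} (h : u / v ∉ slitPlane) : (u * conj v).im = 0 := by
  rw [mem_slitPlane_iff, not_or, not_not] at h
  have h1 : u / v = (u * conj v) * (((normSq v)⁻¹ : ℝ) : ℂ) := by
    rw [div_eq_mul_inv, Complex.inv_def]
    ring
  by_cases hv : v = 0
  · rw [hv]
    simp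
  · have h2 := h.2
    rw [h1, Complex.im_mul_ofReal] at h2
    exact (mul_eq_zero.1 h2).resolve_right (inv_ne_zero (Complex.normSq_pos.2 hv).ne')

theorem ae_GG {a b : ℍ} (hab : a ≠ b) : ∀ᵐ y : ℍ, GG a b y ≠ 0 := by
  by_cases hre : a.re = b.re
  · filter_upwards [ae_re_ne a.re] with y hy h0
    unfold GG at h0
    rw [hre, sub_self, zero_mul, zero_sub, neg_eq_zero, ← hre] at h0
    rcases mul_eq_zero.1 h0 with h1 | h1
    · apply hab
      rw [normSq_apply, normSq_apply] at h1
      simp only [coe_re, coe_im] at h1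
      have h2 : (b.im - a.im) * (b.im + a.im) = 0 := by
        rw [hre] at h1
        linarith
      have h3 := (mul_eq_zero.1 h2).resolve_right (add_pos b.im_pos a.im_pos).ne'
      exact UpperHalfPlane.ext_re_im hre (by linarith)
    · exact hy (sub_eq_zero.1 h1)
  · rw [ae_iff]
    have hre' : b.re - a.re ≠ 0 := fun h => hre (sub_eq_zero.1 h).symm
    set c : ℝ := (normSq (b : ℂ) - normSq (a : ℂ)) / (2 * (b.re - a.re)) with hc
    refine vol_null (measure_mono_null (t := Metric.sphere (c : ℂ) (dist (a : ℂ) (c : ℂ))) ?_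
      (Measure.addHaar_sphere _ _ _))
    rintro _ ⟨y, hy, rfl⟩
    simp only [ne_eq, not_not, Set.mem_ofPred_eq] at hy
    have h1 : normSq ((y : ℂ) - c) = normSq ((a : ℂ) - c) := by
      have h2 : c * (2 * (b.re - a.re)) = normSq (b : ℂ) - normSq (a : ℂ) := by
        rw [hc]
        field_simp
      unfold GG at hy
      rw [← h2] at hy
      have h3 : (b.re - a.re) * ((normSq (y : ℂ) - normSq (a : ℂ)) - 2 * c * (y.re - a.re)) = 0 := by
        linarith
      have h4 := (mul_eq_zero.1 h3).resolve_left hre'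
      rw [normSq_apply, normSq_apply] at h4 ⊢
      simp at h4 ⊢
      linarith
    rw [mem_sphere_iff_norm, dist_eq_norm, Complex.norm_def, Complex.norm_def]
    exact congrArg Real.sqrt h1

theorem ae_gen (a b : ℍ) : ∀ᵐ y : ℍ, Gen y a b := by
  by_cases hab : a = b
  · subst hab
    filter_upwards [ae_re_ne a.re] with y hy
    have h1 : y ≠ a := fun h => hy (by rw [h])
    refine ⟨h1, h1, ?_⟩
    rw [div_self (wv_ne h1)]
    exact one_mem_slitPlane
  · filter_upwards [ae_re_ne a.re, ae_re_ne b.re, ae_GG hab] with y hy1 hy2 hy3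
    refine ⟨fun h => hy1 (by rw [h]), fun h => hy2 (by rw [h]), ?_⟩
    by_contra hcon
    exact hy3 (GG_eq_zero (im_of_not_slit hcon))

end Pool.Teich
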