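import Pool.Agent.Teich.Diag

/-!
# Pairs of pants: explicit pairs with a given product

`μ = lam m`, `p = lam a + 1/lam a`, `q = lam b + 1/lam b`,
`p22 = -(q + p/μ)/(μ - 1/μ) < 0`, `p11 = p - p22 > 0`, `κ = sqrt (1 - p11 p22) > 1`,
`P = !![-p11, κ e^-s; -κ e^s, -p22]`, `Q = !![μ p22, κ e^-s/μ; -μ κ e^s, p11/μ]`.
Then `det P = det Q = 1`, `P * Q = Dneg m`, `tr P = -p`, `tr Q = -q` (direct computations), both
lower left entries are negative, so `P = frameX P a * Dneg a * (frameX P a)⁻¹` etc.
-/

namespace Pool.Teich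

open Matrix Real

/-- `x + 1/x`, `x = lam a` -/
noncomputable def trl (a : ℝ) : ℝ := lam a + (lam a)⁻¹

/-- lower right entry -/
noncomputable def p22 (m a b : ℝ) : ℝ := -(trl b + trl a / lam m) / (lam m - (lam m)⁻¹)

/-- upper left entry -/
noncomputable def p11 (m a b : ℝ) : ℝ := trl a - p22 m a b

/-- off-diagonal entry -/
noncomputable def kpp (m a b : ℝ) : ℝ := Real.sqrt (1 - p11 m a b * p22 m a b)

private lemma trl_pos (a : ℝ) : 0 < trl a := by
  have h := lam_pos a
  unfold trl
  positivity

private lemma sub_inv_pos (m : ℝ) : 0 < lam m - (lam m)⁻¹ := by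
  have h := one_lt_lam m
  have h1 : (lam m)⁻¹ < 1 := inv_lt_one_of_one_lt₀ h
  linarith

theorem p22_neg (m a b : ℝ) : p22 m a b < 0 := by
  have h1 := trl_pos a
  have h2 := trl_pos b
  have h3 := sub_inv_pos m
  have h4 := lam_pos m
  unfold p22
  rw [neg_div]
  exact neg_lt_zero.mpr (div_pos (add_pos h2 (div_pos h1 h4)) h3)

theorem p11_pos (m a b : ℝ) : 0 < p11 m a b := by
  have h1 := trl_pos a
  have h2 := p22_neg m a b
  unfold p11
  linarith

private lemma kpp_arg_pos (m a b : ℝ) : 0 < 1 - p11 m a b * p22 m a b := by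
  have h := mul_neg_of_pos_of_neg (p11_pos m a b) (p22_neg m a b)
  linarith

theorem kpp_sq (m a b : ℝ) : kpp m a b ^ 2 = 1 - p11 m a b * p22 m a b :=
  Real.sq_sqrt (kpp_arg_pos m a b).le

theorem kpp_pos (m a b : ℝ) : 0 < kpp m a b :=
  Real.sqrt_pos.mpr (kpp_arg_pos m a b)

/-- first factor -/
noncomputable def panP (m a b s : ℝ) : X :=
  ⟨!![-p11 m a b, kpp m a b * Real.exp (-s); -kpp m a b * Real.exp s, -p22 m a b], by
    rw [Matrix.det_fin_two_of]
    have h : Real.exp (-s) * Real.exp s = 1 := by rw [← Real.exp_add]; simp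
    linear_combination kpp m a b ^ 2 * h + kpp_sq m a b⟩

/-- second factor -/
noncomputable def panQ (m a b s : ℝ) : X :=
  ⟨!![lam m * p22 m a b, kpp m a b * Real.exp (-s) / lam m;
      -lam m * kpp m a b * Real.exp s, p11 m a b / lam m], by
    rw [Matrix.det_fin_two_of]
    have h : Real.exp (-s) * Real.exp s = 1 := by rw [← Real.exp_add]; simp
    have h2 := (lam_pos m).ne'
    field_simp
    linear_combination kpp m a b ^ 2 * h + kpp_sq m a b⟩

theorem panP_mul (m a b s : ℝ) : panP m a b s * panQ m a b s = Dneg m := by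
  have h : Real.exp (-s) * Real.exp s = 1 := by rw [← Real.exp_add]; simp
  have h2 := (lam_pos m).ne'
  have h3 := kpp_sq m a b
  apply Subtype.ext
  rw [Matrix.SpecialLinearGroup.coe_mul]
  simp only [panP, panQ, Dneg, Matrix.mul_fin_two]
  generalize kpp m a b = k at *
  generalize p11 m a b = x at *
  generalize p22 m a b = y at *
  generalize Real.exp (-s) = e at *
  generalize Real.exp s = f at *
  generalize lam m = l at *
  ext i j
  fin_cases i <;> fin_cases j
  · simp
    linear_combination (-l * k ^ 2) * h - l * h3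
  · simp
    ring
  · simp
    ring
  · simp
    field_simp
    linear_combination (-k ^ 2) * h - h3

theorem tce_panP (m a b s : ℝ) : tce (panP m a b s) = -(lam a + (lam a)⁻¹) := by
  simp only [tce, panP, Matrix.cons_val', Matrix.cons_val_zero, Matrix.cons_val_one,
    Matrix.of_apply, Matrix.cons_val_fin_one]
  unfold p11 trl
  ring

theorem tce_panQ (m a b s : ℝ) : tce (panQ m a b s) = -(lam b + (lam b)⁻¹) := by
  simp only [tce, panQ, Matrix.cons_val', Matrix.cons_val_zero, Matrix.cons_val_one,
    Matrix.of_apply, Matrix.cons_val_fin_one]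
  have h2 := (lam_pos m).ne'
  have h3 := (sub_inv_pos m).ne'
  have h4 : p22 m a b * (lam m - (lam m)⁻¹) = -(trl b + trl a / lam m) := by
    unfold p22
    rw [div_mul_cancel₀ _ h3]
  have h5 : lam m * p22 m a b + p11 m a b / lam m
      = p22 m a b * (lam m - (lam m)⁻¹) + trl a / lam m := by
    unfold p11
    rw [div_eq_mul_inv, div_eq_mul_inv]
    ring
  rw [h5, h4]
  unfold trl
  ring

theorem panP_ne (m a b s : ℝ) : (panP m a b s).1 1 0 < 0 := by
  have h1 := kpp_pos m a b
  have h2 := Real.exp_pos s
  have h3 : (panP m a b s).1 1 0 = -(kpp m a b * Real.exp s) := by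
    simp [panP]
  rw [h3]
  exact neg_lt_zero.mpr (mul_pos h1 h2)

theorem panQ_ne (m a b s : ℝ) : (panQ m a b s).1 1 0 < 0 := by
  have h1 := kpp_pos m a b
  have h2 := Real.exp_pos s
  have h4 := lam_pos m
  have h3 : (panQ m a b s).1 1 0 = -(lam m * kpp m a b * Real.exp s) := by
    simp [panQ]
  rw [h3]
  exact neg_lt_zero.mpr (mul_pos (mul_pos h4 h1) h2)

/-- frame of the first factor -/
noncomputable def frP (u : X) (m a b s : ℝ) : X := u * frameX (panP m a b s) a

/-- frame of the second factor -/
noncomputable def frQ (u : X) (m a b s : ℝ) : X := u * frameX (panQ m a b s) b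

theorem frP_spec (u : X) (m a b s : ℝ) :
    frP u m a b s * Dneg a * (frP u m a b s)⁻¹ = u * panP m a b s * u⁻¹ := by
  have h := frameX_spec (panP m a b s) a (panP_ne m a b s).ne (tce_panP m a b s)
  unfold frP
  conv_rhs => rw [h]
  simp only [_root_.mul_inv_rev, mul_assoc]

theorem frQ_spec (u : X) (m a b s : ℝ) :
    frQ u m a b s * Dneg b * (frQ u m a b s)⁻¹ = u * panQ m a b s * u⁻¹ := by
  have h := frameX_spec (panQ m a b s) b (panQ_ne m a b s).ne (tce_panQ m a b s)
  unfold frQ
  conv_rhs => rw [h]
  simp only [_root_.mul_inv_rev, mul_assoc]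

theorem pants_mul (u : X) (m a b s : ℝ) :
    (frP u m a b s * Dneg a * (frP u m a b s)⁻¹) * (frQ u m a b s * Dneg b * (frQ u m a b s)⁻¹) =
      u * Dneg m * u⁻¹ := by
  rw [frP_spec, frQ_spec, ← panP_mul m a b s]
  group

private lemma continuous_lam' {Y : Type*} [TopologicalSpace Y] {m : Y → ℝ}
    (hm : Continuous m) : Continuous fun y => lam (m y) := by
  unfold lam
  fun_prop

private lemma continuous_trl' {Y : Type*} [TopologicalSpace Y] {m : Y → ℝ}
    (hm : Continuous m) : Continuous fun y => trl (m y) := by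
  unfold trl
  exact (continuous_lam' hm).add ((continuous_lam' hm).inv₀ fun y => (lam_pos _).ne')

private lemma continuous_p22' {Y : Type*} [TopologicalSpace Y] {m a b : Y → ℝ}
    (hm : Continuous m) (ha : Continuous a) (hb : Continuous b) :
    Continuous fun y => p22 (m y) (a y) (b y) := by
  unfold p22
  have h1 := continuous_lam' hm
  refine Continuous.div ?_ ?_ ?_
  · exact ((continuous_trl' hb).add ((continuous_trl' ha).div h1 fun y => (lam_pos _).ne')).neg
  · exact h1.sub (h1.inv₀ fun y => (lam_pos _).ne')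
  · exact fun y => (sub_inv_pos _).ne'

private lemma continuous_p11' {Y : Type*} [TopologicalSpace Y] {m a b : Y → ℝ}
    (hm : Continuous m) (ha : Continuous a) (hb : Continuous b) :
    Continuous fun y => p11 (m y) (a y) (b y) := by
  unfold p11
  exact (continuous_trl' ha).sub (continuous_p22' hm ha hb)

private lemma continuous_kpp' {Y : Type*} [TopologicalSpace Y] {m a b : Y → ℝ}
    (hm : Continuous m) (ha : Continuous a) (hb : Continuous b) :
    Continuous fun y => kpp (m y) (a y) (b y) := by
  unfold kpp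
  exact (continuous_const.sub ((continuous_p11' hm ha hb).mul (continuous_p22' hm ha hb))).sqrt

private lemma continuous_X' {Y : Type*} [TopologicalSpace Y] {f : Y → X}
    (h : ∀ i j, Continuous fun y => (f y).1 i j) : Continuous f :=
  Continuous.subtype_mk (p := fun A : Matrix (Fin 2) (Fin 2) ℝ => A.det = 1)
    (f := fun y => (f y).1) (continuous_matrix h) (fun y => (f y).2)

private lemma continuous_panP' {Y : Type*} [TopologicalSpace Y] {m a b s : Y → ℝ}
    (hm : Continuous m) (ha : Continuous a) (hb : Continuous b) (hs : Continuous s) :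
    Continuous fun y => panP (m y) (a y) (b y) (s y) := by
  have h1 := continuous_p11' hm ha hb
  have h2 := continuous_p22' hm ha hb
  have h3 := continuous_kpp' hm ha hb
  have h4 : Continuous fun y => Real.exp (s y) := hs.rexp
  have h5 : Continuous fun y => Real.exp (-s y) := hs.neg.rexp
  refine continuous_X' fun i j => ?_
  fin_cases i <;> fin_cases j
  · exact h1.neg
  · exact h3.mul h5
  · exact h3.neg.mul h4
  · exact h2.neg

private lemma continuous_panQ' {Y : Type*} [TopologicalSpace Y] {m a b s : Y → ℝ}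
    (hm : Continuous m) (ha : Continuous a) (hb : Continuous b) (hs : Continuous s) :
    Continuous fun y => panQ (m y) (a y) (b y) (s y) := by
  have h1 := continuous_p11' hm ha hb
  have h2 := continuous_p22' hm ha hb
  have h3 := continuous_kpp' hm ha hb
  have h4 : Continuous fun y => Real.exp (s y) := hs.rexp
  have h5 : Continuous fun y => Real.exp (-s y) := hs.neg.rexp
  have h6 := continuous_lam' hm
  refine continuous_X' fun i j => ?_
  fin_cases i <;> fin_cases j
  · exact h6.mul h2
  · exact (h3.mul h5).div h6 fun y => (lam_pos _).ne'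
  · exact (h6.neg.mul h3).mul h4
  · exact h1.div h6 fun y => (lam_pos _).ne'

theorem continuous_frP {Y : Type*} [TopologicalSpace Y] {u : Y → X} {m a b s : Y → ℝ}
    (hu : Continuous u) (hm : Continuous m) (ha : Continuous a) (hb : Continuous b)
    (hs : Continuous s) : Continuous fun y => frP (u y) (m y) (a y) (b y) (s y) := by
  unfold frP
  exact hu.mul (continuous_frameX (continuous_panP' hm ha hb hs) ha
    fun y => (panP_ne _ _ _ _).ne)

theorem continuous_frQ {Y : Type*} [TopologicalSpace Y] {u : Y → X} {m a b s : Y → ℝ}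
    (hu : Continuous u) (hm : Continuous m) (ha : Continuous a) (hb : Continuous b)
    (hs : Continuous s) : Continuous fun y => frQ (u y) (m y) (a y) (b y) (s y) := by
  unfold frQ
  exact hu.mul (continuous_frameX (continuous_panQ' hm ha hb hs) hb
    fun y => (panQ_ne _ _ _ _).ne)

end Pool.Teich
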