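import Pool.Agent.Teich.Pants
import Pool.Agent.Teich.TceLt
import Pool.Agent.Teich.SignT

/-!
# Normal form of pairs of pants

PROOF. `j`, `k` odd, `f`, `h` lifts of `P`, `Q` of levels `j`, `k`, and `f * h` of level
`j + k + 1`, `P * Q = u * Dneg m * u⁻¹`. By `tce_lt`, `tce P, tce Q < -2`; write
`tce P = -(lam a + 1/lam a)`, `tce Q = -(lam b + 1/lam b)` (`exists_lam`). Conjugating everything by
a lift of `u⁻¹` (levels are invariant, `Hyp.conj`) we may assume `P * Q = Dneg m`. Put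
`P' = -P = !![x, y; z, w]`: `x + w = p := trl a`, and `Q' = -Q = P'⁻¹ * Dneg m` has trace
`-μ w - x/μ = q := trl b`, so `w = p22 m a b`, `x = p11 m a b`, `y z = x w - 1 = -kpp²`.
SIGN LEMMA: `z > 0`. Suppose `z ≤ 0`, so `z < 0`. `f0 = tr (-j) * f` is a lift of `P'`
(`IsLift.neg`, `j` odd), `Hyp 0 f0`, so it has a fixed point and `|f0 0| < π`, `|f0⁻¹ 0| < π`;
the same for `h0 = tr (-k) * h`, lift of `Q'`. `y0 = f0 * h0` is a lift of `P' * Q' = Dneg m` with
`Hyp 1 y0`, so `y0 0 ∈ (0, 2π)` and `E (y0 0)` is a positive multiple of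
`Dneg m (E 0) = (-μ, 0)`: `y0 0 = π`. Now `P' (E 0) = (x, z)`, `x > 0`, `z < 0` (not needed) and
`P'⁻¹ (E 0) = (w, -z)` with `w < 0 < -z`: `f0⁻¹ 0` is in `(π/2, π)` modulo `2π` and has absolute
value `< π`, so `f0⁻¹ 0 ∈ (π/2, π)`. Then `h0 0 = f0⁻¹ (y0 0) = f0⁻¹ π = f0⁻¹ 0 + π > 3π/2`:
contradiction to `|h0 0| < π`.
So `z > 0`, `y < 0`, `z = kpp * e^s`, `y = -kpp * e^-s` with `s = log (z / kpp)`: `P = panP m a b s`,
`Q = P⁻¹ * Dneg m = panQ m a b s` (from `panP_mul`). Undo the conjugation, `frP_spec`, `frQ_spec`.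
-/

namespace Pool.Teich

open Matrix Real

lemma pnf_bound {k : ℤ} {f : ℝ ≃o ℝ} (hf : Per f) (h : Hyp k f) (x : ℝ) :
    x + k * π - π < f x ∧ f x < x + k * π + π := by
  obtain ⟨⟨α, hα⟩, β, hβ⟩ := h
  have hpi := Real.pi_pos
  constructor
  · -- `β + nπ ∈ (x - π, x]`
    set n : ℤ := ⌊(x - β) / π⌋ with hn
    have h1 : (n : ℝ) ≤ (x - β) / π := Int.floor_le _
    have h2 : (x - β) / π < n + 1 := Int.lt_floor_add_one _
    rw [le_div_iff₀ hpi] at h1
    rw [div_lt_iff₀ hpi] at h2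
    have h3 : f (β + n * π) ≤ f x := f.monotone (by linarith)
    rw [hf.map_add_int] at h3
    linarith
  · set n : ℤ := ⌈(x - α) / π⌉ with hn
    have h1 : (x - α) / π ≤ (n : ℝ) := Int.le_ceil _
    have h2 : (n : ℝ) < (x - α) / π + 1 := Int.ceil_lt_add_one _
    rw [div_le_iff₀ hpi] at h1
    have h2' : (n : ℝ) - 1 < (x - α) / π := by linarith
    rw [lt_div_iff₀ hpi] at h2'
    have h3 : f x ≤ f (α + n * π) := f.monotone (by linarith)
    rw [hf.map_add_int] at h3
    linarith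

/-- the sign of the lower left entry -/
lemma pnf_sign {P Q : X} {f h : ℝ ≃o ℝ} (hP : IsLift P f) (hQ : IsLift Q h) {j k : ℤ}
    (hj : Odd j) (hk : Odd k) (h1 : Hyp j f) (h2 : Hyp k h) (h3 : Hyp (j + k + 1) (f * h))
    {m : ℝ} (hY : P * Q = Dneg m) (hw : 0 < P.1 1 1) (hz : 0 < P.1 1 0) : False := by
  have hpi := Real.pi_pos
  have hf := hP.per
  have hh := hQ.per
  -- the lifts of `-P` and `-Q`
  have hP' : IsLift (-P) (tr (-j) * f) := hP.neg (by simp) hj.neg
  have hQ' : IsLift (-Q) (tr (-k) * h) := hQ.neg (by simp) hk.neg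
  set f0 := tr (-j) * f with hf0
  set h0 := tr (-k) * h with hh0
  have hf0p : Per f0 := hP'.per
  have hh0p : Per h0 := hQ'.per
  have e1 : ∀ α, f0 α = f α - j * π := fun α => by
    rw [hf0, RelIso.mul_apply, tr_apply]
    push_cast
    ring
  have e2 : ∀ α, h0 α = h α - k * π := fun α => by
    rw [hh0, RelIso.mul_apply, tr_apply]
    push_cast
    ring
  have H1 : Hyp 0 f0 := by
    obtain ⟨⟨α, hα⟩, β, hβ⟩ := h1
    refine ⟨⟨α, ?_⟩, β, ?_⟩
    · rw [e1]; push_cast; linarith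
    · rw [e1]; push_cast; linarith
  have H2 : Hyp 0 h0 := by
    obtain ⟨⟨α, hα⟩, β, hβ⟩ := h2
    refine ⟨⟨α, ?_⟩, β, ?_⟩
    · rw [e2]; push_cast; linarith
    · rw [e2]; push_cast; linarith
  have e3 : ∀ α, (f0 * h0) α = (f * h) α - (j + k) * π := fun α => by
    rw [RelIso.mul_apply, e1, e2, RelIso.mul_apply]
    have := hf.map_add_int (h α) (-k)
    push_cast at this
    rw [show h α - k * π = h α + -(k : ℝ) * π by ring, this]
    ring
  have H3 : Hyp 1 (f0 * h0) := by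
    obtain ⟨⟨α, hα⟩, β, hβ⟩ := h3
    refine ⟨⟨α, ?_⟩, β, ?_⟩
    · rw [e3]
      push_cast at hα ⊢
      linarith
    · rw [e3]
      push_cast at hβ ⊢
      linarith
  have hY' : IsLift (Dneg m) (f0 * h0) := by
    have := hP'.mul hQ'
    rwa [neg_mul_neg, hY] at this
  -- `y0 0 = π`
  have hy : (f0 * h0) 0 = π := by
    obtain ⟨r, hr, hE⟩ := hY' 0
    have hb := pnf_bound hY'.per H3 0
    set θ := (f0 * h0) 0 with hθ
    have c0 := congrFun hE 0
    have c1 := congrFun hE 1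
    simp only [Dneg, E, Matrix.mulVec, dotProduct, Fin.sum_univ_two, Matrix.of_apply,
      Matrix.cons_val', Matrix.cons_val_zero, Matrix.cons_val_one, Matrix.cons_val_fin_one,
      Real.cos_zero, Real.sin_zero, Pi.smul_apply, smul_eq_mul] at c0 c1
    have hs : Real.sin θ = 0 := by
      have : r * Real.sin θ = 0 := by rw [← c1]; ring
      exact (mul_eq_zero.1 this).resolve_left hr.ne'
    have hc : Real.cos θ < 0 := by
      have hl := lam_pos m
      by_contra hcon
      push Not at hcon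
      have := mul_nonneg hr.le hcon
      rw [← c0] at this
      linarith
    obtain ⟨n, hn⟩ := Real.sin_eq_zero_iff.1 hs
    push_cast at hb
    have hn1 : (0 : ℝ) < n := by
      by_contra hcon
      push Not at hcon
      have := mul_nonpos_of_nonpos_of_nonneg hcon hpi.le
      linarith
    have hn2 : (n : ℝ) < 2 := by
      by_contra hcon
      push Not at hcon
      have := mul_le_mul_of_nonneg_right hcon hpi.le
      linarith
    have hn1' : 0 < n := by exact_mod_cast hn1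
    have hn2' : n < 2 := by exact_mod_cast hn2
    have : n = 1 := by omega
    rw [← hn, this]
    simp
  -- `f0⁻¹ 0 ∈ (π/2, π)`
  have hb1 := pnf_bound hf0p H1 (f0⁻¹ 0)
  have hff : f0 (f0⁻¹ 0) = 0 := by
    have : (f0 * f0⁻¹) 0 = 0 := by rw [mul_inv_cancel]; rfl
    exact this
  rw [hff] at hb1
  set φ := f0⁻¹ 0 with hφ
  obtain ⟨r, hr, hE⟩ := hP'.inv 0
  rw [← hφ] at hE
  have c0 := congrFun hE 0
  have c1 := congrFun hE 1
  simp only [Matrix.SpecialLinearGroup.coe_inv, Matrix.SpecialLinearGroup.coe_neg,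
    Matrix.adjugate_fin_two, Matrix.neg_apply, E, Matrix.mulVec, dotProduct,
    Fin.sum_univ_two, Matrix.of_apply,
    Matrix.cons_val', Matrix.cons_val_zero, Matrix.cons_val_one, Matrix.cons_val_fin_one,
    Real.cos_zero, Real.sin_zero, Pi.smul_apply, smul_eq_mul] at c0 c1
  have hcos : Real.cos φ < 0 := by
    by_contra hcon
    push Not at hcon
    have := mul_nonneg hr.le hcon
    rw [← c0] at this
    linarith
  have hsin : 0 < Real.sin φ := by
    by_contra hcon
    push Not at hcon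
    have := mul_nonpos_of_nonneg_of_nonpos hr.le hcon
    rw [← c1] at this
    linarith
  push_cast at hb1
  have hφ0 : 0 < φ := by
    by_contra hcon
    push Not at hcon
    have := Real.sin_nonpos_of_nonpos_of_neg_pi_le hcon (by linarith)
    linarith
  have hφ1 : π / 2 < φ := by
    by_contra hcon
    push Not at hcon
    have := Real.cos_nonneg_of_mem_Icc (x := φ) ⟨by linarith, hcon⟩
    linarith
  -- contradiction
  have hh1 : h0 0 = φ + π := by
    have hinv : Per f0⁻¹ := hf0p.inv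
    have : f0⁻¹ (0 + π) = f0⁻¹ 0 + π := hinv 0
    rw [zero_add] at this
    rw [← hφ] at this
    rw [← this, ← hy, RelIso.mul_apply]
    have : (f0⁻¹ * f0) (h0 0) = h0 0 := by rw [inv_mul_cancel]; rfl
    exact this.symm
  have hb2 := (pnf_bound hh0p H2 0).2
  push_cast at hb2
  linarith

/-- the normal form when the product is diagonal -/
lemma pnf_core {P Q : X} {f h : ℝ ≃o ℝ} (hP : IsLift P f) (hQ : IsLift Q h) {j k : ℤ}
    (hj : Odd j) (hk : Odd k) (h1 : Hyp j f) (h2 : Hyp k h) (h3 : Hyp (j + k + 1) (f * h))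
    {m : ℝ} (hY : P * Q = Dneg m) :
    ∃ a b s, P = panP m a b s ∧ Q = panQ m a b s := by
  obtain ⟨a, ha⟩ := exists_lam (x := -tce P) (by have := tce_lt hP hj h1; linarith)
  obtain ⟨b, hb⟩ := exists_lam (x := -tce Q) (by have := tce_lt hQ hk h2; linarith)
  have hlm := one_lt_lam m
  have hlp := lam_pos m
  have hdet : P.1 0 0 * P.1 1 1 - P.1 0 1 * P.1 1 0 = 1 := by
    have := P.2
    rwa [Matrix.det_fin_two] at this
  have hQe : Q = P⁻¹ * Dneg m := by rw [← hY]; group
  have hQv : Q.1 = P.1.adjugate * (Dneg m).1 := by rw [hQe]; rfl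
  have q00 : Q.1 0 0 = -lam m * P.1 1 1 := by
    rw [hQv]
    simp [Dneg, Matrix.mul_apply, Fin.sum_univ_two, Matrix.adjugate_fin_two]
    ring
  have q01 : Q.1 0 1 = P.1 0 1 / lam m := by
    rw [hQv]
    simp [Dneg, Matrix.mul_apply, Fin.sum_univ_two, Matrix.adjugate_fin_two]
    rw [div_eq_mul_inv]
  have q10 : Q.1 1 0 = lam m * P.1 1 0 := by
    rw [hQv]
    simp [Dneg, Matrix.mul_apply, Fin.sum_univ_two, Matrix.adjugate_fin_two]
    ring
  have q11 : Q.1 1 1 = -P.1 0 0 / lam m := by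
    rw [hQv]
    simp [Dneg, Matrix.mul_apply, Fin.sum_univ_two, Matrix.adjugate_fin_two]
    rw [neg_div, div_eq_mul_inv]
  have hmm : 0 < lam m - (lam m)⁻¹ := by
    have := inv_lt_one_of_one_lt₀ hlm
    linarith
  have p22e : p22 m a b = -P.1 1 1 := by
    have ha' : trl a = -(P.1 0 0 + P.1 1 1) := by rw [trl, ← ha, tce]
    have hb' : trl b = -(Q.1 0 0 + Q.1 1 1) := by rw [trl, ← hb, tce]
    rw [p22, div_eq_iff hmm.ne', ha', hb', q00, q11]
    field_simp
    ring
  have p11e : p11 m a b = -P.1 0 0 := by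
    have ha' : trl a = -(P.1 0 0 + P.1 1 1) := by rw [trl, ← ha, tce]
    rw [p11, p22e, ha']
    ring
  have hw : 0 < P.1 1 1 := by
    have := p22_neg m a b
    rw [p22e] at this
    linarith
  have hx : P.1 0 0 < 0 := by
    have := p11_pos m a b
    rw [p11e] at this
    linarith
  have hz : P.1 1 0 < 0 := by
    rcases lt_trichotomy (P.1 1 0) 0 with hz | hz | hz
    · exact hz
    · rw [hz, mul_zero, sub_zero] at hdet
      have := mul_neg_of_neg_of_pos hx hw
      linarith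
    · exact (pnf_sign hP hQ hj hk h1 h2 h3 hY hw hz).elim
  have hkp := kpp_pos m a b
  have hk2 := kpp_sq m a b
  rw [p11e, p22e] at hk2
  refine ⟨a, b, Real.log (-P.1 1 0 / kpp m a b), ?_⟩
  have hq : 0 < -P.1 1 0 / kpp m a b := div_pos (by linarith) hkp
  have hexp : Real.exp (Real.log (-P.1 1 0 / kpp m a b)) = -P.1 1 0 / kpp m a b :=
    Real.exp_log hq
  have hexp' : Real.exp (-Real.log (-P.1 1 0 / kpp m a b)) = kpp m a b / -P.1 1 0 := by
    rw [Real.exp_neg, hexp, inv_div]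
  have hz0 : P.1 1 0 ≠ 0 := hz.ne
  have h01 : kpp m a b * (kpp m a b / -P.1 1 0) = P.1 0 1 := by
    rw [mul_div_assoc', div_eq_iff (by simpa using hz0)]
    linear_combination hk2 - hdet
  have h10 : -kpp m a b * (-P.1 1 0 / kpp m a b) = P.1 1 0 := by
    field_simp
  have hPe : P = panP m a b (Real.log (-P.1 1 0 / kpp m a b)) := by
    ext i l
    fin_cases i <;> fin_cases l
    · change P.1 0 0 = -p11 m a b
      rw [p11e, neg_neg]
    · change P.1 0 1 = kpp m a b * Real.exp (-Real.log (-P.1 1 0 / kpp m a b))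
      rw [hexp', h01]
    · change P.1 1 0 = -kpp m a b * Real.exp (Real.log (-P.1 1 0 / kpp m a b))
      rw [hexp, h10]
    · change P.1 1 1 = -p22 m a b
      rw [p22e, neg_neg]
  refine ⟨hPe, ?_⟩
  have := panP_mul m a b (Real.log (-P.1 1 0 / kpp m a b))
  rw [← hPe, ← hY] at this
  exact (mul_left_cancel this).symm

theorem pants_nf {P Q : X} {f h : ℝ ≃o ℝ} (hP : IsLift P f) (hQ : IsLift Q h) {j k : ℤ}
    (hj : Odd j) (hk : Odd k) (h1 : Hyp j f) (h2 : Hyp k h) (h3 : Hyp (j + k + 1) (f * h))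
    {u : X} {m : ℝ} (hY : P * Q = u * Dneg m * u⁻¹) :
    ∃ a b s, P = frP u m a b s * Dneg a * (frP u m a b s)⁻¹ ∧
      Q = frQ u m a b s * Dneg b * (frQ u m a b s)⁻¹ := by
  obtain ⟨w, hw⟩ := exists_lift u⁻¹
  have hwp := hw.per
  have hP1 : IsLift (u⁻¹ * P * u) (w * f * w⁻¹) := by
    have := (hw.mul hP).mul hw.inv
    rwa [inv_inv] at this
  have hQ1 : IsLift (u⁻¹ * Q * u) (w * h * w⁻¹) := by
    have := (hw.mul hQ).mul hw.inv
    rwa [inv_inv] at this
  obtain ⟨a, b, s, hPa, hQb⟩ := pnf_core hP1 hQ1 hj hk (h1.conj hwp) (h2.conj hwp)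
    (by
      have := h3.conj hwp
      rwa [show w * (f * h) * w⁻¹ = w * f * w⁻¹ * (w * h * w⁻¹) by group] at this)
    (m := m) (by
      rw [show u⁻¹ * P * u * (u⁻¹ * Q * u) = u⁻¹ * (P * Q) * u by group, hY]
      group)
  refine ⟨a, b, s, ?_, ?_⟩
  · rw [frP_spec, ← hPa]
    group
  · rw [frQ_spec, ← hQb]
    group

end Pool.Teich
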