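import Pool.Agent.Teich.Disk

/-!
# Branches of the argument of the automorphy factor

PROOFS. `psi g f w = f 0 - arg (1 + q/p) + arg (1 + (q/p) w)`, `|q/p| < 1`, so the arguments are continuous
(real part positive). `psi_spec`: for `w = 1`: `e^{i f 0} r = J g 1` (lift at `α = 0`), so
`f 0 - arg (1 + q/p)` is an argument of `p`, hence `psi g f w` is an argument of
`J g w = p (1 + (q/p) w)`.
`lift_eq`: both sides of `f α = α + psi g f (e^{-2iα})` are continuous in `α`, differ by a multiple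
of `2π`, equal at `α = 0`.
`psi_mul`: both sides are continuous in `w` in the closed disk (convex), arguments of
`J (g h) w = J g (act h w) J h w`, hence differ by a constant multiple of `2π`; at `w = 1` they agree
by `lift_eq` (`psi (g h) (f k) 1 = f (k 0)`, `act h 1 = e^{-2i k 0}`).
`psi_inv_zero`: `psi g f (act g⁻¹ 0) + psi g⁻¹ f⁻¹ 0 = psi 1 1 0 = 0` and
`act g⁻¹ 0 = - conj (q/p)`, `1 + (q/p) (-conj (q/p)) > 0`, so `psi g f (act g⁻¹ 0) = psi g f 0`
(both are `f 0 - arg (1 + q/p)`).
-/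

namespace Pool.Teich

open Complex ComplexConjugate

/-- branch of the argument of `J g w` given by a lift -/
noncomputable def psi (g : X) (f : ℝ ≃o ℝ) (w : ℂ) : ℝ :=
  f 0 - arg (1 + qc g / pc g) + arg (1 + qc g / pc g * w)

namespace PsiAux

theorem norm_quot_lt (g : X) : ‖qc g / pc g‖ < 1 := by
  have h := pc_sq g
  have hp : 0 < ‖pc g‖ := norm_pos_iff.2 (pc_ne g)
  rw [norm_div, div_lt_one hp]
  nlinarith [norm_nonneg (qc g), norm_nonneg (pc g)]

theorem re_pos (g : X) {w : ℂ} (hw : ‖w‖ ≤ 1) : 0 < (1 + qc g / pc g * w).re := by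
  have h1 : ‖qc g / pc g * w‖ < 1 := by
    rw [norm_mul]
    calc ‖qc g / pc g‖ * ‖w‖ ≤ ‖qc g / pc g‖ * 1 :=
          mul_le_mul_of_nonneg_left hw (norm_nonneg _)
      _ < 1 := by rw [mul_one]; exact norm_quot_lt g
  have h2 : -(qc g / pc g * w).re ≤ ‖qc g / pc g * w‖ :=
    (neg_le_abs _).trans (Complex.abs_re_le_norm _)
  rw [Complex.add_re, Complex.one_re]
  linarith

theorem slit (g : X) {w : ℂ} (hw : ‖w‖ ≤ 1) : (1 + qc g / pc g * w) ∈ slitPlane :=
  Or.inl (re_pos g hw)

theorem J_eq (g : X) (w : ℂ) : J g w = pc g * (1 + qc g / pc g * w) := by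
  have := pc_ne g
  unfold J
  field_simp
  ring

/-- a positive multiple of a unit vector -/
theorem eq_norm_mul {z : ℂ} {c θ : ℝ} (hc : 0 < c) (h : z = c * exp (I * θ)) :
    z = ‖z‖ * exp (I * θ) := by
  have h1 : ‖z‖ = c := by
    rw [h, norm_mul, Complex.norm_real, mul_comm I, Complex.norm_exp_ofReal_mul_I, mul_one,
      Real.norm_eq_abs, abs_of_pos hc]
  rw [h1]
  exact h

/-- equal angles up to multiples of the full angle -/
theorem exists_int {c d θ φ : ℝ} (hc : 0 < c) (hd : 0 < d)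
    (h : (c : ℂ) * exp (I * θ) = d * exp (I * φ)) : ∃ k : ℤ, θ - φ = 2 * k * Real.pi := by
  have h1 : c = d := by
    have := congrArg norm h
    rw [norm_mul, norm_mul, mul_comm I, mul_comm I, Complex.norm_exp_ofReal_mul_I,
      Complex.norm_exp_ofReal_mul_I, Complex.norm_real, Complex.norm_real, mul_one, mul_one,
      Real.norm_eq_abs, Real.norm_eq_abs, abs_of_pos hc, abs_of_pos hd] at this
    exact this
  rw [h1] at h
  have h2 : exp (I * θ) = exp (I * φ) :=
    mul_left_cancel₀ (by exact_mod_cast hd.ne') h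
  obtain ⟨k, hk⟩ := Complex.exp_eq_exp_iff_exists_int.1 h2
  refine ⟨k, ?_⟩
  have h3 : I * ((θ - φ : ℝ) : ℂ) = I * ((2 * k * Real.pi : ℝ) : ℂ) := by
    push_cast
    linear_combination hk
  exact_mod_cast mul_left_cancel₀ I_ne_zero h3

/-- a continuous function with values in the multiples of the full angle is constant -/
theorem const_of {β : Type*} [TopologicalSpace β] {S : Set β} (hS : IsPreconnected S) {d : β → ℝ}
    (hd : ContinuousOn d S) (hv : ∀ x ∈ S, ∃ k : ℤ, d x = 2 * k * Real.pi) {x y : β}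
    (hx : x ∈ S) (hy : y ∈ S) : d x = d y := by
  have h2 : (Set.range fun k : ℤ => 2 * (k : ℝ) * Real.pi).Countable := Set.countable_range _
  have h3 := hS.image _ hd
  have h4 := h2.isTotallyDisconnected (d '' S) (by
    rintro _ ⟨z, hz, rfl⟩
    obtain ⟨k, hk⟩ := hv z hz
    exact ⟨k, hk.symm⟩) h3
  exact h4 ⟨x, hx, rfl⟩ ⟨y, hy, rfl⟩

/-- the action as a complex number -/
theorem lift_complex {g : X} {f : ℝ ≃o ℝ} (h : IsLift g f) (α : ℝ) :
    ∃ r : ℝ, 0 < r ∧ exp (I * α) * J g (exp (-2 * (α : ℂ) * I)) = r * exp (I * f α) := by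
  obtain ⟨r, hr, e⟩ := h α
  refine ⟨r, hr, ?_⟩
  have e0 := congrFun e 0
  have e1 := congrFun e 1
  simp only [E, Matrix.mulVec, dotProduct, Fin.sum_univ_two, Pi.smul_apply, smul_eq_mul,
    Matrix.cons_val_zero, Matrix.cons_val_one] at e0 e1
  have c0 : ((g.1 0 0 : ℝ) : ℂ) * Complex.cos α + (g.1 0 1 : ℝ) * Complex.sin α =
      r * Complex.cos (f α) := by
    exact_mod_cast congrArg (fun x : ℝ => (x : ℂ)) e0
  have c1 : ((g.1 1 0 : ℝ) : ℂ) * Complex.cos α + (g.1 1 1 : ℝ) * Complex.sin α =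
      r * Complex.sin (f α) := by
    exact_mod_cast congrArg (fun x : ℝ => (x : ℂ)) e1
  have h1 : exp (I * α) = Complex.cos α + Complex.sin α * I := by
    rw [mul_comm I, Complex.exp_mul_I]
  have h2 : exp (I * f α) = Complex.cos (f α) + Complex.sin (f α) * I := by
    rw [mul_comm I, Complex.exp_mul_I]
  have h3 : exp (I * α) * exp (-2 * (α : ℂ) * I) = Complex.cos α - Complex.sin α * I := by
    rw [← Complex.exp_add]
    have : I * (α : ℂ) + -2 * (α : ℂ) * I = (-(α : ℂ)) * I := by ring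
    rw [this, Complex.exp_mul_I, Complex.cos_neg, Complex.sin_neg]
    ring
  have h4 : exp (I * α) * J g (exp (-2 * (α : ℂ) * I)) =
      qc g * (exp (I * α) * exp (-2 * (α : ℂ) * I)) + pc g * exp (I * α) := by
    unfold J
    ring
  rw [h4, h3, h1, h2]
  unfold qc pc
  push_cast
  linear_combination c0 + I * c1 - ((g.1 0 1 : ℝ) : ℂ) * Complex.sin α * Complex.I_sq

theorem exp_psi (g : X) (f : ℝ ≃o ℝ) (w : ℂ) (hw : ‖w‖ ≤ 1) :
    exp (I * psi g f w) = exp (I * f 0) *
      (‖1 + qc g / pc g‖ / (1 + qc g / pc g)) *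
        ((1 + qc g / pc g * w) / ‖1 + qc g / pc g * w‖) := by
  have hu : (1 + qc g / pc g) ≠ 0 := by
    intro h0
    have := re_pos g (w := 1) (by simp)
    rw [mul_one, h0] at this
    simp at this
  have hv : (1 + qc g / pc g * w) ≠ 0 := by
    intro h0
    have := re_pos g hw
    rw [h0] at this
    simp at this
  have hu' : ((‖1 + qc g / pc g‖ : ℝ) : ℂ) ≠ 0 := by exact_mod_cast norm_ne_zero_iff.2 hu
  have hv' : ((‖1 + qc g / pc g * w‖ : ℝ) : ℂ) ≠ 0 := by exact_mod_cast norm_ne_zero_iff.2 hv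
  have e1 := Complex.norm_mul_exp_arg_mul_I (1 + qc g / pc g)
  have e2 := Complex.norm_mul_exp_arg_mul_I (1 + qc g / pc g * w)
  have e3 : exp (I * psi g f w) = exp (I * f 0) * (exp (arg (1 + qc g / pc g) * I))⁻¹ *
      exp (arg (1 + qc g / pc g * w) * I) := by
    rw [← Complex.exp_neg, ← Complex.exp_add, ← Complex.exp_add]
    congr 1
    unfold psi
    push_cast
    ring
  have e4 : exp (arg (1 + qc g / pc g) * I) = (1 + qc g / pc g) / ‖1 + qc g / pc g‖ := by
    rw [eq_div_iff hu', mul_comm]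
    exact e1
  have e5 : exp (arg (1 + qc g / pc g * w) * I) =
      (1 + qc g / pc g * w) / ‖1 + qc g / pc g * w‖ := by
    rw [eq_div_iff hv', mul_comm]
    exact e2
  rw [e3, e4, e5, inv_div]

theorem continuousOn_act (g : X) : ContinuousOn (act g) (Metric.closedBall (0 : ℂ) 1) := by
  unfold act
  refine ContinuousOn.div ?_ ?_ ?_
  · fun_prop
  · unfold J
    fun_prop
  · intro w hw
    exact J_ne g (by simpa using hw)

theorem pc_inv (g : X) : pc g⁻¹ = conj (pc g) := by
  have h := Matrix.SpecialLinearGroup.coe_inv g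
  unfold pc
  rw [h, Matrix.adjugate_fin_two]
  simp only [Matrix.of_apply, Matrix.cons_val', Matrix.cons_val_zero, Matrix.cons_val_one,
    Matrix.cons_val_fin_one, map_div₀, map_add, map_mul, Complex.conj_ofReal, Complex.conj_I,
    map_ofNat]
  push_cast
  ring

theorem qc_inv (g : X) : qc g⁻¹ = -qc g := by
  have h := Matrix.SpecialLinearGroup.coe_inv g
  unfold qc
  rw [h, Matrix.adjugate_fin_two]
  simp only [Matrix.of_apply, Matrix.cons_val', Matrix.cons_val_zero, Matrix.cons_val_one,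
    Matrix.cons_val_fin_one]
  push_cast
  ring

theorem qc_one : qc (1 : X) = 0 := by
  unfold qc
  simp

theorem psi_one (g : X) (f : ℝ ≃o ℝ) : psi g f 1 = f 0 := by
  unfold psi
  rw [mul_one]
  ring

end PsiAux

open PsiAux

theorem psi_spec {g : X} {f : ℝ ≃o ℝ} (h : IsLift g f) {w : ℂ} (hw : ‖w‖ ≤ 1) :
    J g w = ‖J g w‖ * exp (I * psi g f w) := by
  obtain ⟨r, hr, e⟩ := lift_complex h 0
  have e' : pc g * (1 + qc g / pc g) = r * exp (I * f 0) := by
    rw [← e, Complex.ofReal_zero, mul_zero, mul_zero, zero_mul, Complex.exp_zero, one_mul, J_eq,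
      mul_one]
  have hu : (1 + qc g / pc g) ≠ 0 := by
    intro h0
    have := re_pos g (w := 1) (by simp)
    rw [mul_one, h0] at this
    simp at this
  have hv : (1 + qc g / pc g * w) ≠ 0 := by
    intro h0
    have := re_pos g hw
    rw [h0] at this
    simp at this
  have hu' : ((‖1 + qc g / pc g‖ : ℝ) : ℂ) ≠ 0 := by exact_mod_cast norm_ne_zero_iff.2 hu
  have hv' : ((‖1 + qc g / pc g * w‖ : ℝ) : ℂ) ≠ 0 := by exact_mod_cast norm_ne_zero_iff.2 hv
  refine eq_norm_mul (c := r * ‖1 + qc g / pc g * w‖ / ‖1 + qc g / pc g‖) ?_ ?_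
  · have h1 := norm_pos_iff.2 hu
    have h2 := norm_pos_iff.2 hv
    positivity
  · rw [exp_psi g f w hw, J_eq]
    have h3 : pc g = r * exp (I * f 0) / (1 + qc g / pc g) := by
      rw [eq_div_iff hu]
      exact e'
    have h4 : pc g * (1 + qc g / pc g * w) =
        r * exp (I * f 0) / (1 + qc g / pc g) * (1 + qc g / pc g * w) := by
      rw [← h3]
    rw [h4]
    generalize (1 + qc g / pc g) = u at *
    generalize (1 + qc g / pc g * w) = v at *
    push_cast
    field_simp

theorem continuousOn_psi (g : X) (f : ℝ ≃o ℝ) :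
    ContinuousOn (psi g f) (Metric.closedBall (0 : ℂ) 1) := by
  intro w hw
  have hw' : ‖w‖ ≤ 1 := by simpa using hw
  refine ContinuousAt.continuousWithinAt ?_
  have h1 : ContinuousAt (fun w : ℂ => 1 + qc g / pc g * w) w := by fun_prop
  have h2 : ContinuousAt (fun w : ℂ => arg (1 + qc g / pc g * w)) w :=
    ContinuousAt.comp (f := fun w : ℂ => 1 + qc g / pc g * w)
      (Complex.continuousAt_arg (slit g hw')) h1
  exact continuousAt_const.add h2

theorem lift_eq {g : X} {f : ℝ ≃o ℝ} (h : IsLift g f) (α : ℝ) :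
    f α = α + psi g f (exp (-2 * (α : ℂ) * I)) := by
  have hn : ∀ β : ℝ, ‖exp (-2 * (β : ℂ) * I)‖ = 1 := by
    intro β
    have := Complex.norm_exp_ofReal_mul_I (-2 * β)
    push_cast at this
    exact this
  have hv : ∀ β ∈ (Set.univ : Set ℝ), ∃ k : ℤ,
      f β - (β + psi g f (exp (-2 * (β : ℂ) * I))) = 2 * k * Real.pi := by
    intro β _
    obtain ⟨r, hr, e⟩ := lift_complex h β
    have e2 := psi_spec h (w := exp (-2 * (β : ℂ) * I)) (hn β).le
    have hJ : 0 < ‖J g (exp (-2 * (β : ℂ) * I))‖ := norm_pos_iff.2 (J_ne g (hn β).le)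
    refine exists_int hr hJ ?_
    rw [← e]
    conv_lhs => rw [e2]
    rw [mul_left_comm, ← Complex.exp_add]
    congr 2
    push_cast
    ring
  have hc : ContinuousOn (fun β : ℝ => f β - (β + psi g f (exp (-2 * (β : ℂ) * I))))
      Set.univ := by
    refine ContinuousOn.sub f.continuous.continuousOn (continuousOn_id.add ?_)
    refine (continuousOn_psi g f).comp (f := fun β : ℝ => exp (-2 * (β : ℂ) * I)) ?_ ?_
    · fun_prop
    · intro β _
      simp only [Metric.mem_closedBall, dist_zero_right]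
      exact (hn β).le
  have h0 := const_of isPreconnected_univ hc hv (Set.mem_univ α) (Set.mem_univ 0)
  simp only [Complex.ofReal_zero, mul_zero, zero_mul, Complex.exp_zero, psi_one, zero_add,
    sub_self] at h0
  linarith

theorem psi_mul {g h : X} {f k : ℝ ≃o ℝ} (h1 : IsLift g f) (h2 : IsLift h k) {w : ℂ}
    (hw : ‖w‖ ≤ 1) : psi (g * h) (f * k) w = psi g f (act h w) + psi h k w := by
  have hv : ∀ z ∈ Metric.closedBall (0 : ℂ) 1, ∃ m : ℤ,
      psi (g * h) (f * k) z - (psi g f (act h z) + psi h k z) = 2 * m * Real.pi := by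
    intro z hz
    have hz' : ‖z‖ ≤ 1 := by simpa using hz
    have ha := norm_act_le h hz'
    have e1 := psi_spec (h1.mul h2) hz'
    have e2 := psi_spec h1 ha
    have e3 := psi_spec h2 hz'
    have p1 : 0 < ‖J (g * h) z‖ := norm_pos_iff.2 (J_ne _ hz')
    have p2 : 0 < ‖J g (act h z)‖ := norm_pos_iff.2 (J_ne _ ha)
    have p3 : 0 < ‖J h z‖ := norm_pos_iff.2 (J_ne _ hz')
    refine exists_int p1 (mul_pos p2 p3) ?_
    rw [← e1, J_mul g h hz']
    conv_lhs => rw [e2, e3]
    have : exp (I * ((psi g f (act h z) + psi h k z : ℝ) : ℂ)) =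
        exp (I * psi g f (act h z)) * exp (I * psi h k z) := by
      rw [← Complex.exp_add]
      push_cast
      ring_nf
    rw [this]
    push_cast
    ring
  have hc : ContinuousOn (fun z => psi (g * h) (f * k) z - (psi g f (act h z) + psi h k z))
      (Metric.closedBall (0 : ℂ) 1) := by
    refine (continuousOn_psi _ _).sub (ContinuousOn.add ?_ (continuousOn_psi _ _))
    refine (continuousOn_psi g f).comp (continuousOn_act h) ?_
    intro z hz
    simp only [Metric.mem_closedBall, dist_zero_right] at hz ⊢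
    exact norm_act_le h hz
  have hS : IsPreconnected (Metric.closedBall (0 : ℂ) 1) :=
    (convex_closedBall (0 : ℂ) 1).isPreconnected
  have h0 := const_of hS hc hv (x := w) (y := 1) (by simpa using hw) (by simp)
  have ha : act h 1 = exp (-2 * ((k 0 : ℝ) : ℂ) * I) := by
    have := act_exp h2 0
    simpa using this
  have hl := lift_eq h1 (k 0)
  simp only [psi_one, ha, RelIso.mul_apply] at h0
  linarith

theorem psi_tr (k : ℤ) (w : ℂ) : psi 1 (tr k) w = k * Real.pi := by
  unfold psi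
  rw [qc_one, zero_div, zero_mul, add_zero, tr_apply]
  ring

theorem psi_inv_zero {g : X} {f : ℝ ≃o ℝ} (h : IsLift g f) : psi g⁻¹ f⁻¹ 0 = - psi g f 0 := by
  have e1 := psi_mul h h.inv (w := 0) (by simp)
  rw [mul_inv_cancel, mul_inv_cancel, ← tr_zero, psi_tr] at e1
  have ha : act g⁻¹ 0 = -conj (qc g / pc g) := by
    unfold act J
    rw [pc_inv, qc_inv, mul_zero, mul_zero, zero_add, zero_add, map_neg, map_div₀, neg_div]
  have e2 : psi g f (act g⁻¹ 0) = psi g f 0 := by
    unfold psi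
    rw [ha, mul_zero, add_zero, Complex.arg_one]
    have h3 : 1 + qc g / pc g * -conj (qc g / pc g) = ((1 - ‖qc g / pc g‖ ^ 2 : ℝ) : ℂ) := by
      rw [mul_neg, Complex.mul_conj, Complex.normSq_eq_norm_sq]
      push_cast
      ring
    have h4 : (0 : ℝ) ≤ 1 - ‖qc g / pc g‖ ^ 2 := by
      have := norm_quot_lt g
      nlinarith [norm_nonneg (qc g / pc g)]
    rw [h3, Complex.arg_ofReal_of_nonneg h4]
  rw [e2] at e1
  simp at e1
  linarith

end Pool.Teich
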