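import Pool.Agent.Teich.Cartan
import Pool.Agent.Teich.Disk

/-!
# Comparison of points along rays

`γ` is near the ray `β` at time `n` if `(φ γ)⁻¹ * (Rot β * Dexp n)` is in the compact set `K`.

PROOFS. `nm_pc`: `|p|² - |q|² = 1` and `|p|² + |q|² = nm g / 2`. `act_sub`:
`act g v - act g 0 = v / (p (q v + p))` and `|q v + p| ≥ |p| (1 - |v|)`, `|p|² = (nm g + 2)/4`.
`nm_le_pow`: `γ` is a product of `wordLen S γ` letters or inverses (`wordLen_spec`),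
`nm` is submultiplicative, `nm 1 = 2`; `K = 2 + Σ_{s ∈ S} nm (φ s)`.
`near_growth`: `e^(2n) ≤ nm (Rot β * Dexp n) ≤ nm (φ γ) * nm k`, `k ∈ K`, so
`nm (φ γ) ≥ e^(2n)/C_K`, and by `nm_le_pow`: `wordLen S γ ≥ (2 n - log (2 C_K))/log K₁`; then
`Hhelper67.Anosov.milnor` for `φ'` (with `fd_iff`).
`near_cmp`: `δ = γ⁻¹ γ'`: `φ δ = k * k'⁻¹` or `k * Dexp 1 * k'⁻¹` (`k, k' ∈ K`,
`Dexp (n+1) = Dexp n * Dexp 1`) is in a compact set, so `δ` is in a finite set `F` (`FD.prp`).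
`act (φ' γ') 0 = act (φ' γ) (act (φ' δ) 0)` (`act_mul`), `|act (φ' δ) 0| ≤ ρ < 1` for `δ ∈ F`
(`norm_act_lt`); `act_sub` and `near_growth`.
-/

namespace Pool.Teich

open Matrix Real Filter Topology
open Pool.Agent.Hhelper67.Anosov (nm wordLen)

theorem nm_pc (g : X) : nm g = 4 * ‖pc g‖ ^ 2 - 2 := by
  have hd : g.1 0 0 * g.1 1 1 - g.1 0 1 * g.1 1 0 = 1 := by
    have h := g.2
    rwa [Matrix.det_fin_two] at h
  have h1 : ‖pc g‖ ^ 2 = ((g.1 0 0 + g.1 1 1) ^ 2 + (g.1 1 0 - g.1 0 1) ^ 2) / 4 := by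
    rw [← Complex.normSq_eq_norm_sq]
    unfold pc
    rw [map_div₀]
    have h2 : Complex.normSq (((g.1 0 0 + g.1 1 1 : ℝ) : ℂ) +
        ((g.1 1 0 - g.1 0 1 : ℝ) : ℂ) * Complex.I) =
        (g.1 0 0 + g.1 1 1) ^ 2 + (g.1 1 0 - g.1 0 1) ^ 2 := Complex.normSq_add_mul_I _ _
    have h3 : Complex.normSq (2 : ℂ) = 4 := by
      rw [Complex.normSq_ofNat]
      norm_num
    rw [h2, h3]
  rw [h1]
  show g.1 0 0 ^ 2 + g.1 0 1 ^ 2 + (g.1 1 0 ^ 2 + g.1 1 1 ^ 2) = _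
  linear_combination (-2 : ℝ) * hd

theorem act_sub (g : X) {v : ℂ} (hv : ‖v‖ < 1) :
    ‖act g v - act g 0‖ ≤ 4 / ((1 - ‖v‖) * nm g) := by
  have hp := pc_ne g
  have hJ := J_ne g hv.le
  have hpc := pc_mul_conj g
  have e1 : act g v - act g 0 = v / (pc g * J g v) := by
    unfold act
    have hJ0 : J g 0 = pc g := by
      unfold J
      ring
    rw [hJ0, div_sub_div _ _ hJ hp, div_eq_div_iff (mul_ne_zero hJ hp) (mul_ne_zero hp hJ)]
    have hJv : J g v = qc g * v + pc g := rfl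
    rw [hJv]
    linear_combination (v * (pc g * (qc g * v + pc g))) * hpc
  have hq : ‖qc g‖ ≤ ‖pc g‖ := by
    have := pc_sq g
    exact le_of_sq_le_sq (by linarith) (norm_nonneg _)
  have h1 : ‖pc g‖ * (1 - ‖v‖) ≤ ‖J g v‖ := by
    have h2 : ‖pc g‖ - ‖qc g * v‖ ≤ ‖J g v‖ := by
      have h3 : ‖pc g‖ ≤ ‖J g v‖ + ‖qc g * v‖ := by
        have h4 : pc g = J g v - qc g * v := by
          unfold J
          ring
        calc ‖pc g‖ = ‖J g v - qc g * v‖ := by rw [← h4]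
          _ ≤ _ := norm_sub_le _ _
      linarith
    have h5 : ‖qc g * v‖ ≤ ‖pc g‖ * ‖v‖ := by
      rw [norm_mul]
      exact mul_le_mul_of_nonneg_right hq (norm_nonneg _)
    linarith
  have hp0 : 0 < ‖pc g‖ := norm_pos_iff.mpr hp
  have hv0 : 0 < 1 - ‖v‖ := by linarith
  have hnm := nm_pc g
  have hnm2 : 0 < nm g := lt_of_lt_of_le (by norm_num) (Pool.Agent.Hhelper67.Anosov.nm_ge g)
  rw [e1, norm_div, norm_mul]
  rw [div_le_div_iff₀ (mul_pos hp0 (norm_pos_iff.mpr hJ)) (mul_pos hv0 hnm2)]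
  have h6 : ‖pc g‖ * (‖pc g‖ * (1 - ‖v‖)) ≤ ‖pc g‖ * ‖J g v‖ :=
    mul_le_mul_of_nonneg_left h1 hp0.le
  have h7 : ‖v‖ * ((1 - ‖v‖) * nm g) ≤ 1 * ((1 - ‖v‖) * nm g) :=
    mul_le_mul_of_nonneg_right hv.le (mul_pos hv0 hnm2).le
  have h8 : (1 - ‖v‖) * nm g ≤ 4 * (‖pc g‖ * (‖pc g‖ * (1 - ‖v‖))) := by
    rw [hnm]
    nlinarith
  linarith

variable {Γ : Type*} [Group Γ]

theorem nm_le_pow (φ : Γ →* X) {S : Finset Γ} (hS : Subgroup.closure (S : Set Γ) = ⊤) :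
    ∃ K : ℝ, 2 ≤ K ∧ ∀ γ, nm (φ γ) ≤ 2 * K ^ wordLen S γ := by
  have hnn : ∀ g : X, 0 ≤ nm g := fun g =>
    le_trans (by norm_num) (Pool.Agent.Hhelper67.Anosov.nm_ge g)
  set K : ℝ := 2 + ∑ s ∈ S, nm (φ s) with hK
  have hsum : 0 ≤ ∑ s ∈ S, nm (φ s) := Finset.sum_nonneg fun s _ => hnn _
  have hK2 : 2 ≤ K := by linarith
  have hs : ∀ s ∈ S, nm (φ s) ≤ K := fun s hs => by
    have := Finset.single_le_sum (f := fun s => nm (φ s)) (fun i _ => hnn _) hs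
    linarith
  have hl : ∀ l : List Γ, (∀ s ∈ l, s ∈ S ∨ s⁻¹ ∈ S) → nm (φ l.prod) ≤ 2 * K ^ l.length := by
    intro l
    induction l with
    | nil =>
      intro _
      simp only [List.prod_nil, map_one, List.length_nil, pow_zero]
      have h1 : nm (1 : X) = 2 := by
        show (1 : X).1 0 0 ^ 2 + (1 : X).1 0 1 ^ 2 + ((1 : X).1 1 0 ^ 2 + (1 : X).1 1 1 ^ 2) = 2
        simp only [Matrix.SpecialLinearGroup.coe_one, Matrix.one_apply]
        norm_num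
      rw [h1]
      norm_num
    | cons a l ih =>
      intro h
      have ha : nm (φ a) ≤ K := by
        rcases h a (List.mem_cons_self ..) with h1 | h1
        · exact hs a h1
        · have := hs _ h1
          rwa [map_inv, nm_inv] at this
      have ih' := ih fun s hs' => h s (List.mem_cons_of_mem _ hs')
      rw [List.prod_cons, map_mul, List.length_cons, pow_succ]
      calc nm (φ a * φ l.prod) ≤ nm (φ a) * nm (φ l.prod) := nm_mul _ _
        _ ≤ K * (2 * K ^ l.length) := mul_le_mul ha ih' (hnn _) (by linarith)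
        _ = 2 * (K ^ l.length * K) := by ring
  refine ⟨K, hK2, fun γ => ?_⟩
  obtain ⟨l, h1, h2, h3⟩ := Pool.Agent.Hhelper67.Anosov.wordLen_spec hS γ
  have := hl l h2
  rwa [h1, h3] at this

theorem near_growth (φ : Γ →* X) {φ' : Γ →* X} (h' : FD φ') (hc' : Coc φ') {S : Finset Γ}
    (hS : Subgroup.closure (S : Set Γ) = ⊤) {K : Set X} (hK : IsCompact K) :
    ∃ C c : ℝ, 0 < C ∧ 0 < c ∧ ∀ (β : ℝ) (n : ℕ) (γ : Γ),
      (φ γ)⁻¹ * (Rot β * Dexp n) ∈ K → C * Real.exp (c * n) ≤ nm (φ' γ) := by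
  obtain ⟨hinj, hdisc⟩ := (fd_iff φ').mp h'
  obtain ⟨C0, c0, hC0, hc0, hm⟩ := Pool.Agent.Hhelper67.Anosov.milnor hinj hdisc hc' hS
  obtain ⟨K1, hK1, hw⟩ := nm_le_pow φ hS
  obtain ⟨CK', hCK'⟩ := bounded_of_compact hK
  set CK := max CK' 1 with hCKdef
  have hCK : ∀ g ∈ K, nm g ≤ CK := fun g hg => (hCK' g hg).trans (le_max_left _ _)
  have hCK1 : 1 ≤ CK := le_max_right _ _
  have hCK0 : 0 < CK := lt_of_lt_of_le one_pos hCK1
  have hK0 : 0 < K1 := by linarith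
  have hlog : 0 < Real.log K1 := Real.log_pos (by linarith)
  set c := 2 * c0 / Real.log K1 with hc
  refine ⟨C0 * Real.exp (-(Real.log (2 * CK) * c0 / Real.log K1)), c,
    mul_pos hC0 (Real.exp_pos _), by positivity, fun β n γ hk => ?_⟩
  have e1 : Rot β * Dexp n = φ γ * ((φ γ)⁻¹ * (Rot β * Dexp n)) := by group
  have h1 : Real.exp (2 * n) ≤ nm (φ γ) * CK := by
    calc Real.exp (2 * n) ≤ Real.exp (2 * n) + Real.exp (-(2 * n)) :=
          le_add_of_nonneg_right (Real.exp_pos _).le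
      _ = nm (Rot β * Dexp n) := by rw [nm_rot_mul, nm_Dexp]
      _ = nm (φ γ * ((φ γ)⁻¹ * (Rot β * Dexp n))) := by rw [← e1]
      _ ≤ nm (φ γ) * nm ((φ γ)⁻¹ * (Rot β * Dexp n)) := nm_mul _ _
      _ ≤ nm (φ γ) * CK := mul_le_mul_of_nonneg_left (hCK _ hk)
          (le_trans (by norm_num) (Pool.Agent.Hhelper67.Anosov.nm_ge _))
  have h2 : Real.exp (2 * n) ≤ 2 * CK * K1 ^ wordLen S γ := by
    calc Real.exp (2 * n) ≤ nm (φ γ) * CK := h1
      _ ≤ (2 * K1 ^ wordLen S γ) * CK := mul_le_mul_of_nonneg_right (hw γ) hCK0.le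
      _ = _ := by ring
  have h3 : 2 * (n : ℝ) ≤ Real.log (2 * CK) + wordLen S γ * Real.log K1 := by
    have h4 := Real.log_le_log (Real.exp_pos _) h2
    rwa [Real.log_exp, Real.log_mul (by positivity) (by positivity), Real.log_pow] at h4
  refine le_trans ?_ (hm γ)
  rw [mul_assoc, ← Real.exp_add]
  refine mul_le_mul_of_nonneg_left (Real.exp_le_exp.mpr ?_) hC0.le
  have h5 : c * n = 2 * n * (c0 / Real.log K1) := by
    rw [hc]
    ring
  have h6 : 2 * (n : ℝ) * (c0 / Real.log K1) ≤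
      (Real.log (2 * CK) + wordLen S γ * Real.log K1) * (c0 / Real.log K1) :=
    mul_le_mul_of_nonneg_right h3 (by positivity)
  have h7 : (Real.log (2 * CK) + wordLen S γ * Real.log K1) * (c0 / Real.log K1) =
      Real.log (2 * CK) * c0 / Real.log K1 + c0 * wordLen S γ := by
    field_simp
  rw [h5]
  linarith

theorem near_cmp {φ φ' : Γ →* X} (h : FD φ) (h' : FD φ') (hc' : Coc φ') {S : Finset Γ}
    (hS : Subgroup.closure (S : Set Γ) = ⊤) {K : Set X} (hK : IsCompact K) :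
    ∃ C c : ℝ, 0 < C ∧ 0 < c ∧ ∀ (β : ℝ) (n : ℕ) (γ γ' : Γ),
      (φ γ)⁻¹ * (Rot β * Dexp n) ∈ K →
      ((φ γ')⁻¹ * (Rot β * Dexp n) ∈ K ∨ (φ γ')⁻¹ * (Rot β * Dexp (n + 1 : ℕ)) ∈ K) →
      ‖act (φ' γ) 0 - act (φ' γ') 0‖ ≤ C * Real.exp (-(c * n)) := by
  obtain ⟨C0, c0, hC0, hc0, hg⟩ := near_growth φ h' hc' hS hK
  set K2 : Set X := (fun p : X × X => p.1 * p.2⁻¹) '' (K ×ˢ K) ∪
    (fun p : X × X => p.1 * Dexp 1 * p.2⁻¹) '' (K ×ˢ K) with hK2
  have hK2c : IsCompact K2 := by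
    refine IsCompact.union ((hK.prod hK).image ?_) ((hK.prod hK).image ?_)
    · exact continuous_fst.mul continuous_snd.inv
    · exact (continuous_fst.mul continuous_const).mul continuous_snd.inv
  have hfin := h.prp K2 hK2c
  obtain ⟨ρ, hρ1, hρ⟩ : ∃ ρ : ℝ, ρ < 1 ∧ ∀ δ, φ δ ∈ K2 → ‖act (φ' δ) 0‖ ≤ ρ := by
    by_cases hne : hfin.toFinset.Nonempty
    · obtain ⟨δ0, h0, hmax⟩ := hfin.toFinset.exists_max_image (fun δ => ‖act (φ' δ) 0‖) hne
      refine ⟨‖act (φ' δ0) 0‖, norm_act_lt _ (by simp), fun δ hδ => hmax δ ?_⟩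
      rw [Set.Finite.mem_toFinset]
      exact hδ
    · refine ⟨0, one_pos, fun δ hδ => absurd ⟨δ, ?_⟩ hne⟩
      rw [Set.Finite.mem_toFinset]
      exact hδ
  have hρ' : 0 < 1 - ρ := by linarith
  refine ⟨4 / ((1 - ρ) * C0), c0, by positivity, hc0, fun β n γ γ' hk hk' => ?_⟩
  have hδ : φ (γ⁻¹ * γ') ∈ K2 := by
    rcases hk' with hk' | hk'
    · left
      refine ⟨(_, _), ⟨hk, hk'⟩, ?_⟩
      simp only [map_mul, map_inv]
      group
    · right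
      refine ⟨(_, _), ⟨hk, hk'⟩, ?_⟩
      have e1 : Dexp ((n + 1 : ℕ) : ℝ) = Dexp n * Dexp 1 := by
        rw [← Dexp_add]
        congr 1
        push_cast
        ring
      simp only [map_mul, map_inv, e1]
      group
  have hv := hρ _ hδ
  have hv1 : ‖act (φ' (γ⁻¹ * γ')) 0‖ < 1 := lt_of_le_of_lt hv hρ1
  have e2 : act (φ' γ') 0 = act (φ' γ) (act (φ' (γ⁻¹ * γ')) 0) := by
    rw [← act_mul _ _ (by simp), ← map_mul]
    congr 2
    group
  have h1 := act_sub (φ' γ) hv1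
  have h2 := hg β n γ hk
  rw [e2, norm_sub_rev]
  refine h1.trans ?_
  have h3 : 0 < Real.exp (c0 * n) := Real.exp_pos _
  have h4 : (1 - ρ) * (C0 * Real.exp (c0 * n)) ≤
      (1 - ‖act (φ' (γ⁻¹ * γ')) 0‖) * nm (φ' γ) :=
    mul_le_mul (by linarith) h2 (mul_pos hC0 h3).le (by linarith)
  calc 4 / ((1 - ‖act (φ' (γ⁻¹ * γ')) 0‖) * nm (φ' γ)) ≤
        4 / ((1 - ρ) * (C0 * Real.exp (c0 * n))) :=
        div_le_div_of_nonneg_left (by norm_num) (by positivity) h4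
    _ = 4 / ((1 - ρ) * C0) * Real.exp (-(c0 * n)) := by
        rw [Real.exp_neg]
        field_simp

end Pool.Teich
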