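import Pool.Agent.Teich.Cartan

/-!
# Representations near a faithful discrete cocompact representation are faithful and discrete

PROOF. Let `K` be the compact set of `Coc.exists_cover` for `φ₀`; `C` a bound of `nm` on `K`.
`cone`: if `M` has `5 ≤ |M 0 0|` and the other entries at most `1` in absolute value and
`|v 1| ≤ |v 0|` then `|(M v) 1| ≤ |(M v) 0|` and `4 |v 0| ≤ |(M v) 0|`.

`growth`: there are finite sets `Q` (depending on `φ₀`), `ε > 0` and `c > 0` such that for every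
`φ : Γ →* X` with `|φ δ i j - φ₀ δ i j| ≤ ε` for `δ ∈ Q`: for all `γ` and `m : ℕ` with
`e^(6 m) ≤ nm (φ₀ γ)` we have `c 4^m ≤ nm (φ γ)`.
Proof: `φ₀ γ = Rot θ₁ * Dexp T * Rot θ₂`, `e^(6m) ≤ e^(2T) + e^(-2T) ≤ e^(2T) + 1`. (If `3 m > T` then
`m = 0` or `6 m ≤ 2 T + 1`; replace `m` by `m - 1`, so assume `3 m ≤ T`.)
Put `N = ⌊T/3⌋ ≥ m`. For `0 ≤ k ≤ N` choose `γ_k` with `d_k = (φ₀ γ_k)⁻¹ * (Rot θ₁ * Dexp (3k)) ∈ K`.
`δ_k = γ_{k-1}⁻¹ γ_k` satisfies `φ₀ δ_k = d_{k-1} * Dexp 3 * d_k⁻¹`, which is in the compact set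
`K * {Dexp 3} * K⁻¹`; so `δ_k ∈ Q₁` finite (`FD.prp`). `M_k = d_{k-1}⁻¹ * φ δ_k * d_k` differs from
`Dexp 3` by `d_{k-1}⁻¹ (φ δ_k - φ₀ δ_k) d_k`, entries at most `4 C ε ≤ 1/2`. Since `e³ ≥ 6` the
matrix `M_k` satisfies the hypothesis of `cone`, so `M_1 ⋯ M_N e_0` has first entry at least `4^N`
in absolute value; `M_1 ⋯ M_N = d_0⁻¹ * φ (γ_0⁻¹ γ_N) * d_N`.
`φ γ = φ γ_0 * φ (γ_0⁻¹ γ_N) * φ (γ_N⁻¹ γ)`; `γ_0` and `γ_N⁻¹ γ` are in a finite set `Q₂`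
(`φ₀ γ_0 = Rot θ₁ * d_0⁻¹`, `φ₀ (γ_N⁻¹ γ) = d_N * Dexp (T - 3N) * Rot θ₂`, `0 ≤ T - 3 N < 3`,
compact sets). `nm` is submultiplicative and `nm g⁻¹ = nm g`, so
`16^N ≤ nm (M_1 ⋯ M_N) ≤ C² nm (φ γ_0) nm (φ γ) nm (φ (γ_N⁻¹ γ))`, and `nm (φ δ)` is bounded for
`δ ∈ Q₂` in terms of `φ₀` (`ε ≤ 1`).
-/

namespace Pool.Teich

open Matrix Real Filter Topology
open Pool.Agent.Hhelper67.Anosov (nm)

theorem cone {M : Matrix (Fin 2) (Fin 2) ℝ} (h00 : 5 ≤ |M 0 0|) (h01 : |M 0 1| ≤ 1)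
    (h10 : |M 1 0| ≤ 1) (h11 : |M 1 1| ≤ 1) {v : Fin 2 → ℝ} (hv : |v 1| ≤ |v 0|) :
    |(M *ᵥ v) 1| ≤ |(M *ᵥ v) 0| ∧ 4 * |v 0| ≤ |(M *ᵥ v) 0| := by
  have e0 : (M *ᵥ v) 0 = M 0 0 * v 0 + M 0 1 * v 1 := by
    simp [Matrix.mulVec, dotProduct, Fin.sum_univ_two]
  have e1 : (M *ᵥ v) 1 = M 1 0 * v 0 + M 1 1 * v 1 := by
    simp [Matrix.mulVec, dotProduct, Fin.sum_univ_two]
  have hv0 := abs_nonneg (v 0)
  have hv1 := abs_nonneg (v 1)
  have a1 : |M 0 0 * v 0| ≤ |(M *ᵥ v) 0| + |M 0 1 * v 1| := by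
    have h : M 0 0 * v 0 = (M *ᵥ v) 0 - M 0 1 * v 1 := by rw [e0]; ring
    rw [h]
    exact abs_sub _ _
  have a2 : |(M *ᵥ v) 1| ≤ |M 1 0 * v 0| + |M 1 1 * v 1| := by
    rw [e1]
    exact abs_add_le _ _
  rw [abs_mul, abs_mul] at a1 a2
  have b1 : 5 * |v 0| ≤ |M 0 0| * |v 0| := mul_le_mul_of_nonneg_right h00 hv0
  have b2 : |M 0 1| * |v 1| ≤ 1 * |v 1| := mul_le_mul_of_nonneg_right h01 hv1
  have b3 : |M 1 0| * |v 0| ≤ 1 * |v 0| := mul_le_mul_of_nonneg_right h10 hv0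
  have b4 : |M 1 1| * |v 1| ≤ 1 * |v 1| := mul_le_mul_of_nonneg_right h11 hv1
  constructor <;> linarith

namespace StabAux

theorem nm_eq (g : X) : nm g = g.1 0 0 ^ 2 + g.1 0 1 ^ 2 + (g.1 1 0 ^ 2 + g.1 1 1 ^ 2) := rfl

theorem nm_pos (g : X) : 0 < nm g := by
  have := Pool.Agent.Hhelper67.Anosov.nm_ge g
  linarith

theorem entry_sq (g : X) (i j : Fin 2) : g.1 i j ^ 2 ≤ nm g := by
  rw [nm_eq]
  have h00 := sq_nonneg (g.1 0 0)
  have h01 := sq_nonneg (g.1 0 1)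
  have h10 := sq_nonneg (g.1 1 0)
  have h11 := sq_nonneg (g.1 1 1)
  fin_cases i <;> fin_cases j
  · show g.1 0 0 ^ 2 ≤ _
    linarith
  · show g.1 0 1 ^ 2 ≤ _
    linarith
  · show g.1 1 0 ^ 2 ≤ _
    linarith
  · show g.1 1 1 ^ 2 ≤ _
    linarith

theorem entry_le {g : X} {C : ℝ} (hC : 1 ≤ C) (h : nm g ≤ C) (i j : Fin 2) : |g.1 i j| ≤ C := by
  have h1 := entry_sq g i j
  apply abs_le_of_sq_le_sq _ (by linarith)
  nlinarith

/-- a product of three matrices has small entries if the middle one has -/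
theorem triple_le {A E B : Matrix (Fin 2) (Fin 2) ℝ} {C e : ℝ} (hC : 0 ≤ C) (he : 0 ≤ e)
    (hA : ∀ i j, |A i j| ≤ C) (hE : ∀ i j, |E i j| ≤ e) (hB : ∀ i j, |B i j| ≤ C) (i j : Fin 2) :
    |(A * E * B) i j| ≤ 4 * (C * e * C) := by
  have h1 : (A * E * B) i j = (A i 0 * E 0 0 * B 0 j + A i 1 * E 1 0 * B 0 j) +
      (A i 0 * E 0 1 * B 1 j + A i 1 * E 1 1 * B 1 j) := by
    simp only [Matrix.mul_apply, Fin.sum_univ_two]
    ring
  have h2 : ∀ a b c d : Fin 2, |A i a * E b c * B d j| ≤ C * e * C := by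
    intro a b c d
    rw [abs_mul, abs_mul]
    exact mul_le_mul (mul_le_mul (hA i a) (hE b c) (abs_nonneg _) hC) (hB d j) (abs_nonneg _)
      (mul_nonneg hC he)
  rw [h1]
  have a1 := h2 0 0 0 0
  have a2 := h2 1 1 0 0
  have a3 := h2 0 0 1 1
  have a4 := h2 1 1 1 1
  have b1 := abs_add_le (A i 0 * E 0 0 * B 0 j) (A i 1 * E 1 0 * B 0 j)
  have b2 := abs_add_le (A i 0 * E 0 1 * B 1 j) (A i 1 * E 1 1 * B 1 j)
  have b3 := abs_add_le (A i 0 * E 0 0 * B 0 j + A i 1 * E 1 0 * B 0 j)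
    (A i 0 * E 0 1 * B 1 j + A i 1 * E 1 1 * B 1 j)
  linarith

theorem nm_near {g g₀ : X} (h : ∀ i j, |g.1 i j - g₀.1 i j| ≤ 1) : nm g ≤ 2 * nm g₀ + 8 := by
  have h1 : ∀ i j, g.1 i j ^ 2 ≤ 2 * g₀.1 i j ^ 2 + 2 := by
    intro i j
    have h2 := abs_le.mp (h i j)
    have h3 : (g.1 i j - g₀.1 i j) ^ 2 ≤ 1 := by
      rw [sq_le_one_iff_abs_le_one]
      exact h i j
    nlinarith [sq_nonneg (g.1 i j - 2 * g₀.1 i j)]
  rw [nm_eq, nm_eq]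
  have a1 := h1 0 0
  have a2 := h1 0 1
  have a3 := h1 1 0
  have a4 := h1 1 1
  linarith

theorem exp3 : 20 ≤ Real.exp 3 := by
  have h1 : (2.7182818283 : ℝ) < Real.exp 1 := Real.exp_one_gt_d9
  have h2 : Real.exp 3 = Real.exp 1 ^ 3 := by
    rw [← Real.exp_nat_mul]
    norm_num
  rw [h2]
  calc (20 : ℝ) ≤ 2.7182818283 ^ 3 := by norm_num
    _ ≤ Real.exp 1 ^ 3 := pow_le_pow_left₀ (by norm_num) h1.le 3

theorem SL_val (A B : X) : (A * B).1 = A.1 * B.1 := rfl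

theorem Dexp_zero : Dexp 0 = 1 := by
  apply Subtype.ext
  show (!![Real.exp 0, 0; 0, Real.exp (-0)] : Matrix (Fin 2) (Fin 2) ℝ) = 1
  rw [neg_zero, Real.exp_zero, Matrix.one_fin_two]

end StabAux

open StabAux

/-- closeness on a finite set -/
def Near {Γ : Type*} [Group Γ] (φ φ₀ : Γ →* X) (Q : Finset Γ) (ε : ℝ) : Prop :=
  ∀ δ ∈ Q, ∀ i j, |(φ δ).1 i j - (φ₀ δ).1 i j| ≤ ε

theorem growth {Γ : Type*} [Group Γ] {φ₀ : Γ →* X} (h : FD φ₀) (hc : Coc φ₀) :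
    ∃ (Q : Finset Γ) (ε c : ℝ), 0 < ε ∧ 0 < c ∧ ∀ φ : Γ →* X, Near φ φ₀ Q ε →
      ∀ (γ : Γ) (m : ℕ), Real.exp (6 * m) ≤ nm (φ₀ γ) → c * 4 ^ m ≤ nm (φ γ) := by
  have hp := h.prp
  obtain ⟨K, hK, hK1, -, hcov⟩ := hc.exists_cover
  obtain ⟨C, hC⟩ := bounded_of_compact hK
  have hC2 : 2 ≤ C := (Pool.Agent.Hhelper67.Anosov.nm_ge 1).trans (hC 1 hK1)
  have hC1 : 1 ≤ C := by linarith
  have he6 : 0 < Real.exp 6 := Real.exp_pos _
  have he61 : 1 ≤ Real.exp 6 := Real.one_le_exp (by norm_num)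
  set C' : ℝ := C * (Real.exp 6 + 1) * C with hC'
  have hC'0 : 0 < C' := by positivity
  have hCC' : C ≤ C' := by
    rw [hC']
    have : 1 ≤ (Real.exp 6 + 1) * C := by nlinarith
    nlinarith
  have hQf : {γ | φ₀ γ ∈ {g : X | nm g ≤ C'}}.Finite := hp _ (isCompact_nm C')
  set D : ℝ := 2 * C' + 8 with hD
  have hD0 : 0 < D := by positivity
  refine ⟨hQf.toFinset, min 1 (1 / (8 * (C * C))), 1 / (4 * (C * C) * (D * D)),
    lt_min one_pos (by positivity), by positivity, fun φ hφ γ m hm => ?_⟩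
  have hQ : ∀ δ, nm (φ₀ δ) ≤ C' → ∀ i j, |(φ δ).1 i j - (φ₀ δ).1 i j| ≤
      min 1 (1 / (8 * (C * C))) := by
    intro δ hδ
    exact hφ δ (by rw [Set.Finite.mem_toFinset]; exact hδ)
  have hQD : ∀ δ, nm (φ₀ δ) ≤ C' → nm (φ δ) ≤ D := by
    intro δ hδ
    refine (nm_near fun i j => (hQ δ hδ i j).trans (min_le_left _ _)).trans ?_
    rw [hD]
    linarith
  obtain ⟨θ₁, θ₂, T, hT, hγ⟩ := cartan (φ₀ γ)
  set N : ℕ := ⌊T / 3⌋₊ with hN
  have hN1 : 3 * (N : ℝ) ≤ T := by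
    have := Nat.floor_le (show 0 ≤ T / 3 by positivity)
    linarith
  have hN2 : T < 3 * (N : ℝ) + 3 := by
    have := Nat.lt_floor_add_one (T / 3)
    linarith
  have hnm0 : nm (φ₀ γ) = Real.exp (2 * T) + Real.exp (-(2 * T)) := by
    rw [hγ, nm_mul_rot, nm_rot_mul, nm_Dexp]
  -- `m ≤ N + 1`
  have hmN : m ≤ N + 1 := by
    by_contra hcon
    push Not at hcon
    have h1 : ((N : ℝ) + 2) ≤ m := by exact_mod_cast hcon
    have h2 : 2 * T + 6 ≤ 6 * (m : ℝ) := by linarith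
    have h3 : Real.exp (2 * T + 6) ≤ Real.exp (6 * m) := Real.exp_le_exp.mpr h2
    rw [Real.exp_add] at h3
    have h4 : Real.exp (-(2 * T)) ≤ 1 := Real.exp_le_one_iff.mpr (by linarith)
    have h5 : 1 ≤ Real.exp (2 * T) := Real.one_le_exp (by linarith)
    have h6 : 3 ≤ Real.exp 6 := by
      have := Real.add_one_le_exp (6 : ℝ)
      linarith
    rw [hnm0] at hm
    nlinarith
  choose gam hgam using fun k : ℕ => hcov (Rot θ₁ * Dexp (3 * (k : ℝ)))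
  set d : ℕ → X := fun k => (φ₀ (gam k))⁻¹ * (Rot θ₁ * Dexp (3 * (k : ℝ))) with hd
  have hdC : ∀ k, nm (d k) ≤ C := fun k => hC _ (hgam k)
  have hdiC : ∀ k, nm (d k)⁻¹ ≤ C := fun k => by rw [nm_inv]; exact hdC k
  have hδ : ∀ k, φ₀ ((gam k)⁻¹ * gam (k + 1)) = d k * Dexp 3 * (d (k + 1))⁻¹ := by
    intro k
    have e : Dexp (3 * ((k + 1 : ℕ) : ℝ)) = Dexp (3 * (k : ℝ)) * Dexp 3 := by
      rw [← Dexp_add]
      congr 1
      push_cast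
      ring
    simp only [hd]
    rw [e, map_mul, map_inv]
    group
  have hδQ : ∀ k, nm (φ₀ ((gam k)⁻¹ * gam (k + 1))) ≤ C' := by
    intro k
    rw [hδ k]
    have h1 := nm_mul (d k * Dexp 3) (d (k + 1))⁻¹
    have h2 := nm_mul (d k) (Dexp 3)
    have h3 : nm (Dexp 3) ≤ Real.exp 6 + 1 := by
      rw [nm_Dexp]
      have : Real.exp (-(2 * 3)) ≤ 1 := Real.exp_le_one_iff.mpr (by norm_num)
      have e : (2 * 3 : ℝ) = 6 := by norm_num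
      rw [e] at this ⊢
      linarith
    have h4 : nm (d k * Dexp 3) ≤ C * (Real.exp 6 + 1) :=
      h2.trans (mul_le_mul (hdC k) h3 (nm_pos _).le (by linarith))
    exact h1.trans (mul_le_mul h4 (hdiC (k + 1)) (nm_pos _).le (by positivity))
  -- the matrices of the cone argument
  have hM : ∀ k, 5 ≤ |((d k)⁻¹ * φ ((gam k)⁻¹ * gam (k + 1)) * d (k + 1)).1 0 0| ∧
      |((d k)⁻¹ * φ ((gam k)⁻¹ * gam (k + 1)) * d (k + 1)).1 0 1| ≤ 1 ∧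
      |((d k)⁻¹ * φ ((gam k)⁻¹ * gam (k + 1)) * d (k + 1)).1 1 0| ≤ 1 ∧
      |((d k)⁻¹ * φ ((gam k)⁻¹ * gam (k + 1)) * d (k + 1)).1 1 1| ≤ 1 := by
    intro k
    set δ := (gam k)⁻¹ * gam (k + 1) with hδd
    set E : Matrix (Fin 2) (Fin 2) ℝ := (φ δ).1 - (φ₀ δ).1 with hE
    have hE1 : ∀ i j, |E i j| ≤ 1 / (8 * (C * C)) := fun i j =>
      (hQ δ (hδQ k) i j).trans (min_le_right _ _)
    have h1 : ((d k)⁻¹ * φ δ * d (k + 1)).1 =
        (Dexp 3).1 + ((d k)⁻¹).1 * E * (d (k + 1)).1 := by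
      have h2 : (d k)⁻¹ * φ₀ δ * d (k + 1) = Dexp 3 := by
        rw [hδ k]
        group
      have h3 := congrArg Subtype.val h2
      rw [SL_val, SL_val] at h3
      rw [SL_val, SL_val, ← h3, hE, Matrix.mul_sub, Matrix.sub_mul]
      abel
    have h4 : ∀ i j, |(((d k)⁻¹).1 * E * (d (k + 1)).1) i j| ≤ 1 / 2 := by
      intro i j
      have h5 := triple_le (by linarith : (0 : ℝ) ≤ C) (by positivity)
        (entry_le hC1 (hdiC k)) hE1 (entry_le hC1 (hdC (k + 1))) i j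
      refine h5.trans (le_of_eq ?_)
      field_simp
      norm_num
    rw [h1]
    have e00 : (Dexp 3).1 0 0 = Real.exp 3 := rfl
    have e01 : (Dexp 3).1 0 1 = 0 := rfl
    have e10 : (Dexp 3).1 1 0 = 0 := rfl
    have e11 : (Dexp 3).1 1 1 = Real.exp (-3) := rfl
    have e3 := exp3
    have e4 : Real.exp (-3) ≤ 1 / 20 := by
      rw [Real.exp_neg, inv_eq_one_div]
      exact one_div_le_one_div_of_le (by norm_num) e3
    have e5 := Real.exp_pos (-3)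
    have a00 := abs_le.mp (h4 0 0)
    have a01 := h4 0 1
    have a10 := h4 1 0
    have a11 := abs_le.mp (h4 1 1)
    simp only [Matrix.add_apply, e00, e01, e10, e11, zero_add]
    refine ⟨?_, by linarith, by linarith, ?_⟩
    · rw [abs_of_nonneg (by linarith)]
      linarith
    · rw [abs_le]
      constructor <;> linarith
  -- iteration
  have hit : ∀ j ≤ N, |(((d (N - j))⁻¹ * φ ((gam (N - j))⁻¹ * gam N) * d N).1 *ᵥ ![1, 0]) 1| ≤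
        |(((d (N - j))⁻¹ * φ ((gam (N - j))⁻¹ * gam N) * d N).1 *ᵥ ![1, 0]) 0| ∧
      4 ^ j ≤ |(((d (N - j))⁻¹ * φ ((gam (N - j))⁻¹ * gam N) * d N).1 *ᵥ ![1, 0]) 0| := by
    intro j
    induction j with
    | zero =>
      intro _
      have e : (d (N - 0))⁻¹ * φ ((gam (N - 0))⁻¹ * gam N) * d N = 1 := by
        rw [Nat.sub_zero, inv_mul_cancel, map_one]
        group
      rw [e]
      simp
    | succ j ih =>
      intro hj
      obtain ⟨i1, i2⟩ := ih (by omega)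
      have hk : N - j = (N - (j + 1)) + 1 := by omega
      set k := N - (j + 1) with hkd
      rw [hk] at i1 i2
      obtain ⟨m1, m2, m3, m4⟩ := hM k
      have e : (d k)⁻¹ * φ ((gam k)⁻¹ * gam N) * d N =
          ((d k)⁻¹ * φ ((gam k)⁻¹ * gam (k + 1)) * d (k + 1)) *
            ((d (k + 1))⁻¹ * φ ((gam (k + 1))⁻¹ * gam N) * d N) := by
        simp only [map_mul, map_inv]
        group
      rw [e, SL_val ((d k)⁻¹ * φ ((gam k)⁻¹ * gam (k + 1)) * d (k + 1)), ← Matrix.mulVec_mulVec]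
      obtain ⟨c1, c2⟩ := cone m1 m2 m3 m4 i1
      refine ⟨c1, le_trans ?_ c2⟩
      rw [pow_succ]
      linarith
  obtain ⟨-, hbig⟩ := hit N le_rfl
  rw [Nat.sub_self] at hbig
  set A : X := (d 0)⁻¹ * φ ((gam 0)⁻¹ * gam N) * d N with hA
  have hA0 : (A.1 *ᵥ ![1, 0]) 0 = A.1 0 0 := by
    simp [Matrix.mulVec, dotProduct, Fin.sum_univ_two]
  rw [hA0] at hbig
  have hA2 : (4 : ℝ) ^ N * 4 ^ N ≤ nm A := by
    have h1 := entry_sq A 0 0
    have h2 : (4 : ℝ) ^ N * 4 ^ N ≤ |A.1 0 0| * |A.1 0 0| :=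
      mul_self_le_mul_self (by positivity) hbig
    rw [abs_mul_abs_self] at h2
    rw [pow_two] at h1
    exact h2.trans h1
  have hA3 : nm A ≤ C * nm (φ ((gam 0)⁻¹ * gam N)) * C := by
    have h1 := nm_mul ((d 0)⁻¹ * φ ((gam 0)⁻¹ * gam N)) (d N)
    have h2 := nm_mul (d 0)⁻¹ (φ ((gam 0)⁻¹ * gam N))
    have h3 := nm_pos (φ ((gam 0)⁻¹ * gam N))
    have h4 : nm ((d 0)⁻¹ * φ ((gam 0)⁻¹ * gam N)) ≤ C * nm (φ ((gam 0)⁻¹ * gam N)) :=
      h2.trans (mul_le_mul_of_nonneg_right (hdiC 0) h3.le)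
    exact h1.trans (mul_le_mul h4 (hdC N) (nm_pos _).le (by positivity))
  have hB : φ ((gam 0)⁻¹ * gam N) = (φ (gam 0))⁻¹ * φ γ * (φ ((gam N)⁻¹ * γ))⁻¹ := by
    simp only [map_mul, map_inv]
    group
  have hg0 : nm (φ₀ (gam 0)) ≤ C' := by
    have e : φ₀ (gam 0) = Rot θ₁ * (d 0)⁻¹ := by
      simp only [hd]
      rw [Nat.cast_zero, mul_zero, Dexp_zero]
      group
    rw [e, nm_rot_mul]
    exact (hdiC 0).trans hCC'
  have hgN : nm (φ₀ ((gam N)⁻¹ * γ)) ≤ C' := by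
    have e : φ₀ ((gam N)⁻¹ * γ) = d N * Dexp (T - 3 * N) * Rot θ₂ := by
      have e1 : Dexp T = Dexp (3 * (N : ℝ)) * Dexp (T - 3 * N) := by
        rw [← Dexp_add]
        congr 1
        ring
      simp only [hd]
      rw [map_mul, map_inv, hγ, e1]
      group
    rw [e, nm_mul_rot]
    have h1 := nm_mul (d N) (Dexp (T - 3 * N))
    have h2 : nm (Dexp (T - 3 * N)) ≤ Real.exp 6 + 1 := by
      rw [nm_Dexp]
      have h3 : Real.exp (2 * (T - 3 * N)) ≤ Real.exp 6 := Real.exp_le_exp.mpr (by linarith)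
      have h4 : Real.exp (-(2 * (T - 3 * N))) ≤ 1 := Real.exp_le_one_iff.mpr (by linarith)
      linarith
    have h5 : nm (d N * Dexp (T - 3 * N)) ≤ C * (Real.exp 6 + 1) :=
      h1.trans (mul_le_mul (hdC N) h2 (nm_pos _).le (by linarith))
    refine h5.trans ?_
    rw [hC']
    exact le_mul_of_one_le_right (by positivity) hC1
  have hB1 : nm (φ ((gam 0)⁻¹ * gam N)) ≤ D * nm (φ γ) * D := by
    rw [hB]
    have h1 := nm_mul ((φ (gam 0))⁻¹ * φ γ) (φ ((gam N)⁻¹ * γ))⁻¹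
    have h2 := nm_mul (φ (gam 0))⁻¹ (φ γ)
    rw [nm_inv] at h1 h2
    have h3 := nm_pos (φ γ)
    have h4 : nm ((φ (gam 0))⁻¹ * φ γ) ≤ D * nm (φ γ) :=
      h2.trans (mul_le_mul_of_nonneg_right (hQD _ hg0) h3.le)
    exact h1.trans (mul_le_mul h4 (hQD _ hgN) (nm_pos _).le (by positivity))
  have hnmp := nm_pos (φ γ)
  have hall : (4 : ℝ) ^ N * 4 ^ N ≤ (C * C) * (D * D) * nm (φ γ) := by
    calc (4 : ℝ) ^ N * 4 ^ N ≤ nm A := hA2
      _ ≤ C * nm (φ ((gam 0)⁻¹ * gam N)) * C := hA3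
      _ ≤ C * (D * nm (φ γ) * D) * C := by gcongr
      _ = _ := by ring
  have h4m : (4 : ℝ) ^ m ≤ 4 * (4 ^ N * 4 ^ N) := by
    calc (4 : ℝ) ^ m ≤ 4 ^ (N + 1) := pow_le_pow_right₀ (by norm_num) hmN
      _ = 4 * 4 ^ N := by rw [pow_succ]; ring
      _ ≤ 4 * (4 ^ N * 4 ^ N) := by
        have : (1 : ℝ) ≤ 4 ^ N := one_le_pow₀ (by norm_num)
        nlinarith
  rw [div_mul_eq_mul_div, one_mul, div_le_iff₀ (by positivity)]
  calc (4 : ℝ) ^ m ≤ 4 * (4 ^ N * 4 ^ N) := h4m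
    _ ≤ 4 * ((C * C) * (D * D) * nm (φ γ)) := by linarith
    _ = _ := by ring

end Pool.Teich
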