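import Pool.Agent.Teich.Psi

/-!
# The signed area of the relator polygon is `2π` times the Euler number

`th w1 w2 = 2 arg (1 - w1 conj w2)` for points of the open disk; `pt g = act g 0`.

PROOFS. `th_act`: by `one_sub`, `1 - act g w1 conj (act g w2)` has argument
`arg (1 - w1 conj w2) - psi g f w1 + psi g f w2` modulo `2π`; both sides of
`th (act g w1) (act g w2) = th w1 w2 - 2 psi g f w1 + 2 psi g f w2` are continuous in
`w1` (open disk, convex) and agree for `w1 = w2` (both are `0`, the number `1 - |w|²` is positive).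
`th_pt`: `pt (g s) = act g (pt s)`, `pt g = act g 0`, `th 0 w = 0`,
`psi (g s) (f k) 0 = psi g f (pt s) + psi s k 0` (`psi_mul`).
`psum_th`: induction on the list with `th_pt` (telescoping).
`letters_prod`: induction.
`T_eq`: `psum_th` with `g = 1`, lifts `l` with `cprod l n = tr e`: the product of the lifts of the
letters is `cprod l n = tr e`, the sum of `psi s k 0` over the letters vanishes because
`psi_inv_zero` makes the letters cancel in pairs; `psi 1 (tr e) 0 = e π`.
-/

namespace Pool.Teich

open Complex ComplexConjugate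

/-- orbit of the centre of the disk -/
noncomputable def pt (g : X) : ℂ := act g 0

/-- twice the argument of `1 - w1 conj w2` -/
noncomputable def th (w1 w2 : ℂ) : ℝ := 2 * arg (1 - w1 * conj w2)

/-- sum of a function of two variables along the path `g, g s₁, g s₁ s₂, …` -/
noncomputable def psum (F : X → X → ℝ) (g : X) : List X → ℝ
  | [] => 0
  | s :: L => F g (g * s) + psum F (g * s) L

/-- letters of the product of the first `n` commutators -/
def letters (n : ℕ) (t : ℕ → X × X) : List X :=
  (List.range n).flatMap fun i => [(t i).1, (t i).2, (t i).1⁻¹, (t i).2⁻¹]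

theorem letters_succ (n : ℕ) (t : ℕ → X × X) :
    letters (n + 1) t = letters n t ++ [(t n).1, (t n).2, (t n).1⁻¹, (t n).2⁻¹] := by
  simp [letters, List.range_succ]

theorem letters_prod (n : ℕ) (t : ℕ → X × X) : (letters n t).prod = cprod t n := by
  induction n with
  | zero => simp [letters]
  | succ n ih =>
    rw [letters_succ, List.prod_append, ih, cprod_succ]
    simp [cm, mul_assoc]

theorem norm_pt_lt (g : X) : ‖pt g‖ < 1 :=
  norm_act_lt g (by simp)

/-- `1 - w1 conj w2` has positive real part -/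
theorem re_one_sub_pos {w1 w2 : ℂ} (h1 : ‖w1‖ < 1) (h2 : ‖w2‖ < 1) :
    0 < (1 - w1 * conj w2).re := by
  have h : ‖w1 * conj w2‖ < 1 := by
    rw [norm_mul, RCLike.norm_conj]
    nlinarith [norm_nonneg w1, norm_nonneg w2]
  have h3 := Complex.re_le_norm (w1 * conj w2)
  rw [Complex.sub_re, Complex.one_re]
  linarith

theorem continuousOn_act (g : X) : ContinuousOn (act g) (Metric.closedBall (0 : ℂ) 1) := by
  unfold act
  refine ContinuousOn.div (by fun_prop) (by unfold J; fun_prop) fun w hw => J_ne g ?_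
  simpa using hw

/-- the difference of the two sides of `th_act` (divided by `2`) is a multiple of `2π` -/
theorem exp_diff {g : X} {f : ℝ ≃o ℝ} (h : IsLift g f) {w1 w2 : ℂ} (h1 : ‖w1‖ < 1)
    (h2 : ‖w2‖ < 1) :
    exp (((arg (1 - act g w1 * conj (act g w2)) - arg (1 - w1 * conj w2) + psi g f w1
      - psi g f w2 : ℝ) : ℂ) * I) = 1 := by
  have hs := one_sub g h1.le h2.le
  have hj1 := J_ne g h1.le
  have hj2 := J_ne g h2.le
  have hz : (1 - w1 * conj w2) ≠ 0 := by
    intro h0
    have := re_one_sub_pos h1 h2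
    rw [h0] at this
    simp at this
  have hp1 := psi_spec h h1.le
  have hp2 := psi_spec h h2.le
  set z := 1 - w1 * conj w2 with hzd
  set z' := 1 - act g w1 * conj (act g w2) with hzd'
  set j1 := J g w1
  set j2 := J g w2
  have hn1 : ((‖j1‖ : ℝ) : ℂ) ≠ 0 := by
    exact_mod_cast (norm_pos_iff.2 hj1).ne'
  have hn2 : ((‖j2‖ : ℝ) : ℂ) ≠ 0 := by
    exact_mod_cast (norm_pos_iff.2 hj2).ne'
  have hnz : ((‖z‖ : ℝ) : ℂ) ≠ 0 := by
    exact_mod_cast (norm_pos_iff.2 hz).ne'
  have hnorm : ‖z'‖ * (‖j1‖ * ‖j2‖) = ‖z‖ := by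
    rw [hs, norm_div, norm_mul, RCLike.norm_conj]
    field_simp
  have hcj2 : conj j2 = ‖j2‖ * exp (-(psi g f w2 : ℂ) * I) := by
    rw [hp2]
    rw [map_mul, ← Complex.exp_conj, map_mul, Complex.conj_I, Complex.conj_ofReal,
      Complex.conj_ofReal]
    simp only [norm_mul, Complex.norm_real, norm_norm]
    have : ‖exp (I * (psi g f w2 : ℂ))‖ = 1 := by
      rw [mul_comm, Complex.norm_exp_ofReal_mul_I]
    rw [this, mul_one]
    congr 2
    ring
  have hmul : z' * (j1 * conj j2) = z := by
    rw [hs]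
    have : conj j2 ≠ 0 := by
      simpa using hj2
    field_simp
  have hz1 := Complex.norm_mul_exp_arg_mul_I z
  have hz2 := Complex.norm_mul_exp_arg_mul_I z'
  have e1 : (‖z'‖ : ℂ) * exp (arg z' * I) * ((‖j1‖ : ℂ) * exp (I * psi g f w1)
      * ((‖j2‖ : ℂ) * exp (-(psi g f w2 : ℂ) * I))) = (‖z‖ : ℂ) * exp (arg z * I) := by
    rw [hz2, hz1, ← hcj2, ← hp1, hmul]
  have e2 : (‖z‖ : ℂ) * (exp (arg z' * I) * exp (I * psi g f w1) *
      exp (-(psi g f w2 : ℂ) * I)) = (‖z‖ : ℂ) * exp (arg z * I) := by
    rw [← e1, ← hnorm]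
    push_cast
    ring
  have e3 := mul_left_cancel₀ hnz e2
  have e4 : (((arg z' - arg z + psi g f w1 - psi g f w2 : ℝ) : ℂ) * I)
      = (arg z' : ℂ) * I + I * psi g f w1 + -(psi g f w2 : ℂ) * I - arg z * I := by
    push_cast
    ring
  rw [e4, Complex.exp_sub, Complex.exp_add, Complex.exp_add, e3]
  exact div_self (Complex.exp_ne_zero _)

theorem th_act {g : X} {f : ℝ ≃o ℝ} (h : IsLift g f) {w1 w2 : ℂ} (h1 : ‖w1‖ < 1)
    (h2 : ‖w2‖ < 1) :
    th (act g w1) (act g w2) = th w1 w2 - 2 * psi g f w1 + 2 * psi g f w2 := by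
  set D : ℂ → ℝ := fun w => arg (1 - act g w * conj (act g w2)) - arg (1 - w * conj w2)
    + psi g f w - psi g f w2 with hD
  have hsub : Metric.ball (0 : ℂ) 1 ⊆ Metric.closedBall (0 : ℂ) 1 := Metric.ball_subset_closedBall
  have hmem : ∀ w : ℂ, w ∈ Metric.ball (0 : ℂ) 1 ↔ ‖w‖ < 1 := by
    intro w
    simp
  have hc : ContinuousOn D (Metric.ball (0 : ℂ) 1) := by
    have c1 : ContinuousOn (fun w => arg (1 - act g w * conj (act g w2)))
        (Metric.ball (0 : ℂ) 1) := by
      intro w hw
      have hcw : ContinuousWithinAt (fun w => 1 - act g w * conj (act g w2))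
          (Metric.ball (0 : ℂ) 1) w := by
        have := ((continuousOn_act g).mono hsub) w hw
        exact continuousWithinAt_const.sub (this.mul continuousWithinAt_const)
      have hca : ContinuousAt arg (1 - act g w * conj (act g w2)) :=
        Complex.continuousAt_arg (Or.inl (re_one_sub_pos (norm_act_lt g ((hmem w).1 hw))
          (norm_act_lt g h2)))
      exact ContinuousAt.comp_continuousWithinAt
        (f := fun w => 1 - act g w * conj (act g w2)) hca hcw
    have c2 : ContinuousOn (fun w => arg (1 - w * conj w2)) (Metric.ball (0 : ℂ) 1) := by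
      intro w hw
      have hcw : ContinuousWithinAt (fun w : ℂ => 1 - w * conj w2)
          (Metric.ball (0 : ℂ) 1) w := by
        fun_prop
      have hca : ContinuousAt arg (1 - w * conj w2) :=
        Complex.continuousAt_arg (Or.inl (re_one_sub_pos ((hmem w).1 hw) h2))
      exact ContinuousAt.comp_continuousWithinAt
        (f := fun w : ℂ => 1 - w * conj w2) hca hcw
    have c3 := (continuousOn_psi g f).mono hsub
    exact ((c1.sub c2).add c3).sub continuousOn_const
  have hint : ∀ w ∈ Metric.ball (0 : ℂ) 1, ∃ k : ℤ, D w = k * (2 * Real.pi) := by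
    intro w hw
    have := exp_diff h ((hmem w).1 hw) h2
    rw [Complex.exp_eq_one_iff] at this
    obtain ⟨k, hk⟩ := this
    refine ⟨k, ?_⟩
    have h3 : ((D w : ℝ) : ℂ) * I = ((k * (2 * Real.pi) : ℝ) : ℂ) * I := by
      rw [hD]
      rw [hk]
      push_cast
      ring
    have h4 := mul_right_cancel₀ Complex.I_ne_zero h3
    exact_mod_cast h4
  have hD2 : D w2 = 0 := by
    have e1 : ∀ w : ℂ, ‖w‖ < 1 → arg (1 - w * conj w) = 0 := by
      intro w hw
      rw [Complex.mul_conj, Complex.normSq_eq_norm_sq]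
      have : (1 : ℂ) - ((‖w‖ ^ 2 : ℝ) : ℂ) = ((1 - ‖w‖ ^ 2 : ℝ) : ℂ) := by
        push_cast
        ring
      rw [this]
      apply Complex.arg_ofReal_of_nonneg
      nlinarith [norm_nonneg w]
    simp only [hD]
    rw [e1 _ (norm_act_lt g h2), e1 _ h2]
    ring
  have hD1 : D w1 = 0 := by
    by_contra hne
    have hconv : IsPreconnected (Metric.ball (0 : ℂ) 1) :=
      (convex_ball (0 : ℂ) 1).isPreconnected
    have himg : IsPreconnected (D '' Metric.ball (0 : ℂ) 1) := hconv.image D hc
    have hord := himg.ordConnected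
    have m1 : D w1 ∈ D '' Metric.ball (0 : ℂ) 1 := ⟨w1, (hmem w1).2 h1, rfl⟩
    have m2 : (0 : ℝ) ∈ D '' Metric.ball (0 : ℂ) 1 := ⟨w2, (hmem w2).2 h2, hD2⟩
    obtain ⟨k, hk⟩ := hint w1 ((hmem w1).2 h1)
    have hpi := Real.pi_pos
    have hno : ∀ x ∈ D '' Metric.ball (0 : ℂ) 1, x ≠ Real.pi ∧ x ≠ -Real.pi := by
      rintro x ⟨w, hw, rfl⟩
      obtain ⟨m, hm⟩ := hint w hw
      constructor
      · intro h0
        rw [hm] at h0
        have : (m : ℝ) * 2 = 1 := by
          have : ((m : ℝ) * 2) * Real.pi = 1 * Real.pi := by linarith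
          exact mul_right_cancel₀ hpi.ne' this
        have h5 : m * 2 = 1 := by exact_mod_cast this
        omega
      · intro h0
        rw [hm] at h0
        have : (m : ℝ) * 2 = -1 := by
          have : ((m : ℝ) * 2) * Real.pi = (-1) * Real.pi := by linarith
          exact mul_right_cancel₀ hpi.ne' this
        have h5 : m * 2 = -1 := by exact_mod_cast this
        omega
    have hk0 : k ≠ 0 := by
      rintro rfl
      apply hne
      rw [hk]
      simp
    rcases lt_or_gt_of_ne hk0 with hlt | hgt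
    · have hk1 : (k : ℝ) ≤ -1 := by exact_mod_cast (by omega : k ≤ -1)
      have hle : D w1 ≤ -Real.pi := by
        rw [hk]
        nlinarith
      exact (hno _ (hord.out m1 m2 ⟨hle, by linarith⟩)).2 rfl
    · have hk1 : (1 : ℝ) ≤ k := by exact_mod_cast (by omega : 1 ≤ k)
      have hle : Real.pi ≤ D w1 := by
        rw [hk]
        nlinarith
      exact (hno _ (hord.out m2 m1 ⟨hpi.le, hle⟩)).1 rfl
  have h5 : D w1 = arg (1 - act g w1 * conj (act g w2)) - arg (1 - w1 * conj w2)
      + psi g f w1 - psi g f w2 := rfl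
  rw [h5] at hD1
  unfold th
  linarith

theorem th_pt {g s : X} {f k : ℝ ≃o ℝ} (h : IsLift g f) (h' : IsLift s k) :
    th (pt g) (pt (g * s)) = 2 * (psi (g * s) (f * k) 0 - psi g f 0 - psi s k 0) := by
  have h0 : ‖(0 : ℂ)‖ < 1 := by simp
  have e1 : pt (g * s) = act g (pt s) := act_mul g s h0.le
  have e2 := th_act h h0 (norm_pt_lt s)
  have e3 := psi_mul h h' h0.le
  have e4 : th 0 (pt s) = 0 := by simp [th]
  have e5 : psi g f (act s 0) = psi g f (pt s) := rfl
  rw [e1]
  have e6 : th (pt g) (act g (pt s)) = th (act g 0) (act g (pt s)) := rfl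
  rw [e6, e2, e4, e3, e5]
  ring

theorem psi_one_zero : psi 1 1 0 = 0 := by
  have := psi_tr 0 0
  rw [tr_zero] at this
  simpa using this

theorem psum_th (P : List (X × (ℝ ≃o ℝ))) (hP : ∀ p ∈ P, IsLift p.1 p.2) :
    ∀ {g : X} {f : ℝ ≃o ℝ}, IsLift g f →
      psum (fun g h => th (pt g) (pt h)) g (P.map Prod.fst)
        = 2 * (psi (g * (P.map Prod.fst).prod) (f * (P.map Prod.snd).prod) 0 - psi g f 0
          - (P.map fun p => psi p.1 p.2 0).sum) := by
  induction P with
  | nil =>
    intro g f hg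
    simp [psum]
  | cons p P ih =>
    intro g f hg
    have hp : IsLift p.1 p.2 := hP p (by simp)
    have ih' := ih (fun q hq => hP q (by simp [hq])) (hg.mul hp)
    simp only [List.map_cons, List.prod_cons, List.sum_cons, psum]
    rw [ih', th_pt hg hp, mul_assoc, mul_assoc]
    ring

theorem T_eq {n : ℕ} {t : ℕ → X × X} {e : ℤ} (h : HasEuler n t e) (hc : cprod t n = 1) :
    psum (fun g h => th (pt g) (pt h)) 1 (letters n t) = 2 * Real.pi * e := by
  obtain ⟨l, hl, hle⟩ := h
  set P : List (X × (ℝ ≃o ℝ)) := (List.range n).flatMap fun i =>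
    [((t i).1, (l i).1), ((t i).2, (l i).2), ((t i).1⁻¹, (l i).1⁻¹), ((t i).2⁻¹, (l i).2⁻¹)]
    with hPdef
  have hP : ∀ p ∈ P, IsLift p.1 p.2 := by
    intro p hp
    simp only [hPdef, List.mem_flatMap, List.mem_range, List.mem_cons, List.not_mem_nil,
      or_false] at hp
    obtain ⟨i, -, hi⟩ := hp
    rcases hi with rfl | rfl | rfl | rfl
    · exact (hl i).1
    · exact (hl i).2
    · exact (hl i).1.inv
    · exact (hl i).2.inv
  have h1 : P.map Prod.fst = letters n t := by
    simp [hPdef, letters, List.map_flatMap]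
  have h2 : (P.map Prod.snd).prod = cprod l n := by
    have : ∀ m : ℕ, (((List.range m).flatMap fun i =>
        [((t i).1, (l i).1), ((t i).2, (l i).2), ((t i).1⁻¹, (l i).1⁻¹),
          ((t i).2⁻¹, (l i).2⁻¹)]).map Prod.snd).prod = cprod l m := by
      intro m
      induction m with
      | zero => simp
      | succ m ih =>
        rw [List.range_succ, List.flatMap_append, List.map_append, List.prod_append, ih,
          cprod_succ]
        simp [cm, mul_assoc]
    exact this n
  have h3 : (P.map fun p => psi p.1 p.2 0).sum = 0 := by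
    have : ∀ m : ℕ, (((List.range m).flatMap fun i =>
        [((t i).1, (l i).1), ((t i).2, (l i).2), ((t i).1⁻¹, (l i).1⁻¹),
          ((t i).2⁻¹, (l i).2⁻¹)]).map fun p : X × (ℝ ≃o ℝ) => psi p.1 p.2 0).sum = 0 := by
      intro m
      induction m with
      | zero => simp
      | succ m ih =>
        rw [List.range_succ, List.flatMap_append, List.map_append, List.sum_append, ih]
        simp [psi_inv_zero (hl m).1, psi_inv_zero (hl m).2]
    exact this n
  have h4 := psum_th P hP isLift_one
  rw [h1, h2, h3, hle, letters_prod, hc, one_mul, one_mul, psi_one_zero, psi_tr] at h4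
  rw [h4]
  ring

end Pool.Teich
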