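import Pool.Agent.Teich.Diag

/-!
# One-holed tori: explicit pairs with a given commutator

With `λ = lam r1`, `μ = lam m`, `κ = λ - 1/λ`, `β = sqrt (2 + μ + 1/μ) / κ`,
`A = diag (λ, 1/λ)`, `B = !![e^r2, -β; -β, (1 + β²) e^-r2]`, the commutator `C = A B A⁻¹ B⁻¹` is
`!![b11 b22 - λ² β², b11 β (1 - λ²); b22 β (1 - 1/λ²), b11 b22 - β²/λ²]`, of trace
`2 - β² κ² = -(μ + 1/μ)`, with positive lower left entry. So `C = w * Dneg m * w⁻¹`,
`w = frameX C m`, and all pairs conjugated by `u * Dexp r3 * w⁻¹` have commutator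
`u * Dneg m * u⁻¹`.

Continuity: continuity into `X` is continuity of the entries
(`Matrix.SpecialLinearGroup` has the subspace topology).
-/

namespace Pool.Teich

open Matrix Real

/-- `λ - 1/λ` -/
noncomputable def kap (r : ℝ) : ℝ := lam r - (lam r)⁻¹

lemma kap_pos (r : ℝ) : 0 < kap r := by
  have h := one_lt_lam r
  have h1 : (lam r)⁻¹ < 1 := inv_lt_one_of_one_lt₀ h
  unfold kap
  linarith

/-- off-diagonal entry -/
noncomputable def beta (m r : ℝ) : ℝ := Real.sqrt (2 + lam m + (lam m)⁻¹) / kap r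

lemma beta_pos (m r : ℝ) : 0 < beta m r := by
  have h := lam_pos m
  unfold beta
  exact div_pos (Real.sqrt_pos.2 (by positivity)) (kap_pos r)

/-- the first matrix in normal form -/
noncomputable def torA (r : ℝ) : X := Dpos r

/-- the second matrix in normal form -/
noncomputable def torB (m r1 r2 : ℝ) : X :=
  ⟨!![Real.exp r2, -beta m r1; -beta m r1, (1 + beta m r1 ^ 2) * Real.exp (-r2)], by
    rw [Matrix.det_fin_two_of]
    have h : Real.exp r2 * Real.exp (-r2) = 1 := by rw [← Real.exp_add]; simp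
    linear_combination (1 + beta m r1 ^ 2) * h⟩

/-- the commutator in normal form -/
noncomputable def torC (m r1 r2 : ℝ) : X := cm (torA r1) (torB m r1 r2)

namespace TorAux

lemma mulX (a b : X) : (a * b).1 = a.1 * b.1 := rfl

lemma invX (a : X) : (a⁻¹).1 = !![a.1 1 1, -a.1 0 1; -a.1 1 0, a.1 0 0] := by
  have h : (a⁻¹).1 = Matrix.adjugate a.1 := Matrix.SpecialLinearGroup.coe_inv a
  rw [h, Matrix.adjugate_fin_two]

lemma torA_val (r : ℝ) : (torA r).1 = !![lam r, 0; 0, (lam r)⁻¹] := rfl

lemma torB_val (m r1 r2 : ℝ) : (torB m r1 r2).1 = !![Real.exp r2, -beta m r1; -beta m r1,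
    (1 + beta m r1 ^ 2) * Real.exp (-r2)] := rfl

lemma beta_sq (m r : ℝ) : beta m r ^ 2 * kap r ^ 2 = 2 + lam m + (lam m)⁻¹ := by
  have h := lam_pos m
  have hk := (kap_pos r).ne'
  have h0 : 0 ≤ 2 + lam m + (lam m)⁻¹ := by positivity
  unfold beta
  rw [div_pow, Real.sq_sqrt h0]
  field_simp

lemma continuous_lam' {Y : Type*} [TopologicalSpace Y] {r : Y → ℝ} (hr : Continuous r) :
    Continuous fun y => lam (r y) := by
  unfold lam
  exact continuous_const.add (Real.continuous_exp.comp hr)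

lemma continuous_lam_inv {Y : Type*} [TopologicalSpace Y] {r : Y → ℝ} (hr : Continuous r) :
    Continuous fun y => (lam (r y))⁻¹ :=
  (continuous_lam' hr).inv₀ fun _ => (lam_pos _).ne'

lemma continuous_kap {Y : Type*} [TopologicalSpace Y] {r : Y → ℝ} (hr : Continuous r) :
    Continuous fun y => kap (r y) :=
  (continuous_lam' hr).sub (continuous_lam_inv hr)

lemma continuous_beta {Y : Type*} [TopologicalSpace Y] {m r : Y → ℝ} (hm : Continuous m)
    (hr : Continuous r) : Continuous fun y => beta (m y) (r y) := by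
  unfold beta
  exact (Real.continuous_sqrt.comp ((continuous_const.add (continuous_lam' hm)).add
    (continuous_lam_inv hm))).div (continuous_kap hr) fun _ => (kap_pos _).ne'

lemma continuous_torA {Y : Type*} [TopologicalSpace Y] {r : Y → ℝ} (hr : Continuous r) :
    Continuous fun y => torA (r y) := by
  apply continuous_induced_rng.2
  apply continuous_matrix
  intro i j
  fin_cases i <;> fin_cases j
  · exact continuous_lam' hr
  · exact continuous_const
  · exact continuous_const
  · exact continuous_lam_inv hr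

lemma continuous_torB {Y : Type*} [TopologicalSpace Y] {m r1 r2 : Y → ℝ} (hm : Continuous m)
    (h1 : Continuous r1) (h2 : Continuous r2) :
    Continuous fun y => torB (m y) (r1 y) (r2 y) := by
  have hb := continuous_beta hm h1
  apply continuous_induced_rng.2
  apply continuous_matrix
  intro i j
  fin_cases i <;> fin_cases j
  · exact Real.continuous_exp.comp h2
  · exact hb.neg
  · exact hb.neg
  · exact (continuous_const.add (hb.pow 2)).mul (Real.continuous_exp.comp h2.neg)

lemma continuous_torC {Y : Type*} [TopologicalSpace Y] {m r1 r2 : Y → ℝ} (hm : Continuous m)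
    (h1 : Continuous r1) (h2 : Continuous r2) :
    Continuous fun y => torC (m y) (r1 y) (r2 y) := by
  have hA := continuous_torA h1
  have hB := continuous_torB hm h1 h2
  unfold torC cm
  exact ((hA.mul hB).mul hA.inv).mul hB.inv

end TorAux

open TorAux

theorem torC_pos (m r1 r2 : ℝ) : 0 < (torC m r1 r2).1 1 0 := by
  have hl := one_lt_lam r1
  have hb := beta_pos m r1
  have h : (torC m r1 r2).1 1 0 =
      (1 + beta m r1 ^ 2) * Real.exp (-r2) * beta m r1 * (1 - (lam r1)⁻¹ ^ 2) := by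
    have hinv : lam r1 * (lam r1)⁻¹ = 1 := mul_inv_cancel₀ (lam_pos r1).ne'
    unfold torC cm
    simp only [mulX, invX, torA_val, torB_val, Matrix.mul_apply, Fin.sum_univ_two,
      Matrix.of_apply, Matrix.cons_val', Matrix.cons_val_zero, Matrix.cons_val_one,
      Matrix.cons_val_fin_one]
    linear_combination ((1 + beta m r1 ^ 2) * Real.exp (-r2) * beta m r1) * hinv
  rw [h]
  have h1 : (lam r1)⁻¹ < 1 := inv_lt_one_of_one_lt₀ hl
  have h0 : 0 < (lam r1)⁻¹ := inv_pos.2 (lam_pos r1)
  have h2 : 0 < 1 - (lam r1)⁻¹ ^ 2 := by nlinarith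
  have h3 := Real.exp_pos (-r2)
  positivity

theorem tce_torC (m r1 r2 : ℝ) : tce (torC m r1 r2) = -(lam m + (lam m)⁻¹) := by
  have hinv : lam r1 * (lam r1)⁻¹ = 1 := mul_inv_cancel₀ (lam_pos r1).ne'
  have hexp : Real.exp r2 * Real.exp (-r2) = 1 := by rw [← Real.exp_add]; simp
  have hb := beta_sq m r1
  unfold kap at hb
  unfold tce torC cm
  simp only [mulX, invX, torA_val, torB_val, Matrix.mul_apply, Fin.sum_univ_two,
    Matrix.of_apply, Matrix.cons_val', Matrix.cons_val_zero, Matrix.cons_val_one,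
    Matrix.cons_val_fin_one]
  generalize (lam r1)⁻¹ = k at hinv hb ⊢
  generalize lam r1 = l at hinv hb ⊢
  generalize beta m r1 = b at hb ⊢
  generalize Real.exp r2 = e at hexp ⊢
  generalize Real.exp (-r2) = f at hexp ⊢
  linear_combination (-1 : ℝ) * hb + (2 * (1 + b ^ 2) * (l * k)) * hexp +
    (2 * (1 + b ^ 2) - 2 * b ^ 2) * hinv

/-- conjugating matrix -/
noncomputable def torV (u : X) (m r1 r2 r3 : ℝ) : X :=
  u * Dexp r3 * (frameX (torC m r1 r2) m)⁻¹

/-- the pair -/
noncomputable def torus (u : X) (m r1 r2 r3 : ℝ) : X × X :=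
  (torV u m r1 r2 r3 * torA r1 * (torV u m r1 r2 r3)⁻¹,
    torV u m r1 r2 r3 * torB m r1 r2 * (torV u m r1 r2 r3)⁻¹)

theorem cm_torus (u : X) (m r1 r2 r3 : ℝ) :
    cm (torus u m r1 r2 r3).1 (torus u m r1 r2 r3).2 = u * Dneg m * u⁻¹ := by
  obtain ⟨w, hw⟩ : ∃ w : X, w = frameX (torC m r1 r2) m := ⟨_, rfl⟩
  have hC : torC m r1 r2 = w * Dneg m * w⁻¹ := by
    rw [hw]
    exact frameX_spec _ _ (torC_pos m r1 r2).ne' (tce_torC m r1 r2)
  have h1 : cm (torus u m r1 r2 r3).1 (torus u m r1 r2 r3).2 =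
      torV u m r1 r2 r3 * torC m r1 r2 * (torV u m r1 r2 r3)⁻¹ := by
    unfold torus torC cm
    group
  have hcomm : Dexp r3 * Dneg m = Dneg m * Dexp r3 := by
    apply Subtype.ext
    rw [mulX, mulX]
    unfold Dexp Dneg
    ext i j
    fin_cases i <;> fin_cases j <;> simp [Matrix.mul_apply, mul_comm]
  rw [h1, hC, torV, ← hw]
  calc u * Dexp r3 * w⁻¹ * (w * Dneg m * w⁻¹) * (u * Dexp r3 * w⁻¹)⁻¹ =
      u * (Dexp r3 * Dneg m) * (Dexp r3)⁻¹ * u⁻¹ := by group
    _ = u * Dneg m * u⁻¹ := by rw [hcomm]; group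

theorem continuous_torus {Y : Type*} [TopologicalSpace Y] {u : Y → X} {m r1 r2 r3 : Y → ℝ}
    (hu : Continuous u) (hm : Continuous m) (h1 : Continuous r1) (h2 : Continuous r2)
    (h3 : Continuous r3) : Continuous fun y => torus (u y) (m y) (r1 y) (r2 y) (r3 y) := by
  have hC := continuous_torC hm h1 h2
  have hF : Continuous fun y => frameX (torC (m y) (r1 y) (r2 y)) (m y) :=
    continuous_frameX hC hm fun y => (torC_pos (m y) (r1 y) (r2 y)).ne'
  have hV : Continuous fun y => torV (u y) (m y) (r1 y) (r2 y) (r3 y) := by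
    unfold torV
    exact (hu.mul (continuous_Dexp.comp h3)).mul hF.inv
  have hA := continuous_torA h1
  have hB := continuous_torB hm h1 h2
  unfold torus
  exact ((hV.mul hA).mul hV.inv).prodMk ((hV.mul hB).mul hV.inv)

end Pool.Teich
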