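import Pool.Agent.Teich.Wv
import Pool.Agent.Teich.FD

/-!
# Unfolding

PROOF. `integral_zero`: `W` integrable, zero outside the compact set `K`, with
`Σ_γ W (φ γ • y) = 0` for almost every `y`. Put `N y = #{γ | φ γ • y ∈ K}` (finite by properness of
`φ` and of the action: `{x : X | x • y ∈ K}` is compact, `UpperHalfPlane.isProperMap_smul_I`;
`N (φ γ • y) = N y`, `N ≥ 1` on `K`, measurable: `N y = Σ_γ 1_K (φ γ • y)` countable sum,
`prp_countable`) and `χ y = 1_K y / N y`, so `Σ_γ χ (φ γ • y) = 1` for `y ∈ K`. Then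
`∫ W = ∫ W(y) Σ_γ χ (φ γ • y) = Σ_γ ∫ W(y) χ (φ γ • y) = Σ_γ ∫ W (φ γ⁻¹ • y) χ y
 = ∫ χ y Σ_γ W (φ γ • y) = 0`; the exchanges are justified by `Σ_γ ∫ |W(y)| χ (φ γ • y) = ∫ |W| < ∞`
(`Γ` is countable, `integral_tsum` or `hasSum_integral_of_summable_integral_norm`; the measure on
`ℍ` is invariant: `SMulInvariantMeasure`, `measurePreserving_smul`).
-/

namespace Pool.Teich

open Complex ComplexConjugate UpperHalfPlane MeasureTheory
open scoped MatrixGroups

variable {Γ : Type*} [Group Γ]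

namespace UnfA

lemma mp_smul (g : SL(2, ℝ)) :
    MeasurePreserving (fun y : ℍ => g • y) (volume : Measure ℍ) volume :=
  measurePreserving_smul (g : GL (Fin 2) ℝ) (volume : Measure ℍ)

lemma me_smul (g : SL(2, ℝ)) : MeasurableEmbedding (fun y : ℍ => g • y) :=
  (Homeomorph.smul g).measurableEmbedding

open scoped Pointwise in
lemma fin_set {φ : Γ →* X} (hφ : Prp φ) {K : Set ℍ} (hK : IsCompact K) :
    {γ : Γ | ∃ y ∈ K, (φ γ : SL(2, ℝ)) • y ∈ K}.Finite := by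
  have h := ProperSMul.isCompact_setOfPred_inter_nonempty (G := SL(2, ℝ)) hK hK
  refine (hφ _ h).subset ?_
  rintro γ ⟨y, hy, hy'⟩
  exact ⟨_, Set.smul_mem_smul_set hy, hy'⟩

end UnfA

open UnfA

theorem integral_zero {φ : Γ →* X} (hφ : Prp φ) {W : ℍ → ℝ} (hm : Measurable W)
    (hW : Integrable W) {K : Set ℍ} (hK : IsCompact K) (h0 : ∀ y ∉ K, W y = 0)
    (hs : ∀ᵐ y : ℍ, ∑ᶠ γ : Γ, W ((φ γ : SL(2, ℝ)) • y) = 0) : ∫ y, W y = 0 := by
  classical
  have hfin := fin_set hφ hK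
  set F : Finset Γ := hfin.toFinset with hF
  have memF : ∀ γ : Γ, γ ∈ F ↔ ∃ y ∈ K, (φ γ : SL(2, ℝ)) • y ∈ K := by
    intro γ
    rw [hF, Set.Finite.mem_toFinset]
    rfl
  have hKm : MeasurableSet K := hK.measurableSet
  set ι : ℍ → ℝ := K.indicator (fun _ => 1) with hι
  have hιm : Measurable ι := measurable_const.indicator hKm
  have hι0 : ∀ y, 0 ≤ ι y := fun y => Set.indicator_nonneg (fun _ _ => zero_le_one) y
  have hι1 : ∀ y ∈ K, ι y = 1 := fun y hy => Set.indicator_of_mem hy _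
  have hιn : ∀ y ∉ K, ι y = 0 := fun y hy => Set.indicator_of_notMem hy _
  set N : ℍ → ℝ := fun y => ∑ γ ∈ F, ι ((φ γ : SL(2, ℝ)) • y) with hN
  have hNm : Measurable N := by
    refine Finset.measurable_sum _ (fun γ _ => ?_)
    exact hιm.comp (mp_smul (φ γ)).measurable
  have hNf : ∀ y ∈ K, N y = ∑ᶠ γ : Γ, ι ((φ γ : SL(2, ℝ)) • y) := by
    intro y hy
    rw [finsum_eq_sum_of_support_subset]
    intro γ hγ
    rw [Function.mem_support] at hγ
    rw [Finset.mem_coe, memF]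
    refine ⟨y, hy, ?_⟩
    by_contra h
    exact hγ (hιn _ h)
  have hN1 : ∀ y ∈ K, 1 ≤ N y := by
    intro y hy
    have h1 : (1 : Γ) ∈ F := by
      rw [memF]
      exact ⟨y, hy, by rw [map_one, one_smul]; exact hy⟩
    calc (1 : ℝ) = ι ((φ 1 : SL(2, ℝ)) • y) := by rw [map_one, one_smul, hι1 y hy]
      _ ≤ N y := Finset.single_le_sum (f := fun γ => ι ((φ γ : SL(2, ℝ)) • y))
          (fun γ _ => hι0 _) h1
  have hNinv : ∀ y ∈ K, ∀ γ : Γ, (φ γ : SL(2, ℝ)) • y ∈ K → N ((φ γ : SL(2, ℝ)) • y) = N y := by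
    intro y hy γ hγ
    rw [hNf _ hγ, hNf _ hy, ← finsum_comp_equiv (Equiv.mulRight γ)
      (f := fun γ' : Γ => ι ((φ γ' : SL(2, ℝ)) • y))]
    refine finsum_congr fun γ' => ?_
    rw [Equiv.coe_mulRight, map_mul, mul_smul]
  set χ : ℍ → ℝ := K.indicator (fun y => (N y)⁻¹) with hχ
  have hχm : Measurable χ := hNm.inv.indicator hKm
  have hχ1 : ∀ y ∈ K, χ y = (N y)⁻¹ := fun y hy => Set.indicator_of_mem hy _
  have hχn : ∀ y ∉ K, χ y = 0 := fun y hy => Set.indicator_of_notMem hy _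
  have hχb : ∀ y, ‖χ y‖ ≤ 1 := by
    intro y
    by_cases hy : y ∈ K
    · rw [hχ1 y hy, norm_inv, Real.norm_eq_abs, abs_of_pos (by linarith [hN1 y hy])]
      exact inv_le_one_of_one_le₀ (hN1 y hy)
    · rw [hχn y hy]; simp
  have hsum : ∀ y ∈ K, ∑ γ ∈ F, χ ((φ γ : SL(2, ℝ)) • y) = 1 := by
    intro y hy
    have h1 : ∀ γ ∈ F, χ ((φ γ : SL(2, ℝ)) • y) = ι ((φ γ : SL(2, ℝ)) • y) * (N y)⁻¹ := by
      intro γ _
      by_cases h : (φ γ : SL(2, ℝ)) • y ∈ K
      · rw [hχ1 _ h, hι1 _ h, hNinv y hy γ h, one_mul]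
      · rw [hχn _ h, hιn _ h, zero_mul]
    rw [Finset.sum_congr rfl h1, ← Finset.sum_mul]
    exact mul_inv_cancel₀ (by have := hN1 y hy; positivity)
  have hI1 : ∀ γ : Γ, Integrable (fun y : ℍ => W y * χ ((φ γ : SL(2, ℝ)) • y)) := by
    intro γ
    exact hW.mul_bdd (c := 1) (hχm.comp (mp_smul (φ γ)).measurable).aestronglyMeasurable
      (Filter.Eventually.of_forall fun y => hχb _)
  have hI2 : ∀ γ : Γ, Integrable (fun y : ℍ => W ((φ γ : SL(2, ℝ))⁻¹ • y) * χ y) := by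
    intro γ
    have h1 : Integrable (fun y : ℍ => W ((φ γ : SL(2, ℝ))⁻¹ • y)) :=
      (mp_smul (φ γ)⁻¹).integrable_comp_of_integrable hW
    exact h1.mul_bdd (c := 1) hχm.aestronglyMeasurable
      (Filter.Eventually.of_forall fun y => hχb _)
  have e1 : ∀ y, W y = ∑ γ ∈ F, W y * χ ((φ γ : SL(2, ℝ)) • y) := by
    intro y
    rw [← Finset.mul_sum]
    by_cases hy : y ∈ K
    · rw [hsum y hy, mul_one]
    · rw [h0 y hy, zero_mul]
  have e2 : ∀ γ : Γ, ∫ y, W y * χ ((φ γ : SL(2, ℝ)) • y)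
      = ∫ y, W ((φ γ : SL(2, ℝ))⁻¹ • y) * χ y := by
    intro γ
    have := (mp_smul (φ γ)).integral_comp (me_smul (φ γ))
      (fun y : ℍ => W ((φ γ : SL(2, ℝ))⁻¹ • y) * χ y)
    rw [← this]
    simp only [inv_smul_smul]
  calc ∫ y, W y = ∫ y, ∑ γ ∈ F, W y * χ ((φ γ : SL(2, ℝ)) • y) := by
        refine integral_congr_ae (Filter.Eventually.of_forall fun y => ?_)
        exact e1 y
    _ = ∑ γ ∈ F, ∫ y, W y * χ ((φ γ : SL(2, ℝ)) • y) := integral_finsetSum _ fun γ _ => hI1 γ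
    _ = ∑ γ ∈ F, ∫ y, W ((φ γ : SL(2, ℝ))⁻¹ • y) * χ y := Finset.sum_congr rfl fun γ _ => e2 γ
    _ = ∫ y, ∑ γ ∈ F, W ((φ γ : SL(2, ℝ))⁻¹ • y) * χ y :=
        (integral_finsetSum _ fun γ _ => hI2 γ).symm
    _ = 0 := by
        refine integral_eq_zero_of_ae ?_
        filter_upwards [hs] with y hy
        rw [← Finset.sum_mul]
        by_cases hyK : y ∈ K
        · have h3 : ∑ γ ∈ F, W ((φ γ : SL(2, ℝ))⁻¹ • y) = 0 := by
            rw [← hy, ← finsum_comp_equiv (Equiv.inv Γ)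
              (f := fun γ : Γ => W ((φ γ : SL(2, ℝ)) • y)), finsum_eq_sum_of_support_subset]
            · refine Finset.sum_congr rfl fun γ _ => ?_
              rw [Equiv.inv_apply, map_inv]
            · intro γ hγ
              rw [Function.mem_support, Equiv.inv_apply, map_inv] at hγ
              rw [Finset.mem_coe, memF]
              refine ⟨(φ γ : SL(2, ℝ))⁻¹ • y, ?_, ?_⟩
              · by_contra h
                exact hγ (h0 _ h)
              · rw [smul_inv_smul]; exact hyK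
          rw [h3, zero_mul]; rfl
        · rw [hχn y hyK, mul_zero]; rfl

end Pool.Teich
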