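import Pool.Agent.Teich.DegL
import Pool.Agent.Teich.LocC
import Pool.Agent.Teich.Unf0

/-!
# Cocompactness from a closed polygon of non-zero area

PROOFS. `deg_const`: `deg_local` and `const_of_local`.
`coc_of_wind`: let `k` be the constant of `deg_const`. If `k = 0` then
`∫ wind m p = 0` by `integral_zero` (`wind_zero` gives the compact set, e.g. a closed ball), contrary
to `integral_wind`. So `k ≠ 0`, and for almost every `y` some `φ γ • y` lies in the compact ball `K`
outside of which `wind = 0`. The set `⋃_γ (φ γ)⁻¹ • K` is closed (locally finite family of compact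
sets, by properness) and has full measure, so it is `ℍ` (`eq_univ_of_closed`).
Let `K' = {x : X | x • i ∈ K}`, compact (`UpperHalfPlane.isProperMap_smul_I`). For `x : X` there is
`γ` with `φ γ • (x • i) ∈ K`, so `φ γ * x ∈ K'`, `x = φ γ⁻¹ * k`: `coc_of_compact`.
-/

namespace Pool.Teich

open Complex ComplexConjugate UpperHalfPlane MeasureTheory
open scoped MatrixGroups

variable {Γ : Type*} [Group Γ]

theorem deg_const {φ : Γ →* X} (hφ : Prp φ) {m : ℕ} {w : ℕ → Γ} {σ : ℕ → ℕ}
    (hw : Paired m w σ) : ∃ k : ℤ, ∀ᵐ y : ℍ, dsum φ m w y = k :=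
  const_of_local fun y₀ => deg_local hφ hw y₀

theorem coc_of_wind {φ : Γ →* X} (hφ : Prp φ) {m : ℕ} {w : ℕ → Γ} {σ : ℕ → ℕ}
    (hw : Paired m w σ)
    (h : ∑ j ∈ Finset.range m, Th (bp (φ (w j))) (bp (φ (w (j + 1)))) ≠ 0) : Coc φ := by
  obtain ⟨k, hk⟩ := deg_const hφ hw
  set p : ℕ → ℍ := fun j => bp (φ (w j)) with hpdef
  have hp : p m = p 0 := by
    rw [hpdef]
    simp only [hw.closed]
  -- a ball outside of which the winding number vanishes
  obtain ⟨R, hR⟩ : ∃ R : ℝ, ∀ j ≤ m, dist (p j) UpperHalfPlane.I ≤ R := by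
    refine ⟨∑ j ∈ Finset.range (m + 1), dist (p j) UpperHalfPlane.I, fun j hj => ?_⟩
    exact Finset.single_le_sum (f := fun j => dist (p j) UpperHalfPlane.I)
      (fun i _ => dist_nonneg) (Finset.mem_range.2 (Nat.lt_succ_of_le hj))
  set K : Set ℍ := Metric.closedBall UpperHalfPlane.I R with hKdef
  have hK : IsCompact K := isCompact_closedBall _ _
  have hout : ∀ y ∉ K, wind m p y = 0 := by
    intro y hy
    apply wind_zero hp (o := UpperHalfPlane.I)
    intro j hj
    rw [hKdef, Metric.mem_closedBall, not_le] at hy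
    exact (hR j hj).trans_lt hy
  have hint := integral_wind hp
  have hk0 : k ≠ 0 := by
    rintro rfl
    apply h
    have h1 : ∀ᵐ y : ℍ, ∑ᶠ γ : Γ, wind m p ((φ γ : SL(2, ℝ)) • y) = 0 := by
      filter_upwards [hk] with y hy
      rw [Int.cast_zero] at hy
      exact hy
    have h2 := integral_zero hφ (measurable_wind m p) (integrable_wind hp) hK hout h1
    rw [hint] at h2
    exact h2
  -- translates of `K` cover
  have hcov : (⋃ γ : Γ, {y : ℍ | (φ γ : SL(2, ℝ)) • y ∈ K}) = Set.univ := by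
    apply eq_univ_of_closed
    · apply LocallyFinite.isClosed_iUnion
      · intro y₀
        refine ⟨Metric.ball y₀ 1, Metric.ball_mem_nhds _ one_pos, ?_⟩
        refine (dist_finite hφ UpperHalfPlane.I y₀ (1 + R)).subset ?_
        rintro γ ⟨y, hy1, hy2⟩
        rw [Metric.mem_ball] at hy2
        have hy3 : dist ((φ γ : SL(2, ℝ)) • y) UpperHalfPlane.I ≤ R := hy1
        have h1 : dist ((φ γ : SL(2, ℝ)) • y₀) ((φ γ : SL(2, ℝ)) • y) = dist y₀ y := dist_smul _ _ _
        have h2 := dist_triangle ((φ γ : SL(2, ℝ)) • y₀) ((φ γ : SL(2, ℝ)) • y) UpperHalfPlane.I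
        rw [dist_comm] at hy2
        change dist ((φ γ : SL(2, ℝ)) • y₀) UpperHalfPlane.I ≤ 1 + R
        linarith
      · intro γ
        exact Metric.isClosed_closedBall.preimage (continuous_const_smul (φ γ : SL(2, ℝ)))
    · filter_upwards [hk] with y hy
      have h1 : ∑ᶠ γ : Γ, wind m p ((φ γ : SL(2, ℝ)) • y) ≠ 0 := by
        change dsum φ m w y ≠ 0
        rw [hy]
        exact_mod_cast hk0
      obtain ⟨γ, hγ⟩ : ∃ γ : Γ, wind m p ((φ γ : SL(2, ℝ)) • y) ≠ 0 := by
        by_contra hc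
        push Not at hc
        apply h1
        rw [finsum_congr hc, finsum_zero]
      rw [Set.mem_iUnion]
      refine ⟨γ, ?_⟩
      by_contra hc
      exact hγ (hout _ hc)
  have hK' : IsCompact {x : X | (x : SL(2, ℝ)) • UpperHalfPlane.I ∈ K} :=
    UpperHalfPlane.isProperMap_smul_I.isCompact_preimage hK
  refine coc_of_compact hK' fun x => ?_
  have hx : (x : SL(2, ℝ)) • UpperHalfPlane.I ∈ ⋃ γ : Γ, {y : ℍ | (φ γ : SL(2, ℝ)) • y ∈ K} := by
    rw [hcov]
    trivial
  rw [Set.mem_iUnion] at hx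
  obtain ⟨γ, hγ⟩ := hx
  refine ⟨γ⁻¹, φ γ * x, ?_, ?_⟩
  · change ((φ γ * x : X) : SL(2, ℝ)) • UpperHalfPlane.I ∈ K
    rw [mul_smul]
    exact hγ
  · rw [map_inv, inv_mul_cancel_left]

end Pool.Teich
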