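import Pool.Agent.Teich.ArcInt
import Pool.Agent.Teich.Null

/-!
# Winding numbers of closed geodesic polygons

`wind m p y = (1/2π) Σ_{j<m} ang y (p j) (p (j+1))` for a closed polygon (`p m = p 0`).

PROOFS. For almost every `y` all `iota_eq` hold (`ae_gen`, `ae_re_ne`, finitely many conditions);
the terms `arg (wv y (p (j+1))) - arg (wv y (p j))` telescope to `0`, so
`wind m p y = Σ iota (p j) (p (j+1)) y`, which is an integer, integrable, with integral
`Σ Th (p j) (p (j+1))` (`integral_iota`).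
`wind_zero`: if `dist (p j) o < dist y o` for all `j ≤ m` then by `re_pos` the numbers
`z_j = wv y (p j) * conj (wv y o)` have positive real part, so
`ang y (p j) (p (j+1)) = arg (z_{j+1}/z_j) = arg z_{j+1} - arg z_j` and the sum telescopes.
-/

namespace Pool.Teich

open Complex ComplexConjugate UpperHalfPlane MeasureTheory
open scoped MatrixGroups

/-- winding number of a closed polygon around `y` -/
noncomputable def wind (m : ℕ) (p : ℕ → ℍ) (y : ℍ) : ℝ :=
  (∑ j ∈ Finset.range m, ang y (p j) (p (j + 1))) / (2 * Real.pi)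

theorem measurable_wind (m : ℕ) (p : ℕ → ℍ) : Measurable (wind m p) := by
  unfold wind
  exact (Finset.measurable_sum _ fun j _ => measurable_ang (p j) (p (j + 1))).div_const _

/-- almost everywhere the winding number is a sum of indicator functions -/
theorem wind_ae_eq {m : ℕ} {p : ℕ → ℍ} (h : p m = p 0) :
    wind m p =ᵐ[volume] fun y => ∑ j ∈ Finset.range m, iota (p j) (p (j + 1)) y := by
  have h1 : ∀ᵐ y : ℍ, ∀ j, Gen y (p j) (p (j + 1)) := ae_all_iff.2 fun j => ae_gen _ _
  have h2 : ∀ᵐ y : ℍ, ∀ j, y.re ≠ (p j).re := ae_all_iff.2 fun j => ae_re_ne _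
  filter_upwards [h1, h2] with y hy1 hy2
  have h3 : ∀ j, 2 * Real.pi * iota (p j) (p (j + 1)) y =
      ang y (p j) (p (j + 1)) - (arg (wv y (p (j + 1))) - arg (wv y (p j))) := by
    intro j
    rw [iota_eq (hy1 j) (hy2 j) (hy2 (j + 1))]
    ring
  have h4 : 2 * Real.pi * ∑ j ∈ Finset.range m, iota (p j) (p (j + 1)) y =
      ∑ j ∈ Finset.range m, ang y (p j) (p (j + 1)) := by
    rw [Finset.mul_sum, Finset.sum_congr rfl fun j _ => h3 j, Finset.sum_sub_distrib,
      Finset.sum_range_sub (fun j => arg (wv y (p j))), h]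
    ring
  have hpi : (2 * Real.pi) ≠ 0 := by
    have := Real.pi_pos
    positivity
  rw [wind, ← h4, mul_div_cancel_left₀ _ hpi]

theorem iota_isInt (a b y : ℍ) : ∃ k : ℤ, iota a b y = k := by
  unfold iota
  split_ifs
  · exact ⟨1, by norm_num⟩
  · exact ⟨-1, by norm_num⟩
  · exact ⟨0, by norm_num⟩

theorem wind_ae_int {m : ℕ} {p : ℕ → ℍ} (h : p m = p 0) :
    ∀ᵐ y : ℍ, ∃ k : ℤ, wind m p y = k := by
  filter_upwards [wind_ae_eq h] with y hy
  choose k hk using fun j => iota_isInt (p j) (p (j + 1)) y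
  refine ⟨∑ j ∈ Finset.range m, k j, ?_⟩
  rw [hy]
  push_cast
  exact Finset.sum_congr rfl fun j _ => hk j

theorem integrable_wind {m : ℕ} {p : ℕ → ℍ} (h : p m = p 0) : Integrable (wind m p) := by
  refine Integrable.congr ?_ (wind_ae_eq h).symm
  exact integrable_finset_sum _ fun j _ => integrable_iota (p j) (p (j + 1))

theorem integral_wind {m : ℕ} {p : ℕ → ℍ} (h : p m = p 0) :
    ∫ y, wind m p y = ∑ j ∈ Finset.range m, Th (p j) (p (j + 1)) := by
  rw [integral_congr_ae (wind_ae_eq h),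
    integral_finset_sum _ fun j _ => integrable_iota (p j) (p (j + 1))]
  exact Finset.sum_congr rfl fun j _ => integral_iota (p j) (p (j + 1))

/-- arguments in the right half plane are additive -/
theorem arg_div_of_re_pos {z w : ℂ} (hz : 0 < z.re) (hw : 0 < w.re) :
    arg (z / w) = arg z - arg w := by
  have hz0 : z ≠ 0 := by
    rintro rfl
    simp at hz
  have hw0 : w ≠ 0 := by
    rintro rfl
    simp at hw
  have h1 : |arg z| < Real.pi / 2 := abs_arg_lt_pi_div_two_iff.2 (Or.inl hz)
  have h2 : |arg w| < Real.pi / 2 := abs_arg_lt_pi_div_two_iff.2 (Or.inl hw)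
  have hpi := Real.pi_pos
  rw [abs_lt] at h1 h2
  have h3 : arg w⁻¹ = - arg w := by
    rw [arg_inv, if_neg (by linarith)]
  have h4 : arg z + arg w⁻¹ ∈ Set.Ioc (-Real.pi) Real.pi := by
    rw [h3]
    constructor <;> linarith
  rw [div_eq_mul_inv, (arg_mul_eq_add_arg_iff hz0 (inv_ne_zero hw0)).2 h4, h3]
  ring

theorem wind_zero {m : ℕ} {p : ℕ → ℍ} (h : p m = p 0) {y o : ℍ}
    (hy : ∀ j ≤ m, dist (p j) o < dist y o) : wind m p y = 0 := by
  set c : ℂ := conj (wv y o) with hc
  have hre : ∀ j ≤ m, 0 < (wv y (p j) * c).re := fun j hj => re_pos (hy j hj)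
  have hc0 : c ≠ 0 := by
    intro h0
    have h1 := hre 0 (Nat.zero_le _)
    rw [h0, mul_zero] at h1
    simp at h1
  have h1 : ∀ j ∈ Finset.range m, ang y (p j) (p (j + 1)) =
      arg (wv y (p (j + 1)) * c) - arg (wv y (p j) * c) := by
    intro j hj
    rw [Finset.mem_range] at hj
    rw [← arg_div_of_re_pos (hre (j + 1) hj) (hre j hj.le), ang, mul_div_mul_right _ _ hc0]
  rw [wind, Finset.sum_congr rfl h1, Finset.sum_range_sub (fun j => arg (wv y (p j) * c)), h,
    sub_self, zero_div]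

theorem wind_smul (g : X) (m : ℕ) (p : ℕ → ℍ) (y : ℍ) :
    wind m (fun j => (g : SL(2, ℝ)) • p j) ((g : SL(2, ℝ)) • y) = wind m p y := by
  unfold wind
  congr 1
  exact Finset.sum_congr rfl fun j _ => ang_smul g y (p j) (p (j + 1))

end Pool.Teich
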