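import Pool.Agent.Teich.Area

/-!
# Angles at a point of the upper half plane

`wv y a = (a - y)/(a - conj y)`: the point `a` seen from `y` in the disk model centred at `y`.
`ang y a b = arg (wv y b / wv y a)`: the angle at `y` from `a` to `b`. `Gen y a b`: `y` is not on the
closed geodesic segment `[a, b]`.

PROOFS. `wv_smul`: `g•a - g•y = (a - y)/(j(a) j(y))` and `g•a - conj (g•y) = (a - conj y)/(j(a) conj j(y))`
with `j(z) = denom g z`; so `wv (g•y) (g•a) = ε wv y a` with `ε = conj j(y) / j(y)`.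
`ang_swap`: `arg (z⁻¹) = - arg z` unless `arg z = π`. Continuity: `arg` is continuous on the slit
plane. `cosh_dist`: `cosh (dist a b) = 1 + |a - b|²/(2 Im a Im b)` (`UpperHalfPlane.cosh_dist`) and
direct computation; for `a = y` it gives `cosh (dist y b) = (1 + |w|²)/(1 - |w|²)`.
`dist_le_of_not_gen`: if `wv y b / wv y a` is a negative real number then
`Re (wa conj wb) = -|wa| |wb|`, so with `s = |wa|`, `t = |wb|`:
`cosh (dist a b) = ((1+s²)(1+t²) + 4 s t)/((1-s²)(1-t²)) ≥ (1+s²)/(1-s²) = cosh (dist y a)`;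
`cosh` is increasing on `[0, ∞)`. The cases `y = a`, `y = b` are trivial.
`re_pos`: if `Re (wa conj wo) ≤ 0` then `cosh (dist a o) ≥ (1+s²)(1+t²)/((1-s²)(1-t²)) ≥
cosh (dist y o)`, contradiction to `dist a o < dist y o`.
-/

namespace Pool.Teich

open Complex ComplexConjugate UpperHalfPlane
open scoped MatrixGroups

/-- `a` seen from `y` -/
noncomputable def wv (y a : ℍ) : ℂ := ((a : ℂ) - y) / ((a : ℂ) - conj (y : ℂ))

/-- the angle at `y` from `a` to `b` -/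
noncomputable def ang (y a b : ℍ) : ℝ := arg (wv y b / wv y a)

/-- `y` is not on the closed segment from `a` to `b` -/
def Gen (y a b : ℍ) : Prop := y ≠ a ∧ y ≠ b ∧ wv y b / wv y a ∈ slitPlane

theorem wv_den_im (y a : ℍ) : ((a : ℂ) - conj (y : ℂ)).im = a.im + y.im := by
  simp

theorem wv_den_ne (y a : ℍ) : (a : ℂ) - conj (y : ℂ) ≠ 0 := by
  intro h
  have h1 := congrArg Complex.im h
  rw [wv_den_im, Complex.zero_im] at h1
  have h2 := a.im_pos
  have h3 := y.im_pos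
  linarith

/-- the square of the euclidean distance of `a` and `conj y` -/
noncomputable def wvD (y a : ℍ) : ℝ := (a.re - y.re) ^ 2 + (a.im + y.im) ^ 2

theorem wvD_pos (y a : ℍ) : 0 < wvD y a := by
  have h2 := a.im_pos
  have h3 := y.im_pos
  unfold wvD
  positivity

theorem wv_re (y a : ℍ) :
    (wv y a).re = ((a.re - y.re) ^ 2 + a.im ^ 2 - y.im ^ 2) / wvD y a := by
  have h := (wvD_pos y a).ne'
  rw [wv, Complex.div_re]
  have hn : Complex.normSq ((a : ℂ) - conj (y : ℂ)) = wvD y a := by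
    rw [Complex.normSq_apply]
    simp [wvD]
    ring
  rw [hn]
  simp
  field_simp
  ring

theorem wv_im (y a : ℍ) : (wv y a).im = -(2 * y.im * (a.re - y.re)) / wvD y a := by
  have h := (wvD_pos y a).ne'
  rw [wv, Complex.div_im]
  have hn : Complex.normSq ((a : ℂ) - conj (y : ℂ)) = wvD y a := by
    rw [Complex.normSq_apply]
    simp [wvD]
    ring
  rw [hn]
  simp
  field_simp
  ring

theorem wv_normSq (y a : ℍ) :
    ‖wv y a‖ ^ 2 = ((a.re - y.re) ^ 2 + (a.im - y.im) ^ 2) / wvD y a := by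
  have h := (wvD_pos y a).ne'
  rw [← Complex.normSq_eq_norm_sq, Complex.normSq_apply, wv_re, wv_im]
  unfold wvD at h ⊢
  field_simp
  ring

theorem wv_one_sub (y a : ℍ) : 1 - ‖wv y a‖ ^ 2 = 4 * a.im * y.im / wvD y a := by
  have h := (wvD_pos y a).ne'
  rw [wv_normSq]
  unfold wvD at h ⊢
  field_simp
  ring

theorem wv_ne {y a : ℍ} (h : y ≠ a) : wv y a ≠ 0 := by
  unfold wv
  apply div_ne_zero
  · intro h1
    apply h
    apply UpperHalfPlane.ext
    exact (sub_eq_zero.1 h1).symm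
  · exact wv_den_ne y a

@[simp] theorem wv_self (y : ℍ) : wv y y = 0 := by
  simp [wv]

theorem norm_wv_lt (y a : ℍ) : ‖wv y a‖ < 1 := by
  have h1 : 0 < 1 - ‖wv y a‖ ^ 2 := by
    rw [wv_one_sub]
    have h2 := a.im_pos
    have h3 := y.im_pos
    have h4 := wvD_pos y a
    positivity
  have h2 : ‖wv y a‖ ^ 2 < 1 := by linarith
  have h3 := norm_nonneg (wv y a)
  nlinarith

theorem wv_smul (g : X) (y : ℍ) : ∃ ε : ℂ, ‖ε‖ = 1 ∧ ∀ a : ℍ,
    wv ((g : SL(2, ℝ)) • y) ((g : SL(2, ℝ)) • a) = ε * wv y a := by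
  have hj : ∀ z : ℍ, ((g.1 1 0 : ℝ) : ℂ) * (z : ℂ) + ((g.1 1 1 : ℝ) : ℂ) ≠ 0 := by
    intro z h0
    have him := congrArg Complex.im h0
    have hre := congrArg Complex.re h0
    simp at him hre
    have hz := z.im_ne_zero
    rcases him with h1 | h1
    · rw [h1] at hre
      have hdet := g.2
      rw [Matrix.det_fin_two] at hdet
      rw [h1] at hdet
      simp at hre
      rw [hre] at hdet
      simp at hdet
    · exact hz h1
  have hdet : ((g.1 0 0 : ℝ) : ℂ) * ((g.1 1 1 : ℝ) : ℂ) - ((g.1 0 1 : ℝ) : ℂ) * ((g.1 1 0 : ℝ) : ℂ) = 1 := by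
    have h := g.2
    rw [Matrix.det_fin_two] at h
    exact_mod_cast h
  have hjc : ∀ z : ℍ, ((g.1 1 0 : ℝ) : ℂ) * conj (z : ℂ) + ((g.1 1 1 : ℝ) : ℂ) ≠ 0 := by
    intro z h0
    apply hj z
    have h1 := congrArg conj h0
    rw [map_add, map_mul, Complex.conj_conj, Complex.conj_ofReal, Complex.conj_ofReal, map_zero] at h1
    exact h1
  refine ⟨(((g.1 1 0 : ℝ) : ℂ) * conj (y : ℂ) + ((g.1 1 1 : ℝ) : ℂ)) /
    (((g.1 1 0 : ℝ) : ℂ) * (y : ℂ) + ((g.1 1 1 : ℝ) : ℂ)), ?_, ?_⟩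
  · rw [norm_div, div_eq_one_iff_eq (norm_ne_zero_iff.2 (hj y))]
    rw [← Complex.norm_conj]
    congr 1
    rw [map_add, map_mul, Complex.conj_conj, Complex.conj_ofReal, Complex.conj_ofReal]
  · intro a
    have e1 : ∀ z : ℍ, (((g : SL(2, ℝ)) • z : ℍ) : ℂ) =
        (((g.1 0 0 : ℝ) : ℂ) * z + ((g.1 0 1 : ℝ) : ℂ)) /
          (((g.1 1 0 : ℝ) : ℂ) * z + ((g.1 1 1 : ℝ) : ℂ)) := by
      intro z
      exact UpperHalfPlane.coe_specialLinearGroup_apply g z
    have e2 : conj (((g : SL(2, ℝ)) • y : ℍ) : ℂ) =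
        (((g.1 0 0 : ℝ) : ℂ) * conj (y : ℂ) + ((g.1 0 1 : ℝ) : ℂ)) /
          (((g.1 1 0 : ℝ) : ℂ) * conj (y : ℂ) + ((g.1 1 1 : ℝ) : ℂ)) := by
      rw [e1, map_div₀, map_add, map_add, map_mul, map_mul, Complex.conj_ofReal, Complex.conj_ofReal,
        Complex.conj_ofReal, Complex.conj_ofReal]
    have hja := hj a
    have hjy := hj y
    have hjcy := hjc y
    have hd := wv_den_ne y a
    have e3 : (((g : SL(2, ℝ)) • a : ℍ) : ℂ) - (((g : SL(2, ℝ)) • y : ℍ) : ℂ) =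
        ((a : ℂ) - y) / ((((g.1 1 0 : ℝ) : ℂ) * a + ((g.1 1 1 : ℝ) : ℂ)) *
          (((g.1 1 0 : ℝ) : ℂ) * y + ((g.1 1 1 : ℝ) : ℂ))) := by
      rw [e1, e1, div_sub_div _ _ hja hjy]
      congr 1
      linear_combination ((a : ℂ) - y) * hdet
    have e4 : (((g : SL(2, ℝ)) • a : ℍ) : ℂ) - conj (((g : SL(2, ℝ)) • y : ℍ) : ℂ) =
        ((a : ℂ) - conj (y : ℂ)) / ((((g.1 1 0 : ℝ) : ℂ) * a + ((g.1 1 1 : ℝ) : ℂ)) *
          (((g.1 1 0 : ℝ) : ℂ) * conj (y : ℂ) + ((g.1 1 1 : ℝ) : ℂ))) := by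
      rw [e1, e2, div_sub_div _ _ hja hjcy]
      congr 1
      linear_combination ((a : ℂ) - conj (y : ℂ)) * hdet
    unfold wv
    rw [e3, e4]
    generalize (a : ℂ) - conj (y : ℂ) = D at hd ⊢
    generalize (a : ℂ) - (y : ℂ) = N
    generalize ((g.1 1 0 : ℝ) : ℂ) * (a : ℂ) + ((g.1 1 1 : ℝ) : ℂ) = ja at hja ⊢
    generalize ((g.1 1 0 : ℝ) : ℂ) * (y : ℂ) + ((g.1 1 1 : ℝ) : ℂ) = jy at hjy ⊢
    generalize ((g.1 1 0 : ℝ) : ℂ) * conj (y : ℂ) + ((g.1 1 1 : ℝ) : ℂ) = jc at hjcy ⊢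
    field_simp

theorem wv_ratio_smul (g : X) (y a b : ℍ) :
    wv ((g : SL(2, ℝ)) • y) ((g : SL(2, ℝ)) • b) / wv ((g : SL(2, ℝ)) • y) ((g : SL(2, ℝ)) • a) =
      wv y b / wv y a := by
  obtain ⟨ε, h1, h2⟩ := wv_smul g y
  have h3 : ε ≠ 0 := by
    intro h
    rw [h, norm_zero] at h1
    exact zero_ne_one h1
  rw [h2, h2, mul_div_mul_left _ _ h3]

theorem ang_smul (g : X) (y a b : ℍ) :
    ang ((g : SL(2, ℝ)) • y) ((g : SL(2, ℝ)) • a) ((g : SL(2, ℝ)) • b) = ang y a b := by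
  unfold ang
  rw [wv_ratio_smul]

theorem gen_smul (g : X) (y a b : ℍ) :
    Gen ((g : SL(2, ℝ)) • y) ((g : SL(2, ℝ)) • a) ((g : SL(2, ℝ)) • b) ↔ Gen y a b := by
  unfold Gen
  rw [wv_ratio_smul]
  have h : ∀ u v : ℍ, (g : SL(2, ℝ)) • u ≠ (g : SL(2, ℝ)) • v ↔ u ≠ v := fun u v =>
    (MulAction.injective g).ne_iff
  rw [h, h]

theorem inv_slit {z : ℂ} (h : z ∈ slitPlane) : z⁻¹ ∈ slitPlane := by
  have h0 : z ≠ 0 := slitPlane_ne_zero h
  rw [mem_slitPlane_iff] at h ⊢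
  have h1 : 0 < Complex.normSq z := Complex.normSq_pos.2 h0
  rw [Complex.inv_re, Complex.inv_im]
  rcases h with h | h
  · left
    positivity
  · right
    exact div_ne_zero (neg_ne_zero.2 h) h1.ne'

theorem gen_swap {y a b : ℍ} (h : Gen y a b) : Gen y b a := by
  obtain ⟨h1, h2, h3⟩ := h
  refine ⟨h2, h1, ?_⟩
  rw [← inv_div]
  exact inv_slit h3

theorem ang_swap {y a b : ℍ} (h : Gen y a b) : ang y b a = - ang y a b := by
  unfold ang
  rw [← inv_div, Complex.arg_inv, if_neg]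
  intro h1
  exact (mem_slitPlane_iff_arg.1 h.2.2).1 h1

theorem continuous_wv (a : ℍ) : Continuous fun y => wv y a := by
  unfold wv
  apply Continuous.div
  · exact continuous_const.sub UpperHalfPlane.continuous_coe
  · exact continuous_const.sub (Complex.continuous_conj.comp UpperHalfPlane.continuous_coe)
  · intro y
    exact wv_den_ne y a

theorem continuousAt_ratio {y a b : ℍ} (h : y ≠ a) : ContinuousAt (fun z => wv z b / wv z a) y :=
  (continuous_wv b).continuousAt.div (continuous_wv a).continuousAt (wv_ne h)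

theorem continuousAt_ang {y a b : ℍ} (h : Gen y a b) : ContinuousAt (fun z => ang z a b) y := by
  unfold ang
  exact (Complex.continuousAt_arg h.2.2).comp (f := fun z => wv z b / wv z a)
    (continuousAt_ratio h.1)

theorem isOpen_gen (a b : ℍ) : IsOpen {y | Gen y a b} := by
  rw [isOpen_iff_mem_nhds]
  intro y hy
  obtain ⟨h1, h2, h3⟩ := hy
  have e1 : ∀ᶠ z in nhds y, z ≠ a := isOpen_ne.mem_nhds h1
  have e2 : ∀ᶠ z in nhds y, z ≠ b := isOpen_ne.mem_nhds h2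
  have e3 : ∀ᶠ z in nhds y, wv z b / wv z a ∈ slitPlane :=
    (continuousAt_ratio (b := b) h1) (isOpen_slitPlane.mem_nhds h3)
  filter_upwards [e1, e2, e3] with z k1 k2 k3
  exact ⟨k1, k2, k3⟩

theorem measurable_ang (a b : ℍ) : Measurable fun y => ang y a b := by
  unfold ang
  exact Complex.measurable_arg.comp
    ((continuous_wv b).measurable.div (continuous_wv a).measurable)

theorem re_mul_conj_wv (y a b : ℍ) : (wv y a * conj (wv y b)).re =
    (wv y a).re * (wv y b).re + (wv y a).im * (wv y b).im := by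
  simp

theorem cosh_dist_wv (y a b : ℍ) : Real.cosh (dist a b) =
    ((1 + ‖wv y a‖ ^ 2) * (1 + ‖wv y b‖ ^ 2) - 4 * (wv y a * conj (wv y b)).re) /
      ((1 - ‖wv y a‖ ^ 2) * (1 - ‖wv y b‖ ^ 2)) := by
  have ha := (wvD_pos y a).ne'
  have hb := (wvD_pos y b).ne'
  have h1 := a.im_pos.ne'
  have h2 := b.im_pos.ne'
  have h3 := y.im_pos.ne'
  have hd : dist (a : ℂ) b ^ 2 = (a.re - b.re) ^ 2 + (a.im - b.im) ^ 2 := by
    rw [Complex.dist_eq, ← Complex.normSq_eq_norm_sq, Complex.normSq_apply]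
    simp
    ring
  rw [UpperHalfPlane.cosh_dist, hd, wv_one_sub, wv_one_sub, wv_normSq, wv_normSq, re_mul_conj_wv,
    wv_re, wv_re, wv_im, wv_im]
  field_simp
  unfold wvD
  ring

theorem cosh_dist_wv' (y a : ℍ) : Real.cosh (dist y a) =
    (1 + ‖wv y a‖ ^ 2) / (1 - ‖wv y a‖ ^ 2) := by
  rw [cosh_dist_wv y y a]
  simp

theorem wv_one_sub_pos (y a : ℍ) : 0 < 1 - ‖wv y a‖ ^ 2 := by
  have h1 := norm_wv_lt y a
  have h2 := norm_nonneg (wv y a)
  nlinarith

theorem dist_le_of_not_gen {y a b : ℍ} (h : ¬ Gen y a b) : dist y a ≤ dist a b := by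
  by_cases hya : y = a
  · rw [hya, dist_self]
    exact dist_nonneg
  by_cases hyb : y = b
  · rw [hyb, dist_comm]
  have h3 : wv y b / wv y a ∉ slitPlane := fun h3 => h ⟨hya, hyb, h3⟩
  have hcosh : Real.cosh (dist y a) ≤ Real.cosh (dist a b) := by
    rw [cosh_dist_wv' y a, cosh_dist_wv y a b]
    have hs := wv_one_sub_pos y a
    have ht := wv_one_sub_pos y b
    have hwa := wv_ne hya
    -- the real part is nonpositive
    have hre : (wv y a * conj (wv y b)).re ≤ 0 := by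
      rw [mem_slitPlane_iff] at h3
      push Not at h3
      obtain ⟨h4, h5⟩ := h3
      have h6 : wv y b = (wv y b / wv y a) * wv y a := by field_simp
      set ρ : ℂ := wv y b / wv y a with hρ
      have h7 : ρ = ((ρ.re : ℝ) : ℂ) := by
        apply Complex.ext
        · simp
        · simp [h5]
      rw [h6, h7, map_mul, Complex.conj_ofReal]
      have h8 : wv y a * (((ρ.re : ℝ) : ℂ) * conj (wv y a)) =
          (((ρ.re * Complex.normSq (wv y a) : ℝ)) : ℂ) := by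
        rw [Complex.ofReal_mul, ← Complex.mul_conj]
        ring
      rw [h8, Complex.ofReal_re]
      exact mul_nonpos_of_nonpos_of_nonneg h4 (Complex.normSq_nonneg _)
    have h9 := norm_nonneg (wv y a)
    have h10 := norm_nonneg (wv y b)
    rw [div_le_div_iff₀ hs (mul_pos hs ht)]
    have h11 : (1 + ‖wv y a‖ ^ 2) * ((1 - ‖wv y a‖ ^ 2) * (1 - ‖wv y b‖ ^ 2)) ≤
        ((1 + ‖wv y a‖ ^ 2) * (1 + ‖wv y b‖ ^ 2)) * (1 - ‖wv y a‖ ^ 2) := by
      have h12 : 0 ≤ (1 + ‖wv y a‖ ^ 2) * (1 - ‖wv y a‖ ^ 2) * ‖wv y b‖ ^ 2 := by positivity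
      nlinarith
    have h13 : 0 ≤ -(wv y a * conj (wv y b)).re * (1 - ‖wv y a‖ ^ 2) :=
      mul_nonneg (by linarith) hs.le
    nlinarith
  rw [Real.cosh_le_cosh, abs_of_nonneg dist_nonneg, abs_of_nonneg dist_nonneg] at hcosh
  exact hcosh

theorem re_pos {y a o : ℍ} (h : dist a o < dist y o) :
    0 < (wv y a * conj (wv y o)).re := by
  by_contra hre
  push Not at hre
  have hcosh : Real.cosh (dist y o) ≤ Real.cosh (dist a o) := by
    rw [cosh_dist_wv' y o, cosh_dist_wv y a o]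
    have hs := wv_one_sub_pos y a
    have ht := wv_one_sub_pos y o
    have h9 := norm_nonneg (wv y a)
    have h10 := norm_nonneg (wv y o)
    rw [div_le_div_iff₀ ht (mul_pos hs ht)]
    have h11 : (1 + ‖wv y o‖ ^ 2) * ((1 - ‖wv y a‖ ^ 2) * (1 - ‖wv y o‖ ^ 2)) ≤
        ((1 + ‖wv y a‖ ^ 2) * (1 + ‖wv y o‖ ^ 2)) * (1 - ‖wv y o‖ ^ 2) := by
      have h12 : 0 ≤ (1 + ‖wv y o‖ ^ 2) * (1 - ‖wv y o‖ ^ 2) * ‖wv y a‖ ^ 2 := by positivity
      nlinarith
    have h13 : 0 ≤ -(wv y a * conj (wv y o)).re * (1 - ‖wv y o‖ ^ 2) :=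
      mul_nonneg (by linarith) ht.le
    nlinarith
  rw [Real.cosh_le_cosh, abs_of_nonneg dist_nonneg, abs_of_nonneg dist_nonneg] at hcosh
  linarith

end Pool.Teich
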