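import Pool.Agent.Teich.Diag

/-!
# The Zassenhaus neighbourhood

PROOFS. Algebra of 2 by 2 matrices of determinant 1. `lin_of_comm`: if `g` is not scalar then every
matrix commuting with `g` is `α + β g`. `eq_or_inv_of_comm`: `g : X` with `tce g ≠ 2, -2` (so not
scalar), `x : X` commuting with `g`, `tce x = tce g`: `x = α + β g`, `2 α + β t = t`
(`t = tce g`) and `1 = det x = α² + α β t + β²`, so `(1 - β²)(t²/4 - 1) = 0` (put
`α = t (1 - β)/2`), `β = ± 1`, `x = g` or `x = t - g = g⁻¹`.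
`comm_of_comm`: two elements commuting with the same non-scalar `g` commute.
`tce_zero_of_swap`: if `h * g = g⁻¹ * h` and `g` is not scalar then `tce h = 0`: `g⁻¹ = t - g`, so
`h g + g h = t h`; the trace gives `2 tr (g h) = t tr h`, Cayley-Hamilton (polarised) gives
`g h + h g = t h + (tr h) g + (tr (g h) - t tr h)`, so `(tr h) g` is scalar.

`zass`: `U = {g | |g i j - δ i j| ≤ δ₀ for all i, j}`, `δ₀ = 1/128`. For `g, h ∈ U`:
`g h g⁻¹ h⁻¹ - 1 = ((g - 1)(h - 1) - (h - 1)(g - 1)) g⁻¹ h⁻¹`, so in the maximum norm of entries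
(`|A B| ≤ 2 |A| |B|`, entries of `g⁻¹, h⁻¹` at most `2` in absolute value, of `g⁻¹ h⁻¹` at most `8`)
`|[g, h] - 1| ≤ 2 * (4 * δ₀ * |h - 1|) * 8 ≤ |h - 1| / 2`. Let `h_0 = h`, `h_{k+1} = [g, h_k]`: all
are in `U` and in `H`, and `h_k → 1`, so `h_n ∈ W`, `h_n = 1` for some `n`. Claim: if `h_{k+1}`
commutes with `g` then `h_k` commutes with `g`; so `h` commutes with `g` by descending induction
(for `g = 1` there is nothing to do; for `g ≠ 1` we have `tce g ≠ 2` by hypothesis and `tce g` is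
near `2`, so `g` is not scalar). Proof of the claim: `y = h_k g⁻¹ h_k⁻¹ = g⁻¹ h_{k+1}` commutes with
`g` and `tce y = tce g⁻¹ = tce g`, so `y = g` or `y = g⁻¹`. If `y = g⁻¹` then `h_k` commutes with
`g⁻¹`, hence with `g`. If `y = g` then `h_k g⁻¹ = g h_k`, `h_k g = g⁻¹ h_k`, so `tce h_k = 0` by
`tce_zero_of_swap`, impossible in `U`.
-/

namespace Pool.Teich

open Matrix Real Filter Topology

lemma za_det (g : X) : g.1 0 0 * g.1 1 1 - g.1 0 1 * g.1 1 0 = 1 := by
  have h := g.2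
  rwa [Matrix.det_fin_two] at h

lemma za_mul (g h : X) (i j : Fin 2) :
    (g * h).1 i j = g.1 i 0 * h.1 0 j + g.1 i 1 * h.1 1 j := by
  change (g.1 * h.1) i j = _
  rw [Matrix.mul_apply, Fin.sum_univ_two]

lemma za_inv (g : X) : g⁻¹.1 0 0 = g.1 1 1 ∧ g⁻¹.1 0 1 = -g.1 0 1 ∧ g⁻¹.1 1 0 = -g.1 1 0 ∧
    g⁻¹.1 1 1 = g.1 0 0 := by
  rw [Matrix.SpecialLinearGroup.SL2_inv_expl]
  exact ⟨rfl, rfl, rfl, rfl⟩

lemma za_ext {g h : X} (h00 : g.1 0 0 = h.1 0 0) (h01 : g.1 0 1 = h.1 0 1)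
    (h10 : g.1 1 0 = h.1 1 0) (h11 : g.1 1 1 = h.1 1 1) : g = h := by
  apply Subtype.ext
  ext i j
  fin_cases i <;> fin_cases j
  · exact h00
  · exact h01
  · exact h10
  · exact h11

theorem tce_inv (g : X) : tce g⁻¹ = tce g := by
  obtain ⟨h0, -, -, h1⟩ := za_inv g
  rw [tce, tce, h0, h1, add_comm]

/-- not a scalar matrix -/
def NS (g : X) : Prop := g.1 0 1 ≠ 0 ∨ g.1 1 0 ≠ 0 ∨ g.1 0 0 ≠ g.1 1 1

theorem ns_of_tce {g : X} (h : tce g ≠ 2) (h' : tce g ≠ -2) : NS g := by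
  by_contra hn
  unfold NS at hn
  push Not at hn
  obtain ⟨h1, h2, h3⟩ := hn
  have hd := za_det g
  rw [h1, h2, h3] at hd
  have h4 : (g.1 1 1 - 1) * (g.1 1 1 + 1) = 0 := by linear_combination hd
  rcases mul_eq_zero.1 h4 with h5 | h5
  · apply h
    rw [tce, h3]
    linarith
  · apply h'
    rw [tce, h3]
    linarith

lemma za_comm {x g : X} (h : x * g = g * x) : x.1 0 1 * g.1 1 0 = g.1 0 1 * x.1 1 0 ∧
    g.1 0 1 * (x.1 0 0 - x.1 1 1) = x.1 0 1 * (g.1 0 0 - g.1 1 1) ∧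
    x.1 1 0 * (g.1 0 0 - g.1 1 1) = g.1 1 0 * (x.1 0 0 - x.1 1 1) := by
  have h00 := congrArg (fun z : X => z.1 0 0) h
  have h01 := congrArg (fun z : X => z.1 0 1) h
  have h10 := congrArg (fun z : X => z.1 1 0) h
  simp only [za_mul] at h00 h01 h10
  refine ⟨?_, ?_, ?_⟩
  · linear_combination h00
  · linear_combination h01
  · linear_combination h10

lemma za_comm' {x g : X} (h0 : x.1 0 1 * g.1 1 0 = g.1 0 1 * x.1 1 0)
    (h1 : g.1 0 1 * (x.1 0 0 - x.1 1 1) = x.1 0 1 * (g.1 0 0 - g.1 1 1))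
    (h2 : x.1 1 0 * (g.1 0 0 - g.1 1 1) = g.1 1 0 * (x.1 0 0 - x.1 1 1)) : x * g = g * x := by
  apply za_ext
  · rw [za_mul, za_mul]
    linear_combination h0
  · rw [za_mul, za_mul]
    linear_combination h1
  · rw [za_mul, za_mul]
    linear_combination h2
  · rw [za_mul, za_mul]
    linear_combination -h0

/-- proportional vectors -/
lemma za_par {b c e q r s q' r' s' : ℝ} (hn : b ≠ 0 ∨ c ≠ 0 ∨ e ≠ 0)
    (h1 : q * c = b * r) (h2 : b * s = q * e) (h3 : r * e = c * s)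
    (h1' : q' * c = b * r') (h2' : b * s' = q' * e) (h3' : r' * e = c * s') :
    q * r' = q' * r ∧ q' * s = q * s' ∧ r * s' = r' * s := by
  rcases hn with h | h | h
  · refine ⟨?_, ?_, ?_⟩
    · apply mul_left_cancel₀ h
      linear_combination (-q) * h1' + q' * h1
    · apply mul_left_cancel₀ h
      linear_combination q' * h2 - q * h2'
    · apply mul_left_cancel₀ (mul_ne_zero h h)
      linear_combination (b * r) * h2' - (b * r') * h2 - q' * e * h1 + q * e * h1'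
  · refine ⟨?_, ?_, ?_⟩
    · apply mul_left_cancel₀ h
      linear_combination (r') * h1 - r * h1'
    · apply mul_left_cancel₀ (mul_ne_zero h h)
      linear_combination (-(c * q')) * h3 + (c * q) * h3' + r * e * h1' - r' * e * h1
    · apply mul_left_cancel₀ h
      linear_combination (-r) * h3' + r' * h3
  · refine ⟨?_, ?_, ?_⟩
    · apply mul_left_cancel₀ (mul_ne_zero h h)
      linear_combination (-(e * r')) * h2 + (e * r) * h2' + b * s * h3' - b * s' * h3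
    · apply mul_left_cancel₀ h
      linear_combination (-s) * h2' + s' * h2
    · apply mul_left_cancel₀ h
      linear_combination s' * h3 - s * h3'

theorem comm_of_comm {g x y : X} (hg : NS g) (hx : x * g = g * x) (hy : y * g = g * y) :
    x * y = y * x := by
  obtain ⟨a1, a2, a3⟩ := za_comm hx
  obtain ⟨b1, b2, b3⟩ := za_comm hy
  have hn : g.1 0 1 ≠ 0 ∨ g.1 1 0 ≠ 0 ∨ g.1 0 0 - g.1 1 1 ≠ 0 := by
    rcases hg with h | h | h
    · exact Or.inl h
    · exact Or.inr (Or.inl h)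
    · exact Or.inr (Or.inr (sub_ne_zero.2 h))
  obtain ⟨c1, c2, c3⟩ := za_par hn a1 a2 a3 b1 b2 b3
  apply za_comm' c1 c2
  linear_combination c3

theorem eq_or_inv_of_comm {g x : X} (h : tce g ≠ 2) (h' : tce g ≠ -2) (hx : x * g = g * x)
    (ht : tce x = tce g) : x = g ∨ x = g⁻¹ := by
  have hns := ns_of_tce h h'
  obtain ⟨a1, a2, a3⟩ := za_comm hx
  have hdg := za_det g
  have hdx := za_det x
  have hβ : ∃ β : ℝ, x.1 0 1 = β * g.1 0 1 ∧ x.1 1 0 = β * g.1 1 0 ∧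
      x.1 0 0 - x.1 1 1 = β * (g.1 0 0 - g.1 1 1) := by
    rcases hns with h0 | h0 | h0
    · refine ⟨x.1 0 1 / g.1 0 1, ?_, ?_, ?_⟩
      · field_simp
      · field_simp
        linear_combination -a1
      · field_simp
        linear_combination a2
    · refine ⟨x.1 1 0 / g.1 1 0, ?_, ?_, ?_⟩
      · field_simp
        linear_combination a1
      · field_simp
      · field_simp
        linear_combination -a3
    · have h1 : g.1 0 0 - g.1 1 1 ≠ 0 := sub_ne_zero.2 h0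
      refine ⟨(x.1 0 0 - x.1 1 1) / (g.1 0 0 - g.1 1 1), ?_, ?_, ?_⟩
      · field_simp
        linear_combination -a2
      · field_simp
        linear_combination a3
      · field_simp
  obtain ⟨β, b1, b2, b3⟩ := hβ
  unfold tce at h h' ht
  have h4 : (g.1 0 0 + g.1 1 1) ^ 2 - 4 ≠ 0 := by
    intro h5
    have h6 : (g.1 0 0 + g.1 1 1 - 2) * (g.1 0 0 + g.1 1 1 + 2) = 0 := by linear_combination h5
    rcases mul_eq_zero.1 h6 with h7 | h7
    · exact h (by linarith)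
    · exact h' (by linarith)
  have h5 : ((g.1 0 0 + g.1 1 1) ^ 2 - 4) * ((β - 1) * (β + 1)) = 0 := by
    have e1 : (x.1 0 0 + x.1 1 1) ^ 2 - (x.1 0 0 - x.1 1 1) ^ 2 = 4 * (1 + x.1 0 1 * x.1 1 0) := by
      linear_combination 4 * hdx
    rw [ht, b1, b2, b3] at e1
    linear_combination (-1 : ℝ) * e1 + (4 * β ^ 2) * hdg
  rcases mul_eq_zero.1 h5 with h6 | h6
  · exact absurd h6 h4
  rcases mul_eq_zero.1 h6 with h7 | h7
  · left
    have h8 : β = 1 := by linarith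
    rw [h8] at b1 b2 b3
    apply za_ext
    · linarith
    · linarith
    · linarith
    · linarith
  · right
    have h8 : β = -1 := by linarith
    rw [h8] at b1 b2 b3
    obtain ⟨i0, i1, i2, i3⟩ := za_inv g
    apply za_ext
    · rw [i0]
      linarith
    · rw [i1]
      linarith
    · rw [i2]
      linarith
    · rw [i3]
      linarith

theorem tce_zero_of_swap {g h : X} (hg : NS g) (hx : h * g = g⁻¹ * h) : tce h = 0 := by
  obtain ⟨i0, i1, i2, i3⟩ := za_inv g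
  have h00 := congrArg (fun z : X => z.1 0 0) hx
  have h01 := congrArg (fun z : X => z.1 0 1) hx
  have h10 := congrArg (fun z : X => z.1 1 0) hx
  have h11 := congrArg (fun z : X => z.1 1 1) hx
  simp only [za_mul, i0, i1, i2, i3] at h00 h01 h10 h11
  rw [tce]
  rcases hg with h0 | h0 | h0
  · apply mul_left_cancel₀ h0
    linear_combination h01
  · apply mul_left_cancel₀ h0
    linear_combination h10
  · apply mul_left_cancel₀ (sub_ne_zero.2 h0)
    linear_combination h00 - h11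

/-- distance to the identity -/
def Cl (m : ℝ) (g : X) : Prop :=
  |g.1 0 0 - 1| ≤ m ∧ |g.1 0 1| ≤ m ∧ |g.1 1 0| ≤ m ∧ |g.1 1 1 - 1| ≤ m

lemma za_ab {a b x y : ℝ} (ha : |a| ≤ x) (hb : |b| ≤ y) : |a * b| ≤ x * y := by
  rw [abs_mul]
  exact mul_le_mul ha hb (abs_nonneg _) ((abs_nonneg _).trans ha)

lemma za_sum {a b x y : ℝ} (ha : |a| ≤ x) (hb : |b| ≤ y) : |a + b| ≤ x + y :=
  (abs_add_le _ _).trans (add_le_add ha hb)

lemma za_sub {a b x y : ℝ} (ha : |a| ≤ x) (hb : |b| ≤ y) : |a - b| ≤ x + y :=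
  (abs_sub _ _).trans (add_le_add ha hb)

lemma za_step {g h : X} {m : ℝ} (hg : Cl (1 / 128) g) (hh : Cl (1 / 128) h) (hm : Cl m h) :
    Cl (m / 2) (g * h * g⁻¹ * h⁻¹) := by
  obtain ⟨g0, g1, g2, g3⟩ := hg
  obtain ⟨u0, u1, u2, u3⟩ := hh
  obtain ⟨m0, m1, m2, m3⟩ := hm
  obtain ⟨i0, i1, i2, i3⟩ := za_inv g
  obtain ⟨j0, j1, j2, j3⟩ := za_inv h
  have hdg := za_det g
  have hdh := za_det h
  -- the commutator of the differences
  have c00 := za_sub (za_ab g1 m2) (za_ab m1 g2)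
  have c01 := za_sub (za_sum (za_ab g0 m1) (za_ab g1 m3)) (za_sum (za_ab m0 g1) (za_ab m1 g3))
  have c10 := za_sub (za_sum (za_ab g2 m0) (za_ab g3 m2)) (za_sum (za_ab m2 g0) (za_ab m3 g2))
  have c11 := za_sub (za_ab g2 m1) (za_ab m2 g1)
  have hm0 : 0 ≤ m := (abs_nonneg _).trans m0
  have one_bd : ∀ {a : ℝ}, |a - 1| ≤ 1 / 128 → |a| ≤ 2 := by
    intro a ha
    rw [abs_le] at ha ⊢
    constructor <;> linarith [ha.1, ha.2]
  have two_bd : ∀ {a : ℝ}, |a| ≤ 1 / 128 → |a| ≤ 2 := fun ha => ha.trans (by norm_num)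
  have G0 := one_bd g0
  have G1 := two_bd g1
  have G2 := two_bd g2
  have G3 := one_bd g3
  have H0 := one_bd u0
  have H1 := two_bd u1
  have H2 := two_bd u2
  have H3 := one_bd u3
  -- the product of the inverses
  have d00 := za_sum (za_ab G3 H3) (za_ab G1 H2)
  have d01 := za_sum (za_ab G3 H1) (za_ab G1 H0)
  have d10 := za_sum (za_ab G2 H3) (za_ab G0 H2)
  have d11 := za_sum (za_ab G2 H1) (za_ab G0 H0)
  have k00 : (g * h * g⁻¹ * h⁻¹).1 0 0 - 1 =
      (g.1 0 1 * h.1 1 0 - h.1 0 1 * g.1 1 0) *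
        (g.1 1 1 * h.1 1 1 + g.1 0 1 * h.1 1 0) -
      ((g.1 0 0 - 1) * h.1 0 1 + g.1 0 1 * (h.1 1 1 - 1) -
        ((h.1 0 0 - 1) * g.1 0 1 + h.1 0 1 * (g.1 1 1 - 1))) *
        (g.1 1 0 * h.1 1 1 + g.1 0 0 * h.1 1 0) := by
    simp only [za_mul, i0, i1, i2, i3, j0, j1, j2, j3]
    linear_combination (h.1 0 0 * h.1 1 1 - h.1 0 1 * h.1 1 0) * hdg + hdh
  have k01 : (g * h * g⁻¹ * h⁻¹).1 0 1 =
      ((g.1 0 0 - 1) * h.1 0 1 + g.1 0 1 * (h.1 1 1 - 1) -
        ((h.1 0 0 - 1) * g.1 0 1 + h.1 0 1 * (g.1 1 1 - 1))) *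
        (g.1 1 0 * h.1 0 1 + g.1 0 0 * h.1 0 0) -
      (g.1 0 1 * h.1 1 0 - h.1 0 1 * g.1 1 0) *
        (g.1 1 1 * h.1 0 1 + g.1 0 1 * h.1 0 0) := by
    simp only [za_mul, i0, i1, i2, i3, j0, j1, j2, j3]
    ring
  have k10 : (g * h * g⁻¹ * h⁻¹).1 1 0 =
      (g.1 1 0 * (h.1 0 0 - 1) + (g.1 1 1 - 1) * h.1 1 0 -
        (h.1 1 0 * (g.1 0 0 - 1) + (h.1 1 1 - 1) * g.1 1 0)) *
        (g.1 1 1 * h.1 1 1 + g.1 0 1 * h.1 1 0) -
      (g.1 1 0 * h.1 0 1 - h.1 1 0 * g.1 0 1) *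
        (g.1 1 0 * h.1 1 1 + g.1 0 0 * h.1 1 0) := by
    simp only [za_mul, i0, i1, i2, i3, j0, j1, j2, j3]
    ring
  have k11 : (g * h * g⁻¹ * h⁻¹).1 1 1 - 1 =
      (g.1 1 0 * h.1 0 1 - h.1 1 0 * g.1 0 1) *
        (g.1 1 0 * h.1 0 1 + g.1 0 0 * h.1 0 0) -
      (g.1 1 0 * (h.1 0 0 - 1) + (g.1 1 1 - 1) * h.1 1 0 -
        (h.1 1 0 * (g.1 0 0 - 1) + (h.1 1 1 - 1) * g.1 1 0)) *
        (g.1 1 1 * h.1 0 1 + g.1 0 1 * h.1 0 0) := by
    simp only [za_mul, i0, i1, i2, i3, j0, j1, j2, j3]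
    linear_combination (h.1 0 0 * h.1 1 1 - h.1 0 1 * h.1 1 0) * hdg + hdh
  refine ⟨?_, ?_, ?_, ?_⟩
  · rw [k00]
    refine (za_sub (za_ab c00 d00) (za_ab c01 d10)).trans ?_
    linarith
  · rw [k01]
    refine (za_sub (za_ab c01 d11) (za_ab c00 d01)).trans ?_
    linarith
  · rw [k10]
    refine (za_sub (za_ab c10 d00) (za_ab c11 d10)).trans ?_
    linarith
  · rw [k11]
    refine (za_sub (za_ab c11 d11) (za_ab c10 d01)).trans ?_
    linarith

lemma cl_mono {m m' : ℝ} {g : X} (h : m ≤ m') (hg : Cl m g) : Cl m' g :=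
  ⟨hg.1.trans h, hg.2.1.trans h, hg.2.2.1.trans h, hg.2.2.2.trans h⟩

/-- the iterated commutators -/
def itc (g h : X) : ℕ → X
  | 0 => h
  | n + 1 => g * itc g h n * g⁻¹ * (itc g h n)⁻¹

lemma itc_cl {g h : X} (hg : Cl (1 / 128) g) (hh : Cl (1 / 128) h) (n : ℕ) :
    Cl (1 / 128 * (1 / 2) ^ n) (itc g h n) := by
  induction n with
  | zero =>
    rw [pow_zero, mul_one]
    exact hh
  | succ n ih =>
    have h1 : (1 / 2 : ℝ) ^ n ≤ 1 := pow_le_one₀ (by norm_num) (by norm_num)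
    have h2 : Cl (1 / 128) (itc g h n) := cl_mono (by linarith) ih
    have h3 := za_step hg h2 ih
    refine cl_mono (le_of_eq ?_) h3
    rw [pow_succ]
    ring

lemma itc_tendsto {g h : X} (hg : Cl (1 / 128) g) (hh : Cl (1 / 128) h) :
    Tendsto (itc g h) atTop (𝓝 1) := by
  have hlim : Tendsto (fun n : ℕ => (1 / 128 * (1 / 2) ^ n : ℝ)) atTop (𝓝 0) := by
    have := (tendsto_pow_atTop_nhds_zero_of_lt_one (r := (1 / 2 : ℝ)) (by norm_num)
      (by norm_num)).const_mul (1 / 128 : ℝ)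
    simpa using this
  refine (tendsto_subtype_rng (p := fun A : Matrix (Fin 2) (Fin 2) ℝ => A.det = 1)).2 ?_
  refine tendsto_pi_nhds.2 fun i => tendsto_pi_nhds.2 fun j => ?_
  rw [tendsto_iff_norm_sub_tendsto_zero]
  refine squeeze_zero (fun n => norm_nonneg _) (fun n => ?_) hlim
  obtain ⟨b0, b1, b2, b3⟩ := itc_cl hg hh n
  rw [Real.norm_eq_abs]
  fin_cases i <;> fin_cases j
  · simpa using b0
  · simpa using b1
  · simpa using b2
  · simpa using b3

lemma itc_mem {g h : X} {H : Subgroup X} (hg : g ∈ H) (hh : h ∈ H) (n : ℕ) : itc g h n ∈ H := by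
  induction n with
  | zero => exact hh
  | succ n ih => exact H.mul_mem (H.mul_mem (H.mul_mem hg ih) (H.inv_mem hg)) (H.inv_mem ih)

theorem zass : ∃ U : Set X, IsOpen U ∧ 1 ∈ U ∧ (∀ g ∈ U, tce g ≠ -2) ∧ ∀ H : Subgroup X,
    (∃ W ∈ 𝓝 (1 : X), ∀ h ∈ H, h ∈ W → h = 1) → (∀ h ∈ H, h ≠ 1 → tce h ≠ 2) →
    ∀ g ∈ H, ∀ h ∈ H, g ∈ U → h ∈ U → g * h = h * g := by
  refine ⟨{g : X | |g.1 0 0 - 1| < 1 / 128 ∧ |g.1 0 1| < 1 / 128 ∧ |g.1 1 0| < 1 / 128 ∧
    |g.1 1 1 - 1| < 1 / 128}, ?_, ?_, ?_, ?_⟩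
  · have hc : ∀ i j : Fin 2, Continuous fun g : X => g.1 i j := fun i j =>
      continuous_subtype_val.matrix_elem i j
    refine ((isOpen_lt ((hc 0 0).sub continuous_const).abs continuous_const).inter
      ((isOpen_lt (hc 0 1).abs continuous_const).inter
      ((isOpen_lt (hc 1 0).abs continuous_const).inter
      (isOpen_lt ((hc 1 1).sub continuous_const).abs continuous_const))))
  · simp
  · intro g hg h
    have h0 := (abs_lt.1 hg.1).1
    have h1 := (abs_lt.1 hg.2.2.2).1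
    rw [tce] at h
    linarith
  · intro H ⟨W, hW, hWH⟩ hP g hgH h hhH hgU hhU
    have hg : Cl (1 / 128) g := ⟨hgU.1.le, hgU.2.1.le, hgU.2.2.1.le, hgU.2.2.2.le⟩
    have hh : Cl (1 / 128) h := ⟨hhU.1.le, hhU.2.1.le, hhU.2.2.1.le, hhU.2.2.2.le⟩
    by_cases hg1 : g = 1
    · rw [hg1, one_mul, mul_one]
    have ht2 : tce g ≠ 2 := hP g hgH hg1
    have htm : tce g ≠ -2 := by
      intro h
      have h0 := (abs_lt.1 hgU.1).1
      have h1 := (abs_lt.1 hgU.2.2.2).1
      rw [tce] at h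
      linarith
    have hns := ns_of_tce ht2 htm
    obtain ⟨n, hn⟩ := ((itc_tendsto hg hh).eventually_mem hW).exists
    have hn1 : itc g h n = 1 := hWH _ (itc_mem hgH hhH n) hn
    have claim : ∀ k, itc g h (k + 1) * g = g * itc g h (k + 1) →
        itc g h k * g = g * itc g h k := by
      intro k hk
      have hdef : itc g h (k + 1) = g * itc g h k * g⁻¹ * (itc g h k)⁻¹ := rfl
      have hcl : Cl (1 / 128) (itc g h k) := by
        have h1 : (1 / 2 : ℝ) ^ k ≤ 1 := pow_le_one₀ (by norm_num) (by norm_num)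
        exact cl_mono (by linarith) (itc_cl hg hh k)
      generalize itc g h (k + 1) = z at hk hdef
      generalize itc g h k = x at hdef hcl ⊢
      have hy : x * g⁻¹ * x⁻¹ = g⁻¹ * z := by
        rw [hdef]
        group
      have hyc : (x * g⁻¹ * x⁻¹) * g = g * (x * g⁻¹ * x⁻¹) := by
        rw [hy, mul_assoc, hk]
        group
      have hyt : tce (x * g⁻¹ * x⁻¹) = tce g := by
        rw [tce_conj, tce_inv]
      rcases eq_or_inv_of_comm ht2 htm hyc hyt with h1 | h1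
      · exfalso
        have h2 : x * g = g⁻¹ * x := by
          have h3 : x * g⁻¹ = g * x := mul_inv_eq_iff_eq_mul.1 h1
          calc x * g = g⁻¹ * (g * x) * g := by group
            _ = g⁻¹ * (x * g⁻¹) * g := by rw [h3]
            _ = g⁻¹ * x := by group
        have h4 := tce_zero_of_swap hns h2
        have h5 := (abs_le.1 hcl.1).1
        have h6 := (abs_le.1 hcl.2.2.2).1
        rw [tce] at h4
        linarith
      · have h3 : x * g⁻¹ = g⁻¹ * x := by
          calc x * g⁻¹ = (x * g⁻¹ * x⁻¹) * x := by group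
            _ = g⁻¹ * x := by rw [h1]
        calc x * g = g * (g⁻¹ * x) * g := by group
          _ = g * (x * g⁻¹) * g := by rw [h3]
          _ = g * x := by group
    have hall : ∀ j, j ≤ n → itc g h (n - j) * g = g * itc g h (n - j) := by
      intro j
      induction j with
      | zero =>
        intro _
        rw [Nat.sub_zero, hn1, one_mul, mul_one]
      | succ j ih =>
        intro hj
        apply claim
        have : n - (j + 1) + 1 = n - j := by omega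
        rw [this]
        exact ih (by omega)
    have h0 := hall n le_rfl
    rw [Nat.sub_self] at h0
    exact h0.symm

end Pool.Teich
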